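import Pool.Agent.Lib.MPf08bf1.Atiyah

/-!
Automorphisms of `U(Γ)` given by characters, and independence of cosets.
-/

open scoped ENNReal Matrix

noncomputable section

namespace Pool.Agent.Lib.MPf08bf1

variable {G : Type} [Group G]

theorem memlp_diag (χ : G →* Circle) (f : L2 G) :
    Memℓp (fun x => (χ x : ℂ) * (f : G → ℂ) x) 2 := by
  have hf := lp.memℓp f
  rw [memℓp_gen_iff (by norm_num)] at hf ⊢
  convert hf using 2
  rw [norm_mul, Circle.norm_coe, one_mul]

/-- Multiplication by a character on `ℓ²(G)`. -/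
def diagLI (χ : G →* Circle) : L2 G →ₗᵢ[ℂ] L2 G where
  toFun f := ⟨fun x => (χ x : ℂ) * (f : G → ℂ) x, memlp_diag χ f⟩
  map_add' f g := by
    ext x
    exact mul_add _ _ _
  map_smul' c f := by
    ext x
    change (χ x : ℂ) * (c * (f : G → ℂ) x) = c * ((χ x : ℂ) * (f : G → ℂ) x)
    ring
  norm_map' f := by
    rw [lp.norm_eq_tsum_rpow (by norm_num), lp.norm_eq_tsum_rpow (by norm_num)]
    congr 1
    apply tsum_congr
    intro x
    change ‖(χ x : ℂ) * (f : G → ℂ) x‖ ^ _ = _
    rw [norm_mul, Circle.norm_coe, one_mul]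

/-- Multiplication by a character as a bounded operator. -/
def diag (χ : G →* Circle) : L2 G →L[ℂ] L2 G := (diagLI χ).toContinuousLinearMap

theorem diag_apply (χ : G →* Circle) (f : L2 G) (x : G) :
    (diag χ f : G → ℂ) x = (χ x : ℂ) * (f : G → ℂ) x := rfl

theorem diag_diag (χ χ' : G →* Circle) (f : L2 G) : diag χ (diag χ' f) = diag (χ * χ') f := by
  ext x
  rw [diag_apply, diag_apply, diag_apply, MonoidHom.mul_apply, Circle.coe_mul, mul_assoc]

theorem diag_inv_diag (χ : G →* Circle) (f : L2 G) : diag χ⁻¹ (diag χ f) = f := by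
  rw [diag_diag, inv_mul_cancel]
  ext x
  rw [diag_apply]
  simp

theorem diag_diag_inv (χ : G →* Circle) (f : L2 G) : diag χ (diag χ⁻¹ f) = f := by
  rw [diag_diag, mul_inv_cancel]
  ext x
  rw [diag_apply]
  simp

theorem diag_rightTrans (χ : G →* Circle) (g : G) (f : L2 G) :
    diag χ (rightTrans g f) = (χ g : ℂ) • rightTrans g (diag χ f) := by
  ext x
  change (χ x : ℂ) * (f : G → ℂ) (x * g⁻¹) = (χ g : ℂ) * ((χ (x * g⁻¹) : ℂ) * (f : G → ℂ) (x * g⁻¹))
  rw [map_mul, map_inv, Circle.coe_mul, Circle.coe_inv]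
  have : (χ g : ℂ) ≠ 0 := Circle.coe_ne_zero _
  field_simp

theorem conj_mem (χ : G →* Circle) (T : vN G) :
    (diag χ ∘L (T : L2 G →L[ℂ] L2 G) ∘L diag χ⁻¹) ∈ vN G := by
  rw [mem_vN_iff]
  intro g f
  change diag χ ((T : L2 G →L[ℂ] L2 G) (diag χ⁻¹ (rightTrans g f))) =
    rightTrans g (diag χ ((T : L2 G →L[ℂ] L2 G) (diag χ⁻¹ f)))
  rw [diag_rightTrans, map_smul, vN_comm, map_smul, diag_rightTrans, smul_smul]
  have : ((χ⁻¹ g : Circle) : ℂ) * (χ g : ℂ) = 1 := by
    rw [MonoidHom.inv_apply, Circle.coe_inv, inv_mul_cancel₀ (Circle.coe_ne_zero _)]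
  rw [this, one_smul]

/-- The automorphism of `N(G)` given by a character. -/
def alpha (χ : G →* Circle) : vN G →+* vN G where
  toFun T := ⟨diag χ ∘L (T : L2 G →L[ℂ] L2 G) ∘L diag χ⁻¹, conj_mem χ T⟩
  map_one' := by
    apply Subtype.ext
    ext1 f
    exact diag_diag_inv χ f
  map_mul' S T := by
    apply Subtype.ext
    ext1 f
    change diag χ ((S : L2 G →L[ℂ] L2 G) ((T : L2 G →L[ℂ] L2 G) (diag χ⁻¹ f))) =
      diag χ ((S : L2 G →L[ℂ] L2 G) (diag χ⁻¹ (diag χ ((T : L2 G →L[ℂ] L2 G) (diag χ⁻¹ f)))))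
    rw [diag_inv_diag]
  map_zero' := by
    apply Subtype.ext
    ext1 f
    change diag χ 0 = 0
    rw [map_zero]
  map_add' S T := by
    apply Subtype.ext
    ext1 f
    change diag χ ((S : L2 G →L[ℂ] L2 G) (diag χ⁻¹ f) + (T : L2 G →L[ℂ] L2 G) (diag χ⁻¹ f)) = _
    rw [map_add]
    rfl

theorem alpha_apply (χ : G →* Circle) (T : vN G) (f : L2 G) :
    ((alpha χ T : vN G) : L2 G →L[ℂ] L2 G) f = diag χ ((T : L2 G →L[ℂ] L2 G) (diag χ⁻¹ f)) := rfl

theorem alpha_alpha_inv (χ : G →* Circle) (T : vN G) : alpha χ (alpha χ⁻¹ T) = T := by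
  apply Subtype.ext
  ext1 f
  rw [alpha_apply, alpha_apply, diag_diag_inv, inv_inv, diag_diag_inv]

theorem alpha_inv_alpha (χ : G →* Circle) (T : vN G) : alpha χ⁻¹ (alpha χ T) = T := by
  have := alpha_alpha_inv χ⁻¹ T
  rwa [inv_inv] at this

theorem alpha_lam (χ : G →* Circle) (g : G) : alpha χ (lam G g) = (χ g : ℂ) • lam G g := by
  apply Subtype.ext
  ext1 f
  rw [alpha_apply]
  change diag χ (leftTrans g (diag χ⁻¹ f)) = (χ g : ℂ) • leftTrans g f
  ext x
  change (χ x : ℂ) * (((χ⁻¹ (g⁻¹ * x) : Circle) : ℂ) * (f : G → ℂ) (g⁻¹ * x)) =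
    (χ g : ℂ) * (f : G → ℂ) (g⁻¹ * x)
  rw [MonoidHom.inv_apply, Circle.coe_inv, map_mul, map_inv, Circle.coe_mul, Circle.coe_inv]
  have h1 : (χ g : ℂ) ≠ 0 := Circle.coe_ne_zero _
  have h2 : (χ x : ℂ) ≠ 0 := Circle.coe_ne_zero _
  field_simp

theorem alpha_algebraMap (χ : G →* Circle) (c : ℂ) :
    alpha χ (algebraMap ℂ (vN G) c) = algebraMap ℂ (vN G) c := by
  apply Subtype.ext
  ext1 f
  rw [alpha_apply]
  change diag χ (c • diag χ⁻¹ f) = c • f
  rw [map_smul, diag_diag_inv]

theorem alpha_nzd (χ : G →* Circle) {s : vN G} (hs : s ∈ nonZeroDivisors (vN G)) :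
    alpha χ s ∈ nonZeroDivisors (vN G) := by
  rw [mem_nonZeroDivisors_iff] at hs ⊢
  constructor
  · intro z hz
    have := congrArg (alpha χ⁻¹) hz
    rw [map_mul, alpha_inv_alpha, map_zero] at this
    have h2 := hs.1 _ this
    rw [← alpha_alpha_inv χ z, h2, map_zero]
  · intro z hz
    have := congrArg (alpha χ⁻¹) hz
    rw [map_mul, alpha_inv_alpha, map_zero] at this
    have h2 := hs.2 _ this
    rw [← alpha_alpha_inv χ z, h2, map_zero]

/-- The automorphism of `U(G)` given by a character. -/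
theorem exists_alphaU (χ : G →* Circle) :
    ∃ α : UG G →+* UG G, ∀ T, α (eta G T) = eta G (alpha χ T) := by
  let f : vN G →+* UG G := (eta G).comp (alpha χ)
  have hf : ∀ s : nonZeroDivisors (vN G), IsUnit ((f : vN G →* UG G).comp
      (nonZeroDivisors (vN G)).subtype s) := fun s => eta_isUnit (alpha_nzd χ s.2)
  let fS : nonZeroDivisors (vN G) →* (UG G)ˣ := IsUnit.liftRight _ hf
  let α : OreLocalization (nonZeroDivisors (vN G)) (vN G) →+* UG G :=
    OreLocalization.universalHom f fS (fun s => rfl)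
  refine ⟨α, ?_⟩
  intro T
  exact OreLocalization.universalHom_commutes (hf := fun s => rfl)

instance : Nontrivial (vN G) := by
  refine ⟨⟨0, 1, ?_⟩⟩
  intro h
  have h1 := congrArg (fun T : vN G => vnTr T) h
  simp only [vnTr_zero, vnTr_one] at h1
  exact zero_ne_one h1

instance : Nontrivial (UG G) := (eta_injective (G := G)).nontrivial

/-- Scalars in `U(G)`. -/
def kap (G : Type) [Group G] : ℂ →+* UG G := (eta G).comp (algebraMap ℂ (vN G))

/-- A character with values in the circle from a homomorphism to `ℤ`. -/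
def chiOf (z : Circle) (ψ : G →* Multiplicative ℤ) : G →* Circle :=
  (zpowersHom Circle z).comp ψ

theorem chiOf_apply (z : Circle) (ψ : G →* Multiplicative ℤ) (x : G) :
    chiOf z ψ x = z ^ (ψ x).toAdd := rfl

/-- Separation of the homogeneous components. -/
theorem homog_sep (ψ : G →* Multiplicative ℤ) {ι : Type} (s : Finset ι) (u : ι → UG G)
    (n : ι → ℤ)
    (hu : ∀ (z : Circle) (α : UG G →+* UG G), (∀ T, α (eta G T) = eta G (alpha (chiOf z ψ) T)) →
      ∀ i ∈ s, α (u i) = kap G ((z : ℂ) ^ n i) * u i)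
    (hsum : ∑ i ∈ s, u i = 0) (k : ℤ) : ∑ i ∈ s with n i = k, u i = 0 := by
  classical
  -- a circle element of infinite order
  obtain ⟨z, hz⟩ : ∃ z : Circle, Function.Injective (fun k : ℤ => (z : ℂ) ^ k) := by
    refine ⟨Circle.exp 1, ?_⟩
    intro a b hab
    simp only [← Circle.coe_zpow] at hab
    have h1 : Circle.exp 1 ^ a = Circle.exp 1 ^ b := Circle.coe_injective hab
    rw [← Circle.exp_intCast_mul, ← Circle.exp_intCast_mul] at h1
    obtain ⟨m, hm⟩ := Circle.exp_eq_exp.mp h1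
    by_cases hm0 : m = 0
    · rw [hm0] at hm
      simp only [mul_one, Int.cast_zero, zero_mul, add_zero] at hm
      exact_mod_cast hm
    · exfalso
      have h2 : Real.pi = ((a - b : ℤ) : ℝ) / ((2 * m : ℤ) : ℝ) := by
        have : ((2 * m : ℤ) : ℝ) ≠ 0 := by exact_mod_cast (by omega)
        rw [eq_div_iff this]
        push_cast
        linarith
      have h3 := irrational_pi
      apply h3
      refine ⟨((a - b : ℤ) : ℚ) / ((2 * m : ℤ) : ℚ), ?_⟩
      rw [h2]
      push_cast
      ring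
  obtain ⟨α, hα⟩ := exists_alphaU (chiOf z ψ)
  let _ : Module ℂ (UG G) := Module.compHom _ (kap G)
  have hsmul : ∀ (c : ℂ) (x : UG G), c • x = kap G c * x := fun c x => rfl
  let A : Module.End ℂ (UG G) :=
    { toFun := α
      map_add' := map_add α
      map_smul' := by
        intro c x
        rw [hsmul, map_mul, RingHom.id_apply, hsmul]
        congr 1
        change α (eta G _) = _
        rw [hα, alpha_algebraMap]
        rfl }
  let v : ℤ → UG G := fun k => ∑ i ∈ s with n i = k, u i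
  have hv : ∀ k, A (v k) = ((z : ℂ) ^ k) • v k := by
    intro k
    rw [map_sum, Finset.smul_sum]
    apply Finset.sum_congr rfl
    intro i hi
    obtain ⟨hi1, hi2⟩ := Finset.mem_filter.mp hi
    rw [hsmul, ← hi2]
    exact hu z α hα i hi1
  have htot : ∑ k ∈ s.image n, v k = 0 := by
    rw [← hsum]
    exact Finset.sum_fiberwise_of_maps_to (fun i hi => Finset.mem_image_of_mem n hi) u
  by_contra hne
  have hk : k ∈ s.image n := by
    by_contra hk
    apply hne
    apply Finset.sum_eq_zero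
    intro i hi
    obtain ⟨hi1, hi2⟩ := Finset.mem_filter.mp hi
    exact absurd (hi2 ▸ Finset.mem_image_of_mem n hi1) hk
  let S' := (s.image n).filter fun k => v k ≠ 0
  have hli : LinearIndependent ℂ (fun k : S' => v k) := by
    apply Module.End.eigenvectors_linearIndependent' A (fun k : S' => (z : ℂ) ^ (k : ℤ))
    · intro a b hab
      exact Subtype.ext (hz hab)
    · intro k
      refine ⟨?_, (Finset.mem_filter.mp k.2).2⟩
      rw [Module.End.mem_eigenspace_iff]
      exact hv k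
  have h0 : ∑ k : S', (1 : ℂ) • v k = 0 := by
    simp only [one_smul]
    rw [Finset.sum_coe_sort S' v]
    rw [← htot]
    apply Finset.sum_filter_ne_zero
  have := (Fintype.linearIndependent_iff.mp hli) (fun _ => 1) h0 ⟨k, Finset.mem_filter.mpr ⟨hk, hne⟩⟩
  exact one_ne_zero this

end Pool.Agent.Lib.MPf08bf1
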