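import Pool.Agent.Lib.MPf08bf1.Compat

/-!
The Atiyah conjecture as stated in the problem, and integrality of ranks.
-/

open scoped ENNReal InnerProductSpace ComplexConjugate Matrix Topology

noncomputable section

namespace Pool.Agent.Lib.MPf08bf1

variable {G : Type} [Group G]

theorem rowMul_apply {I J : Type} [Fintype I] [Fintype J] (A : Matrix I J (MonoidAlgebra ℤ G))
    (f : HS G I) (j : J) : (rowMul A f) j = ∑ i, rightMul (A i j) (f i) := by
  simp [rowMul]

/-- Inversion on `ℓ²(G)`. -/
def invL2 : L2 G →L[ℂ] L2 G := permL2 (Equiv.inv G)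

theorem invL2_invL2 (f : L2 G) : invL2 (invL2 f) = f := by
  ext x
  simp [invL2]

theorem invL2_inner (f g : L2 G) : ⟪invL2 f, g⟫_ℂ = ⟪f, invL2 g⟫_ℂ := by
  unfold invL2
  rw [inner_perm]
  rfl

theorem invL2_dl : invL2 (dl (1 : G)) = dl 1 := by
  unfold invL2
  rw [permL2_dl]
  simp

theorem invL2_rightTrans (g : G) (f : L2 G) :
    invL2 (rightTrans g f) = leftTrans g⁻¹ (invL2 f) := by
  ext x
  simp [invL2, rightTrans, leftTrans]

theorem star_zmap_single (g : G) (n : ℤ) :
    ((star (zmap G (MonoidAlgebra.single g n)) : vN G) : L2 G →L[ℂ] L2 G) =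
      (n : ℂ) • leftTrans g⁻¹ := by
  rw [zmap_single, star_zsmul, leftTrans_adjoint, ← Int.cast_smul_eq_zsmul ℂ]
  rfl

theorem rightMul_add (a b : MonoidAlgebra ℤ G) : rightMul (a + b) = rightMul a + rightMul b := by
  unfold rightMul
  rw [MonoidAlgebra.coeff_add, Finsupp.sum_add_index']
  · intro g; simp
  · intro g m n; push_cast; rw [add_smul]

theorem invL2_rightMul (a : MonoidAlgebra ℤ G) (f : L2 G) :
    invL2 (rightMul a f) = ((star (zmap G a) : vN G) : L2 G →L[ℂ] L2 G) (invL2 f) := by
  induction a using MonoidAlgebra.induction_linear with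
  | zero =>
    have h : rightMul (0 : MonoidAlgebra ℤ G) = 0 := by
      unfold rightMul; simp
    rw [h, map_zero, star_zero]
    simp
  | add a b ha hb =>
    rw [rightMul_add, map_add, star_add]
    change invL2 (rightMul a f + rightMul b f) =
      ((star (zmap G a) : vN G) : L2 G →L[ℂ] L2 G) (invL2 f) +
      ((star (zmap G b) : vN G) : L2 G →L[ℂ] L2 G) (invL2 f)
    rw [map_add, ha, hb]
  | single g n =>
    rw [star_zmap_single]
    have h : rightMul (MonoidAlgebra.single g n) = (n : ℂ) • rightTrans g := by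
      unfold rightMul
      rw [MonoidAlgebra.coeff_single, Finsupp.sum_single_index (by simp)]
    rw [h]
    change invL2 ((n : ℂ) • rightTrans g f) = (n : ℂ) • leftTrans g⁻¹ (invL2 f)
    rw [map_smul, invL2_rightTrans]

/-- Coordinatewise inversion. -/
def invHS {I : Type} [Fintype I] (f : HS G I) : HS G I :=
  WithLp.toLp 2 (fun i => invL2 (f i))

theorem invHS_apply {I : Type} [Fintype I] (f : HS G I) (i : I) : (invHS f) i = invL2 (f i) := rfl

theorem invHS_invHS {I : Type} [Fintype I] (f : HS G I) : invHS (invHS f) = f := by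
  apply PiLp.ext
  intro i
  rw [invHS_apply, invHS_apply, invL2_invL2]

theorem invHS_inner {I : Type} [Fintype I] (f g : HS G I) : ⟪invHS f, g⟫_ℂ = ⟪f, invHS g⟫_ℂ := by
  rw [inner_HS, inner_HS]
  exact Finset.sum_congr rfl fun i _ => invL2_inner _ _

theorem invHS_sub {I : Type} [Fintype I] (f g : HS G I) : invHS (f - g) = invHS f - invHS g := by
  apply PiLp.ext
  intro i
  rw [PiLp.sub_apply, invHS_apply, invHS_apply, invHS_apply, PiLp.sub_apply, map_sub]

theorem invHS_inc {I : Type} [Fintype I] [DecidableEq I] (i : I) :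
    invHS (inc i (dl (1 : G))) = inc i (dl 1) := by
  apply PiLp.ext
  intro j
  rw [invHS_apply, inc_apply]
  split_ifs
  · exact invL2_dl
  · rw [map_zero]

theorem invHS_rowMul {I J : Type} [Fintype I] [Fintype J] (A : Matrix I J (MonoidAlgebra ℤ G))
    (f : HS G I) : invHS (rowMul A f) = toOp (A.map (zmap G))ᴴ (invHS f) := by
  apply PiLp.ext
  intro j
  rw [invHS_apply, rowMul_apply, toOp_apply, map_sum]
  apply Finset.sum_congr rfl
  intro i _
  rw [invL2_rightMul, invHS_apply, Matrix.conjTranspose_apply, Matrix.map_apply]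

theorem ker_rowMul_iff {I J : Type} [Fintype I] [Fintype J]
    (A : Matrix I J (MonoidAlgebra ℤ G)) (f : HS G I) :
    rowMul A f = 0 ↔ toOp (A.map (zmap G))ᴴ (invHS f) = 0 := by
  rw [← invHS_rowMul]
  constructor
  · intro h
    rw [h]
    apply PiLp.ext
    intro i
    rw [invHS_apply]
    change invL2 0 = 0
    rw [map_zero]
  · intro h
    rw [← invHS_invHS (rowMul A f), h]
    apply PiLp.ext
    intro i
    rw [invHS_apply]
    change invL2 0 = 0
    rw [map_zero]

theorem vnKerDim_eq {I J : Type} [Fintype I] [DecidableEq I] [Fintype J]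
    (A : Matrix I J (MonoidAlgebra ℤ G)) :
    vnKerDim A = Fintype.card I - vrk (A.map (zmap G)) := by
  rw [← rtr_one_sub_LP]
  unfold vnKerDim rtr
  rw [mtr_eq_inner, Complex.re_sum]
  apply Finset.sum_congr rfl
  intro i _
  have key : (LinearMap.ker (rowMul A : HS G I →ₗ[ℂ] HS G J)).starProjection (inc i (dl 1)) =
      invHS (toOp (1 - LP (A.map (zmap G))) (inc i (dl 1))) := by
    apply Submodule.eq_starProjection_of_mem_of_inner_eq_zero
    · change rowMul A _ = 0
      rw [ker_rowMul_iff, invHS_invHS]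
      have h1 : toOp (A.map (zmap G))ᴴ (toOp (1 - LP (A.map (zmap G))) (inc i (dl 1))) =
          toOp ((A.map (zmap G))ᴴ * (1 - LP (A.map (zmap G)))) (inc i (dl 1)) := by
        rw [toOp_mul]; rfl
      rw [h1]
      have h2 := congrArg Matrix.conjTranspose (one_sub_LP_mul (A.map (zmap G)))
      rw [Matrix.conjTranspose_mul, (LP_isProj _).one_sub.1, Matrix.conjTranspose_zero] at h2
      rw [h2, toOp_zero]
      rfl
    · intro w hw
      have hw' : toOp (A.map (zmap G))ᴴ (invHS w) = 0 := (ker_rowMul_iff A w).mp hw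
      have h3 : inc i (dl 1) - invHS (toOp (1 - LP (A.map (zmap G))) (inc i (dl 1))) =
          invHS (toOp (LP (A.map (zmap G))) (inc i (dl 1))) := by
        rw [toOp_sub, toOp_one]
        change inc i (dl 1) - invHS (inc i (dl 1) - toOp (LP (A.map (zmap G))) (inc i (dl 1))) = _
        rw [invHS_sub, invHS_inc]
        abel
      rw [h3, invHS_inner, toOp_LP]
      have h4 : invHS w ∈ (crng (A.map (zmap G)))ᗮ := by
        have h5 := crng_conj ((A.map (zmap G))ᴴ)
        rw [Matrix.conjTranspose_conjTranspose] at h5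
        rw [h5]
        exact Submodule.le_orthogonal_orthogonal _ hw'
      exact (Submodule.mem_orthogonal _ _).mp h4 _ (Submodule.starProjection_apply_mem _ _)
  rw [key, ← invHS_inner, invHS_inc]

theorem vrk_int_of_atiyah (h : AtiyahConj G) {I J : Type} [Fintype I] [Fintype J]
    (A : Matrix I J (MonoidAlgebra ℤ G)) : ∃ k : ℕ, vrk (A.map (zmap G)) = k := by
  classical
  obtain ⟨k, hk⟩ := h (Fintype.card I) (Fintype.card J)
    (A.submatrix (Fintype.equivFin I).symm (Fintype.equivFin J).symm)
  rw [vnKerDim_eq, Fintype.card_fin] at hk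
  have h1 : vrk ((A.submatrix (Fintype.equivFin I).symm (Fintype.equivFin J).symm).map (zmap G)) =
      vrk (A.map (zmap G)) := by
    have : (A.submatrix (Fintype.equivFin I).symm (Fintype.equivFin J).symm).map (zmap G) =
      (A.map (zmap G)).submatrix (Fintype.equivFin I).symm (Fintype.equivFin J).symm := rfl
    rw [this, vrk_submatrix_equiv]
  rw [h1] at hk
  have h2 : vrk (A.map (zmap G)) = (((Fintype.card I : ℤ) - k : ℤ) : ℝ) := by
    push_cast
    linarith
  have h3 := vrk_nonneg (A.map (zmap G))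
  rw [h2] at h3 ⊢
  have h4 : (0 : ℤ) ≤ (Fintype.card I : ℤ) - k := by exact_mod_cast h3
  obtain ⟨n, hn⟩ := Int.eq_ofNat_of_zero_le h4
  exact ⟨n, by rw [hn]; simp⟩

theorem rkInt_of_atiyah (h : AtiyahConj G) : RkInt (zmap G) := fun _ _ A =>
  vrk_int_of_atiyah h A

theorem rkInt_sub {H : Type} [Group H] (h : AtiyahConj G) (f : H →* G)
    (hf : Function.Injective f) : RkInt (zmap H) := fun _ _ A => by
  rw [vrk_map f hf]
  exact vrk_int_of_atiyah h _

end Pool.Agent.Lib.MPf08bf1
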