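import Pool.Agent.Lib.MPf08bf1.Compare

/-!
The bar resolution.
-/

open scoped ENNReal Matrix

noncomputable section

namespace Pool.Agent.Lib.MPf08bf1

section
variable {K : Type} [Group K]

theorem barD_single {S : Type} [Ring S] (u : K →* S) (n : ℕ) (g : Fin (n + 1) → K) (s : S) :
    barD u n (Finsupp.single g s) = Finsupp.single (fun i : Fin n => g i.succ) (s * u (g 0)) +
      ∑ j : Fin (n + 1), ((-1 : ℤ) ^ (j.1 + 1)) • Finsupp.single (Fin.contractNth j (· * ·) g) s := by
  unfold barD
  rw [Finsupp.linearCombination_single, smul_add, Finset.smul_sum, Finsupp.smul_single, smul_eq_mul]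
  congr 1
  apply Finset.sum_congr rfl
  intro j _
  rw [smul_comm, Finsupp.smul_single, smul_eq_mul, mul_one]

theorem extS_barD {S T : Type} [Ring S] [Ring T] (u : K →* S) (ρ : S →+* T) (n : ℕ) :
    extS ρ (barD u n) = barD ((ρ : S →* T).comp u) n := by
  apply Finsupp.lhom_ext
  intro g t
  rw [extS_single, barD_single, barD_single, map_add, mr_single, map_sum, one_mul, smul_add,
    Finsupp.smul_single, smul_eq_mul, Finset.smul_sum]
  congr 1
  apply Finset.sum_congr rfl
  intro j _
  rw [map_zsmul, mr_single, map_one, smul_comm, Finsupp.smul_single, smul_eq_mul, mul_one]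

/-- The trivial module `ℤ`. -/
def TrivZ (_K : Type) : Type := ℤ

instance (K : Type) : AddCommGroup (TrivZ K) := inferInstanceAs (AddCommGroup ℤ)

/-- The augmentation. -/
def augZ (K : Type) [Group K] : MonoidAlgebra ℤ K →+* ℤ :=
  (MonoidAlgebra.lift ℤ ℤ K 1).toRingHom

theorem augZ_single (k : K) (n : ℤ) : augZ K (MonoidAlgebra.single k n) = n := by
  unfold augZ
  change MonoidAlgebra.lift ℤ ℤ K 1 (MonoidAlgebra.single k n) = n
  rw [MonoidAlgebra.lift_single]
  simp

instance : Module (MonoidAlgebra ℤ K) (TrivZ K) := Module.compHom ℤ (augZ K)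

theorem trivZ_smul (r : MonoidAlgebra ℤ K) (z : ℤ) :
    r • (show TrivZ K from z) = (show TrivZ K from augZ K r * z) := rfl

theorem addHom_ext2 {X : Type} {A : Type} [AddCommGroup A]
    {f g : (X →₀ MonoidAlgebra ℤ K) →+ A}
    (h : ∀ x k c, f (Finsupp.single x (MonoidAlgebra.single k c)) =
      g (Finsupp.single x (MonoidAlgebra.single k c))) : f = g := by
  apply Finsupp.addHom_ext'
  intro x
  apply MonoidAlgebra.addMonoidHom_ext
  intro k c
  exact h x k c

/-- The contracting homotopy. -/
def barS (K : Type) [Group K] (n : ℕ) : ((Fin n → K) →₀ MonoidAlgebra ℤ K) →+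
    ((Fin (n + 1) → K) →₀ MonoidAlgebra ℤ K) :=
  Finsupp.liftAddHom fun g =>
    (Finsupp.liftAddHom fun k => (Finsupp.singleAddHom (Fin.cons k g : Fin (n + 1) → K)).comp
      (MonoidAlgebra.singleAddHom (R := ℤ) (1 : K))).comp
        (MonoidAlgebra.coeffAddEquiv (R := ℤ) (M := K)).toAddMonoidHom

theorem barS_single (n : ℕ) (g : Fin n → K) (k : K) (c : ℤ) :
    barS K n (Finsupp.single g (MonoidAlgebra.single k c)) =
      Finsupp.single (Fin.cons k g : Fin (n + 1) → K) (MonoidAlgebra.single 1 c) := by
  unfold barS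
  rw [Finsupp.liftAddHom_apply_single]
  change (Finsupp.liftAddHom _) ((MonoidAlgebra.single k c).coeff) = _
  rw [MonoidAlgebra.coeff_single, Finsupp.liftAddHom_apply_single]
  rfl

/-- The last contraction. -/
def barS0 (K : Type) [Group K] : ℤ →+ ((Fin 0 → K) →₀ MonoidAlgebra ℤ K) :=
  (Finsupp.singleAddHom (default : Fin 0 → K)).comp (MonoidAlgebra.singleAddHom (R := ℤ) (1 : K))

/-- The augmentation of the bar resolution. -/
def barE (K : Type) [Group K] : ((Fin 0 → K) →₀ MonoidAlgebra ℤ K) →ₗ[MonoidAlgebra ℤ K] TrivZ K :=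
  Finsupp.linearCombination _ fun _ => (show TrivZ K from (1 : ℤ))

theorem barE_single (g : Fin 0 → K) (k : K) (c : ℤ) :
    barE K (Finsupp.single g (MonoidAlgebra.single k c)) = (show TrivZ K from c) := by
  unfold barE
  rw [Finsupp.linearCombination_single, trivZ_smul, augZ_single, mul_one]

theorem contractNth_cons_zero {n : ℕ} (k : K) (g : Fin (n + 1) → K) :
    Fin.contractNth 0 (· * ·) (Fin.cons k g : Fin (n + 2) → K) =
      (Fin.cons (k * g 0) (fun i : Fin n => g i.succ) : Fin (n + 1) → K) := by
  ext i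
  refine Fin.cases ?_ (fun i => ?_) i
  · rw [Fin.contractNth_apply_of_eq _ _ _ _ rfl]
    rfl
  · rw [Fin.contractNth_apply_of_gt _ _ _ _ (by simp)]
    rfl

theorem contractNth_cons_succ {n : ℕ} (k : K) (g : Fin (n + 1) → K) (j : Fin (n + 1)) :
    Fin.contractNth j.succ (· * ·) (Fin.cons k g : Fin (n + 2) → K) =
      (Fin.cons k (Fin.contractNth j (· * ·) g) : Fin (n + 1) → K) := by
  ext i
  refine Fin.cases ?_ (fun i => ?_) i
  · rw [Fin.contractNth_apply_of_lt _ _ _ _ (by simp)]
    rfl
  · rw [Fin.cons_succ]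
    rcases lt_trichotomy i.1 j.1 with h | h | h
    · rw [Fin.contractNth_apply_of_lt _ _ _ _ (by simpa using h),
        Fin.contractNth_apply_of_lt _ _ _ _ h]
      rfl
    · rw [Fin.contractNth_apply_of_eq _ _ _ _ (by simpa using h),
        Fin.contractNth_apply_of_eq _ _ _ _ h]
      rfl
    · rw [Fin.contractNth_apply_of_gt _ _ _ _ (by simpa using h),
        Fin.contractNth_apply_of_gt _ _ _ _ h]
      rfl

/-- The differential of the bar resolution. -/
abbrev barR (K : Type) [Group K] (n : ℕ) := barD (MonoidAlgebra.of ℤ K) n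

theorem of_mul_single (k g : K) (c : ℤ) :
    MonoidAlgebra.single k c * MonoidAlgebra.of ℤ K g = MonoidAlgebra.single (k * g) c := by
  rw [MonoidAlgebra.of_apply, MonoidAlgebra.single_mul_single, mul_one]

theorem bar_htpy (n : ℕ) (w : (Fin (n + 1) → K) →₀ MonoidAlgebra ℤ K) :
    barR K (n + 1) (barS K (n + 1) w) + barS K n (barR K n w) = w := by
  have h : ((barR K (n + 1)).toAddMonoidHom.comp (barS K (n + 1)) +
      (barS K n).comp (barR K n).toAddMonoidHom) = AddMonoidHom.id _ := by
    apply addHom_ext2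
    intro g k c
    change barR K (n + 1) (barS K (n + 1) (Finsupp.single g (MonoidAlgebra.single k c))) +
      barS K n (barR K n (Finsupp.single g (MonoidAlgebra.single k c))) =
        Finsupp.single g (MonoidAlgebra.single k c)
    rw [barS_single, barD_single, barD_single, Fin.sum_univ_succ, contractNth_cons_zero,
      of_mul_single, Fin.cons_zero, of_mul_single, one_mul, map_add, barS_single, map_sum]
    have h1 : ∀ j : Fin (n + 1), ((-1 : ℤ) ^ ((j.succ : Fin (n + 2)).1 + 1)) •
        Finsupp.single (Fin.contractNth j.succ (· * ·) (Fin.cons k g : Fin (n + 2) → K))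
          (MonoidAlgebra.single (1 : K) c) =
        - (barS K n) (((-1 : ℤ) ^ (j.1 + 1)) • Finsupp.single (Fin.contractNth j (· * ·) g)
          (MonoidAlgebra.single k c)) := by
      intro j
      rw [contractNth_cons_succ, map_zsmul, barS_single, ← neg_smul]
      congr 1
      rw [Fin.val_succ]
      ring
    rw [Finset.sum_congr rfl (fun j _ => h1 j), Finset.sum_neg_distrib]
    have h2 : (fun i : Fin (n + 1) => (Fin.cons k g : Fin (n + 2) → K) i.succ) = g := by
      ext i
      rfl
    rw [h2]
    simp only [Fin.val_zero, zero_add, pow_one, neg_smul, one_smul]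
    abel
  exact DFunLike.congr_fun h w

theorem bar_htpy0 (w : (Fin 0 → K) →₀ MonoidAlgebra ℤ K) :
    barR K 0 (barS K 0 w) + barS0 K (barE K w) = w := by
  have h : ((barR K 0).toAddMonoidHom.comp (barS K 0) +
      (barS0 K).comp ((barE K).toAddMonoidHom : _ →+ ℤ)) = AddMonoidHom.id _ := by
    apply addHom_ext2
    intro g k c
    change barR K 0 (barS K 0 (Finsupp.single g (MonoidAlgebra.single k c))) +
      barS0 K (barE K (Finsupp.single g (MonoidAlgebra.single k c))) =
        Finsupp.single g (MonoidAlgebra.single k c)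
    rw [barS_single, barD_single, barE_single, of_mul_single, Fin.sum_univ_succ,
      Finset.univ_eq_empty, Finset.sum_empty, add_zero]
    have h1 : ∀ f : Fin 0 → K, f = g := fun f => Subsingleton.elim _ _
    rw [h1 (fun i : Fin 0 => (Fin.cons k g : Fin 1 → K) i.succ)]
    rw [h1 (Fin.contractNth 0 (· * ·) (Fin.cons k g : Fin 1 → K))]
    change _ + Finsupp.single (default : Fin 0 → K) (MonoidAlgebra.single (1 : K) c) = _
    rw [h1 default]
    simp
  exact DFunLike.congr_fun h w

theorem barE_comp (w : (Fin 1 → K) →₀ MonoidAlgebra ℤ K) : barE K (barR K 0 w) = 0 := by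
  have h : ((barE K).toAddMonoidHom : _ →+ ℤ).comp (barR K 0).toAddMonoidHom = 0 := by
    apply addHom_ext2
    intro g k c
    change barE K (barR K 0 (Finsupp.single g (MonoidAlgebra.single k c))) = 0
    rw [barD_single, of_mul_single, Fin.sum_univ_succ, Finset.univ_eq_empty, Finset.sum_empty,
      add_zero, map_add, map_zsmul, barE_single, barE_single]
    change (c : ℤ) + ((-1 : ℤ) ^ (0 + 1)) • c = 0
    simp
  exact DFunLike.congr_fun h w

theorem single_eq_smul_barS (n : ℕ) (g : Fin (n + 1) → K) (r : MonoidAlgebra ℤ K) :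
    Finsupp.single g r = r • barS K n (Finsupp.single (fun i : Fin n => g i.succ)
      (MonoidAlgebra.single (g 0) 1)) := by
  rw [barS_single, Finsupp.smul_single, smul_eq_mul]
  congr 1
  · exact (Fin.cons_self_tail g).symm
  · rw [← MonoidAlgebra.one_def, mul_one]

theorem bar_dd (n : ℕ) (w : (Fin (n + 2) → K) →₀ MonoidAlgebra ℤ K) :
    barR K n (barR K (n + 1) w) = 0 := by
  induction n with
  | zero =>
    induction w using Finsupp.induction_linear with
    | zero => simp
    | add a b ha hb => rw [map_add, map_add, ha, hb, add_zero]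
    | single g r =>
      rw [single_eq_smul_barS, map_smul, map_smul]
      set y := Finsupp.single (fun i : Fin 1 => g i.succ) (MonoidAlgebra.single (g 0) (1 : ℤ))
      have h1 := bar_htpy 0 y
      have h2 := bar_htpy0 (barR K 0 y)
      rw [barE_comp] at h2
      change _ + (barS0 K) (0 : ℤ) = _ at h2
      rw [map_zero, add_zero] at h2
      have h3 : barR K 1 (barS K 1 y) = y - barS K 0 (barR K 0 y) := eq_sub_of_add_eq h1
      rw [h3, map_sub, h2, sub_self, smul_zero]
  | succ n ih =>
    induction w using Finsupp.induction_linear with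
    | zero => simp
    | add a b ha hb => rw [map_add, map_add, ha, hb, add_zero]
    | single g r =>
      rw [single_eq_smul_barS, map_smul, map_smul]
      set y := Finsupp.single (fun i : Fin (n + 1 + 1) => g i.succ)
        (MonoidAlgebra.single (g 0) (1 : ℤ))
      have h1 := bar_htpy (n + 1) y
      have h2 := bar_htpy n (barR K (n + 1) y)
      rw [ih, map_zero, add_zero] at h2
      have h3 : barR K (n + 2) (barS K (n + 2) y) = y - barS K (n + 1) (barR K (n + 1) y) :=
        eq_sub_of_add_eq h1
      rw [h3, map_sub, h2, sub_self, smul_zero]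

/-- The bar resolution. -/
def barRes (K : Type) [Group K] : BRes (MonoidAlgebra ℤ K) (TrivZ K) where
  X n := Fin n → K
  d n := barR K n
  ε := barE K
  surj z := ⟨barS0 K z, barE_single _ _ _⟩
  exact0 w := by
    constructor
    · intro h
      refine ⟨barS K 0 w, ?_⟩
      have h1 := bar_htpy0 w
      rw [h] at h1
      change _ + (barS0 K) (0 : ℤ) = _ at h1
      rwa [map_zero, add_zero] at h1
    · rintro ⟨v, rfl⟩
      exact barE_comp v
  exact n w := by
    constructor
    · intro h
      refine ⟨barS K (n + 1) w, ?_⟩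
      have h1 := bar_htpy n w
      rwa [h, map_zero, add_zero] at h1
    · rintro ⟨v, rfl⟩
      exact bar_dd n v

end

theorem zmap_comp_of (K : Type) [Group K] :
    ((zmap K : MonoidAlgebra ℤ K →+* vN K) : MonoidAlgebra ℤ K →* vN K).comp
      (MonoidAlgebra.of ℤ K) = lam K := by
  ext1 k
  change zmap K (MonoidAlgebra.of ℤ K k) = _
  rw [MonoidAlgebra.of_apply, zmap_single, one_smul]

theorem l2Betti_eq (K : Type) [Group K] (n : ℕ) :
    l2Betti K n = vnDim K (HomQ (extS (zmap K) ((barRes K).d n))
      (extS (zmap K) ((barRes K).P n))) := by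
  unfold l2Betti
  have h1 : barB K n = LinearMap.range (extS (zmap K) ((barRes K).d n)) := by
    change _ = LinearMap.range (extS (zmap K) (barD (MonoidAlgebra.of ℤ K) n))
    rw [extS_barD, zmap_comp_of]
    rfl
  have h2 : barZ K n = LinearMap.ker (extS (zmap K) ((barRes K).P n)) := by
    cases n with
    | zero =>
      change ⊤ = LinearMap.ker (extS (zmap K) (0 : _ →ₗ[MonoidAlgebra ℤ K]
        (Empty →₀ MonoidAlgebra ℤ K)))
      rw [extS_zero, LinearMap.ker_zero]
    | succ n =>
      change LinearMap.ker _ = LinearMap.ker (extS (zmap K) (barD (MonoidAlgebra.of ℤ K) n))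
      rw [extS_barD, zmap_comp_of]
  rw [h1, h2]
  rfl

end Pool.Agent.Lib.MPf08bf1
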