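import Pool.Agent.Lib.MPf08bf1.Bar

/-!
Comparison of the definitions of `Stmt.lean` with the working definitions.
-/

open scoped ENNReal InnerProductSpace ComplexConjugate Matrix

noncomputable section

namespace Pool.Agent.Lib.MPf08bf1

section Dim
variable {R S : Type} [Ring R] [Ring S]

theorem extDim_le (e : R ≃+* S) (trR : R → ℝ) (trS : S → ℝ) (htr : ∀ a, trS (e a) = trR a)
    {M N : Type} [AddCommGroup M] [Module R M] [AddCommGroup N] [Module S N]
    (θ : M →ₛₗ[(e : R →+* S)] N) (hθ : Function.Injective θ) :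
    Stmt.extDim trR M ≤ Stmt.extDim trS N := by
  unfold Stmt.extDim
  refine iSup_le fun m => iSup_le fun E => iSup_le fun hE => iSup_le fun hf => ?_
  obtain ⟨f, hf⟩ := hf
  let E' : Matrix (Fin m) (Fin m) S := E.map e
  have hE' : E' * E' = E' := by
    change E.map e * E.map e = E.map e
    rw [← Matrix.map_mul, hE]
  have hκ : ∀ p : Fin m → S, p ∈ Stmt.projMod E' → (fun i => e.symm (p i)) ∈ Stmt.projMod E := by
    rintro _ ⟨v, rfl⟩
    refine ⟨fun i => e.symm (v i), ?_⟩
    funext j
    change ∑ i, e.symm (v i) * E i j = e.symm (∑ i, v i * e (E i j))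
    rw [map_sum]
    apply Finset.sum_congr rfl
    intro i _
    rw [map_mul, RingEquiv.symm_apply_apply]
  let f' : Stmt.projMod E' →ₗ[S] N :=
    { toFun := fun p => θ (f ⟨fun i => e.symm (p.1 i), hκ p.1 p.2⟩)
      map_add' := by
        intro p q
        rw [← map_add, ← map_add]
        congr 2
        apply Subtype.ext
        funext i
        exact map_add e.symm _ _
      map_smul' := by
        intro s p
        have h1 : (⟨fun i => e.symm ((s • p).1 i), hκ (s • p).1 (s • p).2⟩ : Stmt.projMod E) =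
            e.symm s • ⟨fun i => e.symm (p.1 i), hκ p.1 p.2⟩ := by
          apply Subtype.ext
          funext i
          exact map_mul e.symm _ _
        rw [h1, map_smul, LinearMap.map_smulₛₗ]
        congr 1
        exact e.apply_symm_apply s }
  have hf' : Function.Injective f' := by
    intro p q hpq
    have h1 := hf (hθ hpq)
    apply Subtype.ext
    funext i
    have h2 := congrFun (congrArg Subtype.val h1) i
    exact e.symm.injective h2
  have h1 : (∑ i, trR (E i i)) = ∑ i, trS (E' i i) := by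
    apply Finset.sum_congr rfl
    intro i _
    exact (htr _).symm
  rw [h1]
  exact le_iSup_of_le m (le_iSup_of_le E' (le_iSup_of_le hE' (le_iSup_of_le ⟨f', hf'⟩ le_rfl)))

variable {K : Type} [Group K]

/-- Change of coefficients. -/
def chg (e : R ≃+* S) (X : Type) : (X →₀ R) →ₛₗ[(e : R →+* S)] (X →₀ S) where
  toFun v := v.mapRange e (map_zero e)
  map_add' v w := Finsupp.mapRange_add (map_add e) v w
  map_smul' r v := by
    ext x
    exact map_mul e r (v x)

theorem chg_single (e : R ≃+* S) {X : Type} (x : X) (r : R) :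
    chg e X (Finsupp.single x r) = Finsupp.single x (e r) :=
  Finsupp.mapRange_single (hf := map_zero e)

theorem exists_inj_HZ' (e : R ≃+* S) {M N : Type} [AddCommGroup M] [Module R M] [AddCommGroup N]
    [Module S N] (Z B : Submodule R M) (Z' B' : Submodule S N) (φ : M →ₛₗ[(e : R →+* S)] N)
    (hZ : ∀ z ∈ Z, φ z ∈ Z') (hB : ∀ z, z ∈ B ↔ φ z ∈ B') :
    ∃ θ : Stmt.HZ Z B →ₛₗ[(e : R →+* S)] Stmt.HZ Z' B', Function.Injective θ := by
  let g : ↥Z →ₛₗ[(e : R →+* S)] ↥Z' :=
    { toFun := fun z => ⟨φ z.1, hZ z.1 z.2⟩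
      map_add' := fun z w => Subtype.ext (map_add φ z.1 w.1)
      map_smul' := fun r z => Subtype.ext (LinearMap.map_smulₛₗ φ r z.1) }
  refine ⟨Submodule.mapQ _ _ g (fun z hz => (hB z.1).mp hz), ?_⟩
  rw [injective_iff_map_eq_zero]
  intro a ha
  obtain ⟨z, rfl⟩ := Submodule.mkQ_surjective _ a
  rw [Submodule.mkQ_apply, Submodule.mapQ_apply, Submodule.Quotient.mk_eq_zero] at ha
  rw [Submodule.mkQ_apply, Submodule.Quotient.mk_eq_zero]
  exact (hB z.1).mpr ha

theorem chg_inj (e : R ≃+* S) (X : Type) : Function.Injective (chg e X) :=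
  Finsupp.mapRange_injective e (map_zero e) e.injective

theorem chg_surj (e : R ≃+* S) (X : Type) : Function.Surjective (chg e X) :=
  Finsupp.mapRange_surjective e (map_zero e) e.surjective

theorem chg_barD (e : R ≃+* S) (u : K →* R) (u' : K →* S) (hu : ∀ k, e (u k) = u' k) (n : ℕ)
    (w : (Fin (n + 1) → K) →₀ R) :
    chg e _ (Stmt.barD u n w) = Stmt.barD u' n (chg e _ w) := by
  induction w using Finsupp.induction_linear with
  | zero => simp
  | add a b ha hb => rw [map_add, map_add, map_add, map_add, ha, hb]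
  | single g r =>
    have h1 : ∀ {T : Type} [Ring T] (v : K →* T) (t : T),
        Stmt.barD v n (Finsupp.single g t) =
        Finsupp.single (fun i : Fin n => g i.succ) (t * v (g 0)) +
        ∑ j : Fin (n + 1), ((-1 : ℤ) ^ (j.1 + 1)) •
          Finsupp.single (Fin.contractNth j (· * ·) g) t := by
      intro T _ v t
      exact barD_single v n g t
    rw [h1, chg_single, h1, map_add, chg_single, map_sum, map_mul, hu]
    congr 1
    apply Finset.sum_congr rfl
    intro j _
    rw [map_zsmul, chg_single]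

theorem homDim_le (e : R ≃+* S) (trR : R → ℝ) (trS : S → ℝ) (htr : ∀ a, trS (e a) = trR a)
    (u : K →* R) (u' : K →* S) (hu : ∀ k, e (u k) = u' k) (n : ℕ) :
    Stmt.homDim trR u n ≤ Stmt.homDim trS u' n := by
  have hZ : ∀ z ∈ Stmt.barZ u n, chg e _ z ∈ Stmt.barZ u' n := by
    intro z hz
    cases n with
    | zero => trivial
    | succ n =>
      change Stmt.barD u n z = 0 at hz
      change Stmt.barD u' n _ = 0
      rw [← chg_barD e u u' hu, hz, map_zero]
  have hB : ∀ z, z ∈ LinearMap.range (Stmt.barD u n) ↔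
      chg e _ z ∈ LinearMap.range (Stmt.barD u' n) := by
    intro z
    constructor
    · rintro ⟨w, rfl⟩
      exact ⟨chg e _ w, (chg_barD e u u' hu n w).symm⟩
    · rintro ⟨w, hw⟩
      obtain ⟨w', rfl⟩ := chg_surj e _ w
      rw [← chg_barD e u u' hu] at hw
      exact ⟨w', chg_inj e _ hw⟩
  obtain ⟨θ, hθ⟩ := exists_inj_HZ' e _ _ _ _ (chg e (Fin n → K)) hZ hB
  exact extDim_le e trR trS htr θ hθ

end Dim

section NG
variable {G : Type} [Group G]

theorem perm_eq {X : Type} (σ : X ≃ X) : Stmt.permOp σ = (permL2 σ : L2 X →L[ℂ] L2 X) := by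
  apply Stmt.Op.ext_app
  intro f x
  rw [Stmt.permOp_app]
  rfl

/-- The comparison of the two versions of `N(G)`. -/
def ngE (G : Type) [Group G] : Stmt.NG G ≃+* vN G where
  toFun T := ⟨T.1, (mem_vN_iff _).mpr fun g f => by
    have h := (Subring.mem_centralizer_iff.mp T.2) (Stmt.rightTr g) ⟨g, rfl⟩
    have h2 := congrArg (fun S : L2 G →L[ℂ] L2 G => S f) h
    have h3 : Stmt.rightTr g = (rightTrans g : L2 G →L[ℂ] L2 G) := perm_eq _
    rw [h3] at h2
    exact h2.symm⟩
  invFun T := ⟨T.1, Subring.mem_centralizer_iff.mpr (by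
    rintro _ ⟨g, rfl⟩
    have h3 : Stmt.rightTr g = (rightTrans g : L2 G →L[ℂ] L2 G) := perm_eq _
    rw [h3]
    apply ContinuousLinearMap.ext
    intro f
    exact ((mem_vN_iff _).mp T.2 g f).symm)⟩
  left_inv T := rfl
  right_inv T := rfl
  map_mul' S T := rfl
  map_add' S T := rfl

theorem ngE_lam (g : G) : ngE G (Stmt.lam G g) = lam G g := by
  apply Subtype.ext
  exact perm_eq _

theorem ngE_tr (T : Stmt.NG G) : (vnTr (ngE G T)).re = Stmt.vnTr T := rfl

end NG

theorem extDim_eq_vnDim {G : Type} [Group G] (M : Type) [AddCommGroup M] [Module (vN G) M] :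
    Stmt.extDim (fun T : vN G => (vnTr T).re) M = vnDim G M := by
  unfold Stmt.extDim vnDim
  refine iSup_congr fun m => iSup_congr fun e => iSup_congr fun he => ?_
  have h : rtr e = ∑ i, (vnTr (e i i)).re := by unfold rtr mtr; rw [Complex.re_sum]
  rw [h]
  exact iSup_congr_Prop Iff.rfl (fun _ => rfl)

theorem barZ_eq (K : Type) [Group K] (n : ℕ) : Stmt.barZ (lam K) n = barZ K n := by
  cases n with
  | zero => rfl
  | succ n => rfl

theorem barB_eq (K : Type) [Group K] (n : ℕ) :
    LinearMap.range (Stmt.barD (lam K) n) = barB K n := rfl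

theorem vnDim_HZ_congr {K M : Type} [Group K] [AddCommGroup M] [Module (vN K) M]
    {Z Z' B B' : Submodule (vN K) M} (hZ : Z = Z') (hB : B = B') :
    vnDim K (HZ Z B) = vnDim K (HZ Z' B') := by
  subst hZ hB
  rfl

theorem homDim_eq (K : Type) [Group K] (n : ℕ) :
    Stmt.homDim (fun T : vN K => (vnTr T).re) (lam K) n = l2Betti K n := by
  have h1 : Stmt.homDim (fun T : vN K => (vnTr T).re) (lam K) n =
    Stmt.extDim (fun T : vN K => (vnTr T).re)
      (HZ (Stmt.barZ (lam K) n) (LinearMap.range (Stmt.barD (lam K) n))) := rfl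
  rw [h1, extDim_eq_vnDim]
  exact vnDim_HZ_congr (barZ_eq K n) (barB_eq K n)

theorem bridge_le (K : Type) [Group K] (n : ℕ) :
    Stmt.homDim (Stmt.vnTr (G := K)) (Stmt.lam K) n ≤
      Stmt.homDim (fun T : vN K => (vnTr T).re) (lam K) n :=
  homDim_le (ngE K) (Stmt.vnTr (G := K)) (fun T : vN K => (vnTr T).re) ngE_tr (Stmt.lam K) (lam K)
    ngE_lam n

theorem bridge_ge (K : Type) [Group K] (n : ℕ) :
      Stmt.homDim (fun T : vN K => (vnTr T).re) (lam K) n ≤
      Stmt.homDim (Stmt.vnTr (G := K)) (Stmt.lam K) n := by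
  have h1 : ∀ a : vN K, Stmt.vnTr ((ngE K).symm a) = (vnTr a).re := by
    intro a
    have := ngE_tr ((ngE K).symm a)
    rw [RingEquiv.apply_symm_apply] at this
    exact this.symm
  have h2 : ∀ k, (ngE K).symm (lam K k) = Stmt.lam K k := by
    intro k
    rw [RingEquiv.symm_apply_eq]
    exact (ngE_lam k).symm
  exact homDim_le (ngE K).symm (fun T : vN K => (vnTr T).re) (Stmt.vnTr (G := K)) h1 (lam K)
    (Stmt.lam K) h2 n

theorem l2Betti_bridge (K : Type) [Group K] (n : ℕ) : Stmt.l2Betti K n = l2Betti K n := by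
  rw [← homDim_eq]
  exact le_antisymm (bridge_le K n) (bridge_ge K n)

end Pool.Agent.Lib.MPf08bf1
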