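import Pool.Agent.Lib.MPf08bf1.Atiyah

/-!
Comparison of the two formulations of the Atiyah Conjecture.
-/

open scoped ENNReal InnerProductSpace ComplexConjugate Matrix

noncomputable section

namespace Pool.Agent.Lib.MPf08bf1

section
variable {G : Type} [Group G] {m : ℕ}

theorem slice_memlp (i : Fin m) (f : L2 (Fin m × G)) :
    Memℓp (fun x => (f : Fin m × G → ℂ) (i, x)) 2 := by
  have hf := lp.memℓp f
  rw [memℓp_gen_iff (by norm_num)] at hf ⊢
  exact hf.comp_injective (i := fun x : G => (i, x)) (fun _ _ h => congrArg Prod.snd h)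

/-- The `i`-th slice. -/
def sliceL (i : Fin m) : L2 (Fin m × G) →L[ℂ] L2 G :=
  LinearMap.mkContinuous
    { toFun := fun f => ⟨fun x => (f : Fin m × G → ℂ) (i, x), slice_memlp i f⟩
      map_add' := fun f g => by ext y; rfl
      map_smul' := fun c f => by ext y; rfl } 1 (by
    intro f
    rw [one_mul]
    have hf := lp.memℓp f
    rw [memℓp_gen_iff (by norm_num)] at hf
    rw [lp.norm_eq_tsum_rpow (by norm_num), lp.norm_eq_tsum_rpow (by norm_num)]
    apply Real.rpow_le_rpow (tsum_nonneg fun _ => by positivity) _ (by norm_num)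
    exact tsum_comp_le_tsum_of_inj (i := fun x : G => (i, x)) hf (fun _ => by positivity)
      (fun _ _ h => congrArg Prod.snd h))

theorem sliceL_apply (i : Fin m) (f : L2 (Fin m × G)) (x : G) :
    (sliceL i f : G → ℂ) x = (f : Fin m × G → ℂ) (i, x) := rfl

/-- From functions on `Fin m × G` to vectors of functions. -/
def VV : L2 (Fin m × G) →L[ℂ] HS G (Fin m) :=
  ((PiLp.continuousLinearEquiv 2 ℂ (fun _ : Fin m => L2 G)).symm :
    (Fin m → L2 G) →L[ℂ] HS G (Fin m)) ∘L ContinuousLinearMap.pi (fun i => sliceL i)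

theorem VV_apply (f : L2 (Fin m × G)) (i : Fin m) (x : G) :
    ((VV f) i : G → ℂ) x = (f : Fin m × G → ℂ) (i, x) := rfl

/-- From vectors of functions to functions on `Fin m × G`. -/
def UU : HS G (Fin m) →L[ℂ] L2 (Fin m × G) := ContinuousLinearMap.adjoint VV

theorem VV_dl (i : Fin m) (x : G) : VV (dl (i, x)) = inc i (dl x) := by
  apply PiLp.ext
  intro j
  ext y
  rw [VV_apply]
  by_cases hj : j = i
  · subst hj
    rw [inc_self]
    by_cases hy : y = x
    · subst hy
      rw [dl_self, dl_self]
    · rw [dl_ne hy, dl_ne]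
      intro h
      exact hy (congrArg Prod.snd h)
  · rw [inc_ne hj, dl_ne]
    · rfl
    · intro h
      exact hj (congrArg Prod.fst h)

theorem UU_apply (f : HS G (Fin m)) (i : Fin m) (x : G) :
    (UU f : Fin m × G → ℂ) (i, x) = (f i : G → ℂ) x := by
  rw [← inner_dl_left, UU, ContinuousLinearMap.adjoint_inner_right, VV_dl, inner_HS,
    Finset.sum_eq_single i]
  · rw [inc_self, inner_dl_left]
  · intro j _ hj
    rw [inc_ne hj, inner_zero_left]
  · intro h; exact absurd (Finset.mem_univ i) h

theorem VV_UU (f : HS G (Fin m)) : VV (UU f) = f := by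
  apply PiLp.ext
  intro i
  ext x
  rw [VV_apply, UU_apply]

theorem UU_VV (f : L2 (Fin m × G)) : UU (VV f) = f := by
  ext p
  obtain ⟨i, x⟩ := p
  rw [UU_apply, VV_apply]

theorem rightMul_apply (a : MonoidAlgebra ℤ G) (f : L2 G) (x : G) :
    (rightMul a f : G → ℂ) x = a.coeff.sum fun g c => (c : ℂ) * (f : G → ℂ) (x * g⁻¹) := by
  classical
  unfold rightMul
  rw [Finsupp.sum, Finsupp.sum]
  induction a.coeff.support using Finset.induction_on with
  | empty => simp
  | insert g s hg ih =>
    rw [Finset.sum_insert hg, Finset.sum_insert hg, ← ih]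
    rfl

theorem inKer_iff {n : ℕ} (A : Matrix (Fin m) (Fin n) (MonoidAlgebra ℤ G))
    (f : L2 (Fin m × G)) : Stmt.InKer A (f : Fin m × G → ℂ) ↔
      VV f ∈ LinearMap.ker (rowMul A : HS G (Fin m) →ₗ[ℂ] HS G (Fin n)) := by
  have key : ∀ (j : Fin n) (x : G), ((rowMul A (VV f)) j : G → ℂ) x =
      ∑ i, (A i j).coeff.sum (fun g c => (c : ℂ) * (f : Fin m × G → ℂ) (i, x * g⁻¹)) := by
    intro j x
    rw [rowMul_apply]
    have h1 : ((∑ i, rightMul (A i j) ((VV f) i) : L2 G) : G → ℂ) x =
        ∑ i, ((rightMul (A i j) ((VV f) i) : L2 G) : G → ℂ) x := by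
      rw [← inner_dl_left, inner_sum]
      simp only [inner_dl_left]
    rw [h1]
    apply Finset.sum_congr rfl
    intro i _
    rw [rightMul_apply]
    rfl
  rw [LinearMap.mem_ker]
  constructor
  · intro h
    apply PiLp.ext
    intro j
    ext x
    exact (key j x).trans (h j x)
  · intro h j x
    rw [← key]
    have h2 : (rowMul A (VV f)) = 0 := h
    rw [h2]
    rfl

theorem atiyah_bridge (h : Stmt.AtiyahConj G) : AtiyahConj G := by
  intro m n A
  set W := LinearMap.ker (rowMul A : HS G (Fin m) →ₗ[ℂ] HS G (Fin n)) with hW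
  let P : L2 (Fin m × G) →L[ℂ] L2 (Fin m × G) := UU ∘L W.starProjection ∘L VV
  have hP : Stmt.IsKerProj A (show Stmt.Op (Fin m × G) from P) := by
    intro v
    constructor
    · have h1 : Stmt.InKer A ((P v : L2 (Fin m × G)) : Fin m × G → ℂ) := by
        rw [inKer_iff]
        change VV (UU (W.starProjection (VV v))) ∈ W
        rw [VV_UU]
        exact Submodule.starProjection_apply_mem _ _
      exact h1
    · intro w hw
      have hw' : VV (show L2 (Fin m × G) from w) ∈ W := (inKer_iff A w).mp hw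
      have h2 : ⟪(show L2 (Fin m × G) from w), (show L2 (Fin m × G) from v) - P v⟫_ℂ = 0 := by
        have h3 : (show L2 (Fin m × G) from v) - P v =
            UU (VV (show L2 (Fin m × G) from v) - W.starProjection (VV v)) := by
          rw [map_sub, UU_VV]
          rfl
        rw [h3, UU, ContinuousLinearMap.adjoint_inner_right]
        rw [← inner_conj_symm, Submodule.starProjection_inner_eq_zero _ _ hw', map_zero]
      rw [lp.inner_eq_tsum] at h2
      rw [← h2]
      apply tsum_congr
      intro y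
      rw [RCLike.inner_apply]
      exact mul_comm _ _
  obtain ⟨k, hk⟩ := h m n A _ hP
  refine ⟨k, ?_⟩
  unfold vnKerDim
  have h4 : ∀ i : Fin m, ⟪inc i (dl (1 : G)), W.starProjection (inc i (dl 1))⟫_ℂ =
      (show Stmt.Op (Fin m × G) from P).app (Stmt.dl (i, 1)) (i, 1) := by
    intro i
    change _ = (UU (W.starProjection (VV (dl (i, 1)))) : Fin m × G → ℂ) (i, 1)
    rw [UU_apply, VV_dl, inner_HS, Finset.sum_eq_single i]
    · rw [inc_self, inner_dl_left]
    · intro j _ hj
      rw [inc_ne hj, inner_zero_left]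
    · intro h; exact absurd (Finset.mem_univ i) h
  simp only [← hW]
  rw [← Complex.re_sum]
  simp only [h4]
  rw [hk]
  simp

end

end Pool.Agent.Lib.MPf08bf1
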