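import Pool.Agent.Lib.MPf08bf1.Dim

/-!
Comparison of based free resolutions.
-/

open scoped ENNReal Matrix

noncomputable section

namespace Pool.Agent.Lib.MPf08bf1

section
variable {R A : Type} [Ring R] [AddCommGroup A] [Module R A]

/-- A based free resolution of the `R`-module `A`. -/
structure BRes (R A : Type) [Ring R] [AddCommGroup A] [Module R A] where
  X : ℕ → Type
  d : ∀ n, (X (n + 1) →₀ R) →ₗ[R] (X n →₀ R)
  ε : (X 0 →₀ R) →ₗ[R] A
  surj : Function.Surjective ε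
  exact0 : ∀ w, ε w = 0 ↔ ∃ v, d 0 v = w
  exact : ∀ n w, d n w = 0 ↔ ∃ v, d (n + 1) v = w

theorem lift_free {X B C : Type} [AddCommGroup B] [Module R B] [AddCommGroup C] [Module R C]
    (g : B →ₗ[R] C) (h : (X →₀ R) →ₗ[R] C) (hx : ∀ x, ∃ b, g b = h (Finsupp.single x 1)) :
    ∃ k : (X →₀ R) →ₗ[R] B, g ∘ₗ k = h := by
  choose b hb using hx
  refine ⟨Finsupp.linearCombination R b, ?_⟩
  apply Finsupp.lhom_ext
  intro x r
  rw [LinearMap.comp_apply, Finsupp.linearCombination_single, map_smul, hb, ← map_smul,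
    Finsupp.smul_single, smul_eq_mul, mul_one]

namespace BRes

theorem d_comp (C : BRes R A) (n : ℕ) (w) : C.d n (C.d (n + 1) w) = 0 :=
  (C.exact n _).mpr ⟨w, rfl⟩

theorem ε_comp (C : BRes R A) (w) : C.ε (C.d 0 w) = 0 := (C.exact0 _).mpr ⟨w, rfl⟩

variable (C C' : BRes R A)

/-- Chain maps lifting the identity exist. -/
theorem exists_chainMap : ∃ f : ∀ n, (C.X n →₀ R) →ₗ[R] (C'.X n →₀ R),
    C'.ε ∘ₗ f 0 = C.ε ∧ ∀ n, C'.d n ∘ₗ f (n + 1) = f n ∘ₗ C.d n := by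
  obtain ⟨f0, hf0⟩ := lift_free C'.ε C.ε (fun x => C'.surj _)
  obtain ⟨f1, hf1⟩ := lift_free (C'.d 0) (f0 ∘ₗ C.d 0) (fun x => by
    rw [← C'.exact0, LinearMap.comp_apply, ← LinearMap.comp_apply C'.ε, hf0, C.ε_comp])
  let St : ℕ → Type := fun n => {p : ((C.X n →₀ R) →ₗ[R] (C'.X n →₀ R)) ×
    ((C.X (n + 1) →₀ R) →ₗ[R] (C'.X (n + 1) →₀ R)) // C'.d n ∘ₗ p.2 = p.1 ∘ₗ C.d n}
  have step : ∀ n (p : St n), ∃ q : St (n + 1), q.1.1 = p.1.2 := by
    intro n p
    obtain ⟨f2, hf2⟩ := lift_free (C'.d (n + 1)) (p.1.2 ∘ₗ C.d (n + 1)) (fun x => by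
      rw [← C'.exact, LinearMap.comp_apply, ← LinearMap.comp_apply (C'.d n), p.2,
        LinearMap.comp_apply, C.d_comp, map_zero])
    exact ⟨⟨(p.1.2, f2), hf2⟩, rfl⟩
  choose nx hnx using step
  let s : ∀ n, St n := fun n => Nat.rec ⟨(f0, f1), hf1⟩ (fun n p => nx n p) n
  have hs : ∀ n, (s (n + 1)).1.1 = (s n).1.2 := fun n => hnx n (s n)
  refine ⟨fun n => (s n).1.1, hf0, ?_⟩
  intro n
  change C'.d n ∘ₗ (s (n + 1)).1.1 = _
  rw [hs, (s n).2]

/-- Chain maps inducing zero are null-homotopic. -/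
theorem exists_homotopy (f : ∀ n, (C.X n →₀ R) →ₗ[R] (C'.X n →₀ R))
    (h0 : C'.ε ∘ₗ f 0 = 0) (h : ∀ n, C'.d n ∘ₗ f (n + 1) = f n ∘ₗ C.d n) :
    ∃ k : ∀ n, (C.X n →₀ R) →ₗ[R] (C'.X (n + 1) →₀ R),
      f 0 = C'.d 0 ∘ₗ k 0 ∧ ∀ n, f (n + 1) = C'.d (n + 1) ∘ₗ k (n + 1) + k n ∘ₗ C.d n := by
  obtain ⟨k0, hk0⟩ := lift_free (C'.d 0) (f 0) (fun x => by
    rw [← C'.exact0, ← LinearMap.comp_apply, h0, LinearMap.zero_apply])
  let St : ℕ → Type := fun n => {p : (C.X n →₀ R) →ₗ[R] (C'.X (n + 1) →₀ R) //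
    C'.d n ∘ₗ (f (n + 1) - p ∘ₗ C.d n) = 0}
  have step : ∀ n (p : St n), ∃ q : St (n + 1), f (n + 1) = C'.d (n + 1) ∘ₗ q.1 + p.1 ∘ₗ C.d n := by
    intro n p
    obtain ⟨q, hq⟩ := lift_free (C'.d (n + 1)) (f (n + 1) - p.1 ∘ₗ C.d n) (fun x => by
      rw [← C'.exact, ← LinearMap.comp_apply, p.2, LinearMap.zero_apply])
    have hq' : ∀ w, C'.d (n + 1) (q w) = f (n + 1) w - p.1 (C.d n w) := fun w =>
      LinearMap.congr_fun hq w
    refine ⟨⟨q, ?_⟩, ?_⟩
    · apply LinearMap.ext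
      intro w
      have h1 := LinearMap.congr_fun (h (n + 1)) w
      rw [LinearMap.comp_apply, LinearMap.comp_apply] at h1
      change C'.d (n + 1) (f (n + 1 + 1) w - q (C.d (n + 1) w)) = 0
      rw [map_sub, h1, hq', C.d_comp, map_zero, sub_zero, sub_self]
    · apply LinearMap.ext
      intro w
      change _ = C'.d (n + 1) (q w) + p.1 (C.d n w)
      rw [hq', sub_add_cancel]
  choose nx hnx using step
  have hbase : C'.d 0 ∘ₗ (f 1 - k0 ∘ₗ C.d 0) = 0 := by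
    apply LinearMap.ext
    intro w
    have h1 := LinearMap.congr_fun (h 0) w
    have h2 := LinearMap.congr_fun hk0 (C.d 0 w)
    rw [LinearMap.comp_apply] at h1 h2
    change C'.d 0 (f 1 w - k0 (C.d 0 w)) = 0
    rw [map_sub, h1, h2, LinearMap.comp_apply, sub_self]
  let s : ∀ n, St n := fun n => Nat.rec ⟨k0, hbase⟩ (fun n p => nx n p) n
  refine ⟨fun n => (s n).1, hk0.symm, ?_⟩
  intro n
  exact hnx n (s n)

/-- The previous term of the complex. -/
def Y (C : BRes R A) : ℕ → Type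
  | 0 => Empty
  | n + 1 => C.X n

/-- The outgoing differential. -/
def P (C : BRes R A) : ∀ n, (C.X n →₀ R) →ₗ[R] (C.Y n →₀ R)
  | 0 => 0
  | n + 1 => C.d n

theorem P_comp (C : BRes R A) (n : ℕ) : C.P n ∘ₗ C.d n = 0 := by
  cases n with
  | zero => rfl
  | succ n =>
    apply LinearMap.ext
    intro w
    exact C.d_comp n w

end BRes

end

/-- An injection on homology. -/
theorem exists_inj_HZ {S M M' : Type} [Ring S] [AddCommGroup M] [Module S M] [AddCommGroup M']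
    [Module S M'] (Z B : Submodule S M) (Z' B' : Submodule S M') (φ : M →ₗ[S] M')
    (hZ : ∀ z ∈ Z, φ z ∈ Z') (hB : ∀ z ∈ B, φ z ∈ B') (hinj : ∀ z ∈ Z, φ z ∈ B' → z ∈ B) :
    ∃ f : HZ Z B →ₗ[S] HZ Z' B', Function.Injective f := by
  refine ⟨Submodule.mapQ _ _ (φ.restrict hZ) ?_, ?_⟩
  · intro z hz
    rw [Submodule.mem_comap] at hz ⊢
    rw [Submodule.mem_comap]
    exact hB _ hz
  · rw [injective_iff_map_eq_zero]
    intro a
    obtain ⟨z, rfl⟩ := Submodule.mkQ_surjective _ a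
    intro h
    rw [Submodule.mkQ_apply, Submodule.mapQ_apply, Submodule.Quotient.mk_eq_zero,
      Submodule.mem_comap] at h
    rw [Submodule.mkQ_apply, Submodule.Quotient.mk_eq_zero, Submodule.mem_comap]
    exact hinj _ z.2 h

section
variable {G R A : Type} [Group G] [Ring R] [AddCommGroup A] [Module R A] (ρ : R →+* vN G)

/-- Two resolutions give the same Lück dimension: one inequality. -/
theorem BRes.vnDim_le (C C' : BRes R A) (n : ℕ) :
    vnDim G (HomQ (extS ρ (C.d n)) (extS ρ (C.P n))) ≤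
      vnDim G (HomQ (extS ρ (C'.d n)) (extS ρ (C'.P n))) := by
  obtain ⟨f, hf0, hf⟩ := C.exists_chainMap C'
  obtain ⟨g, hg0, hg⟩ := C'.exists_chainMap C
  obtain ⟨k, hk0, hk⟩ := C.exists_homotopy C (fun n => g n ∘ₗ f n - LinearMap.id) (by
      rw [LinearMap.comp_sub, ← LinearMap.comp_assoc, hg0, hf0, LinearMap.comp_id, sub_self])
    (fun n => by
      rw [LinearMap.comp_sub, ← LinearMap.comp_assoc, hg, LinearMap.comp_assoc, hf,
        LinearMap.sub_comp, LinearMap.comp_id, LinearMap.id_comp, LinearMap.comp_assoc])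
  obtain ⟨F, hF⟩ := exists_inj_HZ (LinearMap.ker (extS ρ (C.P n)))
    (LinearMap.range (extS ρ (C.d n))) (LinearMap.ker (extS ρ (C'.P n)))
    (LinearMap.range (extS ρ (C'.d n))) (extS ρ (f n)) (by
      intro z hz
      cases n with
      | zero =>
        change extS ρ (0 : (C'.X 0 →₀ R) →ₗ[R] (Empty →₀ R)) _ = 0
        rw [extS_zero]
        rfl
      | succ n =>
        have hz' : extS ρ (C.d n) z = 0 := hz
        change extS ρ (C'.d n) (extS ρ (f (n + 1)) z) = 0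
        rw [← extS_comp_apply, hf, extS_comp_apply, hz', map_zero]) (by
      rintro _ ⟨y, rfl⟩
      refine ⟨extS ρ (f (n + 1)) y, ?_⟩
      rw [← extS_comp_apply, hf, extS_comp_apply]) (by
      rintro z hz ⟨y, hy⟩
      have h1 : extS ρ (g n ∘ₗ f n) z = extS ρ (C.d n) (extS ρ (g (n + 1)) y) := by
        rw [extS_comp_apply, ← hy, ← extS_comp_apply, ← hg, extS_comp_apply]
      have h2 : extS ρ (g n ∘ₗ f n - LinearMap.id) z ∈ LinearMap.range (extS ρ (C.d n)) := by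
        cases n with
        | zero =>
          rw [hk0, extS_comp_apply]
          exact ⟨_, rfl⟩
        | succ n =>
          have hz' : extS ρ (C.d n) z = 0 := hz
          rw [hk, extS_add, LinearMap.add_apply, extS_comp_apply, extS_comp_apply, hz', map_zero,
            add_zero]
          exact ⟨_, rfl⟩
      rw [extS_sub, LinearMap.sub_apply, extS_id, h1] at h2
      have h3 := Submodule.sub_mem _ (⟨_, rfl⟩ : extS ρ (C.d n) (extS ρ (g (n + 1)) y) ∈
        LinearMap.range (extS ρ (C.d n))) h2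
      rwa [sub_sub_cancel] at h3)
  exact vnDim_le_of_inj F hF

theorem BRes.vnDim_eq (C C' : BRes R A) (n : ℕ) :
    vnDim G (HomQ (extS ρ (C.d n)) (extS ρ (C.P n))) =
      vnDim G (HomQ (extS ρ (C'.d n)) (extS ρ (C'.P n))) :=
  le_antisymm (C.vnDim_le ρ C' n) (C'.vnDim_le ρ C n)

end

end Pool.Agent.Lib.MPf08bf1
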