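import Pool.Agent.Lib.MPf08bf1.Sys

/-!
Ranks do not change under induction to a bigger group.
-/

open scoped ENNReal InnerProductSpace ComplexConjugate Matrix Topology
open Filter

set_option linter.unusedSectionVars false

noncomputable section

namespace Pool.Agent.Lib.MPf08bf1

theorem memlp_extend {X Y : Type} (f : X → Y) (hf : Function.Injective f) (g : L2 X) :
    Memℓp (Function.extend f (g : X → ℂ) 0) 2 := by
  have hg := lp.memℓp g
  rw [memℓp_gen_iff (by norm_num)] at hg ⊢
  rw [← hf.summable_iff]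
  · convert hg using 2
    simp [hf.extend_apply]
  · intro y hy
    rw [Function.extend_apply' _ _ _ (by simpa using hy)]
    simp

/-- Extension by zero along an injective map. -/
def extLI {X Y : Type} (f : X → Y) (hf : Function.Injective f) : L2 X →ₗᵢ[ℂ] L2 Y where
  toFun g := ⟨Function.extend f (g : X → ℂ) 0, memlp_extend f hf g⟩
  map_add' g h := by
    ext y
    change Function.extend f (g + h : X → ℂ) 0 y = Function.extend f (g : X → ℂ) 0 y +
      Function.extend f (h : X → ℂ) 0 y
    by_cases hy : ∃ x, f x = y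
    · obtain ⟨x, rfl⟩ := hy
      rw [hf.extend_apply, hf.extend_apply, hf.extend_apply]
      rfl
    · rw [Function.extend_apply' _ _ _ hy, Function.extend_apply' _ _ _ hy,
        Function.extend_apply' _ _ _ hy]
      simp
  map_smul' c g := by
    ext y
    change Function.extend f (c • (g : X → ℂ)) 0 y = c * Function.extend f (g : X → ℂ) 0 y
    by_cases hy : ∃ x, f x = y
    · obtain ⟨x, rfl⟩ := hy
      rw [hf.extend_apply, hf.extend_apply]
      rfl
    · rw [Function.extend_apply' _ _ _ hy, Function.extend_apply' _ _ _ hy]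
      simp
  norm_map' g := by
    rw [lp.norm_eq_tsum_rpow (by norm_num), lp.norm_eq_tsum_rpow (by norm_num)]
    congr 1
    have h := hf.tsum_eq (f := fun y => ‖Function.extend f (g : X → ℂ) 0 y‖ ^ (2 : ℝ≥0∞).toReal) (by
      intro y hy
      by_contra hy2
      apply hy
      change ‖Function.extend f (g : X → ℂ) 0 y‖ ^ (2 : ℝ≥0∞).toReal = 0
      rw [Function.extend_apply' _ _ _ (by simpa using hy2)]
      simp)
    change (∑' y, ‖Function.extend f (g : X → ℂ) 0 y‖ ^ (2 : ℝ≥0∞).toReal) = _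
    rw [← h]
    congr 1
    ext x
    rw [hf.extend_apply]

theorem extLI_apply {X Y : Type} (f : X → Y) (hf : Function.Injective f) (g : L2 X) (x : X) :
    (extLI f hf g : Y → ℂ) (f x) = (g : X → ℂ) x := hf.extend_apply _ _ _

theorem extLI_apply' {X Y : Type} (f : X → Y) (hf : Function.Injective f) (g : L2 X) (y : Y)
    (hy : ¬∃ x, f x = y) : (extLI f hf g : Y → ℂ) y = 0 := Function.extend_apply' _ _ _ hy

theorem extLI_dl {X Y : Type} (f : X → Y) (hf : Function.Injective f) (x : X) :
    extLI f hf (dl x) = dl (f x) := by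
  classical
  ext y
  by_cases hy : ∃ x', f x' = y
  · obtain ⟨x', rfl⟩ := hy
    rw [extLI_apply, dl_apply, dl_apply]
    simp [hf.eq_iff]
  · rw [extLI_apply' _ _ _ _ hy, dl_ne]
    rintro rfl
    exact hy ⟨x, rfl⟩

variable {H G : Type} [Group H] [Group G] (f : H →* G) (hf : Function.Injective f)

/-- `S : N(G)` is induced from `T : N(H)`. -/
def Rel (T : vN H) (S : vN G) : Prop :=
  ∀ g : L2 H, (S : L2 G →L[ℂ] L2 G) (extLI f hf g) = extLI f hf ((T : L2 H →L[ℂ] L2 H) g) ∧
    ((star S : vN G) : L2 G →L[ℂ] L2 G) (extLI f hf g) =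
      extLI f hf (((star T : vN H) : L2 H →L[ℂ] L2 H) g)

variable {f hf}

theorem Rel.star {T : vN H} {S : vN G} (h : Rel f hf T S) : Rel f hf (star T) (star S) := by
  intro g
  rw [star_star, star_star]
  exact ⟨(h g).2, (h g).1⟩

theorem Rel.mul {T T' : vN H} {S S' : vN G} (h : Rel f hf T S) (h' : Rel f hf T' S') :
    Rel f hf (T * T') (S * S') := by
  intro g
  constructor
  · change (S : L2 G →L[ℂ] L2 G) ((S' : L2 G →L[ℂ] L2 G) (extLI f hf g)) = _
    rw [(h' g).1, (h _).1]
    rfl
  · rw [star_mul, star_mul]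
    change ((Star.star S' : vN G) : L2 G →L[ℂ] L2 G) (((Star.star S : vN G) : L2 G →L[ℂ] L2 G)
      (extLI f hf g)) = _
    rw [(h g).2, (h' _).2]
    rfl

theorem Rel.add {T T' : vN H} {S S' : vN G} (h : Rel f hf T S) (h' : Rel f hf T' S') :
    Rel f hf (T + T') (S + S') := by
  intro g
  constructor
  · change (S : L2 G →L[ℂ] L2 G) (extLI f hf g) + (S' : L2 G →L[ℂ] L2 G) (extLI f hf g) = _
    rw [(h' g).1, (h _).1, ← map_add]
    rfl
  · rw [star_add, star_add]
    change ((Star.star S : vN G) : L2 G →L[ℂ] L2 G) (extLI f hf g) +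
      ((Star.star S' : vN G) : L2 G →L[ℂ] L2 G) (extLI f hf g) = _
    rw [(h g).2, (h' _).2, ← map_add]
    rfl

theorem Rel.smul {T : vN H} {S : vN G} (c : ℂ) (h : Rel f hf T S) :
    Rel f hf (c • T) (c • S) := by
  intro g
  constructor
  · change c • (S : L2 G →L[ℂ] L2 G) (extLI f hf g) = _
    rw [(h _).1, ← map_smul]
    rfl
  · rw [star_smul, star_smul]
    change Star.star c • ((Star.star S : vN G) : L2 G →L[ℂ] L2 G) (extLI f hf g) = _
    rw [(h g).2, ← map_smul]
    rfl

theorem Rel.zero : Rel f hf (0 : vN H) (0 : vN G) := by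
  intro g
  constructor
  · change (0 : L2 G) = extLI f hf 0
    rw [map_zero]
  · rw [star_zero, star_zero]
    change (0 : L2 G) = extLI f hf 0
    rw [map_zero]

theorem Rel.one : Rel f hf (1 : vN H) (1 : vN G) := by
  intro g
  constructor
  · rfl
  · rw [star_one, star_one]
    rfl

theorem Rel.sub {T T' : vN H} {S S' : vN G} (h : Rel f hf T S) (h' : Rel f hf T' S') :
    Rel f hf (T - T') (S - S') := by
  have := h.add (h'.smul (-1))
  simpa [sub_eq_add_neg] using this

theorem Rel.sum {ι : Type} (s : Finset ι) {T : ι → vN H} {S : ι → vN G}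
    (h : ∀ i, Rel f hf (T i) (S i)) : Rel f hf (∑ i ∈ s, T i) (∑ i ∈ s, S i) := by
  classical
  induction s using Finset.induction_on with
  | empty => simpa using Rel.zero
  | insert a s ha ih =>
    rw [Finset.sum_insert ha, Finset.sum_insert ha]
    exact (h a).add ih

theorem leftTrans_ext (h : H) (g : L2 H) :
    leftTrans (f h) (extLI f hf g) = extLI f hf (leftTrans h g) := by
  ext y
  change (extLI f hf g : G → ℂ) ((f h)⁻¹ * y) = (extLI f hf (leftTrans h g) : G → ℂ) y
  by_cases hy : ∃ x, f x = y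
  · obtain ⟨x, rfl⟩ := hy
    rw [← map_inv, ← map_mul, extLI_apply, extLI_apply]
    rfl
  · rw [extLI_apply' _ _ _ _ hy, extLI_apply']
    rintro ⟨x, hx⟩
    apply hy
    refine ⟨h * x, ?_⟩
    rw [map_mul, hx, mul_inv_cancel_left]

theorem leftTrans_adjoint {G : Type} [Group G] (g : G) :
    star (lam G g) = lam G g⁻¹ := by
  apply Subtype.ext
  change ContinuousLinearMap.adjoint (leftTrans g) = leftTrans g⁻¹
  unfold leftTrans
  rw [permL2_adjoint]
  congr 1
  ext x
  rfl

theorem Rel.lam (h : H) : Rel f hf (lam H h) (lam G (f h)) := by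
  intro g
  constructor
  · exact leftTrans_ext h g
  · rw [leftTrans_adjoint, leftTrans_adjoint, ← map_inv]
    exact leftTrans_ext h⁻¹ g

theorem zmap_single {G : Type} [Group G] (g : G) (n : ℤ) :
    zmap G (MonoidAlgebra.single g n) = n • lam G g := by
  unfold zmap
  change MonoidAlgebra.lift ℤ (vN G) G (Pool.Agent.Lib.MPf08bf1.lam G) (MonoidAlgebra.single g n) = _
  rw [MonoidAlgebra.lift_single]

theorem Rel.zmap (a : MonoidAlgebra ℤ H) :
    Rel f hf (zmap H a) (zmap G (MonoidAlgebra.mapDomainRingHom ℤ f a)) := by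
  induction a using MonoidAlgebra.induction_linear with
  | zero => simpa using Rel.zero
  | add a b ha hb =>
    rw [map_add, map_add, map_add]
    exact ha.add hb
  | single g n =>
    rw [MonoidAlgebra.mapDomainRingHom_apply, MonoidAlgebra.mapDomain_single, zmap_single,
      zmap_single]
    have := (Rel.lam (f := f) (hf := hf) g).smul (n : ℂ)
    rwa [Int.cast_smul_eq_zsmul, Int.cast_smul_eq_zsmul] at this

theorem Rel.vnTr {T : vN H} {S : vN G} (h : Rel f hf T S) : vnTr T = vnTr S := by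
  unfold Pool.Agent.Lib.MPf08bf1.vnTr
  have h1 := (h (dl 1)).1
  rw [extLI_dl, map_one] at h1
  rw [h1]
  have := extLI_apply f hf ((T : L2 H →L[ℂ] L2 H) (dl 1)) 1
  rw [map_one] at this
  exact this.symm

section
variable {I J K : Type} [Fintype I] [Fintype J] [Fintype K]

variable (f hf) in
/-- Entrywise relation. -/
def MRel {I J : Type} (A : Matrix I J (vN H)) (B : Matrix I J (vN G)) : Prop :=
  ∀ i j, Rel f hf (A i j) (B i j)

theorem MRel.mul {A : Matrix I J (vN H)} {B : Matrix I J (vN G)} {A' : Matrix J K (vN H)}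
    {B' : Matrix J K (vN G)} (h : MRel f hf A B) (h' : MRel f hf A' B') :
    MRel f hf (A * A') (B * B') := by
  intro i k
  rw [Matrix.mul_apply, Matrix.mul_apply]
  exact Rel.sum _ fun j => (h i j).mul (h' j k)

theorem MRel.conj {A : Matrix I J (vN H)} {B : Matrix I J (vN G)} (h : MRel f hf A B) :
    MRel f hf Aᴴ Bᴴ := fun j i => (h i j).star

theorem MRel.sub {A A' : Matrix I J (vN H)} {B B' : Matrix I J (vN G)} (h : MRel f hf A B)
    (h' : MRel f hf A' B') : MRel f hf (A - A') (B - B') := fun i j => (h i j).sub (h' i j)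

theorem MRel.smul {A : Matrix I J (vN H)} {B : Matrix I J (vN G)} (c : ℂ) (h : MRel f hf A B) :
    MRel f hf (c • A) (c • B) := fun i j => (h i j).smul c

theorem MRel.one [DecidableEq I] : MRel f hf (1 : Matrix I I (vN H)) (1 : Matrix I I (vN G)) := by
  intro i j
  by_cases h : i = j
  · subst h
    rw [Matrix.one_apply_eq, Matrix.one_apply_eq]
    exact Rel.one
  · rw [Matrix.one_apply_ne h, Matrix.one_apply_ne h]
    exact Rel.zero

theorem MRel.pow [DecidableEq I] {A : Matrix I I (vN H)} {B : Matrix I I (vN G)}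
    (h : MRel f hf A B) (k : ℕ) : MRel f hf (A ^ k) (B ^ k) := by
  induction k with
  | zero => simpa using MRel.one
  | succ k ih =>
    rw [pow_succ, pow_succ]
    exact ih.mul h

theorem MRel.rtr {A : Matrix I I (vN H)} {B : Matrix I I (vN G)} (h : MRel f hf A B) :
    rtr A = rtr B := by
  unfold Pool.Agent.Lib.MPf08bf1.rtr mtr
  congr 1
  exact Finset.sum_congr rfl fun i _ => (h i i).vnTr

theorem exists_scale {A : Matrix I J (vN G)} :
    ∃ c : ℝ, 0 < c ∧ ∀ d : ℝ, 0 < d → d ≤ c → ‖toOp ((d : ℂ) • A)‖ ≤ 1 := by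
  refine ⟨(‖toOp A‖ + 1)⁻¹, by positivity, ?_⟩
  intro d hd hdc
  rw [toOp_smul, norm_smul]
  simp only [Complex.norm_real]
  rw [Real.norm_of_nonneg hd.le]
  calc d * ‖toOp A‖ ≤ (‖toOp A‖ + 1)⁻¹ * ‖toOp A‖ := by gcongr
    _ ≤ 1 := by
      rw [inv_mul_le_iff₀ (by positivity)]
      linarith

theorem vrk_rel {A : Matrix I J (vN H)} {B : Matrix I J (vN G)} (h : MRel f hf A B) :
    vrk A = vrk B := by
  classical
  obtain ⟨c, hc, hc1⟩ := exists_scale (A := A)
  obtain ⟨c', hc', hc1'⟩ := exists_scale (A := B)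
  set d := min c c' with hd
  have hd0 : 0 < d := lt_min hc hc'
  have hA := rtr_LP_conj_lim _ (hc1 d hd0 (min_le_left _ _))
  have hB := rtr_LP_conj_lim _ (hc1' d hd0 (min_le_right _ _))
  have hMR : MRel f hf ((d : ℂ) • A) ((d : ℂ) • B) := h.smul _
  have heq : ∀ k : ℕ, rtr (1 - (1 - ((d : ℂ) • A)ᴴ * ((d : ℂ) • A)) ^ k) =
      rtr (1 - (1 - ((d : ℂ) • B)ᴴ * ((d : ℂ) • B)) ^ k) := fun k =>
    (MRel.one.sub ((MRel.one.sub (hMR.conj.mul hMR)).pow k)).rtr
  simp_rw [heq] at hA
  have h3 := tendsto_nhds_unique hA hB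
  have hd' : (d : ℂ) ≠ 0 := by exact_mod_cast hd0.ne'
  rw [← vrk_eq, ← vrk_eq, vrk_conj, vrk_conj, vrk_eq, vrk_eq, LP_smul _ _ hd', LP_smul _ _ hd',
    ← vrk_eq, ← vrk_eq] at h3
  exact h3

end

/-- The rank of a matrix over `ℤ[H]` does not change when it is induced to `G`. -/
theorem vrk_map {I J : Type} [Fintype I] [Fintype J] (f : H →* G) (hf : Function.Injective f)
    (A : Matrix I J (MonoidAlgebra ℤ H)) :
    vrk (A.map (zmap H)) =
      vrk ((A.map (MonoidAlgebra.mapDomainRingHom ℤ f)).map (zmap G)) :=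
  vrk_rel (f := f) (hf := hf) fun i j => Rel.zmap (A i j)

end Pool.Agent.Lib.MPf08bf1
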