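import Pool.Agent.Lib.MPf08bf1.DWin

/-!
Finite-dimensionality of the homology over `D_K` for `K` the kernel of an epimorphism to `ℤ`.
-/

open scoped Matrix

noncomputable section

namespace Pool.Agent.Lib.MPf08bf1

theorem row_select {D : Type} [DivisionRing D] {n m : ℕ} (M : Matrix (Fin n) (Fin m) D) :
    ∃ τ : Finset (Fin n), LinearIndependent D (fun i : τ => M i) ∧
      τ.card = Module.finrank D (LinearMap.range M.vecMulLinear) := by
  classical
  obtain ⟨b, -, -, hspan, hli⟩ := exists_linearIndepOn_extension (K := D) (v := fun i => M i)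
    (s := ∅) (t := Set.univ) (linearIndepOn_empty D _) (Set.subset_univ _)
  refine ⟨b.toFinset, ?_, ?_⟩
  · have h1 : LinearIndependent D (fun i : b => M i) := hli
    exact h1.comp (fun i : b.toFinset => (⟨i.1, Set.mem_toFinset.mp i.2⟩ : b))
      (fun x y hxy => Subtype.ext (congrArg (fun z : b => z.1) hxy))
  · have h1 : LinearIndependent D (fun i : b => M i) := hli
    have h2 : LinearMap.range M.vecMulLinear = Submodule.span D (Set.range fun i : b => M i) := by
      rw [range_vecMulLinear]
      apply le_antisymm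
      · rw [Submodule.span_le]
        rintro _ ⟨i, rfl⟩
        have := hspan ⟨i, Set.mem_univ i, rfl⟩
        have h3 : (fun i => M i) '' b = Set.range fun i : b => M i := by
          ext x
          simp
        rw [h3] at this
        exact this
      · apply Submodule.span_mono
        rintro _ ⟨i, rfl⟩
        exact ⟨i, rfl⟩
    rw [h2, finrank_span_eq_card h1, Set.toFinset_card]

section
variable {Γ : Type} [Group Γ] {D : Type} [DivisionRing D] (g : MonoidAlgebra ℤ Γ →+* D)
  {p r q : ℕ} (P : Matrix (Fin r) (Fin p) (MonoidAlgebra ℤ Γ))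
  (Q : Matrix (Fin q) (Fin r) (MonoidAlgebra ℤ Γ))

/-- Entries in `R_L`. -/
def InV (L : Subgroup Γ) {r : ℕ} (v : Fin r → D) : Prop := ∀ i, v i ∈ RL g L

/-- Boundaries over `R_L`. -/
def InB (L : Subgroup Γ) (v : Fin r → D) : Prop :=
  ∃ y : Fin q → D, InV g L y ∧ Matrix.vecMul y (Q.map g) = v

/-- Exactness over `D`. -/
structure Exa : Prop where
  comp : ∀ y : Fin q → D, Matrix.vecMul (Matrix.vecMul y (Q.map g)) (P.map g) = 0
  ex : ∀ v : Fin r → D, Matrix.vecMul v (P.map g) = 0 → ∃ y, Matrix.vecMul y (Q.map g) = v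

/-- A basis of the homology over `D_L`. -/
structure IsBas (L : Subgroup Γ) (b : ℕ) (z : Fin b → Fin r → D) : Prop where
  inV : ∀ i, InV g L (z i)
  cyc : ∀ i, Matrix.vecMul (z i) (P.map g) = 0
  ind : ∀ c : Fin b → D, (∀ i, c i ∈ subD g L) → InB g Q L (∑ i, c i • z i) → ∀ i, c i = 0
  span : ∀ v, InV g L v → Matrix.vecMul v (P.map g) = 0 → ∃ c : Fin b → D,
    (∀ i, c i ∈ subD g L) ∧ InB g Q L (v - ∑ i, c i • z i)

theorem vecMul_smul' {n m : ℕ} (c : D) (v : Fin n → D) (M : Matrix (Fin n) (Fin m) D) :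
    Matrix.vecMul (c • v) M = c • Matrix.vecMul v M := Matrix.smul_vecMul c v M

theorem InV_add {L : Subgroup Γ} {r : ℕ} {v w : Fin r → D} (h : InV g L v) (h' : InV g L w) :
    InV g L (v + w) := fun i => add_mem (h i) (h' i)

theorem InV_zero {L : Subgroup Γ} {r : ℕ} : InV g L (0 : Fin r → D) := fun _ => zero_mem _

theorem InV_smul {L : Subgroup Γ} {r : ℕ} {v : Fin r → D} {c : D} (hc : c ∈ subD g L)
    (h : InV g L v) : InV g L (c • v) := fun i => Submodule.smul_mem _ (⟨c, hc⟩ : subD g L) (h i)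

theorem InV_sum {L : Subgroup Γ} {r : ℕ} {ι : Type} (s : Finset ι) {v : ι → Fin r → D}
    (h : ∀ i ∈ s, InV g L (v i)) : InV g L (∑ i ∈ s, v i) := by
  intro j
  rw [Finset.sum_apply]
  exact sum_mem fun i hi => h i hi j

theorem InB_add {L : Subgroup Γ} {v w : Fin r → D} (h : InB g Q L v) (h' : InB g Q L w) :
    InB g Q L (v + w) := by
  obtain ⟨y, hy, rfl⟩ := h
  obtain ⟨y', hy', rfl⟩ := h'
  exact ⟨y + y', InV_add g hy hy', Matrix.add_vecMul _ _ _⟩

theorem InB_smul {L : Subgroup Γ} {v : Fin r → D} {c : D} (hc : c ∈ subD g L)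
    (h : InB g Q L v) : InB g Q L (c • v) := by
  obtain ⟨y, hy, rfl⟩ := h
  exact ⟨c • y, InV_smul g hc hy, vecMul_smul' _ _ _⟩

theorem InB_zero {L : Subgroup Γ} : InB g Q L (0 : Fin r → D) :=
  ⟨0, InV_zero g, Matrix.zero_vecMul _⟩

theorem InB_neg {L : Subgroup Γ} {v : Fin r → D} (h : InB g Q L v) : InB g Q L (-v) := by
  have := InB_smul g Q (c := -1) (neg_mem (one_mem _)) h
  rwa [neg_smul, one_smul] at this

theorem vecMul_sum' {n m : ℕ} {ι : Type} (s : Finset ι) (v : ι → Fin n → D)
    (M : Matrix (Fin n) (Fin m) D) :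
    Matrix.vecMul (∑ i ∈ s, v i) M = ∑ i ∈ s, Matrix.vecMul (v i) M := by
  classical
  induction s using Finset.induction_on with
  | empty => simp
  | insert a s ha ih => rw [Finset.sum_insert ha, Finset.sum_insert ha, Matrix.add_vecMul, ih]

variable {g P Q}

theorem rank_add (hE : Exa g P Q) :
    Module.finrank D (LinearMap.range (P.map g).vecMulLinear) +
      Module.finrank D (LinearMap.range (Q.map g).vecMulLinear) = r := by
  have h := LinearMap.finrank_range_add_finrank_ker (P.map g).vecMulLinear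
  have h2 : LinearMap.ker (P.map g).vecMulLinear = LinearMap.range (Q.map g).vecMulLinear := by
    ext v
    constructor
    · intro hv
      obtain ⟨y, hy⟩ := hE.ex v hv
      exact ⟨y, hy⟩
    · rintro ⟨y, rfl⟩
      exact hE.comp y
  rw [h2] at h
  rw [h]
  simp

/-- Every element of `R_K` lies in the span of the powers of `t`. -/
theorem RL_le_AA (φ : Γ →* Multiplicative ℤ) {t : Γ} (ht : φ t = Multiplicative.ofAdd 1) (γ : Γ) :
    ∃ l ∈ φ.ker, ∃ i : ℤ, γ = l * t ^ i := by
  refine ⟨γ * t ^ (-(φ γ).toAdd), ?_, (φ γ).toAdd, ?_⟩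
  · rw [MonoidHom.mem_ker, map_mul, map_zpow, ht]
    apply Multiplicative.toAdd.injective
    simp
  · rw [mul_assoc, ← zpow_add]
    simp

theorem mem_AA_of_RL (φ : Γ →* Multiplicative ℤ) {t : Γ} (ht : φ t = Multiplicative.ofAdd 1)
    {x : D} (hx : x ∈ RL g φ.ker) : x ∈ AA g φ.ker t := by
  have : RL g φ.ker ≤ AA g φ.ker t := by
    unfold RL
    rw [Submodule.span_le]
    rintro _ ⟨γ, rfl⟩
    exact mem_AA_of g φ.ker t (RL_le_AA φ ht γ)
  exact this hx

/-- Uniform bound for the size of independent families. -/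
theorem dim_bound (hind : CosInd g) (hE : Exa g P Q) (φ : Γ →* Multiplicative ℤ)
    (hφ : Function.Surjective φ) :
    ∃ C : ℕ, ∀ (b : ℕ) (z : Fin b → Fin r → D), (∀ i, InV g φ.ker (z i)) →
      (∀ i, Matrix.vecMul (z i) (P.map g) = 0) →
      (∀ c : Fin b → D, (∀ i, c i ∈ subD g φ.ker) → InB g Q φ.ker (∑ i, c i • z i) →
        ∀ i, c i = 0) → b ≤ C := by
  classical
  obtain ⟨t, ht⟩ := hφ (Multiplicative.ofAdd 1)
  set L := φ.ker with hLdef
  have hv : φ t ≠ 1 := by
    rw [ht]
    intro h
    have := congrArg Multiplicative.toAdd h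
    simp at this
  have hpow := pow_indep g L t hind φ le_rfl hv
  -- bound for the entries of Q
  have hBd : ∃ c, ∀ s i, Bd g L t ((Q.map g) s i) c := by
    have h1 : ∀ s i, ∃ c, Bd g L t ((Q.map g) s i) c := by
      intro s i
      apply exists_Bd
      apply mem_AA_of_RL φ ht
      have := RL_mul_g g φ.ker (gg_mem_RL g φ.ker 1) (Q s i)
      rwa [map_one, one_mul] at this
    choose c hc using h1
    refine ⟨Finset.univ.sup fun x : Fin q × Fin r => c x.1 x.2, fun s i => ?_⟩
    exact Bd_mono g L t (hc s i)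
      (Finset.le_sup (f := fun x : Fin q × Fin r => c x.1 x.2) (Finset.mem_univ (s, i)))
  obtain ⟨c, hc⟩ := hBd
  obtain ⟨τP, hτP, hcP⟩ := row_select (P.map g)
  obtain ⟨τQ, hτQ, hcQ⟩ := row_select (Q.map g)
  have hrk := rank_add hE
  rw [← hcP, ← hcQ] at hrk
  refine ⟨2 * c * τQ.card, ?_⟩
  intro b z hzV hzP hzind
  -- choose the window
  have hN : ∃ N : ℕ, c ≤ N ∧ ∀ i s, z i s ∈ Win g L t (-N) N := by
    have h1 : ∀ i s, ∃ n : ℕ, z i s ∈ Win g L t (-n) n := fun i s =>
      exists_Win g L t (mem_AA_of_RL φ ht (hzV i s))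
    choose n hn using h1
    refine ⟨max c (Finset.univ.sup fun x : Fin b × Fin r => n x.1 x.2), le_max_left _ _, ?_⟩
    intro i s
    have h2 : n i s ≤ max c (Finset.univ.sup fun x : Fin b × Fin r => n x.1 x.2) :=
      (Finset.le_sup (f := fun x : Fin b × Fin r => n x.1 x.2) (Finset.mem_univ (i, s))).trans
        (le_max_right _ _)
    exact Win_mono g L t (by omega) (by omega) (hn i s)
  obtain ⟨N, hcN, hzN⟩ := hN
  let I1 := Finset.Ico (-(N : ℤ) + c) (N - c)
  let I2 := Finset.Ico (-(N : ℤ)) N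
  let F : Fin b ⊕ ((τQ × I1) ⊕ (τP × I2)) → (Fin r → D) :=
    Sum.elim z (Sum.elim (fun x => gg g (t ^ (x.2 : ℤ)) • (Q.map g) x.1)
      (fun x => Pi.single (x.1 : Fin r) (gg g (t ^ (x.2 : ℤ)))))
  let w : Finset (Fin r → D) := (Finset.univ ×ˢ I2).image fun x : Fin r × ℤ =>
    Pi.single x.1 (gg g (t ^ x.2))
  have hmem : ∀ x : Fin r → D, (∀ s, x s ∈ Win g L t (-N) N) →
      x ∈ Submodule.span (subD g L) (w : Set (Fin r → D)) := by
    intro x hx
    have h1 : x = ∑ s, Pi.single s (x s) := (Finset.univ_sum_single x).symm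
    rw [h1]
    apply sum_mem
    intro s _
    have h2 := hx s
    unfold Win at h2
    have h3 : ∀ y ∈ Submodule.span (subD g L) ((fun j : ℤ => gg g (t ^ j)) '' Set.Ico (-(N : ℤ)) N),
        (Pi.single s y : Fin r → D) ∈ Submodule.span (subD g L) (w : Set (Fin r → D)) := by
      intro y hy
      induction hy using Submodule.span_induction with
      | mem y h =>
        obtain ⟨j, hj, rfl⟩ := h
        apply Submodule.subset_span
        rw [Finset.mem_coe, Finset.mem_image]
        refine ⟨(s, j), ?_, rfl⟩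
        rw [Finset.mem_product]
        exact ⟨Finset.mem_univ _, Finset.mem_Ico.mpr hj⟩
      | zero => rw [Pi.single_zero]; exact zero_mem _
      | add x y _ _ hx hy => rw [Pi.single_add]; exact add_mem hx hy
      | smul c x _ hx =>
        have : (Pi.single s (c • x) : Fin r → D) = c • Pi.single s x := by
          rw [Pi.single_smul]
        rw [this]
        exact Submodule.smul_mem _ _ hx
    exact h3 _ h2
  have hspan : Set.range F ≤ Submodule.span (subD g L) (w : Set (Fin r → D)) := by
    rintro _ ⟨i | x | x, rfl⟩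
    · exact hmem _ (hzN i)
    · apply hmem
      intro s
      have h1 := Finset.mem_Ico.mp x.2.2
      have h2 := hc x.1 s _ _ _ (pow_mem_Win g L t h1.1 h1.2)
      exact Win_mono g L t (by omega) (by omega) h2
    · apply hmem
      intro s
      have h1 := Finset.mem_Ico.mp x.2.2
      change (Pi.single (x.1 : Fin r) (gg g (t ^ (x.2 : ℤ))) : Fin r → D) s ∈ _
      by_cases hs : s = x.1
      · subst hs
        rw [Pi.single_eq_same]
        exact pow_mem_Win g L t h1.1 h1.2
      · rw [Pi.single_eq_of_ne hs]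
        exact zero_mem _
  have hli : LinearIndependent (subD g L) F := by
    rw [Fintype.linearIndependent_iff]
    intro h hsum
    rw [Fintype.sum_sum_type, Fintype.sum_sum_type] at hsum
    set x1 : Fin r → D := ∑ i, (h (Sum.inl i)) • F (Sum.inl i) with hx1
    set x2 : Fin r → D := ∑ x, (h (Sum.inr (Sum.inl x))) • F (Sum.inr (Sum.inl x)) with hx2
    set x3 : Fin r → D := ∑ x, (h (Sum.inr (Sum.inr x))) • F (Sum.inr (Sum.inr x)) with hx3
    have e1 : x1 = ∑ i, (h (Sum.inl i) : D) • z i := rfl
    -- x2 is a boundary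
    have e2 : x2 = Matrix.vecMul (∑ x : τQ × I1, (Pi.single (x.1 : Fin q)
        ((h (Sum.inr (Sum.inl x)) : D) * gg g (t ^ (x.2 : ℤ))) : Fin q → D)) (Q.map g) := by
      rw [vecMul_sum', hx2]
      apply Finset.sum_congr rfl
      intro x _
      rw [Matrix.single_vecMul]
      change (h (Sum.inr (Sum.inl x)) : D) • (gg g (t ^ (x.2 : ℤ)) • (Q.map g) x.1) = _
      rw [smul_smul]
      rfl
    have e3P : Matrix.vecMul x3 (P.map g) = 0 := by
      have h1 : x3 = -(x1 + x2) := by
        rw [eq_neg_iff_add_eq_zero, ← hsum]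
        abel
      rw [h1, Matrix.neg_vecMul, Matrix.add_vecMul, e2, hE.comp, e1, vecMul_sum']
      have : ∑ i, Matrix.vecMul ((h (Sum.inl i) : D) • z i) (P.map g) = 0 := by
        apply Finset.sum_eq_zero
        intro i _
        rw [vecMul_smul', hzP, smul_zero]
      rw [this]
      simp
    have h3 : ∀ x, h (Sum.inr (Sum.inr x)) = 0 := by
      have h4 : ∑ s : τP, (∑ j : I2, (h (Sum.inr (Sum.inr (s, j))) : D) * gg g (t ^ (j : ℤ))) •
          (P.map g) s = 0 := by
        rw [← e3P, hx3, vecMul_sum', Fintype.sum_prod_type]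
        apply Finset.sum_congr rfl
        intro s _
        rw [Finset.sum_smul]
        apply Finset.sum_congr rfl
        intro j _
        change _ = Matrix.vecMul ((h (Sum.inr (Sum.inr (s, j))) : D) •
          (Pi.single (s : Fin r) (gg g (t ^ (j : ℤ))) : Fin r → D)) (P.map g)
        rw [vecMul_smul', Matrix.single_vecMul, ← smul_smul]
        rfl
      have h5 := (Fintype.linearIndependent_iff.mp hτP) _ h4
      rintro ⟨s, j⟩
      have h6 := h5 s
      have hpow' : LinearIndependent (subD g L) (fun j : I2 => gg g (t ^ (j : ℤ))) :=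
        hpow.comp (fun j : I2 => (j : ℤ)) Subtype.coe_injective
      exact (Fintype.linearIndependent_iff.mp hpow') (fun j => h (Sum.inr (Sum.inr (s, j)))) h6 j
    have hx3' : x3 = 0 := by
      rw [hx3]
      apply Finset.sum_eq_zero
      intro x _
      rw [h3, zero_smul]
    rw [hx3', add_zero] at hsum
    have h1 : ∀ i, h (Sum.inl i) = 0 := by
      intro i
      apply Subtype.ext
      apply hzind (fun i => (h (Sum.inl i) : D)) (fun i => (h (Sum.inl i)).2)
      rw [← e1, eq_neg_of_add_eq_zero_left hsum, e2]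
      apply InB_neg
      refine ⟨_, ?_, rfl⟩
      apply InV_sum
      intro x _ s
      by_cases hs : s = (x.1 : Fin q)
      · subst hs
        rw [Pi.single_eq_same]
        exact Submodule.smul_mem _ (h (Sum.inr (Sum.inl x))) (gg_mem_RL g L _)
      · rw [Pi.single_eq_of_ne hs]
        exact zero_mem _
    have hx1' : x1 = 0 := by
      rw [hx1]
      apply Finset.sum_eq_zero
      intro x _
      rw [h1, zero_smul]
    rw [hx1', zero_add] at hsum
    have h2 : ∀ x, h (Sum.inr (Sum.inl x)) = 0 := by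
      have h4 : ∑ s : τQ, (∑ j : I1, (h (Sum.inr (Sum.inl (s, j))) : D) * gg g (t ^ (j : ℤ))) •
          (Q.map g) s = 0 := by
        rw [← hsum, hx2, Fintype.sum_prod_type]
        apply Finset.sum_congr rfl
        intro s _
        rw [Finset.sum_smul]
        apply Finset.sum_congr rfl
        intro j _
        change _ = (h (Sum.inr (Sum.inl (s, j))) : D) • (gg g (t ^ (j : ℤ)) • (Q.map g) s)
        rw [smul_smul]
      have h5 := (Fintype.linearIndependent_iff.mp hτQ) _ h4
      rintro ⟨s, j⟩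
      have h6 := h5 s
      have hpow' : LinearIndependent (subD g L) (fun j : I1 => gg g (t ^ (j : ℤ))) :=
        hpow.comp (fun j : I1 => (j : ℤ)) Subtype.coe_injective
      exact (Fintype.linearIndependent_iff.mp hpow') (fun j => h (Sum.inr (Sum.inl (s, j)))) h6 j
    rintro (i | x | x)
    · exact h1 i
    · exact h2 x
    · exact h3 x
  have hcard := linearIndependent_le_span_aux' F hli (w : Set (Fin r → D)) hspan
  have hw : Fintype.card (w : Set (Fin r → D)) ≤ r * (2 * N) := by
    have h3 : Fintype.card (w : Set (Fin r → D)) = w.card := by simp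
    rw [h3]
    refine Finset.card_image_le.trans ?_
    rw [Finset.card_product, Finset.card_univ, Fintype.card_fin, Int.card_Ico]
    apply Nat.mul_le_mul_left
    omega
  have hI : Fintype.card (Fin b ⊕ ((τQ × I1) ⊕ (τP × I2))) =
      b + (τQ.card * (2 * N - 2 * c) + τP.card * (2 * N)) := by
    rw [Fintype.card_sum, Fintype.card_sum, Fintype.card_prod, Fintype.card_prod,
      Fintype.card_coe, Fintype.card_coe, Fintype.card_coe, Fintype.card_coe, Fintype.card_fin,
      Int.card_Ico, Int.card_Ico]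
    congr 2
    · congr 1
      omega
    · congr 1
      omega
  rw [hI] at hcard
  have h7 : b + (τQ.card * (2 * N - 2 * c) + τP.card * (2 * N)) ≤
      (τP.card + τQ.card) * (2 * N) := by
    rw [hrk]
    exact hcard.trans hw
  obtain ⟨k, hk⟩ := Nat.exists_eq_add_of_le hcN
  subst hk
  have h8 : 2 * (c + k) - 2 * c = 2 * k := by omega
  rw [h8] at h7
  nlinarith [h7]

/-- The homology over `D_K` is finite-dimensional. -/
theorem exists_bas (hind : CosInd g) (hE : Exa g P Q) (φ : Γ →* Multiplicative ℤ)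
    (hφ : Function.Surjective φ) : ∃ (b : ℕ) (z : Fin b → Fin r → D), IsBas g P Q φ.ker b z := by
  classical
  obtain ⟨C, hC⟩ := dim_bound hind hE φ hφ
  let Good : ℕ → Prop := fun b => ∃ z : Fin b → Fin r → D, (∀ i, InV g φ.ker (z i)) ∧
      (∀ i, Matrix.vecMul (z i) (P.map g) = 0) ∧
      (∀ c : Fin b → D, (∀ i, c i ∈ subD g φ.ker) → InB g Q φ.ker (∑ i, c i • z i) →
        ∀ i, c i = 0)
  have h0 : Good 0 := ⟨fun i => i.elim0, fun i => i.elim0, fun i => i.elim0,
    fun _ _ _ i => i.elim0⟩
  have hex : Good (Nat.findGreatest Good C) := Nat.findGreatest_spec (Nat.zero_le C) h0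
  obtain ⟨b, hb⟩ : ∃ b, b = Nat.findGreatest Good C := ⟨_, rfl⟩
  rw [← hb] at hex
  obtain ⟨z, hz1, hz2, hz3⟩ := hex
  refine ⟨b, z, hz1, hz2, hz3, ?_⟩
  intro v hv hvP
  by_contra hcon
  push Not at hcon
  have hgood : Good (b + 1) := by
    refine ⟨Fin.cons v z, ?_, ?_, ?_⟩
    · intro i
      refine Fin.cases ?_ (fun i => ?_) i
      · exact hv
      · exact hz1 i
    · intro i
      refine Fin.cases ?_ (fun i => ?_) i
      · exact hvP
      · exact hz2 i
    · intro c hc hB
      rw [Fin.sum_univ_succ] at hB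
      simp only [Fin.cons_zero, Fin.cons_succ] at hB
      by_cases hc0 : c 0 = 0
      · rw [hc0, zero_smul, zero_add] at hB
        have h1 := hz3 (fun i => c i.succ) (fun i => hc _) hB
        intro i
        refine Fin.cases hc0 (fun i => h1 i) i
      · exfalso
        apply hcon (fun i => -((c 0)⁻¹ * c i.succ))
          (fun i => neg_mem (mul_mem (inv_mem (hc 0)) (hc _)))
        have h2 := InB_smul g Q (inv_mem (hc 0)) hB
        convert h2 using 1
        rw [smul_add, smul_smul, inv_mul_cancel₀ hc0, one_smul, Finset.smul_sum, sub_eq_add_neg,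
          ← Finset.sum_neg_distrib]
        congr 1
        apply Finset.sum_congr rfl
        intro i _
        rw [neg_smul, neg_neg, smul_smul]
  have hle : b + 1 ≤ C := by
    obtain ⟨z', h1, h2, h3⟩ := hgood
    exact hC _ z' h1 h2 h3
  have := Nat.le_findGreatest hle hgood
  omega

end

end Pool.Agent.Lib.MPf08bf1
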