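import Pool.Agent.Lib.MPf08bf1.Grow

/-!
Semilinear automorphisms acting on the lattice of subspaces; more growth lemmas.
-/

noncomputable section

namespace Pool.Agent.Lib.MPf08bf1

section
variable {E M : Type} [DivisionRing E] [AddCommGroup M] [Module E M]

/-- A semilinear automorphism of `M`. -/
structure SAut (E M : Type) [DivisionRing E] [AddCommGroup M] [Module E M] where
  j : M ≃+ M
  σ : E → E
  σ_bij : Function.Bijective σ
  hj : ∀ (c : E) (x : M), j (c • x) = σ c • j x

/-- The action on the lattice of subspaces (forward image). -/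
def SAut.fwd (φ : SAut E M) (V : Submodule E M) : Submodule E M where
  carrier := {x | φ.j.symm x ∈ V}
  add_mem' := by
    intro a b ha hb
    change φ.j.symm (a + b) ∈ V
    rw [map_add]
    exact V.add_mem ha hb
  zero_mem' := by
    change φ.j.symm 0 ∈ V
    rw [map_zero]
    exact V.zero_mem
  smul_mem' := by
    intro c x hx
    change φ.j.symm (c • x) ∈ V
    obtain ⟨d, rfl⟩ := φ.σ_bij.2 c
    have : φ.σ d • x = φ.j (d • φ.j.symm x) := by rw [φ.hj, AddEquiv.apply_symm_apply]
    rw [this, AddEquiv.symm_apply_apply]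
    exact V.smul_mem d hx

theorem SAut.mem_fwd (φ : SAut E M) (V : Submodule E M) (x : M) :
    x ∈ φ.fwd V ↔ φ.j.symm x ∈ V := Iff.rfl

theorem SAut.apply_mem_fwd (φ : SAut E M) (V : Submodule E M) (x : M) :
    φ.j x ∈ φ.fwd V ↔ x ∈ V := by
  rw [φ.mem_fwd, AddEquiv.symm_apply_apply]

/-- The backward action. -/
def SAut.bwd (φ : SAut E M) (V : Submodule E M) : Submodule E M where
  carrier := {x | φ.j x ∈ V}
  add_mem' := by
    intro a b ha hb
    change φ.j (a + b) ∈ V
    rw [map_add]
    exact V.add_mem ha hb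
  zero_mem' := by
    change φ.j 0 ∈ V
    rw [map_zero]
    exact V.zero_mem
  smul_mem' := by
    intro c x hx
    change φ.j (c • x) ∈ V
    rw [φ.hj]
    exact V.smul_mem _ hx

/-- The order automorphism of the lattice of subspaces. -/
def SAut.lat (φ : SAut E M) : Submodule E M ≃o Submodule E M where
  toFun := φ.fwd
  invFun := φ.bwd
  left_inv V := by
    ext x
    change φ.j.symm (φ.j x) ∈ V ↔ _
    rw [AddEquiv.symm_apply_apply]
  right_inv V := by
    ext x
    change φ.j (φ.j.symm x) ∈ V ↔ _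
    rw [AddEquiv.apply_symm_apply]
  map_rel_iff' := by
    intro V W
    constructor
    · intro h x hx
      have := h ((φ.apply_mem_fwd V x).mpr hx)
      exact (φ.apply_mem_fwd W x).mp this
    · intro h x hx
      exact h hx

theorem SAut.lat_apply (φ : SAut E M) (V : Submodule E M) : φ.lat V = φ.fwd V := rfl

theorem SAut.mem_lat (φ : SAut E M) (V : Submodule E M) (x : M) :
    φ.j x ∈ φ.lat V ↔ x ∈ V := φ.apply_mem_fwd V x

/-- `V` and its image are semilinearly isomorphic. -/
def SAut.resEquiv (φ : SAut E M) (V : Submodule E M) : V ≃+ φ.lat V where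
  toFun x := ⟨φ.j x, (φ.mem_lat V x).mpr x.2⟩
  invFun x := ⟨φ.j.symm x, x.2⟩
  left_inv x := by
    apply Subtype.ext
    exact φ.j.symm_apply_apply x
  right_inv x := by
    apply Subtype.ext
    exact φ.j.apply_symm_apply x
  map_add' x y := by
    apply Subtype.ext
    exact map_add φ.j _ _

theorem SAut.rank_eq (φ : SAut E M) (V : Submodule E M) :
    Module.rank E (φ.lat V) = Module.rank E V := by
  symm
  apply rank_eq_of_equiv_equiv φ.σ (φ.resEquiv V) φ.σ_bij
  intro c x
  apply Subtype.ext
  exact φ.hj c x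

theorem SAut.dimPres (φ : SAut E M) : DimPres φ.lat where
  fin V hV := by
    have h1 : Module.rank E V < Cardinal.aleph0 := Module.rank_lt_aleph0_iff.mpr hV
    exact Module.rank_lt_aleph0_iff.mp (by rw [φ.rank_eq]; exact h1)
  eq V := by
    unfold Module.finrank
    rw [φ.rank_eq]

theorem SAut.lat_span (φ : SAut E M) (x : M) :
    φ.lat (Submodule.span E {x}) = Submodule.span E {φ.j x} := by
  apply le_antisymm
  · intro y hy
    change φ.j.symm y ∈ Submodule.span E {x} at hy
    obtain ⟨c, hc⟩ := Submodule.mem_span_singleton.mp hy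
    refine Submodule.mem_span_singleton.mpr ⟨φ.σ c, ?_⟩
    rw [← φ.hj, hc, AddEquiv.apply_symm_apply]
  · rw [Submodule.span_le, Set.singleton_subset_iff]
    exact (φ.mem_lat _ _).mpr (Submodule.mem_span_singleton_self x)

end

section
variable {E M : Type} [DivisionRing E] [AddCommGroup M] [Module E M]
  {X Y : Submodule E M ≃o Submodule E M}

theorem Sm_le_of_rel {V T H : Submodule E M} (h1 : V ≤ T ⊔ H) (h2 : X T ≤ T ⊔ H) (n : ℕ) :
    Sm X V n ≤ T ⊔ Sm X H n := by
  induction n with
  | zero => exact bot_le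
  | succ n ih =>
    rw [Sm_succ, Sm_succ]
    have h3 := X.monotone ih
    rw [map_sup] at h3
    refine sup_le (h1.trans (sup_le_sup_left le_sup_left _)) (h3.trans (sup_le ?_ ?_))
    · exact h2.trans (sup_le_sup_left le_sup_left _)
    · exact le_sup_right.trans le_sup_right

theorem Sm_add (V : Submodule E M) (m k : ℕ) :
    Sm X V (m + k) = Sm X V m ⊔ X^[m] (Sm X V k) := by
  induction m with
  | zero => rw [zero_add, Sm_zero, bot_sup_eq]; rfl
  | succ m ih =>
    have : m + 1 + k = (m + k) + 1 := by ring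
    rw [this, Sm_succ, ih, map_sup, Sm_succ, sup_assoc, Function.iterate_succ_apply']

theorem iter_mono (m : ℕ) {V W : Submodule E M} (h : V ≤ W) : X^[m] V ≤ X^[m] W :=
  X.monotone.iterate m h

theorem iter_Sm_le (V : Submodule E M) (m k : ℕ) : X^[m] (Sm X V k) ≤ Sm X V (k + m) := by
  rw [add_comm, Sm_add]
  exact le_sup_right

theorem Sm_Sm_le (V : Submodule E M) (m n : ℕ) : Sm X (Sm X V m) n ≤ Sm X V (n + m) := by
  induction n with
  | zero => exact bot_le
  | succ n ih =>
    rw [Sm_succ]
    refine sup_le (Sm_mono X V (Nat.le_add_left _ _)) ?_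
    have := (X.monotone ih).trans (X_Sm_le X V (n + m))
    rwa [add_right_comm] at this

theorem dm_le_mul (hX : DimPres X) (V : Submodule E M) [FiniteDimensional E V] (n : ℕ) :
    Module.finrank E (Sm X V n) ≤ Module.finrank E V * n := by
  induction n with
  | zero =>
    rw [Sm_zero, finrank_bot]
    exact Nat.zero_le _
  | succ n ih =>
    rw [Sm_succ]
    have := Sm_fin hX V n
    have := hX.fin _ this
    have h1 := Submodule.finrank_add_le_finrank_add_finrank V (X (Sm X V n))
    rw [hX.eq] at h1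
    rw [Nat.mul_succ]
    omega

/-- The upper growth bound from relations. -/
theorem growth_of_rel (hX : DimPres X) {V T E₀ : Submodule E M} [FiniteDimensional E T]
    [FiniteDimensional E E₀] {m : ℕ} (h1 : V ≤ T ⊔ Sm X E₀ m) (h2 : X T ≤ T ⊔ Sm X E₀ m) (n : ℕ) :
    Module.finrank E (Sm X V n) ≤
      Module.finrank E E₀ * n + (Module.finrank E E₀ * m + Module.finrank E T) := by
  have h3 := (Sm_le_of_rel h1 h2 n).trans (sup_le_sup_left (Sm_Sm_le E₀ m n) T)
  have := Sm_fin hX E₀ (n + m)
  have h4 := finrank_mono' h3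
  have h5 := Submodule.finrank_add_le_finrank_add_finrank T (Sm X E₀ (n + m))
  have h6 := dm_le_mul hX E₀ (n + m)
  rw [mul_add] at h6
  omega

/-- Growth under the composite. -/
theorem Sm_comp_le (hXY : ∀ V, X (Y V) = Y (X V)) (Z : Submodule E M ≃o Submodule E M)
    (hZ : ∀ V, Z V = X (Y V)) (V : Submodule E M) (n : ℕ) : Sm Z V n ≤ Sm X (Sm Y V n) n := by
  induction n with
  | zero => exact bot_le
  | succ n ih =>
    rw [Sm_succ Z]
    refine sup_le ?_ ?_
    · exact (le_Sm Y V n).trans (le_Sm X _ n)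
    · rw [hZ]
      have h1 : Y (Sm X (Sm Y V n) n) ≤ Sm X (Sm Y V (n + 1)) n := by
        rw [Sm_Sm X Y hXY, Sm_Sm X Y hXY]
        exact X_Sm_le Y _ n
      exact (X.monotone ((Y.monotone ih).trans h1)).trans (X_Sm_le X _ n)

/-- Growth of a power: upper bound. -/
theorem Sm_pow_le (Z : Submodule E M ≃o Submodule E M) (m : ℕ) (hZ : ∀ V, Z V = X^[m + 1] V)
    (V : Submodule E M) (n : ℕ) : Sm Z V n ≤ Sm X V ((m + 1) * n) := by
  induction n with
  | zero => exact bot_le
  | succ n ih =>
    rw [Sm_succ Z, hZ, Nat.mul_succ]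
    refine sup_le ?_ ((iter_mono _ ih).trans (iter_Sm_le _ _ _))
    exact (le_Sm X V 0).trans (Sm_mono X V (by omega))

/-- Growth of a power: lower bound. -/
theorem Sm_pow_ge (Z : Submodule E M ≃o Submodule E M) (m : ℕ) (hZ : ∀ V, Z V = X^[m] V)
    (V : Submodule E M) (n : ℕ) : Sm X V (m * n) ≤ Sm Z (Sm X V m) n := by
  induction n with
  | zero => exact bot_le
  | succ n ih =>
    rw [Sm_succ Z, hZ, Nat.mul_succ, add_comm, Sm_add]
    exact sup_le_sup_left (iter_mono _ ih) _

end

end Pool.Agent.Lib.MPf08bf1
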