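import Pool.Agent.Lib.MPf08bf1.DFin
import Pool.Agent.Lib.MPf08bf1.Semi

/-!
Subadditivity of the dimensions of the homology over `D_{ker φ}`.
-/

open scoped Matrix

set_option linter.unusedSectionVars false

noncomputable section

namespace Pool.Agent.Lib.MPf08bf1

section
variable {Γ : Type} [Group Γ] {D : Type} [DivisionRing D] (g : MonoidAlgebra ℤ Γ →+* D)
  {p r q : ℕ} (P : Matrix (Fin r) (Fin p) (MonoidAlgebra ℤ Γ))
  (Q : Matrix (Fin q) (Fin r) (MonoidAlgebra ℤ Γ)) (L : Subgroup Γ)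

/-- Boundaries as a subspace. -/
def BLs : Submodule (subD g L) (Fin r → D) where
  carrier := {v | InB g Q L v}
  add_mem' := InB_add g Q
  zero_mem' := InB_zero g Q
  smul_mem' c _ hv := InB_smul g Q c.2 hv

theorem mem_BLs {v : Fin r → D} : v ∈ BLs g Q L ↔ InB g Q L v := Iff.rfl

/-- Cycles as a subspace. -/
def ZLs : Submodule (subD g L) (Fin r → D) where
  carrier := {v | InV g L v ∧ Matrix.vecMul v (P.map g) = 0}
  add_mem' := by
    rintro v w ⟨h1, h2⟩ ⟨h3, h4⟩
    exact ⟨InV_add g h1 h3, by rw [Matrix.add_vecMul, h2, h4, add_zero]⟩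
  zero_mem' := ⟨InV_zero g, Matrix.zero_vecMul _⟩
  smul_mem' := by
    rintro c v ⟨h1, h2⟩
    refine ⟨InV_smul g c.2 h1, ?_⟩
    change Matrix.vecMul ((c : D) • v) _ = 0
    rw [vecMul_smul', h2, smul_zero]

/-- The ambient space for the homology. -/
abbrev MM : Type := (Fin r → D) ⧸ BLs g Q L

/-- The space of cycles modulo boundaries. -/
def ZM : Submodule (subD g L) (MM g Q L) := (ZLs g P L).map (BLs g Q L).mkQ

variable [L.Normal]

theorem InV_gg {r : ℕ} {v : Fin r → D} (h : InV g L v) (γ : Γ) : InV g L (gg g γ • v) :=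
  fun i => gg_mul_RL g L (h i) γ

theorem InB_gg {v : Fin r → D} (h : InB g Q L v) (γ : Γ) : InB g Q L (gg g γ • v) := by
  obtain ⟨y, hy, rfl⟩ := h
  exact ⟨gg g γ • y, InV_gg g L hy γ, vecMul_smul' _ _ _⟩

/-- Conjugation on `D_L`. -/
def sigm (γ : Γ) : subD g L →+* subD g L where
  toFun d := ⟨gg g γ * d * gg g γ⁻¹, conj_mem_subD g L γ d.2⟩
  map_one' := by
    apply Subtype.ext
    change gg g γ * 1 * gg g γ⁻¹ = 1
    rw [mul_one, ← map_mul, mul_inv_cancel, map_one]
  map_mul' x y := by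
    apply Subtype.ext
    change gg g γ * (x * y) * gg g γ⁻¹ = (gg g γ * x * gg g γ⁻¹) * (gg g γ * y * gg g γ⁻¹)
    have h1 : gg g γ⁻¹ * gg g γ = 1 := by rw [← map_mul, inv_mul_cancel, map_one]
    calc gg g γ * (x * y) * gg g γ⁻¹ = gg g γ * x * 1 * y * gg g γ⁻¹ := by
          rw [mul_one]; simp only [mul_assoc]
      _ = _ := by rw [← h1]; simp only [mul_assoc]
  map_zero' := by
    apply Subtype.ext
    change gg g γ * 0 * gg g γ⁻¹ = 0
    rw [mul_zero, zero_mul]
  map_add' x y := by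
    apply Subtype.ext
    change gg g γ * (x + y) * gg g γ⁻¹ = gg g γ * x * gg g γ⁻¹ + gg g γ * y * gg g γ⁻¹
    rw [mul_add, add_mul]

theorem sigm_coe (γ : Γ) (d : subD g L) : (sigm g L γ d : D) = gg g γ * d * gg g γ⁻¹ := rfl

theorem sigm_sigm (γ : Γ) (d : subD g L) : sigm g L γ (sigm g L γ⁻¹ d) = d := by
  apply Subtype.ext
  rw [sigm_coe, sigm_coe, inv_inv]
  have h1 : gg g γ * gg g γ⁻¹ = 1 := by rw [← map_mul, mul_inv_cancel, map_one]
  calc gg g γ * (gg g γ⁻¹ * d * gg g γ) * gg g γ⁻¹ =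
      (gg g γ * gg g γ⁻¹) * d * (gg g γ * gg g γ⁻¹) := by simp only [mul_assoc]
    _ = d := by rw [h1, one_mul, mul_one]

/-- Left multiplication as a semilinear map. -/
def lmul (r : ℕ) (γ : Γ) : (Fin r → D) →ₛₗ[sigm g L γ] (Fin r → D) where
  toFun v := gg g γ • v
  map_add' v w := smul_add _ _ _
  map_smul' d v := by
    ext i
    change gg g γ * ((d : D) * v i) = (gg g γ * d * gg g γ⁻¹) * (gg g γ * v i)
    have h1 : gg g γ⁻¹ * gg g γ = 1 := by rw [← map_mul, inv_mul_cancel, map_one]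
    calc gg g γ * ((d : D) * v i) = gg g γ * d * 1 * v i := by rw [mul_one]; simp only [mul_assoc]
      _ = _ := by rw [← h1]; simp only [mul_assoc]

/-- The induced map on the quotient. -/
def mmap (γ : Γ) : MM g Q L →ₛₗ[sigm g L γ] MM g Q L :=
  Submodule.mapQ (BLs g Q L) (BLs g Q L) (lmul g L r γ) (fun _ hv => InB_gg g Q L hv γ)

theorem mmap_mk (γ : Γ) (v : Fin r → D) :
    mmap g Q L γ (Submodule.Quotient.mk v) = Submodule.Quotient.mk (gg g γ • v) := rfl

theorem mmap_mmap (γ γ' : Γ) (x : MM g Q L) :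
    mmap g Q L γ (mmap g Q L γ' x) = mmap g Q L (γ * γ') x := by
  obtain ⟨v, rfl⟩ := Submodule.Quotient.mk_surjective _ x
  rw [mmap_mk, mmap_mk, mmap_mk, smul_smul, map_mul]

theorem mmap_one (x : MM g Q L) : mmap g Q L 1 x = x := by
  obtain ⟨v, rfl⟩ := Submodule.Quotient.mk_surjective _ x
  rw [mmap_mk, map_one, one_smul]

/-- The semilinear automorphism given by `γ`. -/
def sAut (γ : Γ) : SAut (subD g L) (MM g Q L) where
  j :=
    { toFun := mmap g Q L γ
      invFun := mmap g Q L γ⁻¹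
      left_inv := fun x => by rw [mmap_mmap, inv_mul_cancel, mmap_one]
      right_inv := fun x => by rw [mmap_mmap, mul_inv_cancel, mmap_one]
      map_add' := map_add _ }
  σ := sigm g L γ
  σ_bij := ⟨Function.LeftInverse.injective (g := sigm g L γ⁻¹)
      (fun d => by have := sigm_sigm g L γ⁻¹ d; rwa [inv_inv] at this),
    Function.RightInverse.surjective (g := sigm g L γ⁻¹) (fun d => sigm_sigm g L γ d)⟩
  hj c x := (mmap g Q L γ).map_smulₛₗ c x

/-- The action on the lattice of subspaces. -/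
def lat (γ : Γ) : Submodule (subD g L) (MM g Q L) ≃o Submodule (subD g L) (MM g Q L) :=
  (sAut g Q L γ).lat

theorem mem_lat_iff (γ : Γ) (V : Submodule (subD g L) (MM g Q L)) (x : MM g Q L) :
    x ∈ lat g Q L γ V ↔ mmap g Q L γ⁻¹ x ∈ V := Iff.rfl

theorem lat_mul (γ γ' : Γ) (V : Submodule (subD g L) (MM g Q L)) :
    lat g Q L (γ * γ') V = lat g Q L γ (lat g Q L γ' V) := by
  ext x
  rw [mem_lat_iff, mem_lat_iff, mem_lat_iff, mmap_mmap, mul_inv_rev]

theorem lat_one (V : Submodule (subD g L) (MM g Q L)) : lat g Q L 1 V = V := by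
  ext x
  rw [mem_lat_iff, inv_one, mmap_one]

theorem lat_mem {l : Γ} (hl : l ∈ L) (V : Submodule (subD g L) (MM g Q L)) :
    lat g Q L l V = V := by
  have h1 : ∀ (l : Γ) (hl : l ∈ L), ∀ x,
      mmap g Q L l x = (⟨gg g l, mem_subD g L hl⟩ : subD g L) • x := by
    intro l hl x
    obtain ⟨v, rfl⟩ := Submodule.Quotient.mk_surjective _ x
    rw [mmap_mk]
    rfl
  ext x
  rw [mem_lat_iff, h1 _ (inv_mem hl)]
  constructor
  · intro h
    have h2 := V.smul_mem (⟨gg g l, mem_subD g L hl⟩ : subD g L) h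
    rw [smul_smul] at h2
    have h3 : (⟨gg g l, mem_subD g L hl⟩ : subD g L) * ⟨gg g l⁻¹, mem_subD g L (inv_mem hl)⟩ = 1 := by
      apply Subtype.ext
      change gg g l * gg g l⁻¹ = 1
      rw [← map_mul, mul_inv_cancel, map_one]
    rwa [h3, one_smul] at h2
  · intro h
    exact V.smul_mem _ h

theorem lat_pow (γ : Γ) (m : ℕ) (V : Submodule (subD g L) (MM g Q L)) :
    lat g Q L (γ ^ m) V = (lat g Q L γ)^[m] V := by
  induction m with
  | zero => rw [pow_zero, lat_one]; rfl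
  | succ m ih => rw [pow_succ', lat_mul, ih, Function.iterate_succ_apply']

theorem lat_dimPres (γ : Γ) : DimPres (lat g Q L γ) := (sAut g Q L γ).dimPres

theorem lat_span (γ : Γ) (v : Fin r → D) :
    lat g Q L γ (Submodule.span (subD g L) {Submodule.Quotient.mk v}) =
      Submodule.span (subD g L) {Submodule.Quotient.mk (gg g γ • v)} :=
  (sAut g Q L γ).lat_span _

theorem lat_ZM (γ : Γ) : lat g Q L γ (ZM g P Q L) ≤ ZM g P Q L := by
  intro x hx
  rw [mem_lat_iff] at hx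
  obtain ⟨v, hv, hvx⟩ := hx
  refine ⟨gg g γ • v, ⟨InV_gg g L hv.1 γ, by rw [vecMul_smul', hv.2, smul_zero]⟩, ?_⟩
  have h1 := congrArg (mmap g Q L γ) hvx
  rw [mmap_mmap, mul_inv_cancel, mmap_one] at h1
  rw [← h1]
  rfl

theorem Sm_ZM {V : Submodule (subD g L) (MM g Q L)} (hV : V ≤ ZM g P Q L) (γ : Γ) (n : ℕ) :
    Sm (lat g Q L γ) V n ≤ ZM g P Q L := by
  induction n with
  | zero => exact bot_le
  | succ n ih =>
    rw [Sm_succ]
    exact sup_le hV (((lat g Q L γ).monotone ih).trans (lat_ZM g P Q L γ))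

variable (v : Γ)

/-- Shifting windows. -/
theorem Win_shift {a b : ℤ} {x : D} (hx : x ∈ Win g L v a b) (N : ℤ) :
    gg g (v ^ N) * x ∈ Win g L v (a + N) (b + N) := by
  induction hx using Submodule.span_induction with
  | mem x h =>
    obtain ⟨j, ⟨h1, h2⟩, rfl⟩ := h
    simp only
    rw [← map_mul, ← zpow_add]
    exact pow_mem_Win g L v (by omega) (by omega)
  | zero => rw [mul_zero]; exact zero_mem _
  | add x y _ _ hx hy => rw [mul_add]; exact add_mem hx hy
  | smul c x _ hx =>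
    obtain ⟨c', hc'⟩ := gg_mul_eq g L (v ^ N) c
    rw [smul_eq_mul', ← mul_assoc, hc', mul_assoc, ← smul_eq_mul']
    exact Submodule.smul_mem _ _ hx

omit [L.Normal] in
theorem Win_coeff {n : ℕ} {x : D} (hx : x ∈ Win g L v 0 n) :
    ∃ c : ℕ → subD g L, x = ∑ j ∈ Finset.range n, (c j : D) * gg g (v ^ j) := by
  classical
  induction hx using Submodule.span_induction with
  | mem x h =>
    obtain ⟨j, ⟨h1, h2⟩, rfl⟩ := h
    obtain ⟨k, rfl⟩ := Int.eq_ofNat_of_zero_le h1
    have hk : k ∈ Finset.range n := Finset.mem_range.mpr (by exact_mod_cast h2)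
    refine ⟨fun j => if j = k then 1 else 0, ?_⟩
    rw [Finset.sum_eq_single k]
    · simp
    · intro j _ hj
      simp [hj]
    · intro h; exact absurd hk h
  | zero => exact ⟨fun _ => 0, by simp⟩
  | add x y _ _ hx hy =>
    obtain ⟨c, rfl⟩ := hx
    obtain ⟨c', rfl⟩ := hy
    refine ⟨fun j => c j + c' j, ?_⟩
    rw [← Finset.sum_add_distrib]
    apply Finset.sum_congr rfl
    intro j _
    rw [← add_mul]
    rfl
  | smul c x _ hx =>
    obtain ⟨c', rfl⟩ := hx
    refine ⟨fun j => c * c' j, ?_⟩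
    rw [smul_eq_mul', Finset.mul_sum]
    apply Finset.sum_congr rfl
    intro j _
    rw [← mul_assoc]
    rfl

theorem iter_span (w : Fin r → D) (j : ℕ) :
    (lat g Q L v)^[j] (Submodule.span (subD g L) {Submodule.Quotient.mk w}) =
      Submodule.span (subD g L) {Submodule.Quotient.mk (gg g (v ^ j) • w)} := by
  rw [← lat_pow, lat_span]

theorem iter_le_Sm (V : Submodule (subD g L) (MM g Q L)) {j n : ℕ} (h : j < n) :
    (lat g Q L v)^[j] V ≤ Sm (lat g Q L v) V n := by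
  have h1 := iter_Sm_le (X := lat g Q L v) V j 1
  rw [Sm_one] at h1
  exact h1.trans (Sm_mono _ V (by omega))

theorem Win_smul_mem {n : ℕ} {x : D} (hx : x ∈ Win g L v 0 n) (w : Fin r → D) :
    (Submodule.Quotient.mk (x • w) : MM g Q L) ∈
      Sm (lat g Q L v) (Submodule.span (subD g L) {Submodule.Quotient.mk w}) n := by
  obtain ⟨c, rfl⟩ := Win_coeff g L v hx
  rw [Finset.sum_smul]
  have h1 : (Submodule.Quotient.mk (∑ j ∈ Finset.range n, ((c j : D) * gg g (v ^ j)) • w) :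
      MM g Q L) = ∑ j ∈ Finset.range n, c j • (Submodule.Quotient.mk (gg g (v ^ j) • w) :
        MM g Q L) := by
    rw [← Submodule.mkQ_apply, map_sum]
    apply Finset.sum_congr rfl
    intro j _
    rw [Submodule.mkQ_apply, mul_smul]
    rfl
  rw [h1]
  apply sum_mem
  intro j hj
  apply Submodule.smul_mem
  apply iter_le_Sm g Q L v _ (Finset.mem_range.mp hj)
  rw [iter_span]
  exact Submodule.mem_span_singleton_self _

end

section
variable {Γ : Type} [Group Γ] {D : Type} [DivisionRing D] {g : MonoidAlgebra ℤ Γ →+* D}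
  {p r q : ℕ} {P : Matrix (Fin r) (Fin p) (MonoidAlgebra ℤ Γ)}
  {Q : Matrix (Fin q) (Fin r) (MonoidAlgebra ℤ Γ)} {L : Subgroup Γ} [L.Normal] {v : Γ}
  (hind : CosInd g) (ψ : Γ →* Multiplicative ℤ) (hL : L ≤ ψ.ker) (hv : ψ v ≠ 1)
  {K : Subgroup Γ} (hLK : L ≤ K) (hvK : v ∈ K) (hK : ∀ γ ∈ K, ∃ l ∈ L, ∃ i : ℤ, γ = l * v ^ i)

include hLK hvK in
theorem AA_sub_K {x : D} (hx : x ∈ AA g L v) : x ∈ subD g K := by
  induction hx using Submodule.span_induction with
  | mem x h =>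
    obtain ⟨j, rfl⟩ := h
    exact mem_subD g K (zpow_mem hvK j)
  | zero => exact zero_mem _
  | add x y _ _ hx hy => exact add_mem hx hy
  | smul c x _ hx => exact mul_mem (subD_mono g hLK c.2) hx

theorem InB_mono (hLK : L ≤ K) {w : Fin r → D} (h : InB g Q L w) : InB g Q K w := by
  obtain ⟨y, hy, rfl⟩ := h
  exact ⟨y, fun i => RL_mono g hLK (hy i), rfl⟩

include hind hL hv hLK hvK hK in
/-- A basis consisting of cycles over `R_L`. -/
theorem exists_bas_L {b : ℕ} {z : Fin b → Fin r → D} (hz : IsBas g P Q K b z) :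
    ∃ z' : Fin b → Fin r → D, IsBas g P Q K b z' ∧ ∀ i, InV g L (z' i) := by
  have hK' : ∀ γ ∈ K, gg g γ ∈ AA g L v := fun γ hγ => mem_AA_of g L v (hK γ hγ)
  obtain ⟨s, hs, hs0, hsz⟩ := den_common g L v hind ψ hL hv
    (Finset.univ : Finset (Fin b × Fin r)) (fun _ => (RL g L : Set D)) (fun x => z x.1 x.2)
    (fun _ a ha y hy => AA_mul_RL g L v ha hy)
    (fun x _ => frac_RL g L v hind ψ hL hv hK' (hz.inV x.1 x.2))
  have hsK : s ∈ subD g K := AA_sub_K hLK hvK hs
  have hz'L : ∀ i, InV g L (s • z i) := fun i j => hsz (i, j) (Finset.mem_univ _)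
  refine ⟨fun i => s • z i, ⟨fun i j => RL_mono g hLK (hz'L i j), ?_, ?_, ?_⟩, hz'L⟩
  · intro i
    rw [vecMul_smul', hz.cyc, smul_zero]
  · intro c hc hB
    have h1 : ∑ i, c i • s • z i = ∑ i, (c i * s) • z i :=
      Finset.sum_congr rfl fun i _ => smul_smul _ _ _
    rw [h1] at hB
    have h2 := hz.ind _ (fun i => mul_mem (hc i) hsK) hB
    intro i
    exact (mul_eq_zero.mp (h2 i)).resolve_right hs0
  · intro w hw hwP
    obtain ⟨c, hc, hB⟩ := hz.span w hw hwP
    refine ⟨fun i => c i * s⁻¹, fun i => mul_mem (hc i) (inv_mem hsK), ?_⟩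
    have h1 : ∑ i, (c i * s⁻¹) • s • z i = ∑ i, c i • z i :=
      Finset.sum_congr rfl fun i _ => by rw [smul_smul, mul_assoc, inv_mul_cancel₀ hs0, mul_one]
    rw [h1]
    exact hB

/-- The subspace spanned by the basis. -/
def E0 (g : MonoidAlgebra ℤ Γ →+* D) (Q : Matrix (Fin q) (Fin r) (MonoidAlgebra ℤ Γ))
    (L : Subgroup Γ) {b : ℕ} (z : Fin b → Fin r → D) : Submodule (subD g L) (MM g Q L) :=
  Submodule.span (subD g L) (Set.range fun i => (Submodule.Quotient.mk (z i) : MM g Q L))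

instance {b : ℕ} (z : Fin b → Fin r → D) : FiniteDimensional (subD g L) (E0 g Q L z) :=
  FiniteDimensional.span_of_finite _ (Set.finite_range _)

theorem E0_finrank {b : ℕ} (z : Fin b → Fin r → D) :
    Module.finrank (subD g L) (E0 g Q L z) ≤ b := by
  have := finrank_range_le_card (R := subD g L)
    (fun i => (Submodule.Quotient.mk (z i) : MM g Q L))
  rwa [Fintype.card_fin] at this

include hind hL hv hLK hvK hK in
/-- The relation satisfied by a single cycle. -/
theorem exists_rel {b : ℕ} {z : Fin b → Fin r → D} (hz : IsBas g P Q K b z)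
    (w : Fin r → D) (hw : InV g L w) (hwP : Matrix.vecMul w (P.map g) = 0) :
    ∃ δ n : ℕ, (lat g Q L v)^[δ] (Submodule.span (subD g L) {Submodule.Quotient.mk w}) ≤
      Sm (lat g Q L v) (Submodule.span (subD g L) {Submodule.Quotient.mk w}) δ ⊔
        Sm (lat g Q L v) (E0 g Q L z) n := by
  classical
  have hK' : ∀ γ ∈ K, gg g γ ∈ AA g L v := fun γ hγ => mem_AA_of g L v (hK γ hγ)
  obtain ⟨c, hc, y, hy, hyQ⟩ := hz.span w (fun i => RL_mono g hLK (hw i)) hwP
  obtain ⟨s, hs, hs0, hsx⟩ := den_common g L v hind ψ hL hv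
    (Finset.univ : Finset (Fin b ⊕ Fin q))
    (Sum.elim (fun _ => (AA g L v : Set D)) (fun _ => (RL g L : Set D))) (Sum.elim c y)
    (by
      rintro (i | i) a ha x hx
      · exact AA_mul g L v ha hx
      · exact AA_mul_RL g L v ha hx)
    (by
      rintro (i | i) _
      · exact frac_AA g L v hind ψ hL hv hK' (hc i)
      · exact frac_RL g L v hind ψ hL hv hK' (hy i))
  have hsc : ∀ i, s * c i ∈ AA g L v := fun i => hsx (Sum.inl i) (Finset.mem_univ _)
  have hsy : ∀ i, s * y i ∈ RL g L := fun i => hsx (Sum.inr i) (Finset.mem_univ _)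
  -- choose a window
  obtain ⟨N, hN⟩ : ∃ N : ℕ, s ∈ Win g L v (-N) N ∧ ∀ i, s * c i ∈ Win g L v (-N) N := by
    obtain ⟨n0, hn0⟩ := exists_Win g L v hs
    choose n hn using fun i => exists_Win g L v (hsc i)
    refine ⟨max n0 (Finset.univ.sup n), Win_mono g L v ?_ ?_ hn0, fun i => ?_⟩
    · have := le_max_left n0 (Finset.univ.sup n)
      omega
    · have := le_max_left n0 (Finset.univ.sup n)
      omega
    · have h1 := (Finset.le_sup (f := n) (Finset.mem_univ i)).trans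
        (le_max_right n0 (Finset.univ.sup n))
      exact Win_mono g L v (by omega) (by omega) (hn i)
  set S : D := gg g (v ^ (N : ℤ)) * s with hS
  have hS0 : S ≠ 0 := mul_ne_zero (gg_ne g _) hs0
  have hSW : S ∈ Win g L v 0 ((2 * N : ℕ) : ℤ) := by
    have := Win_shift g L v hN.1 N
    exact Win_mono g L v (by omega) (by push_cast; omega) this
  have hcW : ∀ i, S * c i ∈ Win g L v 0 ((2 * N : ℕ) : ℤ) := by
    intro i
    have := Win_shift g L v (hN.2 i) N
    rw [← mul_assoc] at this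
    exact Win_mono g L v (by omega) (by push_cast; omega) this
  -- the relation modulo boundaries
  have hrel : (Submodule.Quotient.mk (S • w) : MM g Q L) =
      ∑ i, (Submodule.Quotient.mk ((S * c i) • z i) : MM g Q L) := by
    have h1 : ∑ i, (Submodule.Quotient.mk ((S * c i) • z i) : MM g Q L) =
        Submodule.Quotient.mk (∑ i, (S * c i) • z i) := by
      rw [← Submodule.mkQ_apply, map_sum]
      rfl
    rw [h1, Submodule.Quotient.eq, mem_BLs]
    refine ⟨S • y, ?_, ?_⟩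
    · intro i
      change S * y i ∈ RL g L
      rw [hS, mul_assoc]
      exact gg_mul_RL g L (hsy i) _
    · rw [vecMul_smul', hyQ, smul_sub, Finset.smul_sum]
      congr 1
      apply Finset.sum_congr rfl
      intro i _
      rw [smul_smul]
  obtain ⟨d, hd⟩ := Win_coeff g L v hSW
  -- top coefficient
  have hex : ∃ j ∈ Finset.range (2 * N), d j ≠ 0 := by
    by_contra hcon
    push Not at hcon
    apply hS0
    rw [hd]
    apply Finset.sum_eq_zero
    intro j hj
    rw [hcon j hj]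
    simp
  set J := (Finset.range (2 * N)).filter fun j => d j ≠ 0 with hJ
  have hJne : J.Nonempty := by
    obtain ⟨j, hj, hdj⟩ := hex
    exact ⟨j, Finset.mem_filter.mpr ⟨hj, hdj⟩⟩
  set δ := J.max' hJne with hδ
  have hδJ : δ ∈ J := J.max'_mem hJne
  have hdδ : d δ ≠ 0 := (Finset.mem_filter.mp hδJ).2
  have hδlt : δ < 2 * N := Finset.mem_range.mp (Finset.mem_filter.mp hδJ).1
  have hzero : ∀ j ∈ Finset.range (2 * N), δ < j → d j = 0 := by
    intro j hj hlt
    by_contra hne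
    have : j ≤ δ := J.le_max' j (Finset.mem_filter.mpr ⟨hj, hne⟩)
    omega
  have hS2 : S = (∑ j ∈ Finset.range δ, (d j : D) * gg g (v ^ j)) + (d δ : D) * gg g (v ^ δ) := by
    rw [hd, ← Finset.sum_range_succ (fun j => (d j : D) * gg g (v ^ j))]
    symm
    apply Finset.sum_subset
    · intro j hj
      rw [Finset.mem_range] at hj ⊢
      omega
    · intro j hj hj2
      rw [Finset.mem_range] at hj2
      rw [hzero j hj (by omega)]
      simp
  refine ⟨δ, 2 * N, ?_⟩
  rw [iter_span, Submodule.span_le, Set.singleton_subset_iff]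
  set W₁ := Sm (lat g Q L v) (Submodule.span (subD g L) {Submodule.Quotient.mk w}) δ with hW1
  set W₂ := Sm (lat g Q L v) (E0 g Q L z) (2 * N) with hW2
  have hlow : (Submodule.Quotient.mk ((∑ j ∈ Finset.range δ, (d j : D) * gg g (v ^ j)) • w) :
      MM g Q L) ∈ W₁ := by
    apply Win_smul_mem
    apply sum_mem
    intro j hj
    apply Submodule.smul_mem _ (d j)
    have := pow_mem_Win g L v (a := 0) (b := δ) (j := (j : ℤ)) (by positivity)
      (by exact_mod_cast Finset.mem_range.mp hj)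
    rwa [zpow_natCast] at this
  have hhigh : (∑ i, (Submodule.Quotient.mk ((S * c i) • z i) : MM g Q L)) ∈ W₂ := by
    apply sum_mem
    intro i _
    have h1 := Win_smul_mem g Q L v (hcW i) (z i)
    refine Sm_mono_left _ ?_ _ h1
    apply Submodule.span_mono
    rintro _ rfl
    exact ⟨i, rfl⟩
  have htop : (d δ) • (Submodule.Quotient.mk (gg g (v ^ δ) • w) : MM g Q L) ∈ W₁ ⊔ W₂ := by
    have h1 : (d δ) • (Submodule.Quotient.mk (gg g (v ^ δ) • w) : MM g Q L) =
        (∑ i, (Submodule.Quotient.mk ((S * c i) • z i) : MM g Q L)) -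
        (Submodule.Quotient.mk ((∑ j ∈ Finset.range δ, (d j : D) * gg g (v ^ j)) • w) :
          MM g Q L) := by
      rw [← hrel, hS2, add_smul, Submodule.Quotient.mk_add, add_sub_cancel_left, mul_smul]
      rfl
    rw [h1]
    exact sub_mem (Submodule.mem_sup_right hhigh) (Submodule.mem_sup_left hlow)
  have h2 := Submodule.smul_mem _ (d δ)⁻¹ htop
  rwa [smul_smul, inv_mul_cancel₀ hdδ, one_smul] at h2

include hind hL hv hLK hvK hK in
/-- Upper bound for the growth. -/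
theorem growth_up {b : ℕ} {z : Fin b → Fin r → D} (hz : IsBas g P Q K b z)
    (V : Submodule (subD g L) (MM g Q L)) (hV : FiniteDimensional (subD g L) V)
    (hVZ : V ≤ ZM g P Q L) :
    ∃ C, ∀ n, Module.finrank (subD g L) (Sm (lat g Q L v) V n) ≤ b * n + C := by
  have hgood : ∃ (T : Submodule (subD g L) (MM g Q L)) (n : ℕ), FiniteDimensional (subD g L) T ∧
      V ≤ T ⊔ Sm (lat g Q L v) (E0 g Q L z) n ∧
      lat g Q L v T ≤ T ⊔ Sm (lat g Q L v) (E0 g Q L z) n := by
    have hfg : V.FG := Module.Finite.iff_fg.mp hV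
    refine Submodule.fg_induction (motive := fun V _ => V ≤ ZM g P Q L →
      ∃ (T : Submodule (subD g L) (MM g Q L)) (n : ℕ), FiniteDimensional (subD g L) T ∧
      V ≤ T ⊔ Sm (lat g Q L v) (E0 g Q L z) n ∧
      lat g Q L v T ≤ T ⊔ Sm (lat g Q L v) (E0 g Q L z) n) ?_ ?_ V hfg hVZ
    · intro x hx
      have hxZ : x ∈ ZM g P Q L := hx (Submodule.mem_span_singleton_self x)
      obtain ⟨w, ⟨hw, hwP⟩, rfl⟩ := hxZ
      rw [Submodule.mkQ_apply]
      obtain ⟨δ, n, hrel⟩ := exists_rel hind ψ hL hv hLK hvK hK hz w hw hwP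
      set U : Submodule (subD g L) (MM g Q L) :=
        Submodule.span (subD g L) {Submodule.Quotient.mk w} with hU
      have hUf : FiniteDimensional (subD g L) U := FiniteDimensional.span_of_finite _ (Set.finite_singleton _)
      refine ⟨Sm (lat g Q L v) U δ, n, Sm_fin (lat_dimPres g Q L v) U δ, ?_, ?_⟩
      · rcases Nat.eq_zero_or_pos δ with h0 | h0
        · rw [h0] at hrel ⊢
          exact hrel
        · obtain ⟨k, rfl⟩ : ∃ k, δ = k + 1 := ⟨δ - 1, by omega⟩
          exact (le_Sm _ U k).trans le_sup_left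
      · refine (X_Sm_le (lat g Q L v) U δ).trans ?_
        rw [Sm_add U δ 1, Sm_one]
        exact sup_le le_sup_left hrel
    · intro N1 N2 _ _ h1 h2 h12
      obtain ⟨T1, n1, hT1, ha1, hb1⟩ := h1 (le_sup_left.trans h12)
      obtain ⟨T2, n2, hT2, ha2, hb2⟩ := h2 (le_sup_right.trans h12)
      have hm1 := Sm_mono (lat g Q L v) (E0 g Q L z) (le_max_left n1 n2)
      have hm2 := Sm_mono (lat g Q L v) (E0 g Q L z) (le_max_right n1 n2)
      refine ⟨T1 ⊔ T2, max n1 n2, inferInstance, ?_, ?_⟩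
      · exact sup_le (ha1.trans (sup_le_sup le_sup_left hm1))
          (ha2.trans (sup_le_sup le_sup_right hm2))
      · rw [map_sup]
        exact sup_le (hb1.trans (sup_le_sup le_sup_left hm1))
          (hb2.trans (sup_le_sup le_sup_right hm2))
  obtain ⟨T, m, hT, h1, h2⟩ := hgood
  refine ⟨Module.finrank (subD g L) (E0 g Q L z) * m + Module.finrank (subD g L) T, fun n => ?_⟩
  have h3 := growth_of_rel (lat_dimPres g Q L v) h1 h2 n
  have h4 : Module.finrank (subD g L) (E0 g Q L z) * n ≤ b * n :=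
    Nat.mul_le_mul_right n (E0_finrank z)
  omega

include hind hL hv hLK hvK in
/-- Lower bound for the growth. -/
theorem growth_low {b : ℕ} {z : Fin b → Fin r → D} (hz : IsBas g P Q K b z) (n : ℕ) :
    b * n ≤ Module.finrank (subD g L) (Sm (lat g Q L v) (E0 g Q L z) n) := by
  let F : Fin n × Fin b → MM g Q L := fun x =>
    Submodule.Quotient.mk (gg g (v ^ (x.1 : ℕ)) • z x.2)
  have hF : LinearIndependent (subD g L) F := by
    rw [Fintype.linearIndependent_iff]
    intro h hsum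
    have h1 : (Submodule.Quotient.mk (∑ i, (∑ j : Fin n, (h (j, i) : D) * gg g (v ^ (j : ℕ))) •
        z i) : MM g Q L) = 0 := by
      rw [← hsum, ← Submodule.mkQ_apply, map_sum, Fintype.sum_prod_type_right]
      apply Finset.sum_congr rfl
      intro i _
      rw [Finset.sum_smul, map_sum]
      apply Finset.sum_congr rfl
      intro j _
      rw [mul_smul, Submodule.mkQ_apply]
      rfl
    rw [Submodule.Quotient.mk_eq_zero, mem_BLs] at h1
    have h2 := hz.ind _ (fun i => sum_mem fun j _ =>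
      mul_mem (subD_mono g hLK (h (j, i)).2) (mem_subD g K (pow_mem hvK (j : ℕ)))) (InB_mono hLK h1)
    have hpow := pow_indep g L v hind ψ hL hv
    have hpow' : LinearIndependent (subD g L) (fun j : Fin n => gg g (v ^ ((j : ℕ) : ℤ))) :=
      hpow.comp (fun j : Fin n => ((j : ℕ) : ℤ)) (fun a b hab => by
        apply Fin.ext
        have hab' : ((a : ℕ) : ℤ) = ((b : ℕ) : ℤ) := hab
        exact_mod_cast hab')
    rintro ⟨j, i⟩
    have h3 := (Fintype.linearIndependent_iff.mp hpow') (fun j => h (j, i)) (by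
      rw [← h2 i]
      apply Finset.sum_congr rfl
      intro j _
      rw [zpow_natCast]
      rfl) j
    exact h3
  have hmem : ∀ x, F x ∈ Sm (lat g Q L v) (E0 g Q L z) n := by
    rintro ⟨j, i⟩
    apply iter_le_Sm g Q L v _ j.2
    have h1 : Submodule.span (subD g L) {(Submodule.Quotient.mk (z i) : MM g Q L)} ≤
        E0 g Q L z := by
      apply Submodule.span_mono
      rintro _ rfl
      exact ⟨i, rfl⟩
    apply iter_mono (j : ℕ) h1
    rw [iter_span]
    exact Submodule.mem_span_singleton_self _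
  have := Sm_fin (lat_dimPres g Q L v) (E0 g Q L z) n
  have h1 := finrank_span_eq_card hF
  have h2 : Submodule.span (subD g L) (Set.range F) ≤ Sm (lat g Q L v) (E0 g Q L z) n := by
    rw [Submodule.span_le]
    rintro _ ⟨x, rfl⟩
    exact hmem x
  have h3 := finrank_mono' h2
  rw [h1, Fintype.card_prod, Fintype.card_fin, Fintype.card_fin] at h3
  rw [mul_comm]
  exact h3

end

/-- Subadditivity. -/
theorem subadd {Γ : Type} [Group Γ] {D : Type} [DivisionRing D] {g : MonoidAlgebra ℤ Γ →+* D}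
    {p r q : ℕ} {P : Matrix (Fin r) (Fin p) (MonoidAlgebra ℤ Γ)}
    {Q : Matrix (Fin q) (Fin r) (MonoidAlgebra ℤ Γ)} {L : Subgroup Γ} [L.Normal]
    (hind : CosInd g) (v : Fin 3 → Γ) (ψ : Fin 3 → (Γ →* Multiplicative ℤ))
    (hL : ∀ i, L ≤ (ψ i).ker) (hv : ∀ i, ψ i (v i) ≠ 1) (K : Fin 3 → Subgroup Γ)
    (hLK : ∀ i, L ≤ K i) (hvK : ∀ i, v i ∈ K i)
    (hK : ∀ i, ∀ γ ∈ K i, ∃ l ∈ L, ∃ j : ℤ, γ = l * v i ^ j)
    (b : Fin 3 → ℕ) (z : ∀ i, Fin (b i) → Fin r → D) (hz : ∀ i, IsBas g P Q (K i) (b i) (z i))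
    (m : Fin 3 → ℕ) (l : Γ) (hl : l ∈ L)
    (hcomm : v 1 ^ (m 1 + 1) * v 0 ^ (m 0 + 1) * (v 0 ^ (m 0 + 1) * v 1 ^ (m 1 + 1))⁻¹ ∈ L)
    (hm : v 0 ^ (m 0 + 1) * v 1 ^ (m 1 + 1) = v 2 ^ (m 2 + 1) * l) :
    (m 2 + 1) * b 2 ≤ (m 0 + 1) * b 0 + (m 1 + 1) * b 1 := by
  obtain ⟨z', hz', hz'L⟩ := exists_bas_L hind (ψ 2) (hL 2) (hv 2) (hLK 2) (hvK 2) (hK 2) (hz 2)
  let X := lat g Q L (v 0 ^ (m 0 + 1))
  let Y := lat g Q L (v 1 ^ (m 1 + 1))
  let Z := lat g Q L (v 2 ^ (m 2 + 1))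
  let X3 := lat g Q L (v 2)
  have hX : DimPres X := lat_dimPres g Q L _
  have hY : DimPres Y := lat_dimPres g Q L _
  have hXY : ∀ V, X (Y V) = Y (X V) := by
    intro V
    change lat g Q L (v 0 ^ (m 0 + 1)) (lat g Q L (v 1 ^ (m 1 + 1)) V) =
      lat g Q L (v 1 ^ (m 1 + 1)) (lat g Q L (v 0 ^ (m 0 + 1)) V)
    rw [← lat_mul, ← lat_mul]
    have h1 : v 1 ^ (m 1 + 1) * v 0 ^ (m 0 + 1) =
        (v 1 ^ (m 1 + 1) * v 0 ^ (m 0 + 1) * (v 0 ^ (m 0 + 1) * v 1 ^ (m 1 + 1))⁻¹) *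
          (v 0 ^ (m 0 + 1) * v 1 ^ (m 1 + 1)) := by group
    rw [h1, lat_mul g Q L (v 1 ^ (m 1 + 1) * v 0 ^ (m 0 + 1) *
      (v 0 ^ (m 0 + 1) * v 1 ^ (m 1 + 1))⁻¹), lat_mem g Q L hcomm]
  have hZ : ∀ V, Z V = X (Y V) := by
    intro V
    change lat g Q L (v 2 ^ (m 2 + 1)) V =
      lat g Q L (v 0 ^ (m 0 + 1)) (lat g Q L (v 1 ^ (m 1 + 1)) V)
    rw [← lat_mul, hm, lat_mul, lat_mem g Q L hl]
  let V₀ := E0 g Q L z'
  have hV₀Z : V₀ ≤ ZM g P Q L := by
    change Submodule.span _ _ ≤ _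
    rw [Submodule.span_le]
    rintro _ ⟨i, rfl⟩
    exact ⟨z' i, ⟨hz'L i, hz'.cyc i⟩, rfl⟩
  let V := Sm X3 V₀ (m 2 + 1)
  have hVf : FiniteDimensional (subD g L) V := Sm_fin (lat_dimPres g Q L _) V₀ _
  have hVZ : V ≤ ZM g P Q L := Sm_ZM g P Q L hV₀Z _ _
  have hgrow : ∀ i : Fin 3, ∀ W : Submodule (subD g L) (MM g Q L),
      FiniteDimensional (subD g L) W → W ≤ ZM g P Q L →
      ∃ C, ∀ n, Module.finrank (subD g L) (Sm (lat g Q L (v i ^ (m i + 1))) W n) ≤
        ((m i + 1) * b i) * n + C := by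
    intro i W hW hWZ
    obtain ⟨C, hC⟩ := growth_up hind (ψ i) (hL i) (hv i) (hLK i) (hvK i) (hK i) (hz i) W hW hWZ
    refine ⟨C, fun n => ?_⟩
    have h1 := Sm_pow_le (X := lat g Q L (v i)) (lat g Q L (v i ^ (m i + 1))) (m i)
      (fun V => lat_pow g Q L (v i) (m i + 1) V) W n
    have := Sm_fin (lat_dimPres g Q L (v i)) W ((m i + 1) * n)
    have h2 := finrank_mono' h1
    have h3 := hC ((m i + 1) * n)
    have h4 : b i * ((m i + 1) * n) = (m i + 1) * b i * n := by ring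
    rw [h4] at h3
    exact h2.trans h3
  obtain ⟨C, hC⟩ := core_growth hX hY hXY V ((m 0 + 1) * b 0) ((m 1 + 1) * b 1)
    (fun l => hgrow 0 (Sm Y V l) (Sm_fin hY V l) (Sm_ZM g P Q L hVZ _ _))
    (fun k => hgrow 1 (Sm X V k) (Sm_fin hX V k) (Sm_ZM g P Q L hVZ _ _))
  apply le_of_linear (C := C)
  intro n
  have h1 := growth_low hind (ψ 2) (hL 2) (hv 2) (hLK 2) (hvK 2) hz' ((m 2 + 1) * n)
  have h2 := Sm_pow_ge (X := X3) Z (m 2 + 1) (fun V => lat_pow g Q L (v 2) (m 2 + 1) V) V₀ n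
  have h3 := Sm_comp_le hXY Z hZ V n
  have hf1 : FiniteDimensional (subD g L) (Sm Y V n) := Sm_fin hY V n
  have hf2 := Sm_fin hX (Sm Y V n) n
  have h4 := finrank_mono' (h2.trans h3)
  have h5 := hC n
  have h6 : b 2 * ((m 2 + 1) * n) = (m 2 + 1) * b 2 * n := by ring
  rw [h6] at h1
  exact (h1.trans h4).trans h5

end Pool.Agent.Lib.MPf08bf1
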