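import Pool.Agent.Lib.MPf08bf1.Fields

/-!
Windows in twisted Laurent polynomial rings inside a division ring.
-/

open scoped Matrix

noncomputable section

namespace Pool.Agent.Lib.MPf08bf1

section
variable {Γ : Type} [Group Γ] {D : Type} [DivisionRing D] (g : MonoidAlgebra ℤ Γ →+* D)

/-- The group elements inside `D`. -/
def gg : Γ →* D := (g : MonoidAlgebra ℤ Γ →* D).comp (MonoidAlgebra.of ℤ Γ)

theorem gg_eq (γ : Γ) : gg g γ = g (MonoidAlgebra.single γ 1) := rfl

theorem gg_ne (γ : Γ) : gg g γ ≠ 0 := by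
  intro h
  have h1 : gg g γ * gg g γ⁻¹ = 1 := by rw [← map_mul, mul_inv_cancel, map_one]
  rw [h, zero_mul] at h1
  exact zero_ne_one h1

theorem gg_inv (γ : Γ) : gg g γ⁻¹ = (gg g γ)⁻¹ := by
  apply eq_inv_of_mul_eq_one_left
  rw [← map_mul, inv_mul_cancel, map_one]

/-- Independence of cosets. -/
def CosInd : Prop :=
  ∀ (ψ : Γ →* Multiplicative ℤ) (L : Subgroup Γ), L ≤ ψ.ker → ∀ (ι : Type)
    (s : Finset ι) (d : ι → D) (γ : ι → Γ), (∀ i ∈ s, d i ∈ subD g L) →
    ∑ i ∈ s, d i * g (MonoidAlgebra.single (γ i) 1) = 0 → ∀ k : ℤ,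
    ∑ i ∈ s with (ψ (γ i)).toAdd = k, d i * g (MonoidAlgebra.single (γ i) 1) = 0

theorem subD_mono {L K : Subgroup Γ} (h : L ≤ K) : subD g L ≤ subD g K :=
  Subfield.closure_mono (Set.image_mono h)

theorem conj_mem_subD (L : Subgroup Γ) [L.Normal] (γ : Γ) {d : D} (hd : d ∈ subD g L) :
    gg g γ * d * gg g γ⁻¹ ∈ subD g L := by
  let c : D →+* D :=
    { toFun := fun x => gg g γ * x * gg g γ⁻¹
      map_one' := by rw [mul_one, ← map_mul, mul_inv_cancel, map_one]
      map_mul' := by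
        intro x y
        have h1 : gg g γ⁻¹ * gg g γ = 1 := by rw [← map_mul, inv_mul_cancel, map_one]
        calc gg g γ * (x * y) * gg g γ⁻¹ = gg g γ * x * 1 * y * gg g γ⁻¹ := by
              rw [mul_one]; simp only [mul_assoc]
          _ = _ := by rw [← h1]; simp only [mul_assoc]
      map_zero' := by rw [mul_zero, zero_mul]
      map_add' := by intro x y; rw [mul_add, add_mul] }
  have h : (subD g L).map c ≤ subD g L := by
    unfold subD
    rw [RingHom.map_field_closure, Subfield.closure_le]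
    rintro _ ⟨_, ⟨l, hl, rfl⟩, rfl⟩
    apply Subfield.subset_closure
    refine ⟨γ * l * γ⁻¹, Subgroup.Normal.conj_mem inferInstance l hl γ, ?_⟩
    change gg g (γ * l * γ⁻¹) = gg g γ * gg g l * gg g γ⁻¹
    rw [map_mul, map_mul]
  exact h ⟨d, hd, rfl⟩

theorem gg_mul_eq (L : Subgroup Γ) [L.Normal] (γ : Γ) (d : subD g L) :
    ∃ d' : subD g L, gg g γ * (d : D) = (d' : D) * gg g γ := by
  refine ⟨⟨_, conj_mem_subD g L γ d.2⟩, ?_⟩
  simp only
  rw [mul_assoc, ← map_mul, inv_mul_cancel, map_one, mul_one]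

variable (L : Subgroup Γ) (v : Γ)

/-- The `D_L`-span of the powers of `v` with exponents in `[a, b)`. -/
def Win (a b : ℤ) : Submodule (subD g L) D :=
  Submodule.span (subD g L) ((fun j : ℤ => gg g (v ^ j)) '' Set.Ico a b)

/-- The `D_L`-span of all powers of `v`. -/
def AA : Submodule (subD g L) D :=
  Submodule.span (subD g L) (Set.range fun j : ℤ => gg g (v ^ j))

theorem Win_mono {a b a' b' : ℤ} (h1 : a' ≤ a) (h2 : b ≤ b') : Win g L v a b ≤ Win g L v a' b' :=
  Submodule.span_mono (Set.image_mono (Set.Ico_subset_Ico h1 h2))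

theorem Win_le_AA (a b : ℤ) : Win g L v a b ≤ AA g L v :=
  Submodule.span_mono (Set.image_subset_range _ _)

theorem pow_mem_Win {a b j : ℤ} (h1 : a ≤ j) (h2 : j < b) : gg g (v ^ j) ∈ Win g L v a b :=
  Submodule.subset_span ⟨j, ⟨h1, h2⟩, rfl⟩

theorem pow_mem_AA (j : ℤ) : gg g (v ^ j) ∈ AA g L v :=
  Submodule.subset_span ⟨j, rfl⟩

theorem one_mem_AA : (1 : D) ∈ AA g L v := by
  have := pow_mem_AA g L v 0
  rwa [zpow_zero, map_one] at this

theorem exists_Win {x : D} (hx : x ∈ AA g L v) : ∃ n : ℕ, x ∈ Win g L v (-n) n := by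
  induction hx using Submodule.span_induction with
  | mem x h =>
    obtain ⟨j, rfl⟩ := h
    refine ⟨j.natAbs + 1, pow_mem_Win g L v ?_ ?_⟩ <;> omega
  | zero => exact ⟨0, zero_mem _⟩
  | add x y _ _ hx hy =>
    obtain ⟨n, hn⟩ := hx
    obtain ⟨m, hm⟩ := hy
    exact ⟨max n m, add_mem (Win_mono g L v (by push_cast; omega) (by push_cast; omega) hn)
      (Win_mono g L v (by push_cast; omega) (by push_cast; omega) hm)⟩
  | smul c x _ hx =>
    obtain ⟨n, hn⟩ := hx
    exact ⟨n, Submodule.smul_mem _ c hn⟩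

theorem smul_eq_mul' (c : subD g L) (x : D) : c • x = (c : D) * x := rfl

/-- Right multiplication by `y` moves windows by at most `c`. -/
def Bd (y : D) (c : ℕ) : Prop :=
  ∀ a b : ℤ, ∀ x ∈ Win g L v a b, x * y ∈ Win g L v (a - c) (b + c)

theorem Bd_mono {y : D} {c c' : ℕ} (h : Bd g L v y c) (hc : c ≤ c') : Bd g L v y c' :=
  fun a b x hx => Win_mono g L v (by omega) (by omega) (h a b x hx)

theorem Bd_add {y y' : D} {c : ℕ} (h : Bd g L v y c) (h' : Bd g L v y' c) :
    Bd g L v (y + y') c := by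
  intro a b x hx
  rw [mul_add]
  exact add_mem (h a b x hx) (h' a b x hx)

theorem Bd_zero (c : ℕ) : Bd g L v 0 c := by
  intro a b x _
  rw [mul_zero]
  exact zero_mem _

theorem Bd_mul {y y' : D} {c c' : ℕ} (h : Bd g L v y c) (h' : Bd g L v y' c') :
    Bd g L v (y * y') (c + c') := by
  intro a b x hx
  rw [← mul_assoc]
  have := h' _ _ _ (h a b x hx)
  exact Win_mono g L v (by push_cast; omega) (by push_cast; omega) this

theorem Bd_coeff [L.Normal] {d : D} (hd : d ∈ subD g L) : Bd g L v d 0 := by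
  intro a b x hx
  simp only [Nat.cast_zero, sub_zero, add_zero]
  induction hx using Submodule.span_induction with
  | mem x h =>
    obtain ⟨j, hj, rfl⟩ := h
    obtain ⟨d', hd'⟩ := gg_mul_eq g L (v ^ j) ⟨d, hd⟩
    simp only at hd' ⊢
    rw [hd', ← smul_eq_mul']
    exact Submodule.smul_mem _ _ (pow_mem_Win g L v hj.1 hj.2)
  | zero => rw [zero_mul]; exact zero_mem _
  | add x y _ _ hx hy => rw [add_mul]; exact add_mem hx hy
  | smul c x _ hx =>
    rw [smul_eq_mul', mul_assoc, ← smul_eq_mul']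
    exact Submodule.smul_mem _ _ hx

theorem Bd_pow (i : ℤ) : Bd g L v (gg g (v ^ i)) i.natAbs := by
  intro a b x hx
  induction hx using Submodule.span_induction with
  | mem x h =>
    obtain ⟨j, hj, rfl⟩ := h
    obtain ⟨h1, h2⟩ := hj
    simp only
    rw [← map_mul, ← zpow_add]
    exact pow_mem_Win g L v (by omega) (by omega)
  | zero => rw [zero_mul]; exact zero_mem _
  | add x y _ _ hx hy => rw [add_mul]; exact add_mem hx hy
  | smul c x _ hx =>
    rw [smul_eq_mul', mul_assoc, ← smul_eq_mul']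
    exact Submodule.smul_mem _ _ hx

theorem exists_Bd [L.Normal] {y : D} (hy : y ∈ AA g L v) : ∃ c, Bd g L v y c := by
  induction hy using Submodule.span_induction with
  | mem x h =>
    obtain ⟨j, rfl⟩ := h
    exact ⟨_, Bd_pow g L v j⟩
  | zero => exact ⟨0, Bd_zero g L v 0⟩
  | add x y _ _ hx hy =>
    obtain ⟨c, hc⟩ := hx
    obtain ⟨c', hc'⟩ := hy
    exact ⟨max c c', Bd_add g L v (Bd_mono g L v hc (le_max_left _ _))
      (Bd_mono g L v hc' (le_max_right _ _))⟩
  | smul c x _ hx =>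
    obtain ⟨c', hc'⟩ := hx
    exact ⟨_, Bd_mul g L v (Bd_coeff g L v c.2) hc'⟩

theorem AA_mul [L.Normal] {x y : D} (hx : x ∈ AA g L v) (hy : y ∈ AA g L v) :
    x * y ∈ AA g L v := by
  obtain ⟨n, hn⟩ := exists_Win g L v hx
  obtain ⟨c, hc⟩ := exists_Bd g L v hy
  exact Win_le_AA g L v _ _ (hc _ _ _ hn)

theorem mem_AA_of [L.Normal] {γ : Γ} (h : ∃ l ∈ L, ∃ i : ℤ, γ = l * v ^ i) :
    gg g γ ∈ AA g L v := by
  obtain ⟨l, hl, i, rfl⟩ := h
  rw [map_mul]
  exact Submodule.smul_mem _ (⟨gg g l, mem_subD g L hl⟩ : subD g L) (pow_mem_AA g L v i)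

section Ind
variable (hind : CosInd g) (ψ : Γ →* Multiplicative ℤ) (hL : L ≤ ψ.ker) (hv : ψ v ≠ 1)

include hind hL hv in
/-- Powers of `v` are independent over `D_L`. -/
theorem pow_indep : LinearIndependent (subD g L) (fun j : ℤ => gg g (v ^ j)) := by
  rw [linearIndependent_iff']
  intro s c hc j hj
  have h := hind ψ L hL ℤ s (fun j => (c j : D)) (fun j => v ^ j) (fun i _ => (c i).2) hc
    (ψ (v ^ j)).toAdd
  have hfil : (s.filter fun i => (ψ (v ^ i)).toAdd = (ψ (v ^ j)).toAdd) = {j} := by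
    ext i
    simp only [Finset.mem_filter, Finset.mem_singleton]
    constructor
    · rintro ⟨_, h2⟩
      have h4 : ∀ i : ℤ, (ψ (v ^ i)).toAdd = i * (ψ v).toAdd := by
        intro i
        rw [map_zpow ψ]
        exact (toAdd_zpow _ _).trans (smul_eq_mul _ _)
      rw [h4, h4] at h2
      have h3 : (ψ v).toAdd ≠ 0 := fun h => hv (Multiplicative.toAdd.injective h)
      exact mul_right_cancel₀ h3 h2
    · rintro rfl
      exact ⟨hj, rfl⟩
  rw [hfil, Finset.sum_singleton] at h
  have h2 := (mul_eq_zero.mp h).resolve_right (gg_ne g (v ^ j))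
  exact Subtype.ext h2

include hind hL hv in
/-- The Ore condition. -/
theorem ore_AA [L.Normal] {x y : D} (hx : x ∈ AA g L v) (hy : y ∈ AA g L v) (hy0 : y ≠ 0) :
    ∃ s ∈ AA g L v, s ≠ 0 ∧ ∃ r ∈ AA g L v, s * x = r * y := by
  classical
  obtain ⟨c₁, hc₁⟩ := exists_Bd g L v hx
  obtain ⟨c₂, hc₂⟩ := exists_Bd g L v hy
  set c := max c₁ c₂ with hc
  have hcx := Bd_mono g L v hc₁ (le_max_left c₁ c₂)
  have hcy := Bd_mono g L v hc₂ (le_max_right c₁ c₂)
  rw [← hc] at hcx hcy
  set m : ℕ := 2 * c + 1 with hm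
  let F : Fin m ⊕ Fin m → D := Sum.elim (fun j => gg g (v ^ ((j : ℕ) : ℤ)) * x)
    (fun j => gg g (v ^ ((j : ℕ) : ℤ)) * y)
  let w : Finset D := (Finset.Ico (-(c : ℤ)) (m + c)).image fun j => gg g (v ^ j)
  have hspan : Set.range F ≤ Submodule.span (subD g L) (w : Set D) := by
    have hw : Submodule.span (subD g L) (w : Set D) = Win g L v (0 - c) (m + c) := by
      unfold Win
      congr 1
      simp [w]
    rw [hw]
    rintro _ ⟨i | i, rfl⟩
    · exact hcx 0 m _ (pow_mem_Win g L v (by positivity) (by exact_mod_cast i.2))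
    · exact hcy 0 m _ (pow_mem_Win g L v (by positivity) (by exact_mod_cast i.2))
  have hnli : ¬ LinearIndependent (subD g L) F := by
    intro hli
    have h1 := linearIndependent_le_span_aux' F hli (w : Set D) hspan
    have h2 : Fintype.card (w : Set D) ≤ m + 2 * c := by
      have h3 : Fintype.card (w : Set D) = w.card := by simp
      rw [h3]
      refine Finset.card_image_le.trans ?_
      rw [Int.card_Ico]
      omega
    rw [Fintype.card_sum, Fintype.card_fin] at h1
    omega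
  rw [Fintype.linearIndependent_iff] at hnli
  push Not at hnli
  obtain ⟨h, hsum, i₀, hi₀⟩ := hnli
  rw [Fintype.sum_sum_type] at hsum
  set s : D := ∑ j : Fin m, (h (Sum.inl j) : D) * gg g (v ^ ((j : ℕ) : ℤ)) with hs
  set r : D := ∑ j : Fin m, (h (Sum.inr j) : D) * gg g (v ^ ((j : ℕ) : ℤ)) with hr
  have hsA : s ∈ AA g L v := sum_mem fun j _ => Submodule.smul_mem _ (h (Sum.inl j)) (pow_mem_AA g L v _)
  have hrA : r ∈ AA g L v := sum_mem fun j _ => Submodule.smul_mem _ (h (Sum.inr j)) (pow_mem_AA g L v _)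
  have hrel : s * x + r * y = 0 := by
    rw [hs, hr, Finset.sum_mul, Finset.sum_mul]
    convert hsum using 2
    · apply Finset.sum_congr rfl
      intro j _
      rw [smul_eq_mul', mul_assoc]
      rfl
    · apply Finset.sum_congr rfl
      intro j _
      rw [smul_eq_mul', mul_assoc]
      rfl
  have hpow := pow_indep g L v hind ψ hL hv
  have hpow' : LinearIndependent (subD g L) (fun j : Fin m => gg g (v ^ ((j : ℕ) : ℤ))) :=
    hpow.comp (fun j : Fin m => ((j : ℕ) : ℤ)) (fun a b hab => by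
      apply Fin.ext
      have hab' : ((a : ℕ) : ℤ) = ((b : ℕ) : ℤ) := hab
      exact_mod_cast hab')
  rw [Fintype.linearIndependent_iff] at hpow'
  have hs0 : s ≠ 0 := by
    intro hs0
    rw [hs0, zero_mul, zero_add] at hrel
    have hr0 := (mul_eq_zero.mp hrel).resolve_right hy0
    have h1 := hpow' (fun j => h (Sum.inl j)) hs0
    have h2 := hpow' (fun j => h (Sum.inr j)) hr0
    rcases i₀ with i | i
    · exact hi₀ (h1 i)
    · exact hi₀ (h2 i)
  refine ⟨s, hsA, hs0, -r, neg_mem hrA, ?_⟩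
  rw [neg_mul]
  exact eq_neg_of_add_eq_zero_left hrel

include hind hL hv in
/-- Common denominators. -/
theorem den_common [L.Normal] {ι : Type} (t : Finset ι) (N : ι → Set D) (x : ι → D)
    (hN : ∀ i, ∀ a ∈ AA g L v, ∀ y ∈ N i, a * y ∈ N i)
    (hx : ∀ i ∈ t, ∃ s ∈ AA g L v, s ≠ 0 ∧ s * x i ∈ N i) :
    ∃ s ∈ AA g L v, s ≠ 0 ∧ ∀ i ∈ t, s * x i ∈ N i := by
  classical
  induction t using Finset.induction_on with
  | empty => exact ⟨1, one_mem_AA g L v, one_ne_zero, by simp⟩
  | insert j t hj ih =>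
    obtain ⟨s, hs, hs0, hst⟩ := ih (fun i hi => hx i (Finset.mem_insert_of_mem hi))
    obtain ⟨s', hs', hs0', hst'⟩ := hx j (Finset.mem_insert_self j t)
    obtain ⟨a, ha, ha0, b, hb, hab⟩ := ore_AA g L v hind ψ hL hv hs hs' hs0'
    refine ⟨a * s, AA_mul g L v ha hs, mul_ne_zero ha0 hs0, ?_⟩
    intro i hi
    rcases Finset.mem_insert.mp hi with rfl | hi
    · rw [hab, mul_assoc]
      exact hN _ b hb _ hst'
    · rw [mul_assoc]
      exact hN _ a ha _ (hst i hi)

include hind hL hv in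
/-- Elements of the division ring generated by `K = ⟨L, v⟩` are fractions. -/
theorem frac_AA [L.Normal] {K : Subgroup Γ} (hK : ∀ γ ∈ K, gg g γ ∈ AA g L v) {d : D}
    (hd : d ∈ subD g K) : ∃ s ∈ AA g L v, s ≠ 0 ∧ s * d ∈ AA g L v := by
  have hcl : ∀ a ∈ AA g L v, ∀ y ∈ (AA g L v : Set D), a * y ∈ (AA g L v : Set D) :=
    fun a ha y hy => AA_mul g L v ha hy
  let Q : Subfield D :=
    { carrier := {d | ∃ s ∈ AA g L v, s ≠ 0 ∧ s * d ∈ AA g L v}
      mul_mem' := by
        rintro x y ⟨s, hs, hs0, hsx⟩ ⟨t, ht, ht0, hty⟩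
        by_cases hx : s * x = 0
        · have hx0 : x = 0 := (mul_eq_zero.mp hx).resolve_left hs0
          refine ⟨1, one_mem_AA g L v, one_ne_zero, ?_⟩
          rw [hx0, zero_mul, mul_zero]
          exact zero_mem _
        · obtain ⟨a, ha, ha0, b, hb, hab⟩ := ore_AA g L v hind ψ hL hv hsx ht ht0
          refine ⟨a * s, AA_mul g L v ha hs, mul_ne_zero ha0 hs0, ?_⟩
          have : a * s * (x * y) = b * (t * y) := by
            calc a * s * (x * y) = a * (s * x) * y := by simp only [mul_assoc]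
              _ = b * t * y := by rw [hab]
              _ = b * (t * y) := mul_assoc _ _ _
          rw [this]
          exact AA_mul g L v hb hty
      one_mem' := ⟨1, one_mem_AA g L v, one_ne_zero, by rw [mul_one]; exact one_mem_AA g L v⟩
      add_mem' := by
        rintro x y ⟨s, hs, hs0, hsx⟩ ⟨t, ht, ht0, hty⟩
        obtain ⟨a, ha, ha0, b, hb, hab⟩ := ore_AA g L v hind ψ hL hv hs ht ht0
        refine ⟨a * s, AA_mul g L v ha hs, mul_ne_zero ha0 hs0, ?_⟩
        rw [mul_add, mul_assoc]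
        refine add_mem (AA_mul g L v ha hsx) ?_
        rw [hab, mul_assoc]
        exact AA_mul g L v hb hty
      zero_mem' := ⟨1, one_mem_AA g L v, one_ne_zero, by rw [mul_zero]; exact zero_mem _⟩
      neg_mem' := by
        rintro x ⟨s, hs, hs0, hsx⟩
        exact ⟨s, hs, hs0, by rw [mul_neg]; exact neg_mem hsx⟩
      inv_mem' := by
        rintro x ⟨s, hs, hs0, hsx⟩
        by_cases hx : x = 0
        · refine ⟨1, one_mem_AA g L v, one_ne_zero, ?_⟩
          rw [hx, inv_zero, mul_zero]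
          exact zero_mem _
        · refine ⟨s * x, hsx, mul_ne_zero hs0 hx, ?_⟩
          rw [mul_assoc, mul_inv_cancel₀ hx, mul_one]
          exact hs }
  have hle : subD g K ≤ Q := by
    unfold subD
    rw [Subfield.closure_le]
    rintro _ ⟨k, hk, rfl⟩
    exact ⟨1, one_mem_AA g L v, one_ne_zero, by rw [one_mul]; exact hK k hk⟩
  exact hle hd

end Ind

/-- The `D_L`-span of all group elements. -/
def RL : Submodule (subD g L) D := Submodule.span (subD g L) (Set.range (gg g))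

theorem gg_mem_RL (γ : Γ) : gg g γ ∈ RL g L := Submodule.subset_span ⟨γ, rfl⟩

theorem AA_le_RL : AA g L v ≤ RL g L := by
  apply Submodule.span_mono
  rintro _ ⟨j, rfl⟩
  exact ⟨v ^ j, rfl⟩

theorem RL_mul_gg {x : D} (hx : x ∈ RL g L) (γ : Γ) : x * gg g γ ∈ RL g L := by
  induction hx using Submodule.span_induction with
  | mem x h =>
    obtain ⟨γ', rfl⟩ := h
    rw [← map_mul]
    exact gg_mem_RL g L _
  | zero => rw [zero_mul]; exact zero_mem _
  | add x y _ _ hx hy => rw [add_mul]; exact add_mem hx hy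
  | smul c x _ hx =>
    rw [smul_eq_mul', mul_assoc, ← smul_eq_mul']
    exact Submodule.smul_mem _ _ hx

theorem RL_mul_g {x : D} (hx : x ∈ RL g L) (a : MonoidAlgebra ℤ Γ) : x * g a ∈ RL g L := by
  induction a using MonoidAlgebra.induction_linear with
  | zero => rw [map_zero, mul_zero]; exact zero_mem _
  | add a b ha hb => rw [map_add, mul_add]; exact add_mem ha hb
  | single γ n =>
    rw [single_eq_zsmul, map_zsmul, mul_smul_comm]
    exact zsmul_mem (RL_mul_gg g L hx γ) n

theorem gg_mul_RL [L.Normal] {x : D} (hx : x ∈ RL g L) (γ : Γ) : gg g γ * x ∈ RL g L := by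
  induction hx using Submodule.span_induction with
  | mem x h =>
    obtain ⟨γ', rfl⟩ := h
    rw [← map_mul]
    exact gg_mem_RL g L _
  | zero => rw [mul_zero]; exact zero_mem _
  | add x y _ _ hx hy => rw [mul_add]; exact add_mem hx hy
  | smul c x _ hx =>
    obtain ⟨c', hc'⟩ := gg_mul_eq g L γ c
    rw [smul_eq_mul', ← mul_assoc, hc', mul_assoc, ← smul_eq_mul']
    exact Submodule.smul_mem _ _ hx

theorem AA_mul_RL [L.Normal] {a x : D} (ha : a ∈ AA g L v) (hx : x ∈ RL g L) :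
    a * x ∈ RL g L := by
  induction ha using Submodule.span_induction with
  | mem a h =>
    obtain ⟨j, rfl⟩ := h
    exact gg_mul_RL g L hx _
  | zero => rw [zero_mul]; exact zero_mem _
  | add x y _ _ hx hy => rw [add_mul]; exact add_mem hx hy
  | smul c x _ hx =>
    rw [smul_eq_mul', mul_assoc, ← smul_eq_mul']
    exact Submodule.smul_mem _ _ hx

theorem RL_mono {L K : Subgroup Γ} (h : L ≤ K) {x : D} (hx : x ∈ RL g L) : x ∈ RL g K := by
  induction hx using Submodule.span_induction with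
  | mem x h =>
    obtain ⟨γ', rfl⟩ := h
    exact gg_mem_RL g K _
  | zero => exact zero_mem _
  | add x y _ _ hx hy => exact add_mem hx hy
  | smul c x _ hx =>
    exact Submodule.smul_mem _ (⟨c, subD_mono g h c.2⟩ : subD g K) hx

section Ind2
variable (hind : CosInd g) (ψ : Γ →* Multiplicative ℤ) (hL : L ≤ ψ.ker) (hv : ψ v ≠ 1)

include hind hL hv in
theorem frac_RL [L.Normal] {K : Subgroup Γ} (hK : ∀ γ ∈ K, gg g γ ∈ AA g L v) {x : D}
    (hx : x ∈ RL g K) : ∃ s ∈ AA g L v, s ≠ 0 ∧ s * x ∈ RL g L := by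
  induction hx using Submodule.span_induction with
  | mem x h =>
    obtain ⟨γ', rfl⟩ := h
    exact ⟨1, one_mem_AA g L v, one_ne_zero, by rw [one_mul]; exact gg_mem_RL g L _⟩
  | zero => exact ⟨1, one_mem_AA g L v, one_ne_zero, by rw [mul_zero]; exact zero_mem _⟩
  | add x y _ _ hx hy =>
    obtain ⟨s, hs, hs0, hsx⟩ := hx
    obtain ⟨t, ht, ht0, hty⟩ := hy
    obtain ⟨a, ha, ha0, b, hb, hab⟩ := ore_AA g L v hind ψ hL hv hs ht ht0
    refine ⟨a * s, AA_mul g L v ha hs, mul_ne_zero ha0 hs0, ?_⟩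
    rw [mul_add, mul_assoc]
    refine add_mem (AA_mul_RL g L v ha hsx) ?_
    rw [hab, mul_assoc]
    exact AA_mul_RL g L v hb hty
  | smul c x _ hx =>
    obtain ⟨s, hs, hs0, hsx⟩ := hx
    obtain ⟨t, ht, ht0, htc⟩ := frac_AA g L v hind ψ hL hv hK c.2
    obtain ⟨a, ha, ha0, b, hb, hab⟩ := ore_AA g L v hind ψ hL hv htc hs hs0
    refine ⟨a * t, AA_mul g L v ha ht, mul_ne_zero ha0 ht0, ?_⟩
    have : a * t * (c • x) = b * (s * x) := by
      rw [smul_eq_mul']
      calc a * t * ((c : D) * x) = a * (t * (c : D)) * x := by simp only [mul_assoc]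
        _ = b * s * x := by rw [hab]
        _ = b * (s * x) := mul_assoc _ _ _
    rw [this]
    exact AA_mul_RL g L v hb hsx

end Ind2

end

end Pool.Agent.Lib.MPf08bf1
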