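import Pool.Agent.Lib.MPf08bf1.Stmt

/-!
Working versions of the definitions of `Stmt.lean`: the group von Neumann algebra as a
`StarSubalgebra` and its trace, Lück's extended dimension, `L²`-Betti numbers and the Atiyah
Conjecture.  The comparison is in `Bridge.lean`.
-/

open scoped ENNReal InnerProductSpace ComplexConjugate Matrix TensorProduct

noncomputable section

namespace Pool.Agent.Lib.MPf08bf1

/-- The Hilbert space `ℓ²(X)`. -/
abbrev L2 (X : Type) : Type := lp (fun _ : X => ℂ) 2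

theorem memlp_comp {X Y : Type} (σ : X ≃ Y) (f : L2 X) :
    Memℓp (fun y => (f : X → ℂ) (σ.symm y)) 2 := by
  have hf := lp.memℓp f
  rw [memℓp_gen_iff (by norm_num)] at hf ⊢
  exact (σ.symm.summable_iff (f := fun x => ‖(f : X → ℂ) x‖ ^ (2 : ℝ≥0∞).toReal)).mpr hf

/-- The operator `ℓ²(X) → ℓ²(Y)` induced by a bijection `σ : X → Y`; it sends `δ_x` to
`δ_{σ x}`. -/
def permLI {X Y : Type} (σ : X ≃ Y) : L2 X →ₗᵢ[ℂ] L2 Y where
  toFun f := ⟨fun y => (f : X → ℂ) (σ.symm y), memlp_comp σ f⟩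
  map_add' f g := by ext y; rfl
  map_smul' c f := by ext y; rfl
  norm_map' f := by
    rw [lp.norm_eq_tsum_rpow (by norm_num), lp.norm_eq_tsum_rpow (by norm_num)]
    congr 1
    exact σ.symm.tsum_eq (fun x => ‖(f : X → ℂ) x‖ ^ (2 : ℝ≥0∞).toReal)

/-- The operator `ℓ²(X) → ℓ²(Y)` induced by a bijection `σ : X → Y`. -/
def permL2 {X Y : Type} (σ : X ≃ Y) : L2 X →L[ℂ] L2 Y := (permLI σ).toContinuousLinearMap

@[simp] theorem permL2_apply {X Y : Type} (σ : X ≃ Y) (f : L2 X) (y : Y) :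
    (permL2 σ f : Y → ℂ) y = (f : X → ℂ) (σ.symm y) := rfl

/-- The basis vector `δ_x`. -/
def dl {X : Type} (x : X) : L2 X := by classical exact lp.single 2 x (1 : ℂ)

theorem inner_perm {X Y : Type} (σ : X ≃ Y) (f : L2 X) (g : L2 Y) :
    ⟪permL2 σ f, g⟫_ℂ = ⟪f, permL2 σ.symm g⟫_ℂ := by
  rw [lp.inner_eq_tsum, lp.inner_eq_tsum, ← σ.tsum_eq]
  simp

theorem permL2_adjoint {X Y : Type} (σ : X ≃ Y) :
    ContinuousLinearMap.adjoint (permL2 σ) = permL2 σ.symm := by
  symm
  rw [ContinuousLinearMap.eq_adjoint_iff]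
  intro x y
  rw [inner_perm σ.symm x y, Equiv.symm_symm]

/-- Right translation `δ_x ↦ δ_{x g}`. -/
def rightTrans {G : Type} [Group G] (g : G) : L2 G →L[ℂ] L2 G := permL2 (Equiv.mulRight g)

/-- Left translation `δ_x ↦ δ_{g x}`. -/
def leftTrans {G : Type} [Group G] (g : G) : L2 G →L[ℂ] L2 G := permL2 (Equiv.mulLeft g)

/-- The group von Neumann algebra `N(G)`: the bounded operators on `ℓ²(G)` commuting with all
right translations. -/
def vN (G : Type) [Group G] : StarSubalgebra ℂ (L2 G →L[ℂ] L2 G) :=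
  StarSubalgebra.centralizer ℂ (Set.range (rightTrans (G := G)))

theorem rightTrans_adjoint {G : Type} [Group G] (g : G) :
    star (rightTrans g) = rightTrans g⁻¹ := by
  rw [ContinuousLinearMap.star_eq_adjoint]
  unfold rightTrans
  rw [permL2_adjoint]
  congr 1
  ext x
  rfl

theorem mem_vN_iff {G : Type} [Group G] (T : L2 G →L[ℂ] L2 G) :
    T ∈ vN G ↔ ∀ (g : G) (f : L2 G), T (rightTrans g f) = rightTrans g (T f) := by
  unfold vN
  rw [StarSubalgebra.mem_centralizer_iff]
  constructor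
  · intro h g f
    have := (h _ ⟨g, rfl⟩).1
    exact (congrArg (fun S : L2 G →L[ℂ] L2 G => S f) this).symm
  · rintro h _ ⟨g, rfl⟩
    refine ⟨?_, ?_⟩
    · ext1 f
      exact (h g f).symm
    · rw [rightTrans_adjoint]
      ext1 f
      exact (h g⁻¹ f).symm

theorem leftTrans_mem {G : Type} [Group G] (g : G) : leftTrans g ∈ vN G := by
  rw [mem_vN_iff]
  intro h f
  ext x
  simp [leftTrans, rightTrans, mul_assoc]

/-- The group `G` inside the unit group of `N(G)`, by left translations. -/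
def lam (G : Type) [Group G] : G →* vN G where
  toFun g := ⟨leftTrans g, leftTrans_mem g⟩
  map_one' := by
    apply Subtype.ext
    ext1 f
    ext x
    change (f : G → ℂ) ((1 : G)⁻¹ * x) = (f : G → ℂ) x
    simp
  map_mul' g h := by
    apply Subtype.ext
    ext1 f
    ext x
    change (f : G → ℂ) ((g * h)⁻¹ * x) = (f : G → ℂ) (h⁻¹ * (g⁻¹ * x))
    simp [mul_assoc]

/-- The ring homomorphism `ℤ[G] → N(G)`. -/
def zmap (G : Type) [Group G] : MonoidAlgebra ℤ G →+* vN G :=
  (MonoidAlgebra.lift ℤ (vN G) G (lam G)).toRingHom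

/-- The standard trace on `N(G)`: the coefficient at `1` of `T δ_1`. -/
def vnTr {G : Type} [Group G] (T : vN G) : ℂ := ((T : L2 G →L[ℂ] L2 G) (dl 1) : G → ℂ) 1

section
variable {G : Type} [Group G]

/-- The Hilbert space `ℓ²(G)^I`. -/
abbrev HS (G : Type) (I : Type) [Fintype I] : Type := PiLp 2 (fun _ : I => L2 G)

/-- The inclusion of the `j`-th coordinate. -/
def inc {J : Type} [Fintype J] [DecidableEq J] (j : J) : L2 G →L[ℂ] HS G J :=
  ((PiLp.continuousLinearEquiv 2 ℂ (fun _ : J => L2 G)).symm : (J → L2 G) →L[ℂ] HS G J) ∘L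
    ContinuousLinearMap.pi (fun i => if i = j then ContinuousLinearMap.id ℂ _ else 0)

/-- The trace of a square matrix over `N(G)`. -/
def mtr {I : Type} [Fintype I] (A : Matrix I I (vN G)) : ℂ := ∑ i, vnTr (A i i)

/-- Real part of the trace. -/
def rtr {I : Type} [Fintype I] (A : Matrix I I (vN G)) : ℝ := (mtr A).re

/-- Right multiplication of `ℓ²(G)` by an element of `ℤ[G]`. -/
def rightMul (a : MonoidAlgebra ℤ G) : L2 G →L[ℂ] L2 G :=
  a.coeff.sum fun g n => (n : ℂ) • rightTrans g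

/-- The operator `v ↦ vA` on row vectors over `ℓ²(G)`. -/
def rowMul {I J : Type} [Fintype I] [Fintype J] (A : Matrix I J (MonoidAlgebra ℤ G)) :
    HS G I →L[ℂ] HS G J :=
  ((PiLp.continuousLinearEquiv 2 ℂ (fun _ : J => L2 G)).symm : (J → L2 G) →L[ℂ] HS G J) ∘L
    ContinuousLinearMap.pi (fun j => ∑ i, rightMul (A i j) ∘L
      PiLp.proj 2 (fun _ : I => L2 G) i)

/-- The von Neumann dimension of the kernel of `v ↦ vA`. -/
def vnKerDim {I J : Type} [Fintype I] [DecidableEq I] [Fintype J]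
    (A : Matrix I J (MonoidAlgebra ℤ G)) : ℝ :=
  ∑ i, (⟪inc i (dl 1), (LinearMap.ker (rowMul A : HS G I →ₗ[ℂ] HS G J)).starProjection
    (inc i (dl 1))⟫_ℂ).re

/-- The Atiyah Conjecture for a (torsion-free) group `G`. -/
def AtiyahConj (G : Type) [Group G] : Prop :=
  ∀ (m n : ℕ) (A : Matrix (Fin m) (Fin n) (MonoidAlgebra ℤ G)), ∃ k : ℤ, vnKerDim A = k

/-- The left module `N(G)^m e` of row vectors. -/
def projMod {m : ℕ} (e : Matrix (Fin m) (Fin m) (vN G)) : Submodule (vN G) (Fin m → vN G) :=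
  LinearMap.range (Matrix.vecMulLinear e)

/-- Lück's extended von Neumann dimension of an `N(G)`-module `M`: the supremum of the
dimensions (traces) of the finitely generated projective modules `N(G)^m e` which embed
into `M`. -/
def vnDim (G : Type) [Group G] (M : Type) [AddCommGroup M] [Module (vN G) M] : ℝ≥0∞ :=
  ⨆ (m : ℕ) (e : Matrix (Fin m) (Fin m) (vN G)) (_ : e * e = e)
    (_ : ∃ f : projMod e →ₗ[vN G] M, Function.Injective f), ENNReal.ofReal (rtr e)

end

/-- Homology of cycles modulo boundaries. -/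
abbrev HZ {S M : Type} [Ring S] [AddCommGroup M] [Module S M] (Z B : Submodule S M) : Type :=
  ↥Z ⧸ Submodule.comap Z.subtype B

/-- The differential of the (inhomogeneous) bar complex with coefficients in a ring `S`, on which
`K` acts by right multiplication via `u : K →* S`:
`d (s ⊗ [g₀|…|gₙ]) = s g₀ ⊗ [g₁|…|gₙ] + ∑ⱼ (-1)^(j+1) s ⊗ [g₀|…|gⱼgⱼ₊₁|…|gₙ]`, where the last
summand omits `gₙ`. -/
def barD {K S : Type} [Group K] [Ring S] (u : K →* S) (n : ℕ) :
    ((Fin (n + 1) → K) →₀ S) →ₗ[S] ((Fin n → K) →₀ S) :=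
  Finsupp.linearCombination S fun g =>
    Finsupp.single (fun i : Fin n => g i.succ) (u (g 0)) +
      ∑ j : Fin (n + 1), ((-1 : ℤ) ^ (j.1 + 1)) • Finsupp.single (Fin.contractNth j (· * ·) g) (1 : S)

/-- Cycles of the bar complex of `K` with coefficients in `N(K)`. -/
def barZ (K : Type) [Group K] : ∀ n : ℕ, Submodule (vN K) ((Fin n → K) →₀ vN K)
  | 0 => ⊤
  | n + 1 => LinearMap.ker (barD ((lam K) : K →* vN K) n)

/-- Boundaries of the bar complex of `K` with coefficients in `N(K)`. -/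
def barB (K : Type) [Group K] (n : ℕ) : Submodule (vN K) ((Fin n → K) →₀ vN K) :=
  LinearMap.range (barD ((lam K) : K →* vN K) n)

/-- The `L²`-Betti number `b_n^{(2)}(K)`: Lück's extended dimension of the group homology
`H_n(K; N(K))`. -/
def l2Betti (K : Type) [Group K] (n : ℕ) : ℝ≥0∞ :=
  vnDim K (HZ (barZ K n) (barB K n))

end Pool.Agent.Lib.MPf08bf1
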