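import Mathlib

/-!
Extension of scalars for maps between based free modules.
-/

noncomputable section

namespace Pool.Agent.Lib.MPf08bf1

section
variable {R S T : Type} [Ring R] [Ring S] [Ring T]

/-- Apply a ring homomorphism to the coefficients. -/
def mr (σ : R →+* S) {X : Type} : (X →₀ R) →+ (X →₀ S) :=
  Finsupp.mapRange.addMonoidHom σ.toAddMonoidHom

theorem mr_apply (σ : R →+* S) {X : Type} (w : X →₀ R) (x : X) : mr σ w x = σ (w x) := rfl

theorem mr_single (σ : R →+* S) {X : Type} (x : X) (r : R) :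
    mr σ (Finsupp.single x r) = Finsupp.single x (σ r) := by
  unfold mr
  rw [Finsupp.mapRange.addMonoidHom_apply, Finsupp.mapRange_single]
  rfl

theorem mr_smul (σ : R →+* S) {X : Type} (r : R) (w : X →₀ R) : mr σ (r • w) = σ r • mr σ w := by
  ext x
  simp [mr_apply]

theorem mr_inj {σ : R →+* S} (hσ : Function.Injective σ) {X : Type} {w w' : X →₀ R}
    (h : mr σ w = mr σ w') : w = w' := by
  ext x
  exact hσ (DFunLike.congr_fun h x)

theorem mr_comp (σ : R →+* S) (τ : S →+* T) {X : Type} (w : X →₀ R) :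
    mr τ (mr σ w) = mr (τ.comp σ) w := by
  ext x
  rfl

/-- Extension of scalars. -/
def extS (ρ : R →+* S) {X Y : Type} (f : (X →₀ R) →ₗ[R] (Y →₀ R)) : (X →₀ S) →ₗ[S] (Y →₀ S) :=
  Finsupp.linearCombination S fun x => mr ρ (f (Finsupp.single x 1))

theorem extS_single (ρ : R →+* S) {X Y : Type} (f : (X →₀ R) →ₗ[R] (Y →₀ R)) (x : X) (s : S) :
    extS ρ f (Finsupp.single x s) = s • mr ρ (f (Finsupp.single x 1)) := by
  unfold extS
  rw [Finsupp.linearCombination_single]

theorem extS_mr (ρ : R →+* S) {X Y : Type} (f : (X →₀ R) →ₗ[R] (Y →₀ R)) (w : X →₀ R) :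
    extS ρ f (mr ρ w) = mr ρ (f w) := by
  induction w using Finsupp.induction_linear with
  | zero => simp
  | add a b ha hb => rw [map_add, map_add, map_add, map_add, ha, hb]
  | single x r =>
    rw [mr_single, extS_single, ← mr_smul, ← map_smul, Finsupp.smul_single, smul_eq_mul, mul_one]

theorem extS_comp (ρ : R →+* S) {X Y Z : Type} (f : (X →₀ R) →ₗ[R] (Y →₀ R))
    (g : (Y →₀ R) →ₗ[R] (Z →₀ R)) : extS ρ (g ∘ₗ f) = extS ρ g ∘ₗ extS ρ f := by
  apply Finsupp.lhom_ext
  intro x s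
  rw [LinearMap.comp_apply, extS_single, extS_single, map_smul, extS_mr, LinearMap.comp_apply]

theorem extS_comp_apply (ρ : R →+* S) {X Y Z : Type} (f : (X →₀ R) →ₗ[R] (Y →₀ R))
    (g : (Y →₀ R) →ₗ[R] (Z →₀ R)) (w : X →₀ S) :
    extS ρ (g ∘ₗ f) w = extS ρ g (extS ρ f w) := by
  rw [extS_comp]; rfl

theorem extS_zero (ρ : R →+* S) {X Y : Type} :
    extS ρ (0 : (X →₀ R) →ₗ[R] (Y →₀ R)) = 0 := by
  apply Finsupp.lhom_ext
  intro x s
  rw [extS_single]
  simp

theorem extS_add (ρ : R →+* S) {X Y : Type} (f g : (X →₀ R) →ₗ[R] (Y →₀ R)) :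
    extS ρ (f + g) = extS ρ f + extS ρ g := by
  apply Finsupp.lhom_ext
  intro x s
  rw [extS_single, LinearMap.add_apply, LinearMap.add_apply, extS_single, extS_single, map_add,
    smul_add]

theorem extS_sub (ρ : R →+* S) {X Y : Type} (f g : (X →₀ R) →ₗ[R] (Y →₀ R)) :
    extS ρ (f - g) = extS ρ f - extS ρ g := by
  apply Finsupp.lhom_ext
  intro x s
  rw [extS_single, LinearMap.sub_apply, LinearMap.sub_apply, extS_single, extS_single, map_sub,
    smul_sub]

theorem extS_id (ρ : R →+* S) {X : Type} :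
    extS ρ (LinearMap.id : (X →₀ R) →ₗ[R] (X →₀ R)) = LinearMap.id := by
  apply Finsupp.lhom_ext
  intro x s
  rw [extS_single, LinearMap.id_apply, mr_single]
  simp

theorem extS_mr' (ρ : R →+* S) (σ : S →+* T) {X Y : Type} (f : (X →₀ R) →ₗ[R] (Y →₀ R))
    (w : X →₀ S) : extS (σ.comp ρ) f (mr σ w) = mr σ (extS ρ f w) := by
  induction w using Finsupp.induction_linear with
  | zero => simp
  | add a b ha hb => rw [map_add, map_add, map_add, map_add, ha, hb]
  | single x r =>
    rw [mr_single, extS_single, extS_single, mr_smul, mr_comp]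

end

end Pool.Agent.Lib.MPf08bf1
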