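import Pool.Agent.Lib.MPf08bf1.Atiyah
import Pool.Agent.Lib.MPf08bf1.Ext

/-!
Lück's extended dimension, and its computation through a division ring.
-/

open scoped ENNReal Matrix

noncomputable section

namespace Pool.Agent.Lib.MPf08bf1

variable {G : Type} [Group G]

theorem vnDim_le_of_inj {M N : Type} [AddCommGroup M] [Module (vN G) M] [AddCommGroup N]
    [Module (vN G) N] (f : M →ₗ[vN G] N) (hf : Function.Injective f) : vnDim G M ≤ vnDim G N := by
  unfold vnDim
  refine iSup_le fun m => iSup_le fun e => iSup_le fun he => iSup_le fun hg => ?_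
  obtain ⟨g, hg⟩ := hg
  exact le_iSup_of_le m (le_iSup_of_le e (le_iSup_of_le he
    (le_iSup_of_le ⟨f ∘ₗ g, hf.comp hg⟩ le_rfl)))

/-- The homology of `A → B → C` at `B`. -/
abbrev HomQ {S A B C : Type} [Ring S] [AddCommGroup A] [AddCommGroup B] [AddCommGroup C]
    [Module S A] [Module S B] [Module S C] (Q : A →ₗ[S] B) (P : B →ₗ[S] C) : Type :=
  (↥(LinearMap.ker P)) ⧸ (Submodule.comap (LinearMap.ker P).subtype (LinearMap.range Q))

section Denom

/-- Common denominators for finitely many finitely supported functions. -/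
theorem exists_denom_finsupp {ι : Type} [Fintype ι] {X : Type} (w : ι → X →₀ UG G) :
    ∃ s ∈ nonZeroDivisors (vN G), ∃ ζ : ι → X →₀ vN G, ∀ i, eta G s • w i = mr (eta G) (ζ i) := by
  classical
  let t : Finset (ι × X) := Finset.univ.biUnion fun i => (w i).support.image fun x => (i, x)
  obtain ⟨s, hs, h⟩ := exists_common_denom t (fun p => w p.1 p.2)
  let g : UG G → vN G := fun u =>
    if hu : ∃ a, eta G s * u = eta G a then hu.choose else 0
  have hg0 : g 0 = 0 := by
    have hex : ∃ a, eta G s * (0 : UG G) = eta G a := ⟨0, by rw [mul_zero, map_zero]⟩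
    have : g 0 = hex.choose := dif_pos hex
    rw [this]
    apply eta_injective
    rw [← hex.choose_spec, mul_zero, map_zero]
  refine ⟨s, hs, fun i => (w i).mapRange g hg0, ?_⟩
  intro i
  ext x
  rw [mr_apply, Finsupp.mapRange_apply, Finsupp.smul_apply, smul_eq_mul]
  by_cases hx : w i x = 0
  · rw [hx, hg0, mul_zero, map_zero]
  · have hmem : (i, x) ∈ t := by
      simp only [t, Finset.mem_biUnion, Finset.mem_univ, true_and, Finset.mem_image]
      exact ⟨i, x, Finsupp.mem_support_iff.mpr hx, rfl⟩
    obtain ⟨a, ha⟩ := h _ hmem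
    have hex : ∃ a, eta G s * (w i x) = eta G a := ⟨a, ha⟩
    have : g (w i x) = hex.choose := dif_pos hex
    rw [this]
    exact hex.choose_spec

end Denom

section Decomp
variable {F U : Type} [DivisionRing F] [Ring U] (θ : F →+* U)

/-- `U` as a right vector space over `F`: coordinates. -/
theorem exists_coords : ∃ (B : Type) (a : B → U) (κ : U →+ (B →₀ F)),
    (∀ u f α, κ (u * θ f) α = κ u α * f) ∧ ∀ u, u = (κ u).sum fun α f => a α * θ f := by
  let _ : Module Fᵐᵒᵖ U := Module.compHom U (θ.op : Fᵐᵒᵖ →+* Uᵐᵒᵖ)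
  have hsmul : ∀ (f : F) (u : U), MulOpposite.op f • u = u * θ f := fun f u => rfl
  let b := Module.Basis.ofVectorSpace Fᵐᵒᵖ U
  let κ : U →+ (Module.Basis.ofVectorSpaceIndex Fᵐᵒᵖ U →₀ F) :=
    { toFun := fun u => (b.repr u).mapRange MulOpposite.unop MulOpposite.unop_zero
      map_zero' := by simp
      map_add' := fun u v => by
        ext α
        simp }
  refine ⟨Module.Basis.ofVectorSpaceIndex Fᵐᵒᵖ U, fun α => b α, κ, ?_, ?_⟩
  · intro u f α
    change MulOpposite.unop (b.repr (u * θ f) α) = MulOpposite.unop (b.repr u α) * f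
    rw [← hsmul, map_smul]
    rfl
  · intro u
    have h1 := b.linearCombination_repr u
    conv_lhs => rw [← h1]
    rw [Finsupp.linearCombination_apply]
    change _ = ((b.repr u).mapRange MulOpposite.unop MulOpposite.unop_zero).sum _
    rw [Finsupp.sum_mapRange_index]
    · apply Finsupp.sum_congr
      intro α _
      rw [← hsmul]
      rfl
    · intro α
      rw [map_zero, mul_zero]

end Decomp

end Pool.Agent.Lib.MPf08bf1
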