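import Pool.Agent.Lib.MPf08bf1.Bar

/-!
Resolutions by finitely generated free modules, and their restriction along injective
homomorphisms.
-/

open scoped ENNReal Matrix

noncomputable section

namespace Pool.Agent.Lib.MPf08bf1

/-- A transversal for the right cosets of the image of `f`. -/
structure Transv {K Γ : Type} [Group K] [Group Γ] (f : K →* Γ) where
  T : Type
  rep : T → Γ
  bij : Function.Bijective (fun p : K × T => f p.1 * rep p.2)

theorem exists_transv {K Γ : Type} [Group K] [Group Γ] (f : K →* Γ)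
    (hf : Function.Injective f) : Nonempty (Transv f) := by
  let s : Setoid Γ :=
    { r := fun a b => ∃ k, a = f k * b
      iseqv :=
        { refl := fun a => ⟨1, by simp⟩
          symm := by
            rintro a b ⟨k, rfl⟩
            exact ⟨k⁻¹, by simp⟩
          trans := by
            rintro a b c ⟨k, rfl⟩ ⟨l, rfl⟩
            exact ⟨k * l, by simp [mul_assoc]⟩ } }
  refine ⟨⟨Quotient s, Quotient.out, ?_, ?_⟩⟩
  · rintro ⟨k, t⟩ ⟨l, u⟩ h
    simp only at h
    have htu : t = u := by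
      rw [← Quotient.out_eq t, ← Quotient.out_eq u]
      apply Quotient.sound
      refine ⟨k⁻¹ * l, ?_⟩
      rw [map_mul, map_inv, mul_assoc, ← h, inv_mul_cancel_left]
    subst htu
    have := hf (mul_right_cancel h)
    rw [this]
  · intro γ
    obtain ⟨k, hk⟩ := Quotient.mk_out (s := s) γ
    refine ⟨(k⁻¹, Quotient.mk s γ), ?_⟩
    change f k⁻¹ * (Quotient.mk s γ).out = γ
    rw [hk, map_inv, inv_mul_cancel_left]

section
variable {K Γ : Type} [Group K] [Group Γ] {f : K →* Γ} (T : Transv f)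

/-- The decomposition of an element of `Γ`. -/
def Transv.e : K × T.T ≃ Γ := Equiv.ofBijective _ T.bij

theorem Transv.e_apply (k : K) (t : T.T) : T.e (k, t) = f k * T.rep t := rfl

/-- `ℤ[f]`. -/
abbrev fstar (f : K →* Γ) : MonoidAlgebra ℤ K →+* MonoidAlgebra ℤ Γ :=
  MonoidAlgebra.mapDomainRingHom ℤ f

theorem fstar_single (f : K →* Γ) (k : K) (c : ℤ) :
    fstar f (MonoidAlgebra.single k c) = MonoidAlgebra.single (f k) c := by
  rw [MonoidAlgebra.mapDomainRingHom_apply, MonoidAlgebra.mapDomain_single]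

/-- The isomorphism from the based free module over `ℤ[K]`. -/
def Transv.Φ0 (r : ℕ) : ((T.T × Fin r) →₀ MonoidAlgebra ℤ K) →+ (Fin r → MonoidAlgebra ℤ Γ) :=
  Finsupp.liftAddHom fun p =>
    ((AddMonoidHom.single (fun _ : Fin r => MonoidAlgebra ℤ Γ) p.2).comp
      (AddMonoidHom.mulRight (MonoidAlgebra.single (T.rep p.1) (1 : ℤ)))).comp
        (fstar f).toAddMonoidHom

theorem Transv.Φ0_single' (r : ℕ) (t : T.T) (s : Fin r) (a : MonoidAlgebra ℤ K) :
    T.Φ0 r (Finsupp.single (t, s) a) =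
      Pi.single s (fstar f a * MonoidAlgebra.single (T.rep t) 1) := by
  unfold Transv.Φ0
  rw [Finsupp.liftAddHom_apply_single]
  rfl

theorem Transv.Φ0_single (r : ℕ) (t : T.T) (s : Fin r) (k : K) (c : ℤ) :
    T.Φ0 r (Finsupp.single (t, s) (MonoidAlgebra.single k c)) =
      Pi.single s (MonoidAlgebra.single (T.e (k, t)) c) := by
  rw [T.Φ0_single', fstar_single, MonoidAlgebra.single_mul_single, mul_one]
  rfl

/-- The inverse. -/
def Transv.Ψ0 (r : ℕ) : (Fin r → MonoidAlgebra ℤ Γ) →+ ((T.T × Fin r) →₀ MonoidAlgebra ℤ K) :=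
  ∑ s : Fin r, ((Finsupp.liftAddHom fun γ =>
    (Finsupp.singleAddHom ((T.e.symm γ).2, s)).comp
      (MonoidAlgebra.singleAddHom (R := ℤ) (T.e.symm γ).1)).comp
        (MonoidAlgebra.coeffAddEquiv (R := ℤ) (M := Γ)).toAddMonoidHom).comp
          (Pi.evalAddMonoidHom (fun _ : Fin r => MonoidAlgebra ℤ Γ) s)

theorem Transv.Ψ0_single (r : ℕ) (s : Fin r) (γ : Γ) (c : ℤ) :
    T.Ψ0 r (Pi.single s (MonoidAlgebra.single γ c)) =
      Finsupp.single ((T.e.symm γ).2, s) (MonoidAlgebra.single (T.e.symm γ).1 c) := by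
  classical
  unfold Transv.Ψ0
  rw [AddMonoidHom.finsetSum_apply, Finset.sum_eq_single s]
  · change (Finsupp.liftAddHom _) ((Pi.single s (MonoidAlgebra.single γ c) :
      Fin r → MonoidAlgebra ℤ Γ) s).coeff = _
    rw [Pi.single_eq_same, MonoidAlgebra.coeff_single, Finsupp.liftAddHom_apply_single]
    rfl
  · intro s' _ hs'
    change (Finsupp.liftAddHom _) ((Pi.single s (MonoidAlgebra.single γ c) :
      Fin r → MonoidAlgebra ℤ Γ) s').coeff = _
    rw [Pi.single_eq_of_ne hs', MonoidAlgebra.coeff_zero, map_zero]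
  · intro h
    exact absurd (Finset.mem_univ s) h

theorem pi_addHom_ext {r : ℕ} {A : Type} [AddCommGroup A]
    {F G : (Fin r → MonoidAlgebra ℤ Γ) →+ A}
    (h : ∀ s γ c, F (Pi.single s (MonoidAlgebra.single γ c)) =
      G (Pi.single s (MonoidAlgebra.single γ c))) : F = G := by
  apply AddMonoidHom.functions_ext
  intro s x
  have : F.comp (AddMonoidHom.single (fun _ : Fin r => MonoidAlgebra ℤ Γ) s) =
      G.comp (AddMonoidHom.single (fun _ : Fin r => MonoidAlgebra ℤ Γ) s) := by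
    apply MonoidAlgebra.addMonoidHom_ext
    intro γ c
    exact h s γ c
  exact DFunLike.congr_fun this x

/-- The additive isomorphism. -/
def Transv.Φ (r : ℕ) : ((T.T × Fin r) →₀ MonoidAlgebra ℤ K) ≃+ (Fin r → MonoidAlgebra ℤ Γ) :=
  AddMonoidHom.toAddEquiv (T.Φ0 r) (T.Ψ0 r)
    (by
      apply addHom_ext2
      rintro ⟨t, s⟩ k c
      rw [AddMonoidHom.comp_apply, T.Φ0_single, T.Ψ0_single, Equiv.symm_apply_apply]
      rfl)
    (by
      apply pi_addHom_ext
      intro s γ c
      rw [AddMonoidHom.comp_apply, T.Ψ0_single, T.Φ0_single]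
      rw [Prod.mk.eta, Equiv.apply_symm_apply]
      rfl)

theorem Transv.Φ_single (r : ℕ) (t : T.T) (s : Fin r) (k : K) (c : ℤ) :
    T.Φ r (Finsupp.single (t, s) (MonoidAlgebra.single k c)) =
      Pi.single s (MonoidAlgebra.single (f k * T.rep t) c) := T.Φ0_single r t s k c

theorem Transv.Φ_smul (r : ℕ) (a : MonoidAlgebra ℤ K)
    (w : (T.T × Fin r) →₀ MonoidAlgebra ℤ K) :
    T.Φ r (a • w) = fstar f a • T.Φ r w := by
  change T.Φ0 r (a • w) = fstar f a • T.Φ0 r w
  induction w using Finsupp.induction_linear with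
  | zero => simp
  | add u v hu hv => rw [smul_add, map_add, map_add, hu, hv, smul_add]
  | single x b =>
    obtain ⟨t, s⟩ := x
    rw [Finsupp.smul_single, smul_eq_mul, T.Φ0_single', T.Φ0_single', map_mul, mul_assoc]
    ext1 i
    rw [Pi.smul_apply, smul_eq_mul]
    by_cases hi : i = s
    · subst hi
      rw [Pi.single_eq_same, Pi.single_eq_same]
    · rw [Pi.single_eq_of_ne hi, Pi.single_eq_of_ne hi, mul_zero]

theorem Transv.Φ_symm_smul (r : ℕ) (a : MonoidAlgebra ℤ K) (v : Fin r → MonoidAlgebra ℤ Γ) :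
    (T.Φ r).symm (fstar f a • v) = a • (T.Φ r).symm v := by
  apply (T.Φ r).injective
  rw [AddEquiv.apply_symm_apply, T.Φ_smul, AddEquiv.apply_symm_apply]

/-- Right multiplication by a matrix, restricted to `ℤ[K]`. -/
def Transv.mat {p q : ℕ} (A : Matrix (Fin p) (Fin q) (MonoidAlgebra ℤ Γ)) :
    ((T.T × Fin p) →₀ MonoidAlgebra ℤ K) →ₗ[MonoidAlgebra ℤ K]
      ((T.T × Fin q) →₀ MonoidAlgebra ℤ K) where
  toFun w := (T.Φ q).symm (Matrix.vecMul (T.Φ p w) A)
  map_add' v w := by
    rw [map_add, Matrix.add_vecMul, map_add]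
  map_smul' a w := by
    rw [T.Φ_smul, Matrix.smul_vecMul, T.Φ_symm_smul]
    rfl

theorem Transv.Φ_mat {p q : ℕ} (A : Matrix (Fin p) (Fin q) (MonoidAlgebra ℤ Γ))
    (w : (T.T × Fin p) →₀ MonoidAlgebra ℤ K) :
    T.Φ q (T.mat A w) = Matrix.vecMul (T.Φ p w) A := (T.Φ q).apply_symm_apply _

variable (C : FreeRes Γ)

theorem FreeRes.ε_smul' (a : MonoidAlgebra ℤ Γ) (v : Fin (C.r 0) → MonoidAlgebra ℤ Γ) :
    C.ε (a • v) = augZ Γ a * C.ε v := by
  induction a using MonoidAlgebra.induction_linear with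
  | zero => simp
  | add a b ha hb => rw [add_smul, map_add, ha, hb, map_add, add_mul]
  | single g n =>
    rw [augZ_single]
    have h : (MonoidAlgebra.single g n : MonoidAlgebra ℤ Γ) • v =
        n • (fun i => MonoidAlgebra.single g 1 * v i) := by
      ext1 i
      rw [Pi.smul_apply, Pi.smul_apply, smul_eq_mul, ← smul_mul_assoc, MonoidAlgebra.smul_single,
        smul_eq_mul, mul_one]
    rw [h, map_zsmul, C.ε_smul]
    simp

theorem augZ_fstar (a : MonoidAlgebra ℤ K) : augZ Γ (fstar f a) = augZ K a := by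
  induction a using MonoidAlgebra.induction_linear with
  | zero => simp
  | add a b ha hb => rw [map_add, map_add, ha, hb, map_add]
  | single g n => rw [fstar_single, augZ_single, augZ_single]

/-- The restricted augmentation. -/
def Transv.aug : ((T.T × Fin (C.r 0)) →₀ MonoidAlgebra ℤ K) →ₗ[MonoidAlgebra ℤ K] TrivZ K where
  toFun w := (show TrivZ K from C.ε (T.Φ (C.r 0) w))
  map_add' v w := by
    rw [map_add, map_add]
    rfl
  map_smul' a w := by
    rw [T.Φ_smul, C.ε_smul', augZ_fstar]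
    rfl

/-- The restricted resolution. -/
def Transv.res : BRes (MonoidAlgebra ℤ K) (TrivZ K) where
  X n := T.T × Fin (C.r n)
  d n := T.mat (C.d n)
  ε := T.aug C
  surj z := by
    obtain ⟨v, hv⟩ := C.ε_surj z
    refine ⟨(T.Φ _).symm v, ?_⟩
    change C.ε (T.Φ _ ((T.Φ _).symm v)) = z
    rw [AddEquiv.apply_symm_apply, hv]
  exact0 w := by
    change C.ε (T.Φ _ w) = 0 ↔ _
    rw [C.exact_zero]
    constructor
    · rintro ⟨v, hv⟩
      refine ⟨(T.Φ _).symm v, ?_⟩
      apply (T.Φ _).injective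
      rw [T.Φ_mat, AddEquiv.apply_symm_apply, hv]
    · rintro ⟨v, rfl⟩
      exact ⟨T.Φ _ v, (T.Φ_mat _ _).symm⟩
  exact n w := by
    have h : T.mat (C.d n) w = 0 ↔ Matrix.vecMul (T.Φ _ w) (C.d n) = 0 := by
      rw [← T.Φ_mat]
      exact ((T.Φ _).map_eq_zero_iff).symm
    rw [h, C.exact_succ]
    constructor
    · rintro ⟨v, hv⟩
      refine ⟨(T.Φ _).symm v, ?_⟩
      apply (T.Φ _).injective
      rw [T.Φ_mat, AddEquiv.apply_symm_apply, hv]
    · rintro ⟨v, rfl⟩
      exact ⟨T.Φ _ v, (T.Φ_mat _ _).symm⟩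

/-- `L²`-Betti numbers can be computed from a restricted resolution. -/
theorem Transv.l2Betti_eq (n : ℕ) :
    l2Betti K n = vnDim K (HomQ (extS (zmap K) ((T.res C).d n))
      (extS (zmap K) ((T.res C).P n))) := by
  rw [MPf08bf1.l2Betti_eq]
  exact BRes.vnDim_eq (zmap K) (barRes K) (T.res C) n

end

end Pool.Agent.Lib.MPf08bf1
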