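import Pool.Agent.Lib.MPf08bf1.Dim

/-!
Lück's dimension of the homology of a based complex over `N(G)` coincides with the dimension
over a division ring.
-/

open scoped ENNReal Matrix

noncomputable section

namespace Pool.Agent.Lib.MPf08bf1

variable {G : Type} [Group G] {R F : Type} [Ring R] [DivisionRing F]

/-- Data relating a ring `R`, the ring `N(G)` and a division ring `F` inside `U(G)`. -/
structure Tri (G R F : Type) [Group G] [Ring R] [DivisionRing F] where
  ρ : R →+* vN G
  δ : R →+* F
  θ : F →+* UG G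
  comm : ∀ a, θ (δ a) = eta G (ρ a)

section
variable (T : Tri G R F) {X Y W : Type} (P : (X →₀ R) →ₗ[R] (Y →₀ R))
  (Q : (W →₀ R) →ₗ[R] (X →₀ R))

theorem Tri.comm' : T.θ.comp T.δ = (eta G).comp T.ρ := by
  ext a
  exact T.comm a

/-- `P` over `U(G)`. -/
abbrev Tri.extU {X Y : Type} (P : (X →₀ R) →ₗ[R] (Y →₀ R)) : (X →₀ UG G) →ₗ[UG G] (Y →₀ UG G) :=
  extS ((eta G).comp T.ρ) P

theorem Tri.extU_mr {X Y : Type} (P : (X →₀ R) →ₗ[R] (Y →₀ R)) (w : X →₀ vN G) :
    T.extU P (mr (eta G) w) = mr (eta G) (extS T.ρ P w) := extS_mr' _ _ _ _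

theorem Tri.extU_mrθ {X Y : Type} (P : (X →₀ R) →ₗ[R] (Y →₀ R)) (w : X →₀ F) :
    T.extU P (mr T.θ w) = mr T.θ (extS T.δ P w) := by
  unfold Tri.extU
  rw [← T.comm', extS_mr']

/-- Applying a right `F`-linear functional coordinatewise commutes with `P`. -/
theorem Tri.functional {X Y : Type} (P : (X →₀ R) →ₗ[R] (Y →₀ R)) (κ : UG G →+ F)
    (hκ : ∀ u f, κ (u * T.θ f) = κ u * f) (w : X →₀ UG G) :
    Finsupp.mapRange.addMonoidHom κ (T.extU P w) =
      extS T.δ P (Finsupp.mapRange.addMonoidHom κ w) := by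
  induction w using Finsupp.induction_linear with
  | zero => simp
  | add a b ha hb => rw [map_add, map_add, map_add, map_add, ha, hb]
  | single x r =>
    rw [Finsupp.mapRange.addMonoidHom_apply (f := κ) (g := Finsupp.single x r),
      Finsupp.mapRange_single, extS_single, extS_single]
    ext y
    rw [Finsupp.mapRange.addMonoidHom_apply, Finsupp.mapRange_apply, Finsupp.smul_apply,
      Finsupp.smul_apply, mr_apply, mr_apply, smul_eq_mul, smul_eq_mul, RingHom.comp_apply,
      ← T.comm, hκ]

/-- Lower bound for the dimension. -/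
theorem Tri.lower {b : ℕ} (z : Fin b → X →₀ F)
    (hz : ∀ i, extS T.δ P (z i) = 0)
    (hind : ∀ c : Fin b → F, (∑ i, c i • z i) ∈ LinearMap.range (extS T.δ Q) → c = 0) :
    (b : ℝ≥0∞) ≤ vnDim G (HomQ (extS T.ρ Q) (extS T.ρ P)) := by
  classical
  obtain ⟨s, hs, ζ, hζ⟩ := exists_denom_finsupp (fun i => mr T.θ (z i))
  have hζP : ∀ i, extS T.ρ P (ζ i) = 0 := by
    intro i
    apply mr_inj (eta_injective (G := G))
    rw [← T.extU_mr, ← hζ, map_smul, T.extU_mrθ, hz, map_zero, map_zero, smul_zero]
  obtain ⟨B, a, κ, hκ1, hκ2⟩ := exists_coords T.θ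
  -- the linear map
  let φ : (Fin b → vN G) →ₗ[vN G] HomQ (extS T.ρ Q) (extS T.ρ P) :=
    (Submodule.mkQ _) ∘ₗ (Fintype.linearCombination (vN G)
      (fun i => (⟨ζ i, hζP i⟩ : LinearMap.ker (extS T.ρ P))))
  have hφ : ∀ v, φ v = 0 → v = 0 := by
    intro v hv
    have h1 : Fintype.linearCombination (vN G)
      (fun i => (⟨ζ i, hζP i⟩ : LinearMap.ker (extS T.ρ P))) v ∈
        Submodule.comap (LinearMap.ker (extS T.ρ P)).subtype (LinearMap.range (extS T.ρ Q)) :=
      (Submodule.Quotient.mk_eq_zero _).mp hv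
    rw [Submodule.mem_comap, Fintype.linearCombination_apply, map_sum] at h1
    obtain ⟨y, hy⟩ := h1
    have h2 : extS T.ρ Q y = ∑ i, v i • ζ i := by
      rw [hy]
      apply Finset.sum_congr rfl
      intro i _
      rfl
    have h3 : T.extU Q (mr (eta G) y) = ∑ i, (eta G (v i) * eta G s) • mr T.θ (z i) := by
      rw [T.extU_mr, h2, map_sum]
      apply Finset.sum_congr rfl
      intro i _
      rw [mr_smul, ← hζ, smul_smul]
    have h4 : ∀ i, eta G (v i) * eta G s = 0 := by
      intro i
      have h5 : ∀ α, κ (eta G (v i) * eta G s) α = 0 := by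
        intro α
        let κα : UG G →+ F := (Finsupp.applyAddHom α).comp κ
        have hκα : ∀ u f, κα (u * T.θ f) = κα u * f := fun u f => hκ1 u f α
        have h6 := T.functional Q κα hκα (mr (eta G) y)
        rw [h3, map_sum] at h6
        have h7 : ∀ i, Finsupp.mapRange.addMonoidHom κα
            ((eta G (v i) * eta G s) • mr T.θ (z i)) =
            κα (eta G (v i) * eta G s) • z i := by
          intro i
          ext x
          rw [Finsupp.mapRange.addMonoidHom_apply, Finsupp.mapRange_apply, Finsupp.smul_apply,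
            Finsupp.smul_apply, mr_apply, smul_eq_mul, smul_eq_mul, hκα]
        rw [Finset.sum_congr rfl (fun i _ => h7 i)] at h6
        have h8 := hind _ ⟨_, h6.symm⟩
        exact congrFun h8 i
      have h9 := hκ2 (eta G (v i) * eta G s)
      have h10 : κ (eta G (v i) * eta G s) = 0 := by
        ext α
        exact h5 α
      rw [h10] at h9
      rw [h9]
      simp
    ext1 i
    have h11 : eta G (v i * s) = eta G 0 := by rw [map_mul, h4, map_zero]
    have h12 := eta_injective h11
    exact (mem_nonZeroDivisors_iff.mp hs).2 _ h12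
  have hinj : Function.Injective φ := (injective_iff_map_eq_zero φ).mpr hφ
  unfold vnDim
  refine le_iSup_of_le b (le_iSup_of_le 1 (le_iSup_of_le (by rw [Matrix.mul_one])
    (le_iSup_of_le ⟨φ ∘ₗ (projMod 1).subtype, hinj.comp Subtype.val_injective⟩ ?_)))
  rw [rtr_one]
  simp

theorem vrk_smul_reg {I J : Type} [Fintype I] [Fintype J] (e : Matrix I J (vN G)) {s : vN G}
    (hs : s ∈ nonZeroDivisors (vN G)) : vrk (s • e) = vrk e := by
  apply le_antisymm
  · classical
    have : s • e = (Matrix.diagonal fun _ : I => s) * e := by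
      ext1 i j
      simp [Matrix.diagonal_mul]
    rw [this]
    exact vrk_mul_le_right _ _
  · rw [← vrk_conj e, ← vrk_conj (s • e)]
    apply vrk_le_of_ker
    intro Z hZ
    have h1 : (s • e) * Zᴴ = 0 := by
      have := congrArg Matrix.conjTranspose hZ
      rwa [Matrix.conjTranspose_mul, Matrix.conjTranspose_conjTranspose,
        Matrix.conjTranspose_zero] at this
    have h2 : e * Zᴴ = 0 := by
      rw [Matrix.smul_mul] at h1
      ext1 i j
      have := congrFun (congrFun h1 i) j
      rw [Matrix.smul_apply, smul_eq_mul] at this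
      exact (mem_nonZeroDivisors_iff.mp hs).1 _ this
    have := congrArg Matrix.conjTranspose h2
    rwa [Matrix.conjTranspose_mul, Matrix.conjTranspose_conjTranspose,
      Matrix.conjTranspose_zero] at this

/-- Upper bound for the dimension. -/
theorem Tri.upper {b : ℕ} (z : Fin b → X →₀ F)
    (hspan : ∀ w : X →₀ F, extS T.δ P w = 0 → ∃ c : Fin b → F,
      w - ∑ i, c i • z i ∈ LinearMap.range (extS T.δ Q)) :
    vnDim G (HomQ (extS T.ρ Q) (extS T.ρ P)) ≤ (b : ℝ≥0∞) := by
  classical
  unfold vnDim
  refine iSup_le fun m => iSup_le fun e => iSup_le fun he => iSup_le fun hf => ?_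
  obtain ⟨f, hf⟩ := hf
  -- representatives
  let ε : Fin m → projMod e := fun i => ⟨Matrix.vecMul (Pi.single i 1) e, ⟨Pi.single i 1, rfl⟩⟩
  have hrep : ∀ i, ∃ Fk : LinearMap.ker (extS T.ρ P), f (ε i) = Submodule.mkQ _ Fk := by
    intro i
    obtain ⟨y, hy⟩ := Submodule.mkQ_surjective _ (f (ε i))
    exact ⟨y, hy.symm⟩
  choose Fk hfi using hrep
  let Fi : Fin m → X →₀ vN G := fun i => (Fk i).1
  have hFi : ∀ i, extS T.ρ P (Fi i) = 0 := fun i => (Fk i).2
  have hstar : ∀ v : Fin m → vN G, (∑ i, v i • Fi i) ∈ LinearMap.range (extS T.ρ Q) →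
      Matrix.vecMul v e = 0 := by
    intro v hv
    have h1 : f (∑ i, v i • ε i) = 0 := by
      rw [map_sum]
      have h2 : ∀ i, f (v i • ε i) = Submodule.mkQ _ (v i • Fk i) := by
        intro i
        rw [map_smul, hfi, map_smul]
      rw [Finset.sum_congr rfl (fun i _ => h2 i), ← map_sum, Submodule.mkQ_apply,
        Submodule.Quotient.mk_eq_zero, Submodule.mem_comap, map_sum]
      exact hv
    have h3 : ∑ i, v i • ε i = 0 := hf (by rw [h1, map_zero])
    have h4 := congrArg Subtype.val h3
    rw [AddSubmonoidClass.coe_finsetSum] at h4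
    refine Eq.trans ?_ h4
    ext1 j
    simp only [Matrix.vecMul, dotProduct, Finset.sum_apply]
    apply Finset.sum_congr rfl
    intro i _
    change v i * e i j = v i * ∑ k, (Pi.single i 1 : Fin m → vN G) k * e k j
    simp [Pi.single_apply]
  obtain ⟨B, a, κ, hκ1, hκ2⟩ := exists_coords T.θ
  -- decomposition of cycles over U
  have hdec : ∀ w : X →₀ UG G, T.extU P w = 0 → ∃ (c : Fin b → UG G) (y : W →₀ UG G),
      w = ∑ j, c j • mr T.θ (z j) + T.extU Q y := by
    intro w hw
    let κα : B → (UG G →+ F) := fun α => (Finsupp.applyAddHom α).comp κ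
    have hκα : ∀ α u f, κα α (u * T.θ f) = κα α u * f := fun α u f => hκ1 u f α
    have h1 : ∀ α, ∃ c : Fin b → F, ∃ y : W →₀ F,
        Finsupp.mapRange.addMonoidHom (κα α) w = ∑ i, c i • z i + extS T.δ Q y := by
      intro α
      have h2 := T.functional P (κα α) (hκα α) w
      rw [hw, map_zero] at h2
      obtain ⟨c, y, hy⟩ := hspan _ h2.symm
      refine ⟨c, y, ?_⟩
      rw [hy]
      abel
    choose c y hcy using h1
    let S : Finset B := w.support.biUnion fun x => (κ (w x)).support
    have h3 : w = ∑ α ∈ S, a α • mr T.θ (Finsupp.mapRange.addMonoidHom (κα α) w) := by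
      ext x
      rw [Finsupp.finsetSum_apply]
      by_cases hx : w x = 0
      · rw [hx]
        symm
        apply Finset.sum_eq_zero
        intro α _
        rw [Finsupp.smul_apply, mr_apply, Finsupp.mapRange.addMonoidHom_apply,
          Finsupp.mapRange_apply, hx, map_zero, map_zero, smul_zero]
      · conv_lhs => rw [hκ2 (w x)]
        have hsub : (κ (w x)).support ⊆ S :=
          Finset.subset_biUnion_of_mem (fun x => (κ (w x)).support)
            (Finsupp.mem_support_iff.mpr hx)
        rw [Finsupp.sum_of_support_subset _ hsub _ (by intro i _; rw [map_zero, mul_zero])]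
        apply Finset.sum_congr rfl
        intro α _
        rfl
    refine ⟨fun j => ∑ α ∈ S, a α * T.θ (c α j), ∑ α ∈ S, a α • mr T.θ (y α), ?_⟩
    conv_lhs => rw [h3]
    rw [map_sum]
    have h4 : ∀ α, a α • mr T.θ (Finsupp.mapRange.addMonoidHom (κα α) w) =
        ∑ j, (a α * T.θ (c α j)) • mr T.θ (z j) + T.extU Q (a α • mr T.θ (y α)) := by
      intro α
      rw [hcy, map_add, map_sum, smul_add, Finset.smul_sum, map_smul, T.extU_mrθ]
      congr 1
      apply Finset.sum_congr rfl
      intro j _
      rw [mr_smul, smul_smul]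
    rw [Finset.sum_congr rfl (fun α _ => h4 α), Finset.sum_add_distrib, Finset.sum_comm]
    congr 1
    apply Finset.sum_congr rfl
    intro j _
    rw [Finset.sum_smul]
  have hcyc : ∀ i, T.extU P (mr (eta G) (Fi i)) = 0 := by
    intro i
    rw [T.extU_mr, hFi, map_zero]
  choose E y hEy using fun i => hdec _ (hcyc i)
  have hss : ∀ v : Fin m → vN G, (∀ j, ∑ i, eta G (v i) * E i j = 0) →
      Matrix.vecMul v e = 0 := by
    intro v hv
    have h1 : ∑ i, eta G (v i) • mr (eta G) (Fi i) = T.extU Q (∑ i, eta G (v i) • y i) := by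
      rw [map_sum]
      have h2 : ∀ i, eta G (v i) • mr (eta G) (Fi i) =
          ∑ j, (eta G (v i) * E i j) • mr T.θ (z j) + T.extU Q (eta G (v i) • y i) := by
        intro i
        rw [hEy i, smul_add, Finset.smul_sum, map_smul]
        congr 1
        apply Finset.sum_congr rfl
        intro j _
        rw [smul_smul]
      rw [Finset.sum_congr rfl (fun i _ => h2 i), Finset.sum_add_distrib, Finset.sum_comm]
      have h3 : ∑ j, ∑ i, (eta G (v i) * E i j) • mr T.θ (z j) = 0 := by
        apply Finset.sum_eq_zero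
        intro j _
        rw [← Finset.sum_smul, hv, zero_smul]
      rw [h3, zero_add]
    obtain ⟨s, hs, ζ, hζ⟩ := exists_denom_finsupp (fun _ : Unit => ∑ i, eta G (v i) • y i)
    have h4 : ∑ i, (s * v i) • Fi i = extS T.ρ Q (ζ ()) := by
      apply mr_inj (eta_injective (G := G))
      rw [← T.extU_mr, ← hζ, map_smul, ← h1, map_sum, Finset.smul_sum]
      apply Finset.sum_congr rfl
      intro i _
      rw [mr_smul, smul_smul, map_mul]
    have h5 := hstar (fun i => s * v i) ⟨_, h4.symm⟩
    ext1 j
    have h6 := congrFun h5 j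
    simp only [Matrix.vecMul, dotProduct, mul_assoc, Pi.zero_apply] at h6
    rw [← Finset.mul_sum] at h6
    exact (mem_nonZeroDivisors_iff.mp hs).1 _ h6
  obtain ⟨s, hs, G', hG'⟩ := exists_denom_matrix ((e.map (eta G)) * (Matrix.of E))
  have h1 : vrk (s • e) ≤ vrk G' := by
    apply vrk_le_of_ker
    intro Z hZ
    have h2 : ∀ i, Matrix.vecMul (fun k => (Z * (s • e)) i k) e = 0 := by
      intro i
      apply hss
      intro j
      have h3 := congrArg (eta G) (congrFun (congrFun hZ i) j)
      rw [Matrix.mul_apply, map_sum, Matrix.zero_apply, map_zero] at h3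
      simp_rw [map_mul, ← hG', Matrix.mul_apply, Matrix.map_apply, Matrix.of_apply] at h3
      rw [← h3]
      simp_rw [Matrix.mul_apply, Matrix.smul_apply, smul_eq_mul, map_sum, map_mul]
      simp_rw [Finset.mul_sum, Finset.sum_mul, mul_assoc]
      rw [Finset.sum_comm]
    ext1 i j
    have h4 := congrFun (h2 i) j
    have h5 : (Z * (s • e)) * e = Z * (s • e) := by
      rw [Matrix.mul_assoc, Matrix.smul_mul, he]
    rw [← h5]
    exact h4
  rw [vrk_smul_reg _ hs] at h1
  have h2 : rtr e ≤ b := by
    rw [rtr_idem he]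
    have := vrk_le_card' G'
    rw [Fintype.card_fin] at this
    linarith
  rw [← ENNReal.ofReal_natCast b]
  exact ENNReal.ofReal_le_ofReal h2

end

end Pool.Agent.Lib.MPf08bf1
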