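import Pool.Agent.Lib.MPf08bf1.Alpha
import Pool.Agent.Lib.MPf08bf1.Transfer
import Pool.Agent.Lib.MPf08bf1.Restrict

/-!
The division ring `D(Γ)` and its subfields.
-/

open scoped ENNReal Matrix

noncomputable section

namespace Pool.Agent.Lib.MPf08bf1

section
variable {Γ : Type} [Group Γ]

/-- The division subring generated by a subgroup. -/
def subD {D : Type} [DivisionRing D] (g : MonoidAlgebra ℤ Γ →+* D) (L : Subgroup Γ) : Subfield D :=
  Subfield.closure ((fun γ => g (MonoidAlgebra.single γ 1)) '' (L : Set Γ))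

theorem mem_subD {D : Type} [DivisionRing D] (g : MonoidAlgebra ℤ Γ →+* D) (L : Subgroup Γ)
    {γ : Γ} (h : γ ∈ L) : g (MonoidAlgebra.single γ 1) ∈ subD g L :=
  Subfield.subset_closure ⟨γ, h, rfl⟩

theorem zmap_fstar_single {K : Type} [Group K] (f : K →* Γ) (k : K) :
    zmap Γ (fstar f (MonoidAlgebra.single k 1)) = lam Γ (f k) := by
  rw [fstar_single, zmap_single, one_smul]

theorem single_eq_zsmul {K : Type} [Group K] (k : K) (n : ℤ) :
    (MonoidAlgebra.single k n : MonoidAlgebra ℤ K) = n • MonoidAlgebra.single k 1 := by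
  rw [MonoidAlgebra.smul_single, smul_eq_mul, mul_one]

theorem fstar_mem_subD {K D : Type} [Group K] [DivisionRing D] (g : MonoidAlgebra ℤ Γ →+* D)
    (f : K →* Γ) (a : MonoidAlgebra ℤ K) : g (fstar f a) ∈ subD g f.range := by
  induction a using MonoidAlgebra.induction_linear with
  | zero => rw [map_zero, map_zero]; exact zero_mem _
  | add a b ha hb => rw [map_add, map_add]; exact add_mem ha hb
  | single k n =>
    rw [single_eq_zsmul, map_zsmul, map_zsmul, fstar_single]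
    exact zsmul_mem (mem_subD g _ (MonoidHom.mem_range.mpr ⟨k, rfl⟩)) n

variable (hA : RkInt (zmap Γ))

/-- The division ring. -/
abbrev DR : Type := (sysOne (zmap Γ) hA).clo

/-- The map from the group ring. -/
def gDR : MonoidAlgebra ℤ Γ →+* DR hA :=
  ((sysOne (zmap Γ) hA).ρ).codRestrict _ (fun a => (sysOne (zmap Γ) hA).rat_ρ a)

theorem gDR_coe (a : MonoidAlgebra ℤ Γ) : ((gDR hA a : DR hA) : UG Γ) = eta Γ (zmap Γ a) := rfl

/-- The inclusion in `U(Γ)`. -/
def iDR : DR hA →+* UG Γ := (sysOne (zmap Γ) hA).clo.subtype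

theorem iDR_inj : Function.Injective (iDR hA) := Subtype.val_injective

/-- The data for `Γ` itself. -/
def triTop : Tri Γ (MonoidAlgebra ℤ Γ) (DR hA) where
  ρ := zmap Γ
  δ := gDR hA
  θ := iDR hA
  comm _ := rfl

section
variable {K : Type} [Group K] (f : K →* Γ) (hf : Function.Injective f)

include hA hf in
theorem rkInt_K : RkInt (zmap K) := fun _ _ A => by
  rw [vrk_map f hf]
  exact hA _ _

/-- The pair system. -/
def sysK : LocSys (MonoidAlgebra ℤ K) (UG K × UG Γ) :=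
  sysTwo (zmap K) ((zmap Γ).comp (fstar f)) (rkInt_K hA f hf) (fun _ _ A => vrk_map f hf A)

theorem sysK_rat {x : UG K × UG Γ} (hx : (sysK hA f hf).Rat x) :
    (sysOne (zmap Γ) hA).Rat x.2 := by
  obtain ⟨I, hI, A, u, v, w, hfull, hw, rfl⟩ := hx
  refine ⟨I, hI, A.map (fstar f), fun i => fstar f (u i), fun i => fstar f (v i),
    fun i => (w i).2, ?_, ?_, ?_⟩
  · change vrk ((A.map (fstar f)).map (zmap Γ)) = _
    have h1 : vrk (A.map (zmap K)) = Fintype.card I := hfull
    rw [← vrk_map f hf]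
    exact h1
  · ext i
    have := congrArg Prod.snd (congrFun hw i)
    simp only [Matrix.mulVec, dotProduct, Prod.snd_sum] at this
    exact this
  · rw [Prod.snd_sum]
    rfl

/-- The map to `D(Γ)`. -/
def sigK : (sysK hA f hf).clo →+* DR hA :=
  ((RingHom.snd (UG K) (UG Γ)).comp (sysK hA f hf).clo.subtype).codRestrict _
    (fun x => sysK_rat hA f hf x.2)

theorem sigK_ρ (a : MonoidAlgebra ℤ K) :
    sigK hA f hf ⟨(sysK hA f hf).ρ a, (sysK hA f hf).rat_ρ a⟩ = gDR hA (fstar f a) := rfl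

theorem subD_le : subD (gDR hA) f.range ≤ (sigK hA f hf).fieldRange := by
  unfold subD
  rw [Subfield.closure_le]
  rintro _ ⟨_, ⟨k, rfl⟩, rfl⟩
  refine ⟨⟨(sysK hA f hf).ρ (MonoidAlgebra.single k 1), (sysK hA f hf).rat_ρ _⟩, ?_⟩
  rw [sigK_ρ, fstar_single]

/-- The map from the division ring of `K` to `U(K)`. -/
def thK : subD (gDR hA) f.range →+* UG K :=
  (((RingHom.fst (UG K) (UG Γ)).comp (sysK hA f hf).clo.subtype).comp
    (sigK hA f hf).rangeRestrictFieldEquiv.symm.toRingHom).comp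
      (Subfield.inclusion (subD_le hA f hf))

/-- The data for `K`. -/
def triK : Tri K (MonoidAlgebra ℤ K) (subD (gDR hA) f.range) where
  ρ := zmap K
  δ := ((gDR hA).comp (fstar f)).codRestrict _ (fun a => fstar_mem_subD (gDR hA) f a)
  θ := thK hA f hf
  comm a := by
    have h1 : (sigK hA f hf).rangeRestrictFieldEquiv.symm
        (Subfield.inclusion (subD_le hA f hf)
          (((gDR hA).comp (fstar f)).codRestrict _ (fun a => fstar_mem_subD (gDR hA) f a) a)) =
        ⟨(sysK hA f hf).ρ a, (sysK hA f hf).rat_ρ a⟩ := by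
      rw [RingEquiv.symm_apply_eq]
      apply Subtype.ext
      rfl
    change (((sigK hA f hf).rangeRestrictFieldEquiv.symm
        (Subfield.inclusion (subD_le hA f hf)
          (((gDR hA).comp (fstar f)).codRestrict _
            (fun a => fstar_mem_subD (gDR hA) f a) a))).1 : UG K × UG Γ).1 = _
    rw [h1]
    rfl

end

theorem subD_fixed (ψ : Γ →* Multiplicative ℤ) (L : Subgroup Γ) (hL : L ≤ ψ.ker) (z : Circle)
    (α : UG Γ →+* UG Γ) (hα : ∀ T, α (eta Γ T) = eta Γ (alpha (chiOf z ψ) T)) (d : DR hA)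
    (hd : d ∈ subD (gDR hA) L) : α (iDR hA d) = iDR hA d := by
  have h : subD (gDR hA) L ≤ (α.comp (iDR hA)).eqLocusField (iDR hA) := by
    unfold subD
    rw [Subfield.closure_le]
    rintro _ ⟨γ, hγ, rfl⟩
    change α (eta Γ (zmap Γ (MonoidAlgebra.single γ 1))) = eta Γ (zmap Γ (MonoidAlgebra.single γ 1))
    rw [hα, zmap_single, one_smul, alpha_lam, chiOf_apply]
    have : ψ γ = 1 := hL hγ
    rw [this]
    simp
  exact h hd

theorem coset_indep (ψ : Γ →* Multiplicative ℤ) (L : Subgroup Γ) (hL : L ≤ ψ.ker) {ι : Type}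
    (s : Finset ι) (d : ι → DR hA) (γ : ι → Γ) (hd : ∀ i ∈ s, d i ∈ subD (gDR hA) L)
    (hsum : ∑ i ∈ s, d i * gDR hA (MonoidAlgebra.single (γ i) 1) = 0) (k : ℤ) :
    ∑ i ∈ s with (ψ (γ i)).toAdd = k, d i * gDR hA (MonoidAlgebra.single (γ i) 1) = 0 := by
  apply iDR_inj hA
  rw [map_sum, map_zero]
  apply homog_sep ψ s (fun i => iDR hA (d i * gDR hA (MonoidAlgebra.single (γ i) 1)))
    (fun i => (ψ (γ i)).toAdd)
  · intro z α hα i hi
    rw [map_mul, map_mul, subD_fixed hA ψ L hL z α hα _ (hd i hi)]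
    change iDR hA (d i) * α (eta Γ (zmap Γ (MonoidAlgebra.single (γ i) 1))) =
      kap Γ ((z : ℂ) ^ (ψ (γ i)).toAdd) * (iDR hA (d i) * eta Γ (zmap Γ (MonoidAlgebra.single (γ i) 1)))
    rw [hα, zmap_single, one_smul, alpha_lam, chiOf_apply, Circle.coe_zpow]
    have h1 : ∀ (c : ℂ) (x : vN Γ), eta Γ (c • x) = kap Γ c * eta Γ x := by
      intro c x
      rw [Algebra.smul_def, map_mul]
      rfl
    have h2 : ∀ (c : ℂ) (x : UG Γ), x * kap Γ c = kap Γ c * x := by
      intro c x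
      obtain ⟨t, ht, a, ha⟩ := exists_denom x
      have hu := eta_isUnit (G := Γ) ht
      have h3 : eta Γ t * (x * kap Γ c) = eta Γ t * (kap Γ c * x) := by
        rw [← mul_assoc, ha, ← mul_assoc]
        change eta Γ a * eta Γ (algebraMap ℂ (vN Γ) c) = eta Γ t * eta Γ (algebraMap ℂ (vN Γ) c) * x
        rw [← map_mul, ← map_mul, ← Algebra.commutes, ← Algebra.commutes, map_mul, map_mul,
          mul_assoc, ha]
      exact hu.mul_left_cancel h3
    rw [h1, ← mul_assoc, h2, mul_assoc]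
  · rw [← map_sum, hsum, map_zero]

end

/-- All the properties of `D(Γ)` used later. -/
theorem exists_D {Γ : Type} [Group Γ] (hA : RkInt (zmap Γ)) :
    ∃ (D : Type) (_ : DivisionRing D) (g : MonoidAlgebra ℤ Γ →+* D),
      (∃ S : Tri Γ (MonoidAlgebra ℤ Γ) D, S.ρ = zmap Γ ∧ S.δ = g) ∧
      (∀ (K : Type) [Group K] (f : K →* Γ), Function.Injective f →
        ∃ S : Tri K (MonoidAlgebra ℤ K) (subD g f.range), S.ρ = zmap K ∧
          ∀ a, (S.δ a : D) = g (fstar f a)) ∧
      (∀ (ψ : Γ →* Multiplicative ℤ) (L : Subgroup Γ), L ≤ ψ.ker → ∀ (ι : Type)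
        (s : Finset ι) (d : ι → D) (γ : ι → Γ), (∀ i ∈ s, d i ∈ subD g L) →
        ∑ i ∈ s, d i * g (MonoidAlgebra.single (γ i) 1) = 0 → ∀ k : ℤ,
        ∑ i ∈ s with (ψ (γ i)).toAdd = k, d i * g (MonoidAlgebra.single (γ i) 1) = 0) :=
  ⟨DR hA, inferInstance, gDR hA, ⟨triTop hA, rfl, rfl⟩,
    fun _ _ f hf => ⟨triK hA f hf, rfl, fun _ => rfl⟩,
    fun ψ L hL _ s d γ hd hs k => coset_indep hA ψ L hL s d γ hd hs k⟩

end Pool.Agent.Lib.MPf08bf1
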