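import Pool.Agent.Lib.MPf08bf1.DSub

/-!
Subadditivity of the normalised dimension function on homomorphisms to `ℤ`.
-/

noncomputable section

namespace Pool.Agent.Lib.MPf08bf1

section
variable {Γ : Type} [Group Γ]

/-- The integer value of a homomorphism. -/
abbrev vl (φ : Γ →* Multiplicative ℤ) (a : Γ) : ℤ := (φ a).toAdd

theorem vl_mul (φ : Γ →* Multiplicative ℤ) (a b : Γ) : vl φ (a * b) = vl φ a + vl φ b := by
  unfold vl
  rw [map_mul]
  rfl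

theorem vl_inv (φ : Γ →* Multiplicative ℤ) (a : Γ) : vl φ a⁻¹ = -vl φ a := by
  unfold vl
  rw [map_inv]
  rfl

theorem vl_one (φ : Γ →* Multiplicative ℤ) : vl φ 1 = 0 := by
  unfold vl
  rw [map_one]
  rfl

theorem vl_zpow (φ : Γ →* Multiplicative ℤ) (a : Γ) (n : ℤ) : vl φ (a ^ n) = n * vl φ a := by
  unfold vl
  rw [map_zpow φ]
  exact (toAdd_zpow _ _).trans (smul_eq_mul _ _)

theorem vl_pow (φ : Γ →* Multiplicative ℤ) (a : Γ) (n : ℕ) : vl φ (a ^ n) = n * vl φ a := by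
  rw [← zpow_natCast, vl_zpow]

theorem mem_ker_iff (φ : Γ →* Multiplicative ℤ) (a : Γ) : a ∈ φ.ker ↔ vl φ a = 0 := by
  rw [MonoidHom.mem_ker]
  constructor
  · intro h
    unfold vl
    rw [h]
    rfl
  · intro h
    exact Multiplicative.toAdd.injective h

theorem vl_mulHom (φ ψ : Γ →* Multiplicative ℤ) (a : Γ) : vl (φ * ψ) a = vl φ a + vl ψ a := rfl

/-- `q` is the non-negative generator of `φ(K)`. -/
structure GenOn (K : Subgroup Γ) (φ : Γ →* Multiplicative ℤ) (q : ℕ) : Prop where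
  dvd : ∀ a ∈ K, (q : ℤ) ∣ vl φ a
  att : ∃ a ∈ K, vl φ a = q

theorem exists_genOn (K : Subgroup Γ) (φ : Γ →* Multiplicative ℤ) : ∃ q, GenOn K φ q := by
  let S : AddSubgroup ℤ :=
    { carrier := {n | ∃ a ∈ K, vl φ a = n}
      add_mem' := by
        rintro _ _ ⟨a, ha, rfl⟩ ⟨b, hb, rfl⟩
        exact ⟨a * b, mul_mem ha hb, vl_mul φ a b⟩
      zero_mem' := ⟨1, one_mem _, vl_one φ⟩
      neg_mem' := by
        rintro _ ⟨a, ha, rfl⟩
        exact ⟨a⁻¹, inv_mem ha, vl_inv φ a⟩ }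
  obtain ⟨z, hz⟩ := Int.subgroup_cyclic S
  have hzS : z ∈ S := by rw [hz]; exact AddSubgroup.mem_closure_singleton_self z
  refine ⟨z.natAbs, ⟨?_, ?_⟩⟩
  · intro a ha
    have : vl φ a ∈ S := ⟨a, ha, rfl⟩
    rw [hz, AddSubgroup.mem_closure_singleton] at this
    obtain ⟨n, hn⟩ := this
    rw [Int.natAbs_dvd]
    exact ⟨n, by rw [← hn, smul_eq_mul, mul_comm]⟩
  · rcases Int.natAbs_eq z with h | h
    · obtain ⟨a, ha, hav⟩ := hzS
      exact ⟨a, ha, by rw [hav]; exact h⟩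
    · obtain ⟨a, ha, hav⟩ := hzS
      refine ⟨a⁻¹, inv_mem ha, ?_⟩
      rw [vl_inv, hav]
      omega

theorem GenOn.unique {K : Subgroup Γ} {φ : Γ →* Multiplicative ℤ} {q q' : ℕ} (h : GenOn K φ q)
    (h' : GenOn K φ q') : q = q' := by
  obtain ⟨a, ha, hav⟩ := h.att
  obtain ⟨a', ha', hav'⟩ := h'.att
  have h1 := h'.dvd a ha
  have h2 := h.dvd a' ha'
  rw [hav] at h1
  rw [hav'] at h2
  exact Nat.dvd_antisymm (by exact_mod_cast h2) (by exact_mod_cast h1)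

/-- The area form. -/
def area (h k : Γ →* Multiplicative ℤ) (a b : Γ) : ℤ := vl h a * vl k b - vl h b * vl k a

theorem area_dvd {h k : Γ →* Multiplicative ℤ} {m q : ℕ} (hm : GenOn ⊤ h m)
    (hq : GenOn h.ker k q) (a b : Γ) : ((m * q : ℕ) : ℤ) ∣ area h k a b := by
  obtain ⟨t, -, ht⟩ := hm.att
  have key : ∀ a, ∃ i α : ℤ, vl h a = m * i ∧ vl k a = i * vl k t + q * α := by
    intro a
    obtain ⟨i, hi⟩ := hm.dvd a trivial
    have hmem : a * t ^ (-i) ∈ h.ker := by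
      rw [mem_ker_iff, vl_mul, vl_zpow, ht, hi]
      ring
    obtain ⟨α, hα⟩ := hq.dvd _ hmem
    rw [vl_mul, vl_zpow] at hα
    exact ⟨i, α, hi, by linarith⟩
  obtain ⟨i, α, h1, h2⟩ := key a
  obtain ⟨j, β, h3, h4⟩ := key b
  refine ⟨i * β - j * α, ?_⟩
  unfold area
  rw [h1, h2, h3, h4]
  push_cast
  ring

theorem area_att {h k : Γ →* Multiplicative ℤ} {m q : ℕ} (hm : GenOn ⊤ h m)
    (hq : GenOn h.ker k q) : ∃ a b, area h k a b = ((m * q : ℕ) : ℤ) := by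
  obtain ⟨t, -, ht⟩ := hm.att
  obtain ⟨v, hv, hvq⟩ := hq.att
  rw [mem_ker_iff] at hv
  refine ⟨t, v, ?_⟩
  unfold area
  rw [ht, hvq, hv]
  push_cast
  ring

theorem area_gen_eq {h k h' k' : Γ →* Multiplicative ℤ} {m q m' q' : ℕ} (hm : GenOn ⊤ h m)
    (hq : GenOn h.ker k q) (hm' : GenOn ⊤ h' m') (hq' : GenOn h'.ker k' q')
    (harea : (∀ a b, area h k a b = area h' k' a b) ∨ (∀ a b, area h k a b = -area h' k' a b)) :
    m * q = m' * q' := by
  obtain ⟨a, b, hab⟩ := area_att hm hq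
  obtain ⟨a', b', hab'⟩ := area_att hm' hq'
  have h1 : ((m' * q' : ℕ) : ℤ) ∣ ((m * q : ℕ) : ℤ) := by
    rw [← hab]
    rcases harea with hh | hh
    · rw [hh]; exact area_dvd hm' hq' a b
    · rw [hh]; exact (area_dvd hm' hq' a b).neg_right
  have h2 : ((m * q : ℕ) : ℤ) ∣ ((m' * q' : ℕ) : ℤ) := by
    rw [← hab']
    rcases harea with hh | hh
    · rw [← hh]; exact area_dvd hm hq a' b'
    · have : area h' k' a' b' = -area h k a' b' := by rw [hh, neg_neg]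
      rw [this]; exact (area_dvd hm hq a' b').neg_right
  exact Nat.dvd_antisymm (by exact_mod_cast h2) (by exact_mod_cast h1)

/-- The primitive homomorphism with the same kernel. -/
theorem exists_prim {φ : Γ →* Multiplicative ℤ} {m : ℕ} (hm : GenOn ⊤ φ m) (hm0 : m ≠ 0) :
    ∃ ψ : Γ →* Multiplicative ℤ, Function.Surjective ψ ∧ ψ.ker = φ.ker := by
  have hm0' : (m : ℤ) ≠ 0 := by exact_mod_cast hm0
  let ψ : Γ →* Multiplicative ℤ :=
    { toFun := fun a => Multiplicative.ofAdd (vl φ a / m)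
      map_one' := by
        change Multiplicative.ofAdd (vl φ 1 / m) = 1
        rw [vl_one]
        simp
      map_mul' := by
        intro a b
        change Multiplicative.ofAdd (vl φ (a * b) / m) = _
        rw [vl_mul, Int.add_ediv_of_dvd_left (hm.dvd a trivial)]
        rfl }
  have hψ : ∀ a, vl ψ a = vl φ a / m := fun a => rfl
  refine ⟨ψ, ?_, ?_⟩
  · intro n
    obtain ⟨t, -, ht⟩ := hm.att
    refine ⟨t ^ n.toAdd, ?_⟩
    apply Multiplicative.toAdd.injective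
    change vl ψ (t ^ n.toAdd) = n.toAdd
    rw [vl_zpow, hψ, ht, Int.ediv_self hm0', mul_one]
  · ext a
    rw [mem_ker_iff, mem_ker_iff, hψ]
    obtain ⟨i, hi⟩ := hm.dvd a trivial
    rw [hi, Int.mul_ediv_cancel_left _ hm0']
    constructor
    · intro h; rw [h, mul_zero]
    · intro h; exact (mul_eq_zero.mp h).resolve_left hm0'

end

section
variable {Γ : Type} [Group Γ] {D : Type} [DivisionRing D] {g : MonoidAlgebra ℤ Γ →+* D}
  {p r q : ℕ} {P : Matrix (Fin r) (Fin p) (MonoidAlgebra ℤ Γ)}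
  {Q : Matrix (Fin q) (Fin r) (MonoidAlgebra ℤ Γ)}

/-- Subadditivity. -/
theorem gn_subadd (hind : CosInd g) (β : Subgroup Γ → ℕ)
    (hβ : ∀ φ : Γ →* Multiplicative ℤ, Function.Surjective φ →
      ∃ z : Fin (β φ.ker) → Fin r → D, IsBas g P Q φ.ker (β φ.ker) z)
    (φ₁ φ₂ : Γ →* Multiplicative ℤ) {m₁ m₂ m₃ : ℕ} (h₁ : GenOn ⊤ φ₁ m₁) (h₂ : GenOn ⊤ φ₂ m₂)
    (h₃ : GenOn ⊤ (φ₁ * φ₂) m₃) :
    m₃ * β (φ₁ * φ₂).ker ≤ m₁ * β φ₁.ker + m₂ * β φ₂.ker := by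
  rcases Nat.eq_zero_or_pos m₃ with h0 | hm₃
  · rw [h0, zero_mul]; exact Nat.zero_le _
  rcases Nat.eq_zero_or_pos m₁ with h0 | hm₁
  · have h1 : φ₁ = 1 := by
      ext a
      apply Multiplicative.toAdd.injective
      obtain ⟨i, hi⟩ := h₁.dvd a trivial
      rw [h0, Nat.cast_zero, zero_mul] at hi
      exact hi
    rw [h1, one_mul] at h₃ ⊢
    rw [h₃.unique h₂]
    exact Nat.le_add_left _ _
  rcases Nat.eq_zero_or_pos m₂ with h0 | hm₂
  · have h1 : φ₂ = 1 := by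
      ext a
      apply Multiplicative.toAdd.injective
      obtain ⟨i, hi⟩ := h₂.dvd a trivial
      rw [h0, Nat.cast_zero, zero_mul] at hi
      exact hi
    rw [h1, mul_one] at h₃ ⊢
    rw [h₃.unique h₁]
    exact Nat.le_add_right _ _
  by_cases hω : ∀ a b, area φ₁ φ₂ a b = 0
  · -- dependent case
    obtain ⟨t, -, ht⟩ := h₁.att
    have hmz : (m₁ : ℤ) ≠ 0 := by exact_mod_cast hm₁.ne'
    have hrel : ∀ b, (m₁ : ℤ) * vl φ₂ b = vl φ₁ b * vl φ₂ t := by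
      intro b
      have := hω t b
      unfold area at this
      rw [ht] at this
      linarith
    have hval : ∀ b, ∃ i : ℤ, vl φ₁ b = m₁ * i ∧ vl φ₂ b = i * vl φ₂ t := by
      intro b
      obtain ⟨i, hi⟩ := h₁.dvd b trivial
      refine ⟨i, hi, ?_⟩
      have := hrel b
      rw [hi] at this
      have h2 : (m₁ : ℤ) * vl φ₂ b = m₁ * (i * vl φ₂ t) := by linarith
      exact mul_left_cancel₀ hmz h2
    have hg2 : GenOn ⊤ φ₂ (vl φ₂ t).natAbs := by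
      refine ⟨?_, ?_⟩
      · intro b _
        obtain ⟨i, -, hi⟩ := hval b
        rw [hi, Int.natAbs_dvd]
        exact Dvd.intro_left i rfl
      · rcases Int.natAbs_eq (vl φ₂ t) with h | h
        · exact ⟨t, trivial, h⟩
        · exact ⟨t⁻¹, trivial, by rw [vl_inv]; omega⟩
    have hg3 : GenOn ⊤ (φ₁ * φ₂) (m₁ + vl φ₂ t).natAbs := by
      refine ⟨?_, ?_⟩
      · intro b _
        obtain ⟨i, hi1, hi2⟩ := hval b
        rw [vl_mulHom, hi1, hi2, Int.natAbs_dvd]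
        exact ⟨i, by ring⟩
      · rcases Int.natAbs_eq (m₁ + vl φ₂ t) with h | h
        · exact ⟨t, trivial, by rw [vl_mulHom, ht]; exact h⟩
        · exact ⟨t⁻¹, trivial, by rw [vl_inv, vl_mulHom, ht]; omega⟩
    have e2 := h₂.unique hg2
    have e3 := h₃.unique hg3
    have ht2 : vl φ₂ t ≠ 0 := by
      intro h
      rw [h] at e2
      simp at e2
      omega
    have ht3 : (m₁ : ℤ) + vl φ₂ t ≠ 0 := by
      intro h
      rw [h] at e3
      simp at e3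
      omega
    have hk2 : φ₂.ker = φ₁.ker := by
      ext b
      obtain ⟨i, hi1, hi2⟩ := hval b
      rw [mem_ker_iff, mem_ker_iff, hi1, hi2]
      constructor
      · intro h
        rw [(mul_eq_zero.mp h).resolve_right ht2, mul_zero]
      · intro h
        rw [(mul_eq_zero.mp h).resolve_left hmz, zero_mul]
    have hk3 : (φ₁ * φ₂).ker = φ₁.ker := by
      ext b
      obtain ⟨i, hi1, hi2⟩ := hval b
      rw [mem_ker_iff, mem_ker_iff, vl_mulHom, hi1, hi2]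
      have h5 : (m₁ : ℤ) * i + i * vl φ₂ t = (m₁ + vl φ₂ t) * i := by ring
      rw [h5]
      constructor
      · intro h
        rw [(mul_eq_zero.mp h).resolve_left ht3, mul_zero]
      · intro h
        rw [(mul_eq_zero.mp h).resolve_left hmz, mul_zero]
    rw [hk2, hk3, ← add_mul]
    apply Nat.mul_le_mul_right
    rw [e2, e3]
    omega
  · -- independent case
    push Not at hω
    obtain ⟨a₀, b₀, hab₀⟩ := hω
    set φ₃ := φ₁ * φ₂ with hφ₃
    have hv3 : ∀ a, vl φ₃ a = vl φ₁ a + vl φ₂ a := fun a => rfl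
    obtain ⟨q₁, hq₁⟩ := exists_genOn φ₁.ker φ₂
    obtain ⟨q₂, hq₂⟩ := exists_genOn φ₂.ker φ₁
    obtain ⟨q₃, hq₃⟩ := exists_genOn φ₃.ker φ₂
    have e12 : m₁ * q₁ = m₂ * q₂ := area_gen_eq h₁ hq₁ h₂ hq₂ (Or.inr fun a b => by
      unfold area; ring)
    have e13 : m₁ * q₁ = m₃ * q₃ := area_gen_eq h₁ hq₁ h₃ hq₃ (Or.inl fun a b => by
      unfold area; rw [hv3, hv3]; ring)
    have hc0 : m₁ * q₁ ≠ 0 := by
      intro h
      have := area_dvd h₁ hq₁ a₀ b₀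
      rw [h] at this
      exact hab₀ (by simpa using this)
    have hq₁0 : q₁ ≠ 0 := fun h => hc0 (by rw [h, mul_zero])
    have hq₂0 : q₂ ≠ 0 := fun h => hc0 (by rw [e12, h, mul_zero])
    have hq₃0 : q₃ ≠ 0 := fun h => hc0 (by rw [e13, h, mul_zero])
    obtain ⟨v₁, hv₁, hv₁q⟩ := hq₁.att
    obtain ⟨v₂', hv₂', hv₂q'⟩ := hq₂.att
    obtain ⟨v₃, hv₃, hv₃q⟩ := hq₃.att
    set v₂ := v₂'⁻¹ with hv₂def
    have hv₂ : v₂ ∈ φ₂.ker := inv_mem hv₂'
    have hv₂q : vl φ₁ v₂ = -q₂ := by rw [hv₂def, vl_inv, hv₂q']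
    rw [mem_ker_iff] at hv₁ hv₂ hv₃
    have hv₃1 : vl φ₁ v₃ = -q₃ := by
      rw [hv3] at hv₃
      linarith
    set L := φ₁.ker ⊓ φ₂.ker with hL
    have hmemL : ∀ a, a ∈ L ↔ vl φ₁ a = 0 ∧ vl φ₂ a = 0 := by
      intro a
      rw [hL, Subgroup.mem_inf, mem_ker_iff, mem_ker_iff]
    obtain ⟨ψ₁, hψ₁, hk₁⟩ := exists_prim h₁ hm₁.ne'
    obtain ⟨ψ₂, hψ₂, hk₂⟩ := exists_prim h₂ hm₂.ne'
    obtain ⟨ψ₃, hψ₃, hk₃⟩ := exists_prim h₃ hm₃.ne'
    obtain ⟨z₁, hz₁⟩ := hβ ψ₁ hψ₁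
    obtain ⟨z₂, hz₂⟩ := hβ ψ₂ hψ₂
    obtain ⟨z₃, hz₃⟩ := hβ ψ₃ hψ₃
    have hKgen : ∀ (φ ψ : Γ →* Multiplicative ℤ) (v : Γ) (e : ℤ), e ≠ 0 → vl φ v = 0 →
        vl ψ v = e → (∀ a ∈ φ.ker, e ∣ vl ψ a) → (∀ a, vl φ a = 0 → vl ψ a = 0 → a ∈ L) →
        ∀ γ ∈ φ.ker, ∃ l ∈ L, ∃ j : ℤ, γ = l * v ^ j := by
      intro φ ψ v e he hφv hψv hdvd hL' γ hγ
      obtain ⟨j, hj⟩ := hdvd γ hγ
      rw [mem_ker_iff] at hγ
      refine ⟨γ * v ^ (-j), hL' _ ?_ ?_, j, ?_⟩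
      · rw [vl_mul, vl_zpow, hγ, hφv]; ring
      · rw [vl_mul, vl_zpow, hj, hψv]; ring
      · rw [mul_assoc, ← zpow_add]; simp
    have hK1 := hKgen φ₁ φ₂ v₁ q₁ (by exact_mod_cast hq₁0) hv₁ hv₁q hq₁.dvd
      (fun a h h' => (hmemL a).mpr ⟨h, h'⟩)
    have hK2 := hKgen φ₂ φ₁ v₂ (-q₂) (by simpa using hq₂0) hv₂ hv₂q
      (fun a ha => (hq₂.dvd a ha).neg_left) (fun a h h' => (hmemL a).mpr ⟨h', h⟩)
    have hK3 := hKgen φ₃ φ₂ v₃ q₃ (by exact_mod_cast hq₃0) hv₃ hv₃q hq₃.dvd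
      (fun a h h' => (hmemL a).mpr ⟨by rw [hv3] at h; linarith, h'⟩)
    have hne : ∀ (ψ : Γ →* Multiplicative ℤ) (v : Γ), vl ψ v ≠ 0 → ψ v ≠ 1 := by
      intro ψ v h h'
      apply h
      unfold vl
      rw [h']
      rfl
    have hmain := subadd (g := g) (P := P) (Q := Q) (L := L) hind ![v₁, v₂, v₃] ![φ₂, φ₁, φ₂]
      (by
        intro i
        fin_cases i
        · exact inf_le_right
        · exact inf_le_left
        · exact inf_le_right)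
      (by
        intro i
        fin_cases i
        · exact hne φ₂ v₁ (by rw [hv₁q]; exact_mod_cast hq₁0)
        · exact hne φ₁ v₂ (by rw [hv₂q]; simpa using hq₂0)
        · exact hne φ₂ v₃ (by rw [hv₃q]; exact_mod_cast hq₃0))
      ![ψ₁.ker, ψ₂.ker, ψ₃.ker]
      (by
        intro i
        fin_cases i
        · change L ≤ ψ₁.ker
          rw [hk₁]; exact inf_le_left
        · change L ≤ ψ₂.ker
          rw [hk₂]; exact inf_le_right
        · change L ≤ ψ₃.ker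
          rw [hk₃]
          intro a ha
          rw [mem_ker_iff, hv3, ((hmemL a).mp ha).1, ((hmemL a).mp ha).2, add_zero])
      (by
        intro i
        fin_cases i
        · change v₁ ∈ ψ₁.ker
          rw [hk₁, mem_ker_iff]; exact hv₁
        · change v₂ ∈ ψ₂.ker
          rw [hk₂, mem_ker_iff]; exact hv₂
        · change v₃ ∈ ψ₃.ker
          rw [hk₃, mem_ker_iff]; exact hv₃)
      (by
        intro i
        fin_cases i
        · change ∀ γ ∈ ψ₁.ker, ∃ l ∈ L, ∃ j : ℤ, γ = l * v₁ ^ j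
          rw [hk₁]; exact hK1
        · change ∀ γ ∈ ψ₂.ker, ∃ l ∈ L, ∃ j : ℤ, γ = l * v₂ ^ j
          rw [hk₂]; exact hK2
        · change ∀ γ ∈ ψ₃.ker, ∃ l ∈ L, ∃ j : ℤ, γ = l * v₃ ^ j
          rw [hk₃]; exact hK3)
      ![β ψ₁.ker, β ψ₂.ker, β ψ₃.ker]
      (fun i => match i with
        | 0 => z₁
        | 1 => z₂
        | 2 => z₃)
      (by
        intro i
        match i with
        | 0 => exact hz₁
        | 1 => exact hz₂
        | 2 => exact hz₃)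
      ![m₁ - 1, m₂ - 1, m₃ - 1]
      ((v₃ ^ m₃)⁻¹ * (v₁ ^ m₁ * v₂ ^ m₂))
      (by
        rw [hmemL]
        have hc2 : ((m₁ * q₁ : ℕ) : ℤ) = ((m₂ * q₂ : ℕ) : ℤ) := by exact_mod_cast e12
        have hc3 : ((m₁ * q₁ : ℕ) : ℤ) = ((m₃ * q₃ : ℕ) : ℤ) := by exact_mod_cast e13
        push_cast at hc2 hc3
        constructor
        · rw [vl_mul, vl_inv, vl_mul, vl_pow, vl_pow, vl_pow, hv₃1, hv₁, hv₂q]
          linarith
        · rw [vl_mul, vl_inv, vl_mul, vl_pow, vl_pow, vl_pow, hv₃q, hv₁q, hv₂]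
          linarith)
      (by
        rw [hmemL]
        constructor <;>
        · simp only [vl_mul, vl_inv]
          ring)
      (by
        change v₁ ^ (m₁ - 1 + 1) * v₂ ^ (m₂ - 1 + 1) = v₃ ^ (m₃ - 1 + 1) *
          ((v₃ ^ m₃)⁻¹ * (v₁ ^ m₁ * v₂ ^ m₂))
        rw [Nat.sub_add_cancel hm₁, Nat.sub_add_cancel hm₂, Nat.sub_add_cancel hm₃,
          mul_inv_cancel_left])
    change (m₃ - 1 + 1) * β ψ₃.ker ≤ (m₁ - 1 + 1) * β ψ₁.ker + (m₂ - 1 + 1) * β ψ₂.ker at hmain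
    rw [Nat.sub_add_cancel hm₁, Nat.sub_add_cancel hm₂, Nat.sub_add_cancel hm₃, hk₁, hk₂, hk₃]
      at hmain
    exact hmain

end

end Pool.Agent.Lib.MPf08bf1
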