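import Pool.Agent.Lib.MPf08bf1.Theta
import Pool.Agent.Lib.MPf08bf1.Gens

/-!
From vanishing of the `ℓ²`-Betti number of `Γ` to exactness over `D`, and from bases over the
division ring of `K` to the `ℓ²`-Betti number of `K`.
-/

open scoped ENNReal Matrix

noncomputable section

namespace Pool.Agent.Lib.MPf08bf1

section
variable {Γ : Type} [Group Γ] (C : FreeRes Γ)

/-- Ranks shifted by one. -/
def FreeRes.pr : ℕ → ℕ
  | 0 => 0
  | n + 1 => C.r n

/-- The differential leaving degree `n`. -/
def FreeRes.PP : ∀ n, Matrix (Fin (C.r n)) (Fin (C.pr n)) (MonoidAlgebra ℤ Γ)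
  | 0 => 0
  | n + 1 => C.d n

theorem FreeRes.isCyc_iff_PP {D : Type} [DivisionRing D] (g : MonoidAlgebra ℤ Γ →+* D) (n : ℕ)
    (v : Fin (C.r n) → D) : C.IsCyc g n v ↔ Matrix.vecMul v ((C.PP n).map g) = 0 := by
  cases n with
  | zero =>
    constructor
    · intro _
      funext j
      exact j.elim0
    · intro _
      trivial
  | succ n => exact Iff.rfl

theorem FreeRes.d_mul_PP (n : ℕ) : C.d n * C.PP n = 0 := by
  cases n with
  | zero =>
    ext i j
    exact j.elim0
  | succ n =>
    classical
    refine Matrix.ext fun i j => ?_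
    have h := (C.exact_succ n _).mpr ⟨Pi.single i 1, rfl⟩
    rw [Matrix.vecMul_vecMul] at h
    have h2 := congrFun h j
    rw [Matrix.single_one_vecMul] at h2
    exact h2

theorem FreeRes.exa_of_vanish {D : Type} [DivisionRing D] (g : MonoidAlgebra ℤ Γ →+* D)
    (S : Tri Γ (MonoidAlgebra ℤ Γ) D) (hS : S.ρ = zmap Γ) (hg : S.δ = g) (n : ℕ)
    (h0 : l2Betti Γ n = 0) : Exa g (C.PP n) (C.d n) where
  comp y := by
    rw [Matrix.vecMul_vecMul]
    have h1 : (C.d n).map g * (C.PP n).map g = 0 := by
      rw [← Matrix.map_mul, C.d_mul_PP]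
      ext i j
      simp
    rw [h1, Matrix.vecMul_zero]
  ex v hv := by
    by_contra hne
    push Not at hne
    let T : Transv (MonoidHom.id Γ) :=
      { T := Unit
        rep := fun _ => 1
        bij := by
          constructor
          · rintro ⟨k, ⟨⟩⟩ ⟨l, ⟨⟩⟩ h
            simpa using h
          · intro γ
            exact ⟨(γ, ()), by simp⟩ }
    have hev : ∀ w : T.T →₀ D, evalT T (RingHom.id D) g w = w () := by
      intro w
      have hw : w = Finsupp.single () (w ()) := by
        refine Finsupp.ext fun u => ?_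
        cases u
        rw [Finsupp.single_eq_same]
      rw [hw, evalT_single, Finsupp.single_eq_same]
      have h1 : g (MonoidAlgebra.single (T.rep ()) 1) = 1 := by
        have : (MonoidAlgebra.single (T.rep ()) 1 : MonoidAlgebra ℤ Γ) = 1 := rfl
        rw [this, map_one]
      rw [h1, mul_one]
      rfl
    have hR : ∀ (r : ℕ) (w : Fin r → D), InR T (RingHom.id D) g w := by
      intro r w s
      refine ⟨Finsupp.single () (w s), ?_⟩
      rw [hev, Finsupp.single_eq_same]
    have hge := l2Betti_ge T (RingHom.id D) g S hS (by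
        intro a
        rw [hg]
        have h1 : fstar (MonoidHom.id Γ) a = a := by
          induction a using MonoidAlgebra.induction_linear with
          | zero => rw [map_zero]
          | add a b ha hb => rw [map_add, ha, hb]
          | single k n => rw [fstar_single]; rfl
        rw [h1]
        rfl) (by
        intro w hw
        rw [hev] at hw
        refine Finsupp.ext fun u => ?_
        cases u
        exact hw) C n 1 (fun _ => v) (fun _ => hR _ _)
        (fun _ => (C.isCyc_iff_PP g n v).mpr hv) (by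
        rintro c ⟨y, -, hy⟩
        by_contra hc
        have hc0 : c 0 ≠ 0 := by
          intro h
          apply hc
          funext i
          rw [Subsingleton.elim i 0, h]
          rfl
        apply hne ((c 0)⁻¹ • y)
        rw [vecMul_smul', ← hy]
        funext s
        simp [hc0])
    rw [h0] at hge
    simp at hge

end

section
variable {K Γ : Type} [Group K] [Group Γ] {D : Type} [DivisionRing D]
  {g : MonoidAlgebra ℤ Γ →+* D}

theorem l2Betti_of_bas (hind : CosInd g) (f : K →* Γ) (hf : Function.Injective f)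
    (φ : Γ →* Multiplicative ℤ) (hφ : Function.Surjective φ) (hr : f.range = φ.ker)
    (S : Tri K (MonoidAlgebra ℤ K) (subD g f.range)) (hS : S.ρ = zmap K)
    (hδ : ∀ a, (S.δ a : D) = g (fstar f a)) (C : FreeRes Γ) (n b : ℕ)
    (z : Fin b → Fin (C.r n) → D) (hz : IsBas g (C.PP n) (C.d n) f.range b z) :
    l2Betti K n = b := by
  obtain ⟨t, ht⟩ := hφ (Multiplicative.ofAdd 1)
  have hφf : ∀ k, φ (f k) = 1 := by
    intro k
    have : f k ∈ φ.ker := hr ▸ MonoidHom.mem_range.mpr ⟨k, rfl⟩
    exact this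
  have hφt : ∀ i : ℤ, φ (t ^ i) = Multiplicative.ofAdd i := by
    intro i
    rw [map_zpow, ht]
    apply Multiplicative.toAdd.injective
    simp
  let T : Transv f :=
    { T := ℤ
      rep := fun i => t ^ i
      bij := by
        constructor
        · rintro ⟨k, i⟩ ⟨l, j⟩ h
          change f k * t ^ i = f l * t ^ j at h
          have h1 := congrArg φ h
          rw [map_mul, map_mul, hφf, hφf, one_mul, one_mul, hφt, hφt] at h1
          have h2 : i = j := Multiplicative.ofAdd.injective h1
          subst h2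
          rw [hf (mul_right_cancel h)]
        · intro γ
          obtain ⟨l, hl, i, hi⟩ := RL_le_AA φ ht γ
          rw [← hr] at hl
          obtain ⟨k, rfl⟩ := hl
          exact ⟨(k, i), hi.symm⟩ }
  let incl : subD g f.range →+* D := (subD g f.range).subtype
  have hev : ∀ w : T.T →₀ subD g f.range, evalT T incl g w =
      w.sum (fun i c => c • gg g (t ^ (show ℤ from i))) := by
    intro w
    unfold evalT
    rw [Finsupp.liftAddHom_apply]
    rfl
  have hind' : ∀ w : T.T →₀ subD g f.range, evalT T incl g w = 0 → w = 0 := by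
    intro w hw
    rw [hev] at hw
    have h1 := hind φ f.range (le_of_eq hr) T.T w.support (fun i => (w i : D))
      (fun i => t ^ (show ℤ from i)) (fun i _ => (w i).2) hw
    ext i
    by_cases hi : i ∈ w.support
    · have h2 := h1 i
      have h3 : w.support.filter (fun j : T.T => (φ (t ^ (show ℤ from j))).toAdd = i) = {i} := by
        ext j
        rw [Finset.mem_filter, Finset.mem_singleton, hφt]
        constructor
        · rintro ⟨-, h⟩
          exact h
        · rintro rfl
          exact ⟨hi, rfl⟩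
      rw [h3, Finset.sum_singleton] at h2
      exact (mul_eq_zero.mp h2).resolve_right (gg_ne g _)
    · rw [Finsupp.notMem_support_iff.mp hi]
      rfl
  have hInR : ∀ (r : ℕ) (v : Fin r → D), InR T incl g v ↔ InV g f.range v := by
    intro r v
    constructor
    · intro h s
      obtain ⟨w, hw⟩ := h s
      rw [← hw, hev]
      exact Submodule.sum_mem _ fun i _ => Submodule.smul_mem _ _ (gg_mem_RL g _ _)
    · intro h s
      have h1 : v s ∈ AA g f.range t := by
        have h2 : v s ∈ RL g φ.ker := hr ▸ h s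
        have h3 := mem_AA_of_RL φ ht h2
        rw [← hr] at h3
        exact h3
      unfold AA at h1
      rw [Finsupp.mem_span_range_iff_exists_finsupp] at h1
      obtain ⟨c, hc⟩ := h1
      exact ⟨c, (hev c).trans hc⟩
  apply le_antisymm
  · apply l2Betti_le T incl g S hS hδ hind' C n b z (fun i => (hInR _ _).mpr (hz.inV i))
    intro v hv hcyc
    obtain ⟨c, hc, y, hy, hyv⟩ := hz.span v ((hInR _ _).mp hv) ((C.isCyc_iff_PP g n v).mp hcyc)
    refine ⟨fun i => ⟨c i, hc i⟩, y, (hInR _ _).mpr hy, ?_⟩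
    rw [hyv]
    funext s
    rw [Pi.sub_apply, Finset.sum_apply]
    rfl
  · apply l2Betti_ge T incl g S hS hδ hind' C n b z (fun i => (hInR _ _).mpr (hz.inV i))
      (fun i => (C.isCyc_iff_PP g n _).mpr (hz.cyc i))
    rintro c ⟨y, hy, hyc⟩
    have h1 := hz.ind (fun i => (c i : D)) (fun i => (c i).2) ⟨y, (hInR _ _).mp hy, by
      rw [← hyc]
      funext s
      rw [Finset.sum_apply]
      rfl⟩
    funext i
    exact Subtype.ext (h1 i)

end

/-- The main facts about the kernels of epimorphisms to `ℤ`. -/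
theorem exists_beta {Γ : Type} [Group Γ] (hA : RkInt (zmap Γ)) (C : FreeRes Γ) (n : ℕ)
    (h0 : l2Betti Γ n = 0) : ∃ β : Subgroup Γ → ℕ,
      (∀ φ : Γ →* Multiplicative ℤ, Function.Surjective φ →
        l2Betti φ.ker n = (β φ.ker : ℝ≥0∞)) ∧
      (∀ (φ₁ φ₂ : Γ →* Multiplicative ℤ) (m₁ m₂ m₃ : ℕ), GenOn ⊤ φ₁ m₁ → GenOn ⊤ φ₂ m₂ →
        GenOn ⊤ (φ₁ * φ₂) m₃ → m₃ * β (φ₁ * φ₂).ker ≤ m₁ * β φ₁.ker + m₂ * β φ₂.ker) := by
  obtain ⟨D, _, g, ⟨S, hS, hg⟩, htri, hind⟩ := exists_D hA
  have hE := C.exa_of_vanish g S hS hg n h0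
  have hbet : ∀ φ : Γ →* Multiplicative ℤ, Function.Surjective φ → ∀ b z,
      IsBas g (C.PP n) (C.d n) φ.ker b z → l2Betti φ.ker n = b := by
    intro φ hφ b z hz
    obtain ⟨S', hS', hδ'⟩ := htri φ.ker φ.ker.subtype (Subgroup.subtype_injective _)
    have hr : φ.ker.subtype.range = φ.ker := Subgroup.range_subtype _
    exact l2Betti_of_bas hind φ.ker.subtype (Subgroup.subtype_injective _) φ hφ hr S' hS' hδ' C n b
      z (hr.symm ▸ hz)
  refine ⟨fun K => ⌊(l2Betti K n).toReal⌋₊, ?_, ?_⟩
  · intro φ hφ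
    obtain ⟨b, z, hz⟩ := exists_bas hind hE φ hφ
    have h1 := hbet φ hφ b z hz
    simp only [h1, ENNReal.toReal_natCast, Nat.floor_natCast]
  · intro φ₁ φ₂ m₁ m₂ m₃ h₁ h₂ h₃
    apply gn_subadd hind (fun K => ⌊(l2Betti K n).toReal⌋₊) _ φ₁ φ₂ h₁ h₂ h₃
      (P := C.PP n) (Q := C.d n)
    intro φ hφ
    obtain ⟨b, z, hz⟩ := exists_bas hind hE φ hφ
    have h1 := hbet φ hφ b z hz
    have h2 : ⌊(l2Betti φ.ker n).toReal⌋₊ = b := by
      rw [h1, ENNReal.toReal_natCast, Nat.floor_natCast]
    rw [h2]
    exact ⟨z, hz⟩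

end Pool.Agent.Lib.MPf08bf1
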