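import Mathlib

/-!
Growth of subspaces under commuting automorphisms of the lattice of subspaces.
-/

noncomputable section

namespace Pool.Agent.Lib.MPf08bf1

section Slope

/-- The eventual slope of a concave sequence. -/
def slope (a : ℕ → ℕ) : ℕ := ⨅ n, (a (n + 1) - a n)

/-- Monotone and concave. -/
structure Conc (a : ℕ → ℕ) : Prop where
  mono : ∀ n, a n ≤ a (n + 1)
  conc : ∀ n, a (n + 2) + a n ≤ 2 * a (n + 1)

theorem Conc.antitone {a : ℕ → ℕ} (h : Conc a) : Antitone fun n => a (n + 1) - a n := by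
  apply antitone_nat_of_succ_le
  intro n
  have h1 := h.mono n
  have h2 := h.mono (n + 1)
  have h3 := h.conc n
  have h4 : n + 1 + 1 = n + 2 := rfl
  rw [h4] at *
  omega

theorem Conc.slope_le {a : ℕ → ℕ} (h : Conc a) (n : ℕ) : a n + slope a ≤ a (n + 1) := by
  have h1 : slope a ≤ a (n + 1) - a n := ciInf_le (OrderBot.bddBelow _) n
  have h2 := h.mono n
  omega

theorem Conc.eventually {a : ℕ → ℕ} (h : Conc a) :
    ∃ n₀, ∀ n ≥ n₀, a (n + 1) = a n + slope a := by
  obtain ⟨n₀, hn₀⟩ : ∃ n₀, a (n₀ + 1) - a n₀ = slope a :=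
    Nat.sInf_mem (Set.range_nonempty fun n => a (n + 1) - a n)
  refine ⟨n₀, fun n hn => ?_⟩
  have h1 := h.antitone hn
  have h2 := h.slope_le n
  have h3 := h.mono n
  simp only at h1
  omega

theorem Conc.lower {a : ℕ → ℕ} (h : Conc a) (n : ℕ) : slope a * n ≤ a n := by
  induction n with
  | zero => simp
  | succ n ih =>
    have := h.slope_le n
    rw [Nat.mul_succ]
    omega

theorem Conc.upper {a : ℕ → ℕ} (h : Conc a) : ∃ C, ∀ n, a n ≤ slope a * n + C := by
  obtain ⟨n₀, hn₀⟩ := h.eventually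
  have hm : Monotone a := monotone_nat_of_le_succ h.mono
  refine ⟨a n₀, fun n => ?_⟩
  rcases le_total n n₀ with hn | hn
  · have := hm hn
    omega
  · obtain ⟨k, rfl⟩ := Nat.exists_eq_add_of_le hn
    have : ∀ k, a (n₀ + k) = a n₀ + slope a * k := by
      intro k
      induction k with
      | zero => simp
      | succ k ih =>
        rw [← add_assoc, hn₀ _ (by omega), ih, Nat.mul_succ]
        ring
    rw [this, mul_add]
    omega

theorem le_of_linear {x y C : ℕ} (h : ∀ n : ℕ, x * n ≤ y * n + C) : x ≤ y := by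
  by_contra hlt
  push Not at hlt
  have h1 := h (C + 1)
  have h2 : (y + 1) * (C + 1) ≤ x * (C + 1) := Nat.mul_le_mul_right _ hlt
  have h3 : (y + 1) * (C + 1) = y * (C + 1) + (C + 1) := by ring
  omega

/-- Comparison of slopes. -/
theorem Conc.slope_le_slope {a b : ℕ → ℕ} (ha : Conc a) (hb : Conc b) {m C : ℕ}
    (h : ∀ n, a n ≤ b (n + m) + C) : slope a ≤ slope b := by
  obtain ⟨C', hC'⟩ := hb.upper
  apply le_of_linear (C := slope b * m + C' + C)
  intro n
  have h1 := ha.lower n
  have h2 := h n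
  have h3 := hC' (n + m)
  rw [mul_add] at h3
  omega

theorem Conc.slope_le_of_bound {a : ℕ → ℕ} (ha : Conc a) {b C : ℕ}
    (h : ∀ n, a n ≤ b * n + C) : slope a ≤ b := by
  apply le_of_linear (C := C)
  intro n
  exact (ha.lower n).trans (h n)

/-- A bounded monotone sequence of naturals is eventually constant. -/
theorem exists_stable {f : ℕ → ℕ} (hf : Monotone f) {C : ℕ} (hC : ∀ n, f n ≤ C) :
    ∃ n₀, ∀ n ≥ n₀, f n = f n₀ := by
  have hne : (Set.range f).Nonempty := Set.range_nonempty f
  have hbdd : BddAbove (Set.range f) := ⟨C, by rintro _ ⟨n, rfl⟩; exact hC n⟩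
  obtain ⟨n₀, hn₀⟩ := Nat.sSup_mem hne hbdd
  refine ⟨n₀, fun n hn => le_antisymm ?_ (hf hn)⟩
  rw [hn₀]
  exact le_csSup hbdd ⟨n, rfl⟩

end Slope

section
variable {E M : Type} [DivisionRing E] [AddCommGroup M] [Module E M]

/-- The sum of the translates `Xⁱ V`, `i < n`. -/
def Sm (X : Submodule E M ≃o Submodule E M) (V : Submodule E M) : ℕ → Submodule E M
  | 0 => ⊥
  | n + 1 => V ⊔ X (Sm X V n)

variable (X Y : Submodule E M ≃o Submodule E M)

theorem Sm_zero (V : Submodule E M) : Sm X V 0 = ⊥ := rfl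

theorem Sm_succ (V : Submodule E M) (n : ℕ) : Sm X V (n + 1) = V ⊔ X (Sm X V n) := rfl

theorem Sm_one (V : Submodule E M) : Sm X V 1 = V := by
  rw [Sm_succ, Sm_zero, OrderIso.map_bot, sup_bot_eq]

theorem le_Sm (V : Submodule E M) (n : ℕ) : V ≤ Sm X V (n + 1) := le_sup_left

theorem Sm_le_succ (V : Submodule E M) (n : ℕ) : Sm X V n ≤ Sm X V (n + 1) := by
  induction n with
  | zero => exact bot_le
  | succ n ih =>
    rw [Sm_succ, Sm_succ X V (n + 1)]
    exact sup_le_sup_left (X.monotone ih) V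

theorem Sm_mono (V : Submodule E M) : Monotone (Sm X V) := monotone_nat_of_le_succ (Sm_le_succ X V)

theorem X_Sm_le (V : Submodule E M) (n : ℕ) : X (Sm X V n) ≤ Sm X V (n + 1) := le_sup_right

theorem Sm_mono_left {V W : Submodule E M} (h : V ≤ W) (n : ℕ) : Sm X V n ≤ Sm X W n := by
  induction n with
  | zero => exact le_rfl
  | succ n ih => exact sup_le_sup h (X.monotone ih)

theorem Sm_sup (V W : Submodule E M) (n : ℕ) : Sm X (V ⊔ W) n = Sm X V n ⊔ Sm X W n := by
  induction n with
  | zero => rw [Sm_zero, Sm_zero, Sm_zero, sup_bot_eq]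
  | succ n ih =>
    rw [Sm_succ, Sm_succ, Sm_succ, ih, map_sup]
    exact sup_sup_sup_comm _ _ _ _

theorem Sm_comm (hXY : ∀ V, X (Y V) = Y (X V)) (V : Submodule E M) (n : ℕ) :
    Sm X (Y V) n = Y (Sm X V n) := by
  induction n with
  | zero => rw [Sm_zero, Sm_zero, OrderIso.map_bot]
  | succ n ih => rw [Sm_succ, Sm_succ, ih, map_sup, hXY]

theorem Sm_Sm (hXY : ∀ V, X (Y V) = Y (X V)) (V : Submodule E M) (k l : ℕ) :
    Sm X (Sm Y V l) k = Sm Y (Sm X V k) l := by
  induction l with
  | zero =>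
    rw [Sm_zero, Sm_zero]
    induction k with
    | zero => rfl
    | succ k ih => rw [Sm_succ, ih, OrderIso.map_bot, sup_bot_eq]
  | succ l ih => rw [Sm_succ, Sm_sup, Sm_comm X Y hXY, ih, Sm_succ]

/-- A lattice automorphism preserving dimensions. -/
structure DimPres (X : Submodule E M ≃o Submodule E M) : Prop where
  fin : ∀ V : Submodule E M, FiniteDimensional E V → FiniteDimensional E (X V)
  eq : ∀ V : Submodule E M, Module.finrank E (X V) = Module.finrank E V

variable {X Y}

theorem Sm_fin (hX : DimPres X) (V : Submodule E M) [FiniteDimensional E V] (n : ℕ) :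
    FiniteDimensional E (Sm X V n) := by
  induction n with
  | zero => rw [Sm_zero]; infer_instance
  | succ n ih =>
    rw [Sm_succ]
    have := hX.fin _ ih
    infer_instance

/-- Dimension of `Sm`. -/
def dm (X : Submodule E M ≃o Submodule E M) (V : Submodule E M) (n : ℕ) : ℕ :=
  Module.finrank E (Sm X V n)

theorem finrank_mono' {V W : Submodule E M} [FiniteDimensional E W] (h : V ≤ W) :
    Module.finrank E V ≤ Module.finrank E W := Submodule.finrank_mono h

theorem dm_conc (hX : DimPres X) (V : Submodule E M) [FiniteDimensional E V] : Conc (dm X V) := by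
  have hf := Sm_fin hX V
  refine ⟨fun n => ?_, fun n => ?_⟩
  · have := hf (n + 1)
    exact finrank_mono' (Sm_le_succ X V n)
  · have h1 : Sm X V (n + 2) = Sm X V (n + 1) ⊔ X (Sm X V (n + 1)) := by
      apply le_antisymm
      · rw [Sm_succ X V (n + 1)]
        exact sup_le_sup_right (le_Sm X V n) _
      · exact sup_le (Sm_le_succ X V (n + 1)) (X_Sm_le X V (n + 1))
    have := hf (n + 1)
    have := hX.fin _ (hf (n + 1))
    have h2 := Submodule.finrank_sup_add_finrank_inf_eq (Sm X V (n + 1)) (X (Sm X V (n + 1)))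
    rw [← h1, hX.eq] at h2
    have h3 : X (Sm X V n) ≤ Sm X V (n + 1) ⊓ X (Sm X V (n + 1)) :=
      le_inf (X_Sm_le X V n) (X.monotone (Sm_le_succ X V n))
    have h4 := finrank_mono' h3
    rw [hX.eq] at h4
    unfold dm
    omega

theorem slope_mono (hX : DimPres X) {V W : Submodule E M} [FiniteDimensional E V]
    [FiniteDimensional E W] (h : V ≤ W) : slope (dm X V) ≤ slope (dm X W) := by
  apply (dm_conc hX V).slope_le_slope (dm_conc hX W) (m := 0) (C := 0)
  intro n
  have := Sm_fin hX W n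
  exact finrank_mono' (Sm_mono_left X h n)

theorem dim_add_slope (hX : DimPres X) (V : Submodule E M) [FiniteDimensional E V] :
    Module.finrank E V + slope (dm X V) ≤ Module.finrank E (V ⊔ X V : Submodule E M) := by
  have h := (dm_conc hX V).slope_le 1
  unfold dm at h
  rw [Sm_one, Sm_succ, Sm_one] at h
  exact h

/-- The core growth estimate. -/
theorem core_growth (hX : DimPres X) (hY : DimPres Y) (hXY : ∀ V, X (Y V) = Y (X V))
    (V : Submodule E M) [FiniteDimensional E V] (a b : ℕ)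
    (Ha : ∀ l, ∃ C, ∀ k, Module.finrank E (Sm X (Sm Y V l) k) ≤ a * k + C)
    (Hb : ∀ k, ∃ C, ∀ l, Module.finrank E (Sm Y (Sm X V k) l) ≤ b * l + C) :
    ∃ C, ∀ k, Module.finrank E (Sm X (Sm Y V k) k) ≤ (a + b) * k + C := by
  have hW := fun l => Sm_fin hY V l
  have hXV := fun k => Sm_fin hX V k
  have hG : ∀ k l, FiniteDimensional E (Sm X (Sm Y V l) k) := fun k l => by
    have := hW l
    exact Sm_fin hX _ k
  have hXG : ∀ k l, FiniteDimensional E (X (Sm X (Sm Y V l) k)) := fun k l => hX.fin _ (hG k l)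
  set W : ℕ → Submodule E M := fun l => Sm Y V l with hWdef
  set G : ℕ → ℕ → Submodule E M := fun k l => Sm X (W l) k with hGdef
  set D : ℕ → ℕ → ℕ := fun k l => Module.finrank E (G k l) with hDdef
  set A : ℕ → ℕ → Submodule E M := fun k l => W l ⊓ X (G k l) with hAdef
  have hWf : ∀ l, FiniteDimensional E (W l) := hW
  have hGf : ∀ k l, FiniteDimensional E (G k l) := hG
  have hXGf : ∀ k l, FiniteDimensional E (X (G k l)) := hXG
  have hAf : ∀ k l, FiniteDimensional E (A k l) := fun k l =>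
    Submodule.finiteDimensional_of_le (inf_le_left : A k l ≤ W l)
  have hGsymm : ∀ k l, G k l = Sm Y (Sm X V k) l := fun k l => Sm_Sm X Y hXY V k l
  have hDslope : ∀ k, Conc (fun l => D k l) := by
    intro k
    have := hXV k
    have h := dm_conc hY (Sm X V k)
    have h2 : (fun l => D k l) = dm Y (Sm X V k) := by
      funext l
      simp only [hDdef, dm]
      rw [hGsymm]
    rw [h2]
    exact h
  -- the fundamental equation
  have hfund : ∀ k l, D (k + 1) l + Module.finrank E (A k l) = Module.finrank E (W l) + D k l := by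
    intro k l
    have h1 := Submodule.finrank_sup_add_finrank_inf_eq (W l) (X (G k l))
    rw [hX.eq] at h1
    exact h1
  have hAk : ∀ k l, A k l ≤ A (k + 1) l := fun k l =>
    inf_le_inf_left _ (X.monotone (Sm_le_succ X (W l) k))
  have hGl : ∀ k l, G k l ≤ G k (l + 1) := fun k l => Sm_mono_left X (Sm_le_succ Y V l) k
  have hAl : ∀ k l, A k l ≤ A k (l + 1) := fun k l =>
    inf_le_inf (Sm_le_succ Y V l) (X.monotone (hGl k l))
  have hYG : ∀ k l, Y (G k l) ≤ G k (l + 1) := by
    intro k l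
    rw [hGsymm, hGsymm]
    exact X_Sm_le Y _ l
  have hYA : ∀ k l, Y (A k l) ≤ A k (l + 1) := by
    intro k l
    rw [hAdef]
    simp only
    rw [map_inf, ← hXY]
    exact inf_le_inf (X_Sm_le Y V l) (X.monotone (hYG k l))
  have hAkmono : ∀ l, Monotone (fun k => A k l) := fun l => monotone_nat_of_le_succ fun k => hAk k l
  have hAlmono : ∀ k, Monotone (fun l => A k l) := fun k => monotone_nat_of_le_succ fun l => hAl k l
  -- step 2: stabilisation of slopes
  obtain ⟨k₀, hk₀⟩ : ∃ k₀, slope (fun l => D (k₀ + 1) l) = slope (fun l => D k₀ l) := by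
    have hmono : Monotone fun k => slope (fun l => D k l) := by
      apply monotone_nat_of_le_succ
      intro k
      apply (hDslope k).slope_le_slope (hDslope (k + 1)) (m := 0) (C := 0)
      intro l
      exact finrank_mono' (Sm_le_succ X (W l) k)
    have hbd : ∀ k, slope (fun l => D k l) ≤ b := by
      intro k
      obtain ⟨C, hC⟩ := Hb k
      apply (hDslope k).slope_le_of_bound (C := C)
      intro l
      simp only [hDdef]
      rw [hGsymm]
      exact hC l
    obtain ⟨k₀, hk⟩ := exists_stable hmono hbd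
    exact ⟨k₀, hk (k₀ + 1) (Nat.le_succ _)⟩
  -- step 3
  obtain ⟨C₁, hC₁⟩ : ∃ C, ∀ l, Module.finrank E (W l) ≤ Module.finrank E (A k₀ l) + C := by
    obtain ⟨C, hC⟩ := (hDslope (k₀ + 1)).upper
    refine ⟨C, fun l => ?_⟩
    have h1 : D (k₀ + 1) l ≤ slope (fun l => D (k₀ + 1) l) * l + C := hC l
    have h2 : slope (fun l => D k₀ l) * l ≤ D k₀ l := (hDslope k₀).lower l
    have h3 := hfund k₀ l
    rw [hk₀] at h1
    omega
  have hWc := dm_conc hY V
  -- step 5
  obtain ⟨m, hm⟩ : ∃ m, slope (dm Y V) ≤ slope (dm Y (A k₀ m)) := by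
    let dd : ℕ → ℕ → ℕ := fun l m =>
      Module.finrank E (W l ⊔ A k₀ m : Submodule E M) - Module.finrank E (A k₀ m)
    have hle : ∀ l m, Module.finrank E (A k₀ m) ≤ Module.finrank E (W l ⊔ A k₀ m : Submodule E M) :=
      fun l m => finrank_mono' le_sup_right
    have hdm : ∀ l m, dd l (m + 1) ≤ dd l m := by
      intro l m
      have h1 := Submodule.finrank_sup_add_finrank_inf_eq (W l) (A k₀ m)
      have h2 := Submodule.finrank_sup_add_finrank_inf_eq (W l) (A k₀ (m + 1))
      have h3 : Module.finrank E (W l ⊓ A k₀ m : Submodule E M) ≤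
          Module.finrank E (W l ⊓ A k₀ (m + 1) : Submodule E M) :=
        finrank_mono' (inf_le_inf_left _ (hAl k₀ m))
      have h4 := hle l m
      have h5 := hle l (m + 1)
      simp only [dd]
      omega
    have hdanti : ∀ l, Antitone (dd l) := fun l => antitone_nat_of_succ_le (hdm l)
    have hdl : ∀ l m, dd l m ≤ dd (l + 1) m := by
      intro l m
      have h1 : Module.finrank E (W l ⊔ A k₀ m : Submodule E M) ≤
          Module.finrank E (W (l + 1) ⊔ A k₀ m : Submodule E M) :=
        finrank_mono' (sup_le_sup_right (Sm_le_succ Y V l) _)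
      simp only [dd]
      omega
    have hdb : ∀ l, dd l l ≤ C₁ := by
      intro l
      have h1 : (W l ⊔ A k₀ l) = W l := sup_eq_left.mpr inf_le_left
      simp only [dd]
      rw [h1]
      have := hC₁ l
      omega
    let hh : ℕ → ℕ := fun l => ⨅ m, dd l m
    have hhatt : ∀ l, ∃ m₀, ∀ m ≥ m₀, dd l m = hh l := by
      intro l
      obtain ⟨m₀, hm₀⟩ : ∃ m₀, dd l m₀ = hh l := Nat.sInf_mem (Set.range_nonempty (dd l))
      refine ⟨m₀, fun m hm => le_antisymm ?_ (ciInf_le (OrderBot.bddBelow _) m)⟩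
      rw [← hm₀]
      exact hdanti l hm
    have hhmono : Monotone hh := by
      apply monotone_nat_of_le_succ
      intro l
      obtain ⟨m₀, hm₀⟩ := hhatt (l + 1)
      rw [← hm₀ m₀ le_rfl]
      exact (ciInf_le (OrderBot.bddBelow _) m₀).trans (hdl l m₀)
    have hhb : ∀ l, hh l ≤ C₁ := fun l => (ciInf_le (OrderBot.bddBelow _) l).trans (hdb l)
    obtain ⟨l₁, hl₁⟩ := exists_stable hhmono hhb
    obtain ⟨m₁, hm₁⟩ := hhatt l₁
    obtain ⟨m₂, hm₂⟩ := hhatt (l₁ + 1)
    refine ⟨max m₁ m₂, ?_⟩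
    set m := max m₁ m₂ with hmdef
    have h1 := hm₁ m (le_max_left _ _)
    have h2 := hm₂ m (le_max_right _ _)
    have h3 : hh (l₁ + 1) = hh l₁ := hl₁ _ (Nat.le_succ _)
    have h4 : W (l₁ + 1) ⊔ A k₀ m = W l₁ ⊔ A k₀ m := by
      symm
      apply Submodule.eq_of_le_of_finrank_le (sup_le_sup_right (Sm_le_succ Y V l₁) _)
      change Module.finrank E (W (l₁ + 1) ⊔ A k₀ m : Submodule E M) ≤
        Module.finrank E (W l₁ ⊔ A k₀ m : Submodule E M)
      have h5 := hle l₁ m
      have h6 := hle (l₁ + 1) m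
      simp only [dd] at h1 h2
      omega
    have h5 : W (l₁ + 1) ≤ W l₁ ⊔ A k₀ m := by
      rw [← h4]; exact le_sup_left
    have h6 : ∀ n, W (l₁ + n) ≤ W l₁ ⊔ Sm Y (A k₀ m) n := by
      intro n
      induction n with
      | zero => exact le_sup_left
      | succ n ih =>
        change V ⊔ Y (W (l₁ + n)) ≤ _
        have h7 : V ≤ W l₁ ⊔ A k₀ m := (le_Sm Y V l₁).trans h5
        have h8 : Y (W l₁) ≤ W l₁ ⊔ A k₀ m := (X_Sm_le Y V l₁).trans h5
        have h9 := Y.monotone ih
        rw [map_sup] at h9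
        rw [Sm_succ]
        refine sup_le (h7.trans (sup_le_sup_left le_sup_left _)) (h9.trans (sup_le ?_ ?_))
        · exact h8.trans (sup_le_sup_left le_sup_left _)
        · exact le_sup_right.trans le_sup_right
    have hAconc := dm_conc hY (A k₀ m)
    apply hWc.slope_le_slope hAconc (m := 0) (C := Module.finrank E (W l₁))
    intro n
    have := Sm_fin hY (A k₀ m) n
    have h7 : Module.finrank E (W (l₁ + n)) ≤
        Module.finrank E (W l₁ ⊔ Sm Y (A k₀ m) n : Submodule E M) := finrank_mono' (h6 n)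
    have h8 := Submodule.finrank_add_le_finrank_add_finrank (W l₁) (Sm Y (A k₀ m) n)
    have h9 : dm Y V n ≤ Module.finrank E (W (l₁ + n)) := by
      have := hWf (l₁ + n)
      exact finrank_mono' (Sm_mono Y V (Nat.le_add_left _ _))
    unfold dm at h9 ⊢
    rw [add_zero]
    omega
  -- step 6
  obtain ⟨l₃, hl₃⟩ := hWc.eventually
  have hkey : ∀ k ≥ k₀, ∀ l ≥ max m l₃, D (k + 1) (l + 1) + D k l ≤ D (k + 1) l + D k (l + 1) := by
    intro k hk l hl
    have h1 := hfund k l
    have h2 := hfund k (l + 1)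
    have h3 : Module.finrank E (W (l + 1)) = Module.finrank E (W l) + slope (dm Y V) :=
      hl₃ l ((le_max_right _ _).trans hl)
    have h4 := dim_add_slope hY (A k l)
    have h5 : slope (dm Y V) ≤ slope (dm Y (A k l)) := by
      refine hm.trans (slope_mono hY ?_)
      exact (hAkmono m hk).trans (hAlmono k ((le_max_left _ _).trans hl))
    have h6 : Module.finrank E (A k l ⊔ Y (A k l) : Submodule E M) ≤
        Module.finrank E (A k (l + 1)) := finrank_mono' (sup_le (hAl k l) (hYA k l))
    omega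
  obtain ⟨l₅', hl₅'⟩ := (hDslope k₀).eventually
  have hslopeb : slope (fun l => D k₀ l) ≤ b := by
    obtain ⟨C, hC⟩ := Hb k₀
    apply (hDslope k₀).slope_le_of_bound (C := C)
    intro l
    simp only [hDdef]
    rw [hGsymm]
    exact hC l
  set l₅ := max (max m l₃) l₅' with hl₅
  have hstep : ∀ k ≥ k₀, ∀ l ≥ l₅, D k (l + 1) ≤ D k l + b := by
    intro k hk
    induction k, hk using Nat.le_induction with
    | base =>
      intro l hl
      have h1 : D k₀ (l + 1) = D k₀ l + slope (fun l => D k₀ l) :=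
        hl₅' l ((le_max_right _ _).trans hl)
      omega
    | succ k hk ih =>
      intro l hl
      have h1 := ih l hl
      have h2 := hkey k hk l ((le_max_left _ _).trans hl)
      omega
  have hlin : ∀ k ≥ k₀, ∀ j, D k (l₅ + j) ≤ D k l₅ + b * j := by
    intro k hk j
    induction j with
    | zero => simp
    | succ j ih =>
      have := hstep k hk (l₅ + j) (Nat.le_add_right _ _)
      rw [Nat.mul_succ]
      have h2 : l₅ + (j + 1) = l₅ + j + 1 := rfl
      rw [h2]
      omega
  obtain ⟨C₂, hC₂⟩ := Ha l₅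
  set n₁ := max k₀ l₅ with hn₁
  refine ⟨C₂ + D n₁ n₁, fun k => ?_⟩
  change D k k ≤ _
  rcases le_total n₁ k with hk | hk
  · obtain ⟨j, hj⟩ := Nat.exists_eq_add_of_le ((le_max_right _ _).trans hk : l₅ ≤ k)
    have h1 := hlin k ((le_max_left _ _).trans hk) j
    have h2 : D k l₅ ≤ a * k + C₂ := hC₂ k
    have h3 : b * j ≤ b * k := Nat.mul_le_mul_left _ (by omega)
    rw [← hj] at h1
    rw [add_mul]
    omega
  · have h1 : D k k ≤ D n₁ n₁ := by
      have h2 : G k k ≤ G n₁ n₁ :=
        (Sm_mono X (W k) hk).trans (Sm_mono_left X (Sm_mono Y V hk) n₁)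
      exact finrank_mono' h2
    omega

end

end Pool.Agent.Lib.MPf08bf1
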