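import Pool.Agent.Lib.MPf08bf1.Defs

/-!
The Hilbert space `ℓ²(X)`, the group von Neumann algebra `N(G)` and its trace.
-/

open scoped ENNReal InnerProductSpace ComplexConjugate

noncomputable section

namespace Pool.Agent.Lib.MPf08bf1

theorem dl_self {X : Type} (x : X) : (dl x : X → ℂ) x = 1 := by
  classical
  exact lp.single_apply_self (E := fun _ : X => ℂ) 2 x (1 : ℂ)

theorem dl_ne {X : Type} {x y : X} (h : y ≠ x) : (dl x : X → ℂ) y = 0 := by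
  classical
  exact lp.single_apply_ne (E := fun _ : X => ℂ) 2 x (1 : ℂ) h

theorem dl_apply {X : Type} [DecidableEq X] (x y : X) :
    (dl x : X → ℂ) y = if y = x then 1 else 0 := by
  by_cases h : y = x
  · subst h; rw [dl_self, if_pos rfl]
  · rw [dl_ne h, if_neg h]

theorem permL2_dl {X Y : Type} (σ : X ≃ Y) (x : X) : permL2 σ (dl x) = dl (σ x) := by
  classical
  ext y
  rw [permL2_apply, dl_apply, dl_apply]
  simp [Equiv.symm_apply_eq]

theorem inner_dl_left {X : Type} (x : X) (f : L2 X) : ⟪dl x, f⟫_ℂ = (f : X → ℂ) x := by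
  classical
  unfold dl
  have := lp.inner_single_left (𝕜 := ℂ) (G := fun _ : X => ℂ) x (1 : ℂ) f
  rw [this]
  simp

theorem permL2_comp {X Y Z : Type} (σ : X ≃ Y) (τ : Y ≃ Z) (f : L2 X) :
    permL2 τ (permL2 σ f) = permL2 (σ.trans τ) f := by
  ext z
  rfl

theorem vN_comm {G : Type} [Group G] (T : vN G) (g : G) (f : L2 G) :
    (T : L2 G →L[ℂ] L2 G) (rightTrans g f) = rightTrans g ((T : L2 G →L[ℂ] L2 G) f) :=
  (mem_vN_iff _).mp T.2 g f

theorem vN_dl {G : Type} [Group G] (T : vN G) (g : G) :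
    (T : L2 G →L[ℂ] L2 G) (dl g) = rightTrans g ((T : L2 G →L[ℂ] L2 G) (dl 1)) := by
  rw [← vN_comm]
  congr 1
  unfold rightTrans
  rw [permL2_dl]
  simp

theorem vN_star_coeff {G : Type} [Group G] (T : vN G) (x : G) :
    (((star T : vN G) : L2 G →L[ℂ] L2 G) (dl 1) : G → ℂ) x =
      conj (((T : L2 G →L[ℂ] L2 G) (dl 1) : G → ℂ) x⁻¹) := by
  rw [← inner_dl_left]
  have h1 : ((star T : vN G) : L2 G →L[ℂ] L2 G) =
    ContinuousLinearMap.adjoint (T : L2 G →L[ℂ] L2 G) := rfl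
  rw [h1, ContinuousLinearMap.adjoint_inner_right, vN_dl, ← inner_conj_symm, inner_dl_left]
  simp [rightTrans]

theorem vN_ext_dl {G : Type} [Group G] {T : vN G}
    (h : (T : L2 G →L[ℂ] L2 G) (dl 1) = 0) : T = 0 := by
  have hx : ∀ g, (T : L2 G →L[ℂ] L2 G) (dl g) = 0 := by
    intro g
    rw [vN_dl, h, map_zero]
  apply Subtype.ext
  ext1 f
  change (T : L2 G →L[ℂ] L2 G) f = 0
  ext x
  rw [← inner_dl_left]
  have h1 : ⟪dl x, (T : L2 G →L[ℂ] L2 G) f⟫_ℂ =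
      ⟪((star T : vN G) : L2 G →L[ℂ] L2 G) (dl x), f⟫_ℂ := by
    rw [show ((star T : vN G) : L2 G →L[ℂ] L2 G) =
      ContinuousLinearMap.adjoint (T : L2 G →L[ℂ] L2 G) from rfl,
      ContinuousLinearMap.adjoint_inner_left]
  have h2 : ((star T : vN G) : L2 G →L[ℂ] L2 G) (dl 1) = 0 := by
    ext y
    rw [vN_star_coeff, h]
    simp
  rw [h1, vN_dl, h2, map_zero, inner_zero_left]
  simp

theorem vnTr_mul_eq {G : Type} [Group G] (S T : vN G) :
    vnTr (S * T) = ∑' x : G, (((S : L2 G →L[ℂ] L2 G) (dl 1) : G → ℂ) x⁻¹) *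
      (((T : L2 G →L[ℂ] L2 G) (dl 1) : G → ℂ) x) := by
  unfold vnTr
  rw [← inner_dl_left]
  have h1 : ((S * T : vN G) : L2 G →L[ℂ] L2 G) (dl 1) =
    (S : L2 G →L[ℂ] L2 G) ((T : L2 G →L[ℂ] L2 G) (dl 1)) := rfl
  rw [h1]
  have h2 : ⟪dl (1 : G), (S : L2 G →L[ℂ] L2 G) ((T : L2 G →L[ℂ] L2 G) (dl 1))⟫_ℂ =
      ⟪((star S : vN G) : L2 G →L[ℂ] L2 G) (dl 1), (T : L2 G →L[ℂ] L2 G) (dl 1)⟫_ℂ := by
    rw [show ((star S : vN G) : L2 G →L[ℂ] L2 G) =
      ContinuousLinearMap.adjoint (S : L2 G →L[ℂ] L2 G) from rfl,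
      ContinuousLinearMap.adjoint_inner_left]
  rw [h2, lp.inner_eq_tsum]
  congr 1
  ext x
  rw [vN_star_coeff]
  simp [mul_comm]

theorem vnTr_mul_comm {G : Type} [Group G] (S T : vN G) : vnTr (S * T) = vnTr (T * S) := by
  rw [vnTr_mul_eq, vnTr_mul_eq, ← (Equiv.inv G).tsum_eq]
  congr 1
  ext x
  simp [mul_comm]

theorem vnTr_add {G : Type} [Group G] (S T : vN G) : vnTr (S + T) = vnTr S + vnTr T := by
  unfold vnTr
  have h1 : ((S + T : vN G) : L2 G →L[ℂ] L2 G) (dl 1) =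
    (S : L2 G →L[ℂ] L2 G) (dl 1) + (T : L2 G →L[ℂ] L2 G) (dl 1) := rfl
  rw [h1]; rfl

theorem vnTr_sub {G : Type} [Group G] (S T : vN G) : vnTr (S - T) = vnTr S - vnTr T := by
  unfold vnTr
  have h1 : ((S - T : vN G) : L2 G →L[ℂ] L2 G) (dl 1) =
    (S : L2 G →L[ℂ] L2 G) (dl 1) - (T : L2 G →L[ℂ] L2 G) (dl 1) := rfl
  rw [h1]; rfl

theorem vnTr_zero {G : Type} [Group G] : vnTr (0 : vN G) = 0 := by
  unfold vnTr
  have h1 : ((0 : vN G) : L2 G →L[ℂ] L2 G) (dl 1) = 0 := rfl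
  rw [h1]; rfl

theorem vnTr_one {G : Type} [Group G] : vnTr (1 : vN G) = 1 := by
  classical
  unfold vnTr
  have h1 : ((1 : vN G) : L2 G →L[ℂ] L2 G) (dl 1) = dl 1 := rfl
  rw [h1, dl_apply]
  simp

theorem vnTr_sum {G : Type} [Group G] {ι : Type} (s : Finset ι) (f : ι → vN G) :
    vnTr (∑ i ∈ s, f i) = ∑ i ∈ s, vnTr (f i) := by
  classical
  induction s using Finset.induction_on with
  | empty => simp [vnTr_zero]
  | insert a s ha ih => rw [Finset.sum_insert ha, Finset.sum_insert ha, vnTr_add, ih]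

end Pool.Agent.Lib.MPf08bf1
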