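import Pool.Agent.Lib.MPf08bf1.Ore

/-!
Rational closures: an abstract criterion producing division rings.
-/

open scoped Matrix

noncomputable section

namespace Pool.Agent.Lib.MPf08bf1

/-- Data for a rational closure: a ring homomorphism together with a class of square matrices
which become invertible and satisfy a dichotomy. -/
structure LocSys (R U : Type) [Ring R] [Ring U] where
  ρ : R →+* U
  Full : ∀ (I : Type) [Fintype I], Matrix I I R → Prop
  one_full : Full Unit 1
  tri : ∀ (I J : Type) [Fintype I] [Fintype J] (A : Matrix I I R) (B : Matrix J J R)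
    (C : Matrix I J R), Full I A → Full J B → Full (I ⊕ J) (Matrix.fromBlocks A C 0 B)
  surj : ∀ (I : Type) [Fintype I] (A : Matrix I I R), Full I A → ∀ v : I → U,
    ∃ w : I → U, (A.map ρ) *ᵥ w = v
  inj : ∀ (I : Type) [Fintype I] (A : Matrix I I R), Full I A → ∀ w : I → U,
    (A.map ρ) *ᵥ w = 0 → w = 0
  dich : ∀ (I : Type) [Fintype I] (A : Matrix I I R), Full I A → ∀ (u v : I → R),
    Full (I ⊕ Unit) (Matrix.fromBlocks A (Matrix.of fun i _ => v i) (Matrix.of fun _ i => u i) 0) ∨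
      ∀ w : I → U, (A.map ρ) *ᵥ w = (fun i => ρ (v i)) → ∑ i, ρ (u i) * w i = 0

namespace LocSys

variable {R U : Type} [Ring R] [Ring U] (Sy : LocSys R U)

/-- Rational elements. -/
def Rat (x : U) : Prop :=
  ∃ (I : Type) (_ : Fintype I) (A : Matrix I I R) (u v : I → R) (w : I → U),
    Sy.Full I A ∧ (A.map Sy.ρ) *ᵥ w = (fun i => Sy.ρ (v i)) ∧ x = ∑ i, Sy.ρ (u i) * w i

theorem rat_ρ (a : R) : Sy.Rat (Sy.ρ a) := by
  refine ⟨Unit, inferInstance, 1, fun _ => a, fun _ => 1, fun _ => 1, Sy.one_full, ?_, ?_⟩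
  · ext i
    simp [Matrix.mulVec, dotProduct]
  · simp

theorem rat_neg {x : U} (hx : Sy.Rat x) : Sy.Rat (-x) := by
  obtain ⟨I, hI, A, u, v, w, hA, hw, rfl⟩ := hx
  refine ⟨I, hI, A, fun i => -u i, v, w, hA, hw, ?_⟩
  simp

theorem rat_add {x y : U} (hx : Sy.Rat x) (hy : Sy.Rat y) : Sy.Rat (x + y) := by
  obtain ⟨I, hI, A, u, v, w, hA, hw, rfl⟩ := hx
  obtain ⟨J, hJ, B, u', v', w', hB, hw', rfl⟩ := hy
  refine ⟨I ⊕ J, inferInstance, Matrix.fromBlocks A 0 0 B, Sum.elim u u', Sum.elim v v',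
    Sum.elim w w', Sy.tri I J A B 0 hA hB, ?_, ?_⟩
  · ext i
    rcases i with i | i
    · have := congrFun hw i
      simp only [Matrix.mulVec, dotProduct, Matrix.map_apply] at this
      simp [Matrix.mulVec, dotProduct, Fintype.sum_sum_type, this]
    · have := congrFun hw' i
      simp only [Matrix.mulVec, dotProduct, Matrix.map_apply] at this
      simp [Matrix.mulVec, dotProduct, Fintype.sum_sum_type, this]
  · simp [Fintype.sum_sum_type]

theorem rat_mul {x y : U} (hx : Sy.Rat x) (hy : Sy.Rat y) : Sy.Rat (x * y) := by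
  obtain ⟨I, hI, A, u, v, w, hA, hw, rfl⟩ := hx
  obtain ⟨J, hJ, B, u', v', w', hB, hw', rfl⟩ := hy
  set y := ∑ i, Sy.ρ (u' i) * w' i with hy
  refine ⟨I ⊕ J, inferInstance, Matrix.fromBlocks A (Matrix.of fun i j => -(v i * u' j)) 0 B,
    Sum.elim u 0, Sum.elim 0 v', Sum.elim (fun i => w i * y) w', Sy.tri I J A B _ hA hB, ?_, ?_⟩
  · ext i
    rcases i with i | i
    · have := congrFun hw i
      simp only [Matrix.mulVec, dotProduct, Matrix.map_apply] at this
      simp only [Matrix.mulVec, dotProduct, Fintype.sum_sum_type, Matrix.map_apply,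
        Matrix.fromBlocks_apply₁₁, Matrix.fromBlocks_apply₁₂, Sum.elim_inl, Sum.elim_inr,
        Matrix.of_apply, Pi.zero_apply, map_zero, map_neg, map_mul, neg_mul]
      simp_rw [← mul_assoc]
      rw [← Finset.sum_mul, this, Finset.sum_neg_distrib]
      simp_rw [mul_assoc]
      rw [← Finset.mul_sum, ← hy, add_neg_cancel]
    · have := congrFun hw' i
      simp only [Matrix.mulVec, dotProduct, Matrix.map_apply] at this
      simp [Matrix.mulVec, dotProduct, Fintype.sum_sum_type, this]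
  · simp [Fintype.sum_sum_type, Finset.sum_mul, mul_assoc]

/-- The rational closure as a subring. -/
def clo : Subring U where
  carrier := {x | Sy.Rat x}
  mul_mem' := Sy.rat_mul
  one_mem' := by
    have := Sy.rat_ρ 1
    rwa [map_one] at this
  add_mem' := Sy.rat_add
  zero_mem' := by
    have := Sy.rat_ρ 0
    rwa [map_zero] at this
  neg_mem' := Sy.rat_neg

theorem mem_clo {x : U} : x ∈ Sy.clo ↔ Sy.Rat x := Iff.rfl

theorem exists_right_inv {x : U} (hx : Sy.Rat x) (h0 : x ≠ 0) : ∃ y, Sy.Rat y ∧ x * y = 1 := by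
  classical
  obtain ⟨I, hI, A, u, v, w, hA, hw, rfl⟩ := hx
  rcases Sy.dich I A hA u v with h | h
  swap
  · exact absurd (h w hw) h0
  obtain ⟨z, hz⟩ := Sy.surj _ _ h (Sum.elim 0 1)
  have h1 : ∀ i, ∑ j, Sy.ρ (A i j) * z (Sum.inl j) + Sy.ρ (v i) * z (Sum.inr ()) = 0 := by
    intro i
    have := congrFun hz (Sum.inl i)
    simpa [Matrix.mulVec, dotProduct, Fintype.sum_sum_type] using this
  have h2 : ∑ j, Sy.ρ (u j) * z (Sum.inl j) = 1 := by
    have := congrFun hz (Sum.inr ())
    simpa [Matrix.mulVec, dotProduct, Fintype.sum_sum_type] using this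
  have h3 : (fun j => z (Sum.inl j) + w j * z (Sum.inr ())) = 0 := by
    apply Sy.inj I A hA
    ext i
    have h4 := congrFun hw i
    simp only [Matrix.mulVec, dotProduct, Matrix.map_apply] at h4
    simp only [Matrix.mulVec, dotProduct, Matrix.map_apply, mul_add, Finset.sum_add_distrib,
      Pi.zero_apply]
    simp_rw [← mul_assoc]
    rw [← Finset.sum_mul, h4]
    exact h1 i
  have h5 : ∀ j, z (Sum.inl j) = -(w j * z (Sum.inr ())) := fun j =>
    eq_neg_of_add_eq_zero_left (congrFun h3 j)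
  refine ⟨-z (Sum.inr ()), ?_, ?_⟩
  · refine ⟨I ⊕ Unit, inferInstance, _, Sum.elim 0 (-1), Sum.elim 0 1, z, h, ?_, ?_⟩
    · rw [hz]
      ext i
      rcases i with i | i <;> simp
    · simp [Fintype.sum_sum_type]
  · rw [← h2, Finset.sum_mul]
    apply Finset.sum_congr rfl
    intro j _
    rw [h5, mul_neg, mul_neg, mul_assoc]

theorem clo_isUnit_or [Nontrivial U] (a : Sy.clo) : IsUnit a ∨ a = 0 := by
  by_cases ha : a = 0
  · exact Or.inr ha
  left
  have hne : (a : U) ≠ 0 := fun h => ha (Subtype.ext h)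
  obtain ⟨y, hy, hay⟩ := Sy.exists_right_inv a.2 hne
  have hy0 : y ≠ 0 := by
    rintro rfl
    rw [mul_zero] at hay
    exact zero_ne_one hay
  obtain ⟨z, hz, hyz⟩ := Sy.exists_right_inv hy hy0
  have haz : (a : U) = z := by
    calc (a : U) = a * (y * z) := by rw [hyz, mul_one]
      _ = z := by rw [← mul_assoc, hay, one_mul]
  refine ⟨⟨a, ⟨y, hy⟩, Subtype.ext hay, Subtype.ext ?_⟩, rfl⟩
  change y * (a : U) = 1
  rw [haz, hyz]

/-- The rational closure is a division ring. -/
instance cloDiv [Nontrivial U] : DivisionRing Sy.clo :=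
  DivisionRing.ofIsUnitOrEqZero Sy.clo_isUnit_or

end LocSys

end Pool.Agent.Lib.MPf08bf1
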