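import Pool.Agent.Lib.MPf08bf1.L2

/-!
Matrices over `N(G)` as operators; supports of matrices.
-/

open scoped ENNReal InnerProductSpace ComplexConjugate Matrix

noncomputable section

namespace Pool.Agent.Lib.MPf08bf1

variable {G : Type} [Group G]

/-- The operator defined by a matrix. -/
def toOp {I J : Type} [Fintype I] [Fintype J] (A : Matrix I J (vN G)) :
    HS G J →L[ℂ] HS G I :=
  ((PiLp.continuousLinearEquiv 2 ℂ (fun _ : I => L2 G)).symm : (I → L2 G) →L[ℂ] HS G I) ∘L
    ContinuousLinearMap.pi (fun i => ∑ j, ((A i j : vN G) : L2 G →L[ℂ] L2 G) ∘L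
      PiLp.proj 2 (fun _ : J => L2 G) j)

theorem toOp_apply {I J : Type} [Fintype I] [Fintype J] (A : Matrix I J (vN G)) (f : HS G J)
    (i : I) : (toOp A f) i = ∑ j, ((A i j : vN G) : L2 G →L[ℂ] L2 G) (f j) := by
  simp [toOp]

theorem inc_apply {J : Type} [Fintype J] [DecidableEq J] (j i : J) (f : L2 G) :
    (inc j f : HS G J) i = if i = j then f else 0 := by
  simp only [inc, ContinuousLinearMap.comp_apply]
  change (ContinuousLinearMap.pi (fun i => if i = j then ContinuousLinearMap.id ℂ (L2 G) else 0)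
    : L2 G →L[ℂ] (J → L2 G)) f i = _
  rw [ContinuousLinearMap.pi_apply]
  split_ifs <;> rfl

theorem inc_self {J : Type} [Fintype J] [DecidableEq J] (j : J) (f : L2 G) :
    (inc j f : HS G J) j = f := by rw [inc_apply, if_pos rfl]

theorem inc_ne {J : Type} [Fintype J] [DecidableEq J] {j i : J} (h : i ≠ j) (f : L2 G) :
    (inc j f : HS G J) i = 0 := by rw [inc_apply, if_neg h]

theorem sum_inc {J : Type} [Fintype J] [DecidableEq J] (f : HS G J) :
    ∑ j, inc j (f j) = f := by
  apply PiLp.ext
  intro i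
  have : (∑ j, inc j (f j) : HS G J) i = ∑ j, (inc j (f j) : HS G J) i := by
    simp [WithLp.ofLp_sum, Finset.sum_apply]
  rw [this, Finset.sum_eq_single i]
  · exact inc_self i _
  · intro j _ hj
    exact inc_ne (Ne.symm hj) _
  · intro h; exact absurd (Finset.mem_univ i) h

theorem inner_HS {I : Type} [Fintype I] (f g : HS G I) : ⟪f, g⟫_ℂ = ∑ i, ⟪f i, g i⟫_ℂ := by
  rw [PiLp.inner_apply]

theorem toOp_mul {I J K : Type} [Fintype I] [Fintype J] [Fintype K] (A : Matrix I J (vN G))
    (B : Matrix J K (vN G)) : toOp (A * B) = (toOp A) ∘L (toOp B) := by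
  ext1 f
  apply PiLp.ext
  intro i
  rw [ContinuousLinearMap.comp_apply, toOp_apply, toOp_apply]
  simp_rw [toOp_apply, map_sum, Matrix.mul_apply]
  rw [Finset.sum_comm]
  apply Finset.sum_congr rfl
  intro k _
  have : ((∑ j, A i j * B j k : vN G) : L2 G →L[ℂ] L2 G) =
      ∑ j, ((A i j : vN G) : L2 G →L[ℂ] L2 G) * ((B j k : vN G) : L2 G →L[ℂ] L2 G) := by
    push_cast
    rfl
  rw [this, ContinuousLinearMap.sum_apply]
  rfl

theorem toOp_one {I : Type} [Fintype I] [DecidableEq I] :
    toOp (1 : Matrix I I (vN G)) = ContinuousLinearMap.id ℂ (HS G I) := by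
  ext1 f
  apply PiLp.ext
  intro i
  rw [toOp_apply, Finset.sum_eq_single i]
  · rw [Matrix.one_apply_eq]; rfl
  · intro j _ hj
    rw [Matrix.one_apply_ne (Ne.symm hj)]; rfl
  · intro h; exact absurd (Finset.mem_univ i) h

theorem toOp_add {I J : Type} [Fintype I] [Fintype J] (A B : Matrix I J (vN G)) :
    toOp (A + B) = toOp A + toOp B := by
  ext1 f
  apply PiLp.ext
  intro i
  have h : (toOp A + toOp B) f = toOp A f + toOp B f := rfl
  rw [h, PiLp.add_apply, toOp_apply, toOp_apply, toOp_apply, ← Finset.sum_add_distrib]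
  apply Finset.sum_congr rfl
  intro j _
  rfl

theorem toOp_sub {I J : Type} [Fintype I] [Fintype J] (A B : Matrix I J (vN G)) :
    toOp (A - B) = toOp A - toOp B := by
  ext1 f
  apply PiLp.ext
  intro i
  have h : (toOp A - toOp B) f = toOp A f - toOp B f := rfl
  rw [h, PiLp.sub_apply, toOp_apply, toOp_apply, toOp_apply, ← Finset.sum_sub_distrib]
  apply Finset.sum_congr rfl
  intro j _
  rfl

theorem toOp_zero {I J : Type} [Fintype I] [Fintype J] :
    toOp (0 : Matrix I J (vN G)) = 0 := by
  have := toOp_sub (0 : Matrix I J (vN G)) 0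
  rwa [sub_self, sub_self] at this

theorem toOp_smul {I J : Type} [Fintype I] [Fintype J] (c : ℂ) (A : Matrix I J (vN G)) :
    toOp (c • A) = c • toOp A := by
  ext1 f
  apply PiLp.ext
  intro i
  have h : (c • toOp A) f = c • toOp A f := rfl
  rw [h, PiLp.smul_apply, toOp_apply, toOp_apply, Finset.smul_sum]
  apply Finset.sum_congr rfl
  intro j _
  rfl

theorem toOp_inc {I J : Type} [Fintype I] [Fintype J] [DecidableEq J] (A : Matrix I J (vN G))
    (j : J) (f : L2 G) (i : I) : (toOp A (inc j f)) i = ((A i j : vN G) : L2 G →L[ℂ] L2 G) f := by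
  rw [toOp_apply, Finset.sum_eq_single j]
  · rw [inc_self]
  · intro k _ hk
    rw [inc_ne hk, map_zero]
  · intro h; exact absurd (Finset.mem_univ j) h

theorem toOp_injective {I J : Type} [Fintype I] [Fintype J] {A B : Matrix I J (vN G)}
    (h : toOp A = toOp B) : A = B := by
  classical
  ext1 i j
  apply Subtype.ext
  ext1 f
  rw [← toOp_inc, ← toOp_inc, h]

theorem toOp_conjTranspose {I J : Type} [Fintype I] [Fintype J] (A : Matrix I J (vN G)) :
    toOp Aᴴ = ContinuousLinearMap.adjoint (toOp A) := by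
  rw [ContinuousLinearMap.eq_adjoint_iff]
  intro f g
  rw [inner_HS, inner_HS]
  simp_rw [toOp_apply, sum_inner, inner_sum]
  rw [Finset.sum_comm]
  apply Finset.sum_congr rfl
  intro i _
  apply Finset.sum_congr rfl
  intro j _
  rw [Matrix.conjTranspose_apply]
  rw [show ((star (A i j) : vN G) : L2 G →L[ℂ] L2 G) =
      ContinuousLinearMap.adjoint ((A i j : vN G) : L2 G →L[ℂ] L2 G) from rfl,
      ContinuousLinearMap.adjoint_inner_left]

/-- Coordinatewise right translation. -/
def trans {I : Type} [Fintype I] (g : G) (f : HS G I) : HS G I :=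
  WithLp.toLp 2 (fun i => rightTrans g (f i))

theorem trans_apply {I : Type} [Fintype I] (g : G) (f : HS G I) (i : I) :
    (trans g f) i = rightTrans g (f i) := rfl

theorem inner_trans {I : Type} [Fintype I] (g : G) (f h : HS G I) :
    ⟪trans g f, h⟫_ℂ = ⟪f, trans g⁻¹ h⟫_ℂ := by
  rw [inner_HS, inner_HS]
  apply Finset.sum_congr rfl
  intro i _
  rw [trans_apply, trans_apply]
  rw [← rightTrans_adjoint, ContinuousLinearMap.star_eq_adjoint,
    ContinuousLinearMap.adjoint_inner_right]

theorem trans_trans_inv {I : Type} [Fintype I] (g : G) (f : HS G I) :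
    trans g (trans g⁻¹ f) = f := by
  apply PiLp.ext
  intro i
  rw [trans_apply, trans_apply]
  ext x
  simp [rightTrans]

theorem trans_continuous {I : Type} [Fintype I] (g : G) :
    Continuous (trans g : HS G I → HS G I) := by
  have h : (trans g : HS G I → HS G I) = fun f =>
      (PiLp.continuousLinearEquiv 2 ℂ (fun _ : I => L2 G)).symm
        (fun i => rightTrans g (PiLp.proj (𝕜 := ℂ) 2 (fun _ : I => L2 G) i f)) := rfl
  rw [h]
  fun_prop

theorem toOp_trans {I J : Type} [Fintype I] [Fintype J] (A : Matrix I J (vN G)) (g : G)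
    (f : HS G J) : toOp A (trans g f) = trans g (toOp A f) := by
  apply PiLp.ext
  intro i
  rw [trans_apply, toOp_apply, toOp_apply, map_sum]
  apply Finset.sum_congr rfl
  intro j _
  rw [trans_apply, vN_comm]

theorem trans_inc {J : Type} [Fintype J] [DecidableEq J] (g : G) (j : J) (f : L2 G) :
    trans g (inc j f) = inc j (rightTrans g f) := by
  apply PiLp.ext
  intro i
  rw [trans_apply, inc_apply, inc_apply]
  split_ifs
  · rfl
  · rw [map_zero]

/-- The matrix of an operator commuting with right translations. -/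
def ofOp {I J : Type} [Fintype I] [Fintype J] [DecidableEq J] (T : HS G J →L[ℂ] HS G I)
    (hT : ∀ (g : G) (f : HS G J), T (trans g f) = trans g (T f)) : Matrix I J (vN G) :=
  Matrix.of fun i j => ⟨PiLp.proj 2 (fun _ : I => L2 G) i ∘L T ∘L inc j, by
    rw [mem_vN_iff]
    intro g f
    change (T (inc j (rightTrans g f))) i = rightTrans g ((T (inc j f)) i)
    rw [← trans_inc, hT]
    rfl⟩

theorem toOp_ofOp {I J : Type} [Fintype I] [Fintype J] [DecidableEq J]
    (T : HS G J →L[ℂ] HS G I)
    (hT : ∀ (g : G) (f : HS G J), T (trans g f) = trans g (T f)) : toOp (ofOp T hT) = T := by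
  ext1 f
  apply PiLp.ext
  intro i
  rw [toOp_apply]
  conv_rhs => rw [← sum_inc f, map_sum]
  have : (∑ j, T (inc j (f j)) : HS G I) i = ∑ j, (T (inc j (f j))) i := by
    simp [WithLp.ofLp_sum, Finset.sum_apply]
  rw [this]
  rfl

theorem mtr_mul_comm {I J : Type} [Fintype I] [Fintype J] (A : Matrix I J (vN G))
    (B : Matrix J I (vN G)) : mtr (A * B) = mtr (B * A) := by
  unfold mtr
  simp_rw [Matrix.mul_apply, vnTr_sum]
  rw [Finset.sum_comm]
  apply Finset.sum_congr rfl
  intro i _
  apply Finset.sum_congr rfl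
  intro j _
  exact vnTr_mul_comm _ _

theorem mtr_add {I : Type} [Fintype I] (A B : Matrix I I (vN G)) :
    mtr (A + B) = mtr A + mtr B := by
  unfold mtr
  simp_rw [Matrix.add_apply, vnTr_add]
  rw [Finset.sum_add_distrib]

theorem mtr_sub {I : Type} [Fintype I] (A B : Matrix I I (vN G)) :
    mtr (A - B) = mtr A - mtr B := by
  unfold mtr
  simp_rw [Matrix.sub_apply, vnTr_sub]
  rw [Finset.sum_sub_distrib]

theorem mtr_zero {I : Type} [Fintype I] : mtr (0 : Matrix I I (vN G)) = 0 := by
  unfold mtr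
  simp [vnTr_zero]

theorem mtr_one {I : Type} [Fintype I] [DecidableEq I] :
    mtr (1 : Matrix I I (vN G)) = Fintype.card I := by
  unfold mtr
  simp [vnTr_one]

theorem mtr_sum {I : Type} [Fintype I] {ι : Type} (s : Finset ι) (f : ι → Matrix I I (vN G)) :
    mtr (∑ k ∈ s, f k) = ∑ k ∈ s, mtr (f k) := by
  classical
  induction s using Finset.induction_on with
  | empty => simp [mtr_zero]
  | insert a s ha ih => rw [Finset.sum_insert ha, Finset.sum_insert ha, mtr_add, ih]

theorem mtr_eq_inner {I : Type} [Fintype I] [DecidableEq I] (A : Matrix I I (vN G)) :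
    mtr A = ∑ i, ⟪inc i (dl 1), toOp A (inc i (dl 1))⟫_ℂ := by
  unfold mtr
  apply Finset.sum_congr rfl
  intro i _
  rw [inner_HS, Finset.sum_eq_single i]
  · rw [inc_self, toOp_inc, inner_dl_left]
    rfl
  · intro j _ hj
    rw [inc_ne hj, inner_zero_left]
  · intro h; exact absurd (Finset.mem_univ i) h

end Pool.Agent.Lib.MPf08bf1
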