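import Mathlib

/-!
Integer valued sublinear functions on finitely generated abelian groups.
-/

open Filter

noncomputable section

namespace Pool.Agent.Lib.MPf08bf1

/-- Integer-valued sublinear functions. -/
structure Subl {H : Type} [AddCommGroup H] (p : H → ℤ) : Prop where
  add : ∀ x y, p (x + y) ≤ p x + p y
  hom : ∀ (n : ℕ) x, p (n • x) = n * p x

theorem Subl.zero {H : Type} [AddCommGroup H] {p : H → ℤ} (hp : Subl p) : p 0 = 0 := by
  have := hp.hom 0 0
  simpa using this

/-- An antitone integer sequence bounded below is eventually constant. -/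
theorem eventually_const {a : ℕ → ℤ} (ha : ∀ n, a (n + 1) ≤ a n) {B : ℤ} (hB : ∀ n, B ≤ a n) :
    ∃ c, ∀ᶠ n in atTop, a n = c := by
  have hanti : Antitone a := antitone_nat_of_succ_le ha
  obtain ⟨m, hm⟩ : ∃ m, ∀ n, (a m - B).toNat ≤ (a n - B).toNat := by
    obtain ⟨m, hm⟩ := Nat.sInf_mem (Set.range_nonempty fun n => (a n - B).toNat)
    refine ⟨m, fun n => ?_⟩
    change (fun n => (a n - B).toNat) m ≤ _
    rw [hm]
    exact Nat.sInf_le ⟨n, rfl⟩
  refine ⟨a m, ?_⟩
  filter_upwards [eventually_ge_atTop m] with n hn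
  have h1 := hanti hn
  have h2 := hm n
  have h3 := hB n
  have h4 := hB m
  omega

variable {H : Type} [AddCommGroup H]

/-- `p` is linear along `z`. -/
def LinAl (p : H → ℤ) (z : H) : Prop := ∀ y, p (y + z) = p y + p z

theorem LinAl.nsmul {p : H → ℤ} {z : H} (hz : LinAl p z) (n : ℕ) (y : H) :
    p (y + n • z) = p y + n * p z := by
  induction n with
  | zero => simp
  | succ n ih =>
    rw [succ_nsmul, ← add_assoc, hz, ih]
    push_cast
    ring

/-- The directional derivative. -/
theorem exists_deriv {p : H → ℤ} (hp : Subl p) (x : H) :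
    ∃ p' : H → ℤ, Subl p' ∧ (∀ y, p' y ≤ p y) ∧ LinAl p' x ∧ p' x = p x ∧
      ∀ z, LinAl p z → LinAl p' z ∧ p' z = p z := by
  have hex : ∀ y, ∃ c, ∀ᶠ N : ℕ in atTop, p (N • x + y) - N * p x = c := by
    intro y
    apply eventually_const (B := -p (-y))
    · intro n
      have h1 := hp.add (n • x + y) x
      have h2 : (n + 1) • x + y = n • x + y + x := by
        rw [succ_nsmul]; abel
      rw [h2]
      push_cast
      linarith
    · intro n
      have h1 := hp.add (n • x + y) (-y)
      rw [add_neg_cancel_right, hp.hom] at h1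
      linarith
  choose p' hp' using hex
  have hle : ∀ y (N : ℕ), p' y ≤ p (N • x + y) - N * p x := by
    intro y N
    have hanti : Antitone fun n : ℕ => p (n • x + y) - n * p x := by
      apply antitone_nat_of_succ_le
      intro n
      have h1 := hp.add (n • x + y) x
      have h2 : (n + 1) • x + y = n • x + y + x := by
        rw [succ_nsmul]; abel
      rw [h2]
      push_cast
      linarith
    obtain ⟨M, hM⟩ := ((hp' y).and (eventually_ge_atTop N)).exists
    rw [← hM.1]
    exact hanti hM.2
  refine ⟨p', ⟨?_, ?_⟩, ?_, ?_, ?_, ?_⟩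
  · intro y z
    obtain ⟨N, h1, h2⟩ := ((hp' y).and (hp' z)).exists
    have h3 := hle (y + z) (N + N)
    have h4 := hp.add (N • x + y) (N • x + z)
    have h5 : N • x + y + (N • x + z) = (N + N) • x + (y + z) := by
      rw [add_nsmul]; abel
    rw [h5] at h4
    push_cast at h3
    linarith
  · intro n y
    rcases Nat.eq_zero_or_pos n with rfl | hn
    · rw [zero_nsmul]
      obtain ⟨N, h1⟩ := (hp' 0).exists
      rw [add_zero, hp.hom] at h1
      simp at h1
      simp [← h1]
    · have htend : Tendsto (fun N : ℕ => n * N) atTop atTop := by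
        apply tendsto_atTop_mono (f := fun N : ℕ => N)
        · intro N
          exact Nat.le_mul_of_pos_left N hn
        · exact tendsto_id
      obtain ⟨N, h1, h2⟩ := ((hp' y).and (htend.eventually (hp' (n • y)))).exists
      have h3 : (n * N) • x + n • y = n • (N • x + y) := by
        rw [nsmul_add, mul_nsmul']
      rw [h3, hp.hom] at h2
      rw [← h2, ← h1]
      push_cast
      ring
  · intro y
    have := hle y 0
    simpa using this
  · -- linear along x
    have hx : p' x = p x := by
      obtain ⟨N, h1⟩ := (hp' x).exists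
      have h2 : N • x + x = (N + 1) • x := (succ_nsmul x N).symm
      rw [h2, hp.hom] at h1
      rw [← h1]
      push_cast
      ring
    intro y
    obtain ⟨N, h1, h2⟩ := ((hp' (y + x)).and ((tendsto_add_atTop_nat 1).eventually (hp' y))).exists
    have h3 : N • x + (y + x) = (N + 1) • x + y := by
      rw [succ_nsmul]; abel
    rw [h3] at h1
    rw [hx, ← h1, ← h2]
    push_cast
    ring
  · obtain ⟨N, h1⟩ := (hp' x).exists
    have h2 : N • x + x = (N + 1) • x := (succ_nsmul x N).symm
    rw [h2, hp.hom] at h1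
    rw [← h1]
    push_cast
    ring
  · intro z hz
    have hz' : p' z = p z := by
      obtain ⟨N, h1⟩ := (hp' z).exists
      rw [hz, hp.hom] at h1
      rw [← h1]
      ring
    refine ⟨?_, hz'⟩
    intro y
    obtain ⟨N, h1, h2⟩ := ((hp' (y + z)).and (hp' y)).exists
    rw [← add_assoc, hz] at h1
    rw [hz', ← h1, ← h2]
    ring

/-- Making a sublinear function linear along finitely many elements. -/
theorem exists_lin_list (l : List H) {p : H → ℤ} (hp : Subl p) :
    ∃ p' : H → ℤ, Subl p' ∧ (∀ y, p' y ≤ p y) ∧ (∀ z ∈ l, LinAl p' z) ∧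
      ∀ z, LinAl p z → LinAl p' z ∧ p' z = p z := by
  induction l generalizing p with
  | nil => exact ⟨p, hp, fun _ => le_rfl, by simp, fun z hz => ⟨hz, rfl⟩⟩
  | cons x l ih =>
    obtain ⟨p₁, h1, h2, h3, h4, h5⟩ := exists_deriv hp x
    obtain ⟨p₂, k1, k2, k3, k4⟩ := ih h1
    refine ⟨p₂, k1, fun y => (k2 y).trans (h2 y), ?_, ?_⟩
    · intro z hz
      rcases List.mem_cons.mp hz with rfl | hz
      · exact (k4 _ h3).1
      · exact k3 z hz
    · intro z hz
      have h6 := h5 z hz
      have h7 := k4 z h6.1
      exact ⟨h7.1, h7.2.trans h6.2⟩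

/-- Integral Hahn–Banach. -/
theorem exists_supp [Module.Finite ℤ H] {p : H → ℤ} (hp : Subl p) (x : H) :
    ∃ f : H →+ ℤ, (∀ y, f y ≤ p y) ∧ f x = p x := by
  obtain ⟨S, hS⟩ := Module.Finite.fg_top (R := ℤ) (M := H)
  obtain ⟨p₁, h1, h2, h3, h4, h5⟩ := exists_deriv hp x
  obtain ⟨p₂, k1, k2, k3, k4⟩ := exists_lin_list S.toList h1
  have hadd : ∀ z, LinAl p₂ z := by
    let T : AddSubgroup H :=
      { carrier := {z | LinAl p₂ z}
        add_mem' := by
          intro a b ha hb y
          rw [← add_assoc, hb, ha, hb, add_assoc]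
        zero_mem' := by
          intro y
          rw [add_zero, k1.zero, add_zero]
        neg_mem' := by
          intro a ha y
          have e1 := ha (y + -a)
          have e2 := ha (-a)
          rw [neg_add_cancel_right] at e1
          rw [neg_add_cancel, k1.zero] at e2
          linarith }
    have hT : Submodule.span ℤ (S : Set H) ≤ AddSubgroup.toIntSubmodule T := by
      rw [Submodule.span_le]
      intro z hz
      exact k3 z (Finset.mem_toList.mpr hz)
    intro z
    have : z ∈ Submodule.span ℤ (S : Set H) := by rw [hS]; trivial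
    exact hT this
  refine ⟨AddMonoidHom.mk' p₂ (fun a b => hadd b a), fun y => (k2 y).trans (h2 y), ?_⟩
  exact ((k4 x h3).2).trans h4

/-- Finiteness of the set of dominated functionals. -/
theorem finite_dominated [Module.Finite ℤ H] (p : H → ℤ) :
    {f : H →+ ℤ | ∀ y, f y ≤ p y}.Finite := by
  obtain ⟨S, hS⟩ := Module.Finite.fg_top (R := ℤ) (M := H)
  have hB : ({f : S → ℤ | ∀ s : S, f s ∈ Set.Icc (-p (-(s : H))) (p s)}).Finite :=
    Set.Finite.pi' fun s => Set.finite_Icc _ _
  have hinj : Set.InjOn (fun (f : H →+ ℤ) (s : S) => f s) {f : H →+ ℤ | ∀ y, f y ≤ p y} := by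
    intro f _ f' _ hff
    have h1 : Submodule.span ℤ (S : Set H) ≤
        LinearMap.eqLocus f.toIntLinearMap f'.toIntLinearMap := by
      rw [Submodule.span_le]
      intro z hz
      exact congrFun hff ⟨z, hz⟩
    ext z
    have : z ∈ Submodule.span ℤ (S : Set H) := by rw [hS]; trivial
    exact h1 this
  refine Set.Finite.of_finite_image (hB.subset ?_) hinj
  rintro _ ⟨f, hf, rfl⟩
  intro s
  constructor
  · have := hf (-(s : H))
    rw [map_neg] at this
    change -p (-(s : H)) ≤ f s
    linarith
  · exact hf _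

end Pool.Agent.Lib.MPf08bf1
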