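import Pool.Agent.Lib.MPf08bf1.Rank

/-!
The Ore localisation `U(G)` of `N(G)` and invertibility of full matrices.
-/

open scoped Matrix nonZeroDivisors

noncomputable section

namespace Pool.Agent.Lib.MPf08bf1

variable {G : Type} [Group G]

instance oreSet : OreLocalization.OreSet (nonZeroDivisors (vN G)) where
  ore_right_cancel r₁ r₂ s h := ⟨1, by
    have h1 : (r₁ - r₂) * (s : vN G) = 0 := by rw [sub_mul, h, sub_self]
    have h2 := (mem_nonZeroDivisors_iff.mp s.2).2 _ h1
    rw [sub_eq_zero.mp h2]⟩
  oreNum r s := (ore_cond r s.1 s.2).choose_spec.2.choose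
  oreDenom r s := ⟨(ore_cond r s.1 s.2).choose, (ore_cond r s.1 s.2).choose_spec.1⟩
  ore_eq r s := (ore_cond r s.1 s.2).choose_spec.2.choose_spec

/-- The ring `U(G)`: the Ore localisation of `N(G)` at its non-zero-divisors. -/
def UG (G : Type) [Group G] : Type := OreLocalization (nonZeroDivisors (vN G)) (vN G)

instance instRingUG (G : Type) [Group G] : Ring (UG G) :=
  inferInstanceAs (Ring (OreLocalization (nonZeroDivisors (vN G)) (vN G)))

/-- The embedding `N(G) → U(G)`. -/
def eta0 (G : Type) [Group G] :
    vN G →+* OreLocalization (nonZeroDivisors (vN G)) (vN G) where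
  toFun := OreLocalization.numeratorHom
  map_one' := map_one _
  map_mul' := map_mul _
  map_zero' := by
    rw [OreLocalization.numeratorHom_apply, OreLocalization.zero_def]
  map_add' a b := by
    rw [OreLocalization.numeratorHom_apply, OreLocalization.numeratorHom_apply,
      OreLocalization.numeratorHom_apply, OreLocalization.add_oreDiv]

/-- The embedding `N(G) → U(G)`. -/
def eta (G : Type) [Group G] : vN G →+* UG G := eta0 G

theorem eta_eq (a : vN G) : eta G a =
    (OreLocalization.numeratorHom a : OreLocalization (nonZeroDivisors (vN G)) (vN G)) := rfl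

theorem eta_injective : Function.Injective (eta G) := by
  intro a b h
  have hS : nonZeroDivisors (vN G) ≤ nonZeroDivisorsLeft (vN G) := fun s hs =>
    (mem_nonZeroDivisors_iff.mp hs).1
  rw [eta_eq, eta_eq] at h
  exact OreLocalization.numeratorHom_inj hS h

theorem eta_isUnit {s : vN G} (hs : s ∈ nonZeroDivisors (vN G)) : IsUnit (eta G s) := by
  rw [eta_eq]
  exact OreLocalization.numerator_isUnit (⟨s, hs⟩ : nonZeroDivisors (vN G))

theorem exists_denom (u : UG G) :
    ∃ s ∈ nonZeroDivisors (vN G), ∃ a : vN G, eta G s * u = eta G a := by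
  induction u using OreLocalization.ind with
  | _ r s =>
    refine ⟨s, s.2, r, ?_⟩
    rw [eta_eq, eta_eq, OreLocalization.numeratorHom_apply, OreLocalization.numeratorHom_apply]
    exact OreLocalization.mul_cancel

theorem exists_common_denom {ι : Type} (t : Finset ι) (u : ι → UG G) :
    ∃ s ∈ nonZeroDivisors (vN G), ∀ i ∈ t, ∃ a : vN G, eta G s * u i = eta G a := by
  classical
  induction t using Finset.induction_on with
  | empty => exact ⟨1, one_mem _, by simp⟩
  | insert j t hj ih =>
    obtain ⟨s, hs, h⟩ := ih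
    obtain ⟨s', hs', a', ha'⟩ := exists_denom (u j)
    obtain ⟨t', ht', b, hb⟩ := ore_cond s s' hs'
    refine ⟨t' * s, mul_mem ht' hs, ?_⟩
    intro i hi
    rcases Finset.mem_insert.mp hi with rfl | hi
    · refine ⟨b * a', ?_⟩
      rw [hb, map_mul, mul_assoc, ha', map_mul]
    · obtain ⟨a, ha⟩ := h i hi
      refine ⟨t' * a, ?_⟩
      rw [map_mul, mul_assoc, ha, map_mul]

theorem exists_denom_matrix {I J : Type} [Fintype I] [Fintype J] (M : Matrix I J (UG G)) :
    ∃ s ∈ nonZeroDivisors (vN G), ∃ A : Matrix I J (vN G),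
      ∀ i j, eta G s * M i j = eta G (A i j) := by
  obtain ⟨s, hs, h⟩ := exists_common_denom (Finset.univ : Finset (I × J)) (fun p => M p.1 p.2)
  choose a ha using fun (p : I × J) => h p (Finset.mem_univ _)
  exact ⟨s, hs, Matrix.of fun i j => a (i, j), fun i j => ha (i, j)⟩

theorem map_eta_injective {I J : Type} {A B : Matrix I J (vN G)}
    (h : A.map (eta G) = B.map (eta G)) : A = B := by
  ext1 i j
  exact eta_injective (congrFun (congrFun h i) j)

/-- Full rank matrices have no row kernel over `U(G)`. -/
theorem full_inj {I J K : Type} [Fintype I] [Fintype J] [Fintype K] (A : Matrix I J (vN G))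
    (hA : ∀ Z : Matrix K I (vN G), Z * A = 0 → Z = 0) (M : Matrix K I (UG G))
    (h : M * A.map (eta G) = 0) : M = 0 := by
  obtain ⟨s, hs, B, hB⟩ := exists_denom_matrix M
  have h1 : B * A = 0 := by
    apply map_eta_injective
    rw [Matrix.map_mul]
    ext1 i j
    have := congrFun (congrFun h i) j
    rw [Matrix.mul_apply] at this
    have h2 : eta G s * ∑ k, M i k * (A.map (eta G)) k j = 0 := by rw [this]; simp
    rw [Finset.mul_sum] at h2
    rw [Matrix.mul_apply]
    simp only [Matrix.map_apply, Matrix.zero_apply, map_zero]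
    rw [← h2]
    apply Finset.sum_congr rfl
    intro k _
    rw [← mul_assoc, hB, Matrix.map_apply]
  have h2 := hA _ h1
  ext1 i j
  have h3 := hB i j
  rw [h2] at h3
  simp only [Matrix.zero_apply, map_zero] at h3
  exact ((eta_isUnit hs).mul_right_eq_zero).mp h3

/-- Full square matrices over `N(G)` are invertible over `U(G)`. -/
theorem full_inv {I : Type} [Fintype I] [DecidableEq I] (A : Matrix I I (vN G))
    (hA : vrk A = Fintype.card I) :
    ∃ X : Matrix I I (UG G), X * A.map (eta G) = 1 ∧ A.map (eta G) * X = 1 := by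
  have h := fun i : I => ore_gen A hA (Matrix.of fun _ j => if i = j then 1 else 0)
  choose t ht Y hY using h
  let X : Matrix I I (UG G) := Matrix.of fun i j =>
    (↑(eta_isUnit (ht i)).unit⁻¹ : UG G) * eta G (Y i () j)
  have hX : X * A.map (eta G) = 1 := by
    ext1 i j
    rw [Matrix.mul_apply]
    have h1 : ∑ k, X i k * (A.map (eta G)) k j =
        (↑(eta_isUnit (ht i)).unit⁻¹ : UG G) * eta G ((Y i * A) () j) := by
      rw [Matrix.mul_apply, map_sum, Finset.mul_sum]
      apply Finset.sum_congr rfl
      intro k _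
      rw [map_mul, ← mul_assoc]
      rfl
    rw [h1, ← hY, Matrix.mul_apply]
    simp only [Finset.univ_unique, Finset.sum_singleton, sc, Matrix.of_apply]
    rw [Matrix.one_apply]
    split_ifs with hij
    · rw [mul_one]
      exact (eta_isUnit (ht i)).val_inv_mul
    · simp
  refine ⟨X, hX, ?_⟩
  have h2 : (1 - A.map (eta G) * X) * A.map (eta G) = 0 := by
    rw [Matrix.sub_mul, Matrix.one_mul, Matrix.mul_assoc, hX, Matrix.mul_one, sub_self]
  have h3 := full_inj A (fun Z hZ => eq_zero_of_full hA hZ) _ h2
  exact (sub_eq_zero.mp h3).symm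

theorem vrk_submatrix_le {I J I' J' : Type} [Fintype I] [Fintype J] [Fintype I'] [Fintype J']
    (A : Matrix I J (vN G)) (σ : I' → I) (τ : J' → J) : vrk (A.submatrix σ τ) ≤ vrk A := by
  classical
  have h : A.submatrix σ τ = ((1 : Matrix I I (vN G)).submatrix σ id) * A *
      ((1 : Matrix J J (vN G)).submatrix id τ) := by
    ext1 i j
    simp [Matrix.mul_apply, Matrix.one_apply]
  rw [h]
  exact le_trans (vrk_mul_le_left _ _) (vrk_mul_le_right _ _)

theorem vrk_submatrix_equiv {I J I' J' : Type} [Fintype I] [Fintype J] [Fintype I']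
    [Fintype J'] (A : Matrix I J (vN G)) (σ : I' ≃ I) (τ : J' ≃ J) :
    vrk (A.submatrix σ τ) = vrk A := by
  apply le_antisymm (vrk_submatrix_le _ _ _)
  have : A = (A.submatrix σ τ).submatrix σ.symm τ.symm := by ext1 i j; simp
  conv_lhs => rw [this]
  exact vrk_submatrix_le _ _ _

end Pool.Agent.Lib.MPf08bf1
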