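import Pool.Agent.Lib.MPf08bf1.Glue
import Pool.Agent.Lib.MPf08bf1.Norm

/-!
The polytope in `H_1(Γ; ℝ)`.
-/

open scoped ENNReal TensorProduct

noncomputable section

namespace Pool.Agent.Lib.MPf08bf1

theorem realForm_tmul {Γ : Type} [Group Γ] (φ : Γ →* Multiplicative ℤ) (r : ℝ)
    (a : Additive (Abelianization Γ)) : realForm φ (r ⊗ₜ a) = r * (abHom φ a : ℤ) := by
  unfold realForm
  rw [LinearMap.comp_apply, LinearMap.baseChange_tmul]
  change TensorProduct.AlgebraTensorModule.rid ℤ ℝ ℝ (r ⊗ₜ (abHom φ a)) = _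
  rw [TensorProduct.AlgebraTensorModule.rid_tmul, zsmul_eq_mul, mul_comm]

theorem realForm_of {Γ : Type} [Group Γ] (φ : Γ →* Multiplicative ℤ) (γ : Γ) :
    realForm φ (1 ⊗ₜ Additive.ofMul (Abelianization.of γ)) = ((φ γ).toAdd : ℝ) := by
  rw [realForm_tmul, one_mul]
  rfl

/-- Functionals on the dual of a finitely generated abelian group are evaluations. -/
theorem exists_eval {A : Type} [AddCommGroup A] [Module.Finite ℤ A]
    (f : Module.Dual ℤ A →+ ℤ) : ∃ a : A, ∀ h : Module.Dual ℤ A, f h = h a := by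
  let B := A ⧸ Submodule.torsion ℤ A
  let π : A →ₗ[ℤ] B := Submodule.mkQ _
  let f' : Module.Dual ℤ (Module.Dual ℤ B) := f.toIntLinearMap ∘ₗ π.dualMap
  obtain ⟨b, hb⟩ := (Module.evalEquiv ℤ B).surjective f'
  obtain ⟨a, ha⟩ := Submodule.mkQ_surjective _ b
  refine ⟨a, fun h => ?_⟩
  have hker : Submodule.torsion ℤ A ≤ LinearMap.ker h := by
    intro x hx
    rw [LinearMap.mem_ker]
    obtain ⟨c, hc⟩ := hx
    have h1 : (c : ℤ) • h x = 0 := by
      rw [← map_smul]
      have : (c : ℤ) • x = 0 := hc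
      rw [this, map_zero]
    exact (smul_eq_zero.mp h1).resolve_left (nonZeroDivisors.ne_zero c.2)
  let ψ : Module.Dual ℤ B := Submodule.liftQ _ h hker
  have h1 : f' ψ = ψ b := by
    rw [← hb, Module.evalEquiv_apply]
    rfl
  have h2 : π.dualMap ψ = h := by
    ext x
    rfl
  have h3 : f' ψ = f h := by
    change f (π.dualMap ψ) = f h
    rw [h2]
  have h4 : ψ b = h a := by
    rw [← ha]
    rfl
  rw [← h3, h1, h4]

section
variable {Γ : Type} [Group Γ]

/-- The homomorphism `Γ → ℤ` associated with a functional on `Γ^{ab}`. -/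
def homOf (h : Module.Dual ℤ (Additive (Abelianization Γ))) : Γ →* Multiplicative ℤ :=
  (AddMonoidHom.toMultiplicativeRight h.toAddMonoidHom).comp Abelianization.of

theorem vl_homOf (h : Module.Dual ℤ (Additive (Abelianization Γ))) (γ : Γ) :
    vl (homOf h) γ = h (Additive.ofMul (Abelianization.of γ)) := rfl

theorem homOf_add (h k : Module.Dual ℤ (Additive (Abelianization Γ))) :
    homOf (h + k) = homOf h * homOf k := by
  ext γ
  rfl

theorem homOf_abHom (φ : Γ →* Multiplicative ℤ) : homOf (abHom φ).toIntLinearMap = φ := by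
  ext γ
  rfl

theorem GenOn_one : GenOn ⊤ (1 : Γ →* Multiplicative ℤ) 0 :=
  ⟨fun a _ => by simp [vl], ⟨1, trivial, by simp [vl]⟩⟩

/-- Existence of the polytope. -/
theorem exists_polytope [Group.FG Γ] (β : Subgroup Γ → ℕ)
    (hβ : ∀ (φ₁ φ₂ : Γ →* Multiplicative ℤ) (m₁ m₂ m₃ : ℕ), GenOn ⊤ φ₁ m₁ → GenOn ⊤ φ₂ m₂ →
        GenOn ⊤ (φ₁ * φ₂) m₃ → m₃ * β (φ₁ * φ₂).ker ≤ m₁ * β φ₁.ker + m₂ * β φ₂.ker) :
    ∃ S : Finset (H1R Γ), S.Nonempty ∧ ∀ φ : Γ →* Multiplicative ℤ, Function.Surjective φ →
      IsThickness (realForm φ) (convexHull ℝ (S : Set (H1R Γ))) (β φ.ker) := by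
  classical
  let A := Additive (Abelianization Γ)
  have hfg : Group.FG (Abelianization Γ) := QuotientGroup.fg _
  have hAfin : Module.Finite ℤ A := Module.Finite.iff_addGroup_fg.mpr inferInstance
  let m : Module.Dual ℤ A → ℕ := fun h => (exists_genOn ⊤ (homOf h)).choose
  have hm : ∀ h, GenOn ⊤ (homOf h) (m h) := fun h => (exists_genOn ⊤ (homOf h)).choose_spec
  let p : Module.Dual ℤ A → ℤ := fun h => (m h : ℤ) * β (homOf h).ker
  -- scaling
  have hscale : ∀ (n : ℤ) (h : Module.Dual ℤ A), p (n • h) = |n| * p h := by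
    intro n h
    rcases eq_or_ne n 0 with rfl | hn
    · have h1 : m ((0 : ℤ) • h) = 0 := by
        apply (hm _).unique
        rw [zero_smul]
        exact GenOn_one
      change ((m ((0 : ℤ) • h) : ℕ) : ℤ) * _ = _
      rw [h1]
      simp
    · have hv : ∀ a, vl (homOf (n • h)) a = n * vl (homOf h) a := fun a => rfl
      have h1 : m (n • h) = n.natAbs * m h := by
        apply (hm _).unique
        refine ⟨?_, ?_⟩
        · intro a ha
          obtain ⟨c, hc⟩ := (hm h).dvd a ha
          rw [hv, hc, Nat.cast_mul]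
          have h3 : ((n.natAbs : ℕ) : ℤ) ∣ n := Int.natAbs_dvd.mpr dvd_rfl
          exact mul_dvd_mul h3 (Dvd.intro c rfl)
        · obtain ⟨a, -, ha⟩ := (hm h).att
          rcases Int.natAbs_eq n with h' | h'
          · exact ⟨a, trivial, by rw [hv, ha, Nat.cast_mul, ← h']⟩
          · refine ⟨a⁻¹, trivial, ?_⟩
            rw [hv, vl_inv, ha, Nat.cast_mul]
            have h4 : ((n.natAbs : ℕ) : ℤ) = -n := by omega
            rw [h4]
            ring
      have h2 : (homOf (n • h)).ker = (homOf h).ker := by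
        ext a
        rw [mem_ker_iff, mem_ker_iff, hv]
        constructor
        · intro h'; exact (mul_eq_zero.mp h').resolve_left hn
        · intro h'; rw [h', mul_zero]
      change ((m (n • h) : ℕ) : ℤ) * β (homOf (n • h)).ker = |n| * ((m h : ℤ) * β (homOf h).ker)
      rw [h1, h2, Int.abs_eq_natAbs]
      push_cast
      ring
  have hneg : ∀ h, p (-h) = p h := by
    intro h
    have := hscale (-1) h
    rw [neg_one_smul] at this
    simpa using this
  have hp : Subl p := by
    refine ⟨?_, ?_⟩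
    · intro h k
      have h1 := hβ (homOf h) (homOf k) (m h) (m k) (m (h + k)) (hm h) (hm k)
        (by rw [← homOf_add]; exact hm _)
      rw [← homOf_add] at h1
      change ((m (h + k) : ℕ) : ℤ) * β (homOf (h + k)).ker ≤
        (m h : ℤ) * β (homOf h).ker + (m k : ℤ) * β (homOf k).ker
      exact_mod_cast h1
    · intro n h
      have h1 := hscale n h
      rw [natCast_zsmul] at h1
      rw [h1]
      simp
  have hFfin := finite_dominated p
  choose pt hpt using fun f : Module.Dual ℤ A →+ ℤ => exists_eval f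
  let v : (Module.Dual ℤ A →+ ℤ) → H1R Γ := fun f => (1 / 2 : ℝ) ⊗ₜ pt f
  have hv : ∀ (φ : Γ →* Multiplicative ℤ) f, realForm φ (v f) =
      (1 / 2 : ℝ) * (f (abHom φ).toIntLinearMap : ℤ) := by
    intro φ f
    change realForm φ ((1 / 2 : ℝ) ⊗ₜ pt f) = _
    rw [realForm_tmul, hpt f]
    rfl
  refine ⟨hFfin.toFinset.image v, ?_, ?_⟩
  · obtain ⟨f, hf, -⟩ := exists_supp hp 0
    exact ⟨v f, Finset.mem_image_of_mem v (hFfin.mem_toFinset.mpr hf)⟩
  · intro φ hφ
    set h : Module.Dual ℤ A := (abHom φ).toIntLinearMap with hh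
    have hph : p h = β φ.ker := by
      change ((m h : ℕ) : ℤ) * β (homOf h).ker = _
      have h1 : homOf h = φ := homOf_abHom φ
      have h2 : m h = 1 := by
        apply (hm h).unique
        rw [h1]
        refine ⟨fun a _ => by simp, ?_⟩
        obtain ⟨t, ht⟩ := hφ (Multiplicative.ofAdd 1)
        exact ⟨t, trivial, by unfold vl; rw [ht]; rfl⟩
      rw [h1, h2]
      simp
    constructor
    · obtain ⟨f, hf, hfx⟩ := exists_supp hp h
      obtain ⟨f', hf', hfx'⟩ := exists_supp hp (-h)
      refine ⟨v f, subset_convexHull ℝ _ ?_, v f', subset_convexHull ℝ _ ?_, ?_⟩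
      · exact Finset.mem_coe.mpr (Finset.mem_image_of_mem v (hFfin.mem_toFinset.mpr hf))
      · exact Finset.mem_coe.mpr (Finset.mem_image_of_mem v (hFfin.mem_toFinset.mpr hf'))
      · rw [hv, hv, ← hh, hfx, hph]
        have h3 : f' h = -(β φ.ker : ℤ) := by
          rw [map_neg, hneg, hph] at hfx'
          linarith
        rw [h3]
        push_cast
        ring
    · rintro s ⟨x, hx, y, hy, rfl⟩
      have hup : ∀ x ∈ convexHull ℝ ((hFfin.toFinset.image v : Finset (H1R Γ)) : Set (H1R Γ)),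
          realForm φ x ≤ (1 / 2 : ℝ) * β φ.ker := by
        intro x hx
        have hsub : ((hFfin.toFinset.image v : Finset (H1R Γ)) : Set (H1R Γ)) ⊆
            {x | realForm φ x ≤ (1 / 2 : ℝ) * β φ.ker} := by
          intro z hz
          obtain ⟨f, hf, rfl⟩ := Finset.mem_image.mp (Finset.mem_coe.mp hz)
          rw [Set.mem_ofPred_eq, hv, ← hh]
          have h1 := (hFfin.mem_toFinset.mp hf) h
          rw [hph] at h1
          have h2 : ((f h : ℤ) : ℝ) ≤ (β φ.ker : ℝ) := by exact_mod_cast h1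
          linarith
        exact convexHull_min hsub (convex_halfSpace_le (realForm φ).isLinear _) hx
      have hlo : ∀ x ∈ convexHull ℝ ((hFfin.toFinset.image v : Finset (H1R Γ)) : Set (H1R Γ)),
          -((1 / 2 : ℝ) * β φ.ker) ≤ realForm φ x := by
        intro x hx
        have hsub : ((hFfin.toFinset.image v : Finset (H1R Γ)) : Set (H1R Γ)) ⊆
            {x | -((1 / 2 : ℝ) * β φ.ker) ≤ realForm φ x} := by
          intro z hz
          obtain ⟨f, hf, rfl⟩ := Finset.mem_image.mp (Finset.mem_coe.mp hz)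
          rw [Set.mem_ofPred_eq, hv, ← hh]
          have h1 := (hFfin.mem_toFinset.mp hf) (-h)
          rw [hneg, hph, map_neg] at h1
          have h2 : -((f h : ℤ) : ℝ) ≤ (β φ.ker : ℝ) := by exact_mod_cast h1
          linarith
        exact convexHull_min hsub (convex_halfSpace_ge (realForm φ).isLinear _) hx
      have h1 := hup x hx
      have h2 := hlo y hy
      linarith

end

end Pool.Agent.Lib.MPf08bf1
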