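import Mathlib

/-!
Strong convergence of `(1 - T*T)^k` to the projection onto `ker T`, for a contraction `T`.
-/

open scoped InnerProductSpace Topology
open Filter

noncomputable section

namespace Pool.Agent.Lib.MPf08bf1

variable {E F : Type} [NormedAddCommGroup E] [InnerProductSpace ℂ E] [CompleteSpace E]
  [NormedAddCommGroup F] [InnerProductSpace ℂ F] [CompleteSpace F]

/-- `1 - T* T`. -/
def bop (T : E →L[ℂ] F) : E →L[ℂ] E :=
  ContinuousLinearMap.id ℂ E - (ContinuousLinearMap.adjoint T) ∘L T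

theorem bop_apply (T : E →L[ℂ] F) (x : E) :
    bop T x = x - (ContinuousLinearMap.adjoint T) (T x) := rfl

theorem bop_symm (T : E →L[ℂ] F) (x y : E) : ⟪bop T x, y⟫_ℂ = ⟪x, bop T y⟫_ℂ := by
  rw [bop_apply, bop_apply, inner_sub_left, inner_sub_right,
    ContinuousLinearMap.adjoint_inner_left, ContinuousLinearMap.adjoint_inner_right]

theorem bop_pow_symm (T : E →L[ℂ] F) (k : ℕ) (x y : E) :
    ⟪((bop T) ^ k) x, y⟫_ℂ = ⟪x, ((bop T) ^ k) y⟫_ℂ := by
  induction k generalizing x y with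
  | zero => simp
  | succ k ih =>
    rw [pow_succ]
    change ⟪((bop T) ^ k) (bop T x), y⟫_ℂ = ⟪x, ((bop T) ^ k) (bop T y)⟫_ℂ
    rw [ih, bop_symm]
    have : bop T (((bop T) ^ k) y) = ((bop T) ^ k) (bop T y) := by
      have h := (Commute.refl (bop T)).pow_right k
      exact congrArg (fun S : E →L[ℂ] E => S y) h.eq
    rw [this]

theorem bop_inner_step (T : E →L[ℂ] F) (hT : ‖T‖ ≤ 1) (y : E) :
    (⟪bop T y, y⟫_ℂ).re ≤ ‖y‖ ^ 2 ∧ (⟪bop T (bop T y), y⟫_ℂ).re ≤ (⟪bop T y, y⟫_ℂ).re := by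
  have h1 : ⟪(ContinuousLinearMap.adjoint T) (T y), y⟫_ℂ = (‖T y‖ ^ 2 : ℝ) := by
    rw [ContinuousLinearMap.adjoint_inner_left, inner_self_eq_norm_sq_to_K]
    norm_cast
  have h2 : ⟪y, y⟫_ℂ = (‖y‖ ^ 2 : ℝ) := by
    rw [inner_self_eq_norm_sq_to_K]
    norm_cast
  constructor
  · rw [bop_apply, inner_sub_left, h1, h2, Complex.sub_re, Complex.ofReal_re, Complex.ofReal_re]
    nlinarith [sq_nonneg ‖T y‖]
  · have h3 : ⟪bop T (bop T y), y⟫_ℂ = ⟪bop T y, bop T y⟫_ℂ := bop_symm T _ _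
    have h4 : ⟪bop T y, bop T y⟫_ℂ = ⟪bop T y, y⟫_ℂ -
        ⟪bop T y, (ContinuousLinearMap.adjoint T) (T y)⟫_ℂ := by
      conv_lhs => rw [bop_apply T y, inner_sub_right, ← bop_apply T y]
    have h5 : ⟪bop T y, (ContinuousLinearMap.adjoint T) (T y)⟫_ℂ =
        ((‖T y‖ ^ 2 - ‖(ContinuousLinearMap.adjoint T) (T y)‖ ^ 2 : ℝ) : ℂ) := by
      rw [bop_apply, inner_sub_left, inner_self_eq_norm_sq_to_K,
        ContinuousLinearMap.adjoint_inner_right, inner_self_eq_norm_sq_to_K]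
      push_cast
      rfl
    rw [h3, h4, h5, Complex.sub_re, Complex.ofReal_re]
    have h6 : ‖(ContinuousLinearMap.adjoint T) (T y)‖ ≤ ‖T y‖ := by
      calc ‖(ContinuousLinearMap.adjoint T) (T y)‖ ≤ ‖ContinuousLinearMap.adjoint T‖ * ‖T y‖ :=
            ContinuousLinearMap.le_opNorm _ _
        _ ≤ 1 * ‖T y‖ := by
            apply mul_le_mul_of_nonneg_right _ (norm_nonneg _)
            rw [LinearIsometryEquiv.norm_map]
            exact hT
        _ = ‖T y‖ := one_mul _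
    nlinarith [norm_nonneg ((ContinuousLinearMap.adjoint T) (T y)), norm_nonneg (T y)]

/-- The quadratic form of `(1-T*T)^k`. -/
def qf (T : E →L[ℂ] F) (x : E) (k : ℕ) : ℝ := (⟪((bop T) ^ k) x, x⟫_ℂ).re

theorem bop_pow_add (T : E →L[ℂ] F) (x : E) (k l : ℕ) :
    ((bop T) ^ (k + l)) x = ((bop T) ^ k) (((bop T) ^ l) x) := by
  rw [pow_add]; rfl

theorem qf_inner (T : E →L[ℂ] F) (x : E) (k l : ℕ) :
    (⟪((bop T) ^ k) x, ((bop T) ^ l) x⟫_ℂ).re = qf T x (k + l) := by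
  unfold qf
  rw [← bop_pow_symm, ← bop_pow_add, add_comm l k]

theorem qf_even (T : E →L[ℂ] F) (x : E) (k : ℕ) :
    qf T x (2 * k) = ‖((bop T) ^ k) x‖ ^ 2 := by
  rw [two_mul, ← qf_inner, inner_self_eq_norm_sq_to_K]
  norm_cast

theorem qf_step (T : E →L[ℂ] F) (hT : ‖T‖ ≤ 1) (x : E) (k : ℕ) :
    qf T x (k + 1) ≤ qf T x k := by
  rcases Nat.even_or_odd k with ⟨i, hi⟩ | ⟨i, hi⟩
  · have h1 : qf T x (k + 1) = (⟪bop T (((bop T) ^ i) x), ((bop T) ^ i) x⟫_ℂ).re := by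
      rw [show k + 1 = (1 + i) + i by omega, ← qf_inner, bop_pow_add, pow_one]
    have h2 : qf T x k = ‖((bop T) ^ i) x‖ ^ 2 := by
      rw [show k = 2 * i by omega, qf_even]
    rw [h1, h2]
    exact (bop_inner_step T hT _).1
  · have h1 : qf T x (k + 1) =
        (⟪bop T (bop T (((bop T) ^ i) x)), ((bop T) ^ i) x⟫_ℂ).re := by
      rw [show k + 1 = (1 + (1 + i)) + i by omega, ← qf_inner, bop_pow_add, bop_pow_add, pow_one]
    have h2 : qf T x k = (⟪bop T (((bop T) ^ i) x), ((bop T) ^ i) x⟫_ℂ).re := by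
      rw [show k = (1 + i) + i by omega, ← qf_inner, bop_pow_add, pow_one]
    rw [h1, h2]
    exact (bop_inner_step T hT _).2

theorem qf_antitone (T : E →L[ℂ] F) (hT : ‖T‖ ≤ 1) (x : E) : Antitone (qf T x) :=
  antitone_nat_of_succ_le (qf_step T hT x)

theorem qf_nonneg (T : E →L[ℂ] F) (hT : ‖T‖ ≤ 1) (x : E) (k : ℕ) : 0 ≤ qf T x k := by
  have h := qf_antitone T hT x (show k ≤ 2 * k by omega)
  rw [qf_even] at h
  exact le_trans (sq_nonneg _) h

theorem qf_diff (T : E →L[ℂ] F) (x : E) (k l : ℕ) :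
    ‖((bop T) ^ k) x - ((bop T) ^ l) x‖ ^ 2 =
      qf T x (2 * k) - 2 * qf T x (k + l) + qf T x (2 * l) := by
  rw [@norm_sub_sq ℂ, qf_even, qf_even, ← qf_inner]
  rfl

theorem bop_pow_cauchy (T : E →L[ℂ] F) (hT : ‖T‖ ≤ 1) (x : E) :
    CauchySeq (fun k : ℕ => ((bop T) ^ k) x) := by
  have hlim := tendsto_atTop_ciInf (qf_antitone T hT x)
    ⟨0, by rintro _ ⟨k, rfl⟩; exact qf_nonneg T hT x k⟩
  have hle : ∀ k, (⨅ i, qf T x i) ≤ qf T x k := fun k =>
    ciInf_le ⟨0, by rintro _ ⟨k, rfl⟩; exact qf_nonneg T hT x k⟩ k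
  rw [Metric.cauchySeq_iff]
  intro ε hε
  have h2 : ∀ᶠ k in atTop, qf T x k < (⨅ i, qf T x i) + ε ^ 2 / 2 := by
    apply hlim.eventually_lt_const
    have : 0 < ε ^ 2 := by positivity
    linarith
  obtain ⟨N, hN⟩ := h2.exists
  refine ⟨N, fun k hk l hl => ?_⟩
  rw [dist_eq_norm]
  have h3 : ‖((bop T) ^ k) x - ((bop T) ^ l) x‖ ^ 2 < ε ^ 2 := by
    rw [qf_diff]
    have a1 := qf_antitone T hT x (show N ≤ 2 * k by omega)
    have a2 := qf_antitone T hT x (show N ≤ 2 * l by omega)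
    have a3 := hle (k + l)
    linarith
  exact lt_of_pow_lt_pow_left₀ 2 hε.le h3

theorem bop_pow_tendsto (T : E →L[ℂ] F) (hT : ‖T‖ ≤ 1) (x : E) :
    Tendsto (fun k : ℕ => ((bop T) ^ k) x) atTop
      (𝓝 ((LinearMap.ker (T : E →ₗ[ℂ] F)).starProjection x)) := by
  obtain ⟨y, hy⟩ := cauchySeq_tendsto_of_complete (bop_pow_cauchy T hT x)
  have hBy : bop T y = y := by
    have h1 : Tendsto (fun k : ℕ => bop T (((bop T) ^ k) x)) atTop (𝓝 (bop T y)) :=
      ((bop T).continuous.tendsto y).comp hy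
    have h2 : Tendsto (fun k : ℕ => ((bop T) ^ (k + 1)) x) atTop (𝓝 y) :=
      hy.comp (tendsto_add_atTop_nat 1)
    have h3 : (fun k : ℕ => bop T (((bop T) ^ k) x)) = fun k : ℕ => ((bop T) ^ (k + 1)) x := by
      ext k
      rw [add_comm, bop_pow_add, pow_one]
    rw [h3] at h1
    exact tendsto_nhds_unique h1 h2
  have hTy : T y = 0 := by
    have h1 : (ContinuousLinearMap.adjoint T) (T y) = 0 := by
      rw [bop_apply] at hBy
      exact sub_eq_self.mp hBy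
    have h2 : ⟪T y, T y⟫_ℂ = 0 := by
      rw [← ContinuousLinearMap.adjoint_inner_left, h1, inner_zero_left]
    exact inner_self_eq_zero.mp h2
  have hP : (LinearMap.ker (T : E →ₗ[ℂ] F)).starProjection x = y := by
    apply Submodule.eq_starProjection_of_mem_of_inner_eq_zero
    · exact hTy
    · intro w hw
      have hw' : T w = 0 := hw
      have hBw : ∀ k : ℕ, ((bop T) ^ k) w = w := by
        intro k
        induction k with
        | zero => rfl
        | succ k ih =>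
          rw [pow_succ]
          change ((bop T) ^ k) (bop T w) = w
          rw [bop_apply, hw', map_zero, sub_zero, ih]
      have h1 : Tendsto (fun k : ℕ => ⟪x - ((bop T) ^ k) x, w⟫_ℂ) atTop (𝓝 ⟪x - y, w⟫_ℂ) := by
        apply Tendsto.inner (tendsto_const_nhds.sub hy) tendsto_const_nhds
      have h2 : (fun k : ℕ => ⟪x - ((bop T) ^ k) x, w⟫_ℂ) = fun _ => 0 := by
        ext k
        rw [inner_sub_left, bop_pow_symm, hBw, sub_self]
      rw [h2] at h1
      exact (tendsto_nhds_unique h1 tendsto_const_nhds)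
  rw [hP]
  exact hy

end Pool.Agent.Lib.MPf08bf1
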