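import Pool.Agent.Lib.MPf08bf1.Supp

/-!
Algebraic properties of the rank of matrices over `N(G)`.
-/

open scoped ENNReal Matrix

noncomputable section

namespace Pool.Agent.Lib.MPf08bf1

variable {G : Type} [Group G]

section
variable {I J K L : Type} [Fintype I] [Fintype J] [Fintype K] [Fintype L]

theorem vrk_nonneg (A : Matrix I J (vN G)) : 0 ≤ vrk A := by
  classical
  rw [vrk_eq]; exact rtr_proj_nonneg (LP_isProj A)

theorem vrk_le_card (A : Matrix I J (vN G)) : vrk A ≤ Fintype.card I := by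
  classical
  have h := rtr_proj_nonneg (LP_isProj A).one_sub
  rw [rtr_sub, rtr_one, ← vrk_eq] at h
  linarith

theorem vrk_le_card' (A : Matrix I J (vN G)) : vrk A ≤ Fintype.card J := by
  rw [← vrk_conj]; exact vrk_le_card _

/-- Comparison of row kernels. -/
theorem LP_mul_LP [DecidableEq I] (A : Matrix I J (vN G)) (B : Matrix I K (vN G))
    (h : ∀ Z : Matrix I I (vN G), Z * A = 0 → Z * B = 0) : LP A * LP B = LP B := by
  have h1 : (1 - LP A) * A = 0 := by rw [Matrix.sub_mul, Matrix.one_mul, LP_mul, sub_self]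
  have h2 := mul_LP_eq_zero B _ (h _ h1)
  rw [Matrix.sub_mul, Matrix.one_mul] at h2
  exact (sub_eq_zero.mp h2).symm

theorem vrk_le_of_ker (A : Matrix I J (vN G)) (B : Matrix I K (vN G))
    (h : ∀ Z : Matrix I I (vN G), Z * A = 0 → Z * B = 0) : vrk B ≤ vrk A := by
  classical
  rw [vrk_eq, vrk_eq]
  exact rtr_le_of_mul_eq (LP_isProj A) (LP_isProj B) (LP_mul_LP A B h)

theorem LP_eq_of_ker [DecidableEq I] (A : Matrix I J (vN G)) (B : Matrix I K (vN G))
    (h : ∀ Z : Matrix I I (vN G), Z * A = 0 ↔ Z * B = 0) : LP A = LP B := by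
  have h1 := LP_mul_LP A B (fun Z => (h Z).mp)
  have h2 := LP_mul_LP B A (fun Z => (h Z).mpr)
  have h3 := congrArg Matrix.conjTranspose h2
  rw [Matrix.conjTranspose_mul, (LP_isProj A).1, (LP_isProj B).1] at h3
  rw [← h3, h1]

theorem vrk_mul_le_left (A : Matrix I J (vN G)) (B : Matrix J K (vN G)) :
    vrk (A * B) ≤ vrk A :=
  vrk_le_of_ker A (A * B) (fun Z hZ => by rw [← Matrix.mul_assoc, hZ, Matrix.zero_mul])

theorem vrk_mul_le_right (A : Matrix I J (vN G)) (B : Matrix J K (vN G)) :
    vrk (A * B) ≤ vrk B := by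
  rw [← vrk_conj (A * B), ← vrk_conj B, Matrix.conjTranspose_mul]
  exact vrk_mul_le_left _ _

theorem LP_proj [DecidableEq I] {P : Matrix I I (vN G)} (hP : IsProj P) : LP P = P := by
  have h1 : (1 - P) * P = 0 := by rw [Matrix.sub_mul, Matrix.one_mul, hP.2, sub_self]
  have h2 := mul_LP_eq_zero P _ h1
  rw [Matrix.sub_mul, Matrix.one_mul] at h2
  have h3 := congrArg Matrix.conjTranspose (LP_mul P)
  rw [Matrix.conjTranspose_mul, (LP_isProj P).1, hP.1] at h3
  rw [sub_eq_zero.mp h2, h3]

theorem vrk_proj {P : Matrix I I (vN G)} (hP : IsProj P) : vrk P = rtr P := by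
  classical
  rw [vrk_eq, LP_proj hP]

/-- For idempotents, the trace is the rank. -/
theorem rtr_idem {e : Matrix I I (vN G)} (he : e * e = e) : rtr e = vrk e := by
  classical
  rw [vrk_eq]
  have h1 : (1 - e) * e = 0 := by rw [Matrix.sub_mul, Matrix.one_mul, he, sub_self]
  have h2 := mul_LP_eq_zero e _ h1
  rw [Matrix.sub_mul, Matrix.one_mul] at h2
  conv_lhs => rw [← LP_mul e]
  rw [rtr_mul_comm, ← sub_eq_zero.mp h2]

theorem mul_RP [DecidableEq J] (A : Matrix I J (vN G)) : A * LP Aᴴ = A := by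
  have h := congrArg Matrix.conjTranspose (LP_mul Aᴴ)
  rwa [Matrix.conjTranspose_mul, Matrix.conjTranspose_conjTranspose, (LP_isProj _).1] at h

theorem RP_mul_eq_zero [DecidableEq J] (A : Matrix I J (vN G)) (Z : Matrix J K (vN G))
    (h : A * Z = 0) : LP Aᴴ * Z = 0 := by
  have h1 : Zᴴ * Aᴴ = 0 := by rw [← Matrix.conjTranspose_mul, h, Matrix.conjTranspose_zero]
  have h2 := mul_LP_eq_zero Aᴴ _ h1
  have h3 := congrArg Matrix.conjTranspose h2
  rwa [Matrix.conjTranspose_mul, Matrix.conjTranspose_conjTranspose, (LP_isProj _).1,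
    Matrix.conjTranspose_zero] at h3

theorem vrk_add_le_of_mul_eq_zero (X : Matrix K I (vN G)) (Y : Matrix I J (vN G))
    (h : X * Y = 0) : vrk X + vrk Y ≤ Fintype.card I := by
  classical
  have h1 := mul_LP_eq_zero Y X h
  have h2 := RP_mul_eq_zero X _ h1
  have h3 : LP Y * LP Xᴴ = 0 := by
    have := congrArg Matrix.conjTranspose h2
    rwa [Matrix.conjTranspose_mul, (LP_isProj _).1, (LP_isProj _).1,
      Matrix.conjTranspose_zero] at this
  have h4 := rtr_le_of_mul_eq (LP_isProj Y).one_sub (LP_isProj Xᴴ)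
    (by rw [Matrix.sub_mul, Matrix.one_mul, h3, sub_zero])
  rw [rtr_sub, rtr_one, ← vrk_eq, ← vrk_eq, vrk_conj] at h4
  linarith

theorem eq_zero_of_mul_conj {M : Matrix I J (vN G)} (h : M * Mᴴ = 0) : M = 0 := by
  have h1 : toOp Mᴴ = 0 := by
    ext1 f
    have h2 : inner ℂ (toOp Mᴴ f) (toOp Mᴴ f) = 0 := by
      conv_lhs => rw [toOp_conjTranspose]
      rw [ContinuousLinearMap.adjoint_inner_left, ← toOp_conjTranspose]
      have : toOp M (toOp Mᴴ f) = toOp (M * Mᴴ) f := by rw [toOp_mul]; rfl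
      rw [this, h, toOp_zero]
      simp
    exact inner_self_eq_zero.mp h2
  have h3 : Mᴴ = 0 := toOp_injective (by rw [h1, toOp_zero])
  rw [← Matrix.conjTranspose_conjTranspose M, h3, Matrix.conjTranspose_zero]

theorem vrk_mul_conj (A : Matrix I J (vN G)) : vrk (A * Aᴴ) = vrk A := by
  apply le_antisymm (vrk_mul_le_left _ _)
  apply vrk_le_of_ker
  intro Z hZ
  apply eq_zero_of_mul_conj
  rw [Matrix.conjTranspose_mul, Matrix.mul_assoc, ← Matrix.mul_assoc A, ← Matrix.mul_assoc Z,
    hZ, Matrix.zero_mul]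

theorem vrk_conj_mul (A : Matrix I J (vN G)) : vrk (Aᴴ * A) = vrk A := by
  have := vrk_mul_conj Aᴴ
  rwa [Matrix.conjTranspose_conjTranspose, vrk_conj] at this

/-- Full row rank means trivial row kernel. -/
theorem eq_zero_of_full {A : Matrix I J (vN G)} (hA : vrk A = Fintype.card I)
    {Z : Matrix K I (vN G)} (h : Z * A = 0) : Z = 0 := by
  classical
  have h1 : LP A = 1 := by
    have := (LP_isProj A).one_sub
    have h2 := rtr_proj_eq_zero this (by rw [rtr_sub, rtr_one, ← vrk_eq, hA, sub_self])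
    exact (sub_eq_zero.mp h2).symm
  have h2 := mul_LP_eq_zero A Z h
  rwa [h1, Matrix.mul_one] at h2

theorem full_of_ker {A : Matrix I J (vN G)}
    (h : ∀ Z : Matrix I I (vN G), Z * A = 0 → Z = 0) : vrk A = Fintype.card I := by
  classical
  have h1 : (1 - LP A) * A = 0 := by rw [Matrix.sub_mul, Matrix.one_mul, LP_mul, sub_self]
  have h2 := sub_eq_zero.mp (h _ h1)
  rw [vrk_eq, ← h2, rtr_one]

theorem eq_zero_of_full' {A : Matrix I J (vN G)} (hA : vrk A = Fintype.card J)
    {Z : Matrix J K (vN G)} (h : A * Z = 0) : Z = 0 := by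
  have h1 : Zᴴ * Aᴴ = 0 := by rw [← Matrix.conjTranspose_mul, h, Matrix.conjTranspose_zero]
  have h2 := eq_zero_of_full (by rw [vrk_conj, hA]) h1
  rw [← Matrix.conjTranspose_conjTranspose Z, h2, Matrix.conjTranspose_zero]

theorem full_of_ker' {A : Matrix I J (vN G)}
    (h : ∀ Z : Matrix J J (vN G), A * Z = 0 → Z = 0) : vrk A = Fintype.card J := by
  rw [← vrk_conj]
  apply full_of_ker
  intro Z hZ
  have h1 : A * Zᴴ = 0 := by
    have := congrArg Matrix.conjTranspose hZ
    rwa [Matrix.conjTranspose_mul, Matrix.conjTranspose_conjTranspose,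
      Matrix.conjTranspose_zero] at this
  have h2 := h _ h1
  rw [← Matrix.conjTranspose_conjTranspose Z, h2, Matrix.conjTranspose_zero]

/-- The nullity projection. -/
theorem one_sub_LP_mul [DecidableEq I] (A : Matrix I J (vN G)) : (1 - LP A) * A = 0 := by
  rw [Matrix.sub_mul, Matrix.one_mul, LP_mul, sub_self]

theorem mul_one_sub_LP [DecidableEq I] (A : Matrix I J (vN G)) (Z : Matrix K I (vN G)) :
    Z * A = 0 ↔ Z * (1 - LP A) = Z := by
  rw [mul_LP_eq_zero_iff, Matrix.mul_sub, Matrix.mul_one, sub_eq_self]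

theorem rtr_one_sub_LP [DecidableEq I] (A : Matrix I J (vN G)) :
    rtr (1 - LP A) = Fintype.card I - vrk A := by
  rw [rtr_sub, rtr_one, ← vrk_eq]

/-- If the coordinates `c` are injective on the rows `N^I e`, then `rk (e c) = tr e`. -/
theorem vrk_mul_of_inj {e : Matrix I I (vN G)} (he : IsProj e) (c : Matrix I J (vN G))
    (h : ∀ Z : Matrix I I (vN G), Z * e * c = 0 → Z * e = 0) : vrk (e * c) = rtr e := by
  rw [← vrk_proj he]
  apply le_antisymm (vrk_mul_le_left _ _)
  apply vrk_le_of_ker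
  intro Z hZ
  exact h Z (by rw [Matrix.mul_assoc]; exact hZ)

theorem vrk_corner_of_inj {e : Matrix I I (vN G)} (he : IsProj e) (c : Matrix I J (vN G))
    (h : ∀ Z : Matrix I I (vN G), Z * e * c = 0 → Z * e = 0) : vrk (cᴴ * e * c) = rtr e := by
  rw [← vrk_mul_of_inj he c h, ← vrk_conj_mul (e * c), Matrix.conjTranspose_mul, he.1,
    Matrix.mul_assoc cᴴ e (e * c), ← Matrix.mul_assoc e e c, he.2, Matrix.mul_assoc]

end

/-- A `1 × 1` matrix. -/
def sc (a : vN G) : Matrix Unit Unit (vN G) := Matrix.of fun _ _ => a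

theorem sc_mul (a b : vN G) : sc a * sc b = sc (a * b) := by
  ext1 i j
  simp [sc, Matrix.mul_apply]

theorem sc_zero : sc (0 : vN G) = 0 := by ext1 i j; rfl

theorem sc_inj {a b : vN G} (h : sc a = sc b) : a = b := congrFun (congrFun h ()) ()

theorem sc_of (A : Matrix Unit Unit (vN G)) : sc (A () ()) = A := by ext1 i j; rfl

theorem regular_iff (s : vN G) :
    s ∈ nonZeroDivisors (vN G) ↔ vrk (sc s) = 1 := by
  constructor
  · intro hs
    have := full_of_ker (A := sc s) (fun Z hZ => by
      rw [← sc_of Z] at hZ ⊢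
      rw [sc_mul] at hZ
      have h1 : Z () () * s = 0 := sc_inj (hZ.trans sc_zero.symm)
      rw [(mem_nonZeroDivisors_iff.mp hs).2 _ h1, sc_zero])
    simpa using this
  · intro hs
    rw [mem_nonZeroDivisors_iff]
    constructor
    · intro z hz
      have h1 : sc s * sc z = 0 := by rw [sc_mul, hz, sc_zero]
      exact sc_inj ((eq_zero_of_full' (by simpa using hs) h1).trans sc_zero.symm)
    · intro z hz
      have h1 : sc z * sc s = 0 := by rw [sc_mul, hz, sc_zero]
      exact sc_inj ((eq_zero_of_full (by simpa using hs) h1).trans sc_zero.symm)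

/-- Generalised left Ore condition. -/
theorem ore_gen {I : Type} [Fintype I] (A : Matrix I I (vN G))
    (hA : vrk A = Fintype.card I) (R : Matrix Unit I (vN G)) :
    ∃ t ∈ nonZeroDivisors (vN G), ∃ Y : Matrix Unit I (vN G), sc t * R = Y * A := by
  classical
  set B : Matrix (Unit ⊕ I) I (vN G) := Matrix.fromRows R (-A) with hB
  have hBrk : vrk B = Fintype.card I := by
    apply full_of_ker'
    intro Z hZ
    rw [hB, Matrix.fromRows_mul] at hZ
    have h2 : -A * Z = 0 := by
      ext1 i j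
      have := congrFun (congrFun hZ (Sum.inr i)) j
      simpa using this
    rw [Matrix.neg_mul, neg_eq_zero] at h2
    exact eq_zero_of_full' hA h2
  set e := 1 - LP B with he
  have heP : IsProj e := (LP_isProj B).one_sub
  have htr : rtr e = 1 := by
    rw [he, rtr_one_sub_LP, hBrk]
    simp
  set c : Matrix (Unit ⊕ I) Unit (vN G) := Matrix.fromRows 1 0 with hc
  have hinj : ∀ Z : Matrix (Unit ⊕ I) (Unit ⊕ I) (vN G), Z * e * c = 0 → Z * e = 0 := by
    intro Z hZ
    set W := Z * e with hW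
    have hWB : W * B = 0 := by rw [hW, Matrix.mul_assoc, he, one_sub_LP_mul, Matrix.mul_zero]
    have hW1 : ∀ i, W i (Sum.inl ()) = 0 := by
      intro i
      have := congrFun (congrFun hZ i) ()
      rw [Matrix.mul_apply] at this
      simpa [hc, Fintype.sum_sum_type] using this
    have hW2 : W.toCols₂ * A = 0 := by
      ext1 i j
      have := congrFun (congrFun hWB i) j
      rw [Matrix.mul_apply, Fintype.sum_sum_type] at this
      simp only [Finset.univ_unique, Finset.sum_singleton, hB, Matrix.fromRows_apply_inr,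
        Matrix.neg_apply, mul_neg, Finset.sum_neg_distrib, Matrix.zero_apply] at this
      have hh : W i (Sum.inl default) = 0 := hW1 i
      rw [hh, zero_mul, zero_add, neg_eq_zero] at this
      rw [Matrix.mul_apply]
      simpa [Matrix.toCols₂] using this
    have hW3 := eq_zero_of_full hA hW2
    ext1 i j
    rcases j with j | j
    · exact hW1 i
    · exact congrFun (congrFun hW3 i) j
  have hcorner := vrk_corner_of_inj heP c hinj
  rw [htr] at hcorner
  refine ⟨e (Sum.inl ()) (Sum.inl ()), ?_, Matrix.of fun _ j => e (Sum.inl ()) (Sum.inr j), ?_⟩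
  · rw [regular_iff]
    convert hcorner using 2
    ext1 i j
    simp [sc, hc, Matrix.mul_apply, Fintype.sum_sum_type, Matrix.conjTranspose_fromRows_eq_fromCols_conjTranspose]
  · have heB : e * B = 0 := by rw [he, one_sub_LP_mul]
    ext1 i j
    have := congrFun (congrFun heB (Sum.inl ())) j
    rw [Matrix.mul_apply, Fintype.sum_sum_type] at this
    simp only [Finset.univ_unique, Finset.sum_singleton, hB, Matrix.fromRows_apply_inr,
      Matrix.fromRows_apply_inl, Matrix.neg_apply, mul_neg, Finset.sum_neg_distrib,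
      Matrix.zero_apply] at this
    rw [Matrix.mul_apply, Matrix.mul_apply]
    simp only [Finset.univ_unique, Finset.sum_singleton, sc, Matrix.of_apply]
    exact add_neg_eq_zero.mp this

/-- The left Ore condition for `N(G)`. -/
theorem ore_cond (a s : vN G) (hs : s ∈ nonZeroDivisors (vN G)) :
    ∃ t ∈ nonZeroDivisors (vN G), ∃ b : vN G, t * a = b * s := by
  obtain ⟨t, ht, Y, hY⟩ := ore_gen (sc s) (by simpa using (regular_iff s).mp hs) (sc a)
  refine ⟨t, ht, Y () (), ?_⟩
  rw [← sc_of Y, sc_mul, sc_mul] at hY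
  exact sc_inj hY

end Pool.Agent.Lib.MPf08bf1
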