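import Mathlib

/-!
All definitions used in the statement of the result: the group von Neumann algebra and its
trace, Lück's extended dimension, `L²`-Betti numbers, the Atiyah Conjecture, finite type free
resolutions, and the thickness of polytopes in `H_1(Γ; ℝ)`.
-/

open scoped ENNReal TensorProduct ComplexConjugate

noncomputable section

namespace Pool.Agent.Lib.MPf08bf1

namespace Stmt

/-- The Hilbert space `ℓ²(X)`. -/
def ell2 (X : Type) : Type := lp (fun _ : X => ℂ) 2

instance instNACG (X : Type) : NormedAddCommGroup (ell2 X) :=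
  lp.normedAddCommGroup (E := fun _ : X => ℂ) (p := 2)

instance instNS (X : Type) : NormedSpace ℂ (ell2 X) :=
  lp.instNormedSpace (𝕜 := ℂ) (E := fun _ : X => ℂ) (p := 2)

/-- The coefficients of an element of `ℓ²(X)`. -/
def cf {X : Type} (f : ell2 X) (x : X) : ℂ := f.1 x

/-- The basis vector `δ_x`. -/
def dl {X : Type} (x : X) : ell2 X := by classical exact lp.single 2 x (1 : ℂ)

/-- The bounded operators on `ℓ²(X)`. -/
def Op (X : Type) : Type := ell2 X →L[ℂ] ell2 X

instance instRingOp (X : Type) : Ring (Op X) := ContinuousLinearMap.ring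

/-- The function `T f`, for a bounded operator `T` on `ℓ²(X)` and `f ∈ ℓ²(X)`. -/
def Op.app {X : Type} (T : Op X) (f : ell2 X) : X → ℂ := cf ((show ell2 X →L[ℂ] ell2 X from T) f)

theorem exists_perm {X : Type} (σ : X ≃ X) :
    ∃ T : Op X, ∀ f x, T.app f x = cf f (σ.symm x) := by
  have key : ∀ f : lp (fun _ : X => ℂ) 2, Memℓp (fun y => (f : X → ℂ) (σ.symm y)) 2 := by
    intro f
    have hf := lp.memℓp f
    rw [memℓp_gen_iff (by norm_num)] at hf ⊢
    exact (σ.symm.summable_iff (f := fun x => ‖(f : X → ℂ) x‖ ^ (2 : ℝ≥0∞).toReal)).mpr hf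
  let T : lp (fun _ : X => ℂ) 2 →ₗᵢ[ℂ] lp (fun _ : X => ℂ) 2 :=
    { toFun := fun f => ⟨fun y => (f : X → ℂ) (σ.symm y), key f⟩
      map_add' := fun f g => by ext y; rfl
      map_smul' := fun c f => by ext y; rfl
      norm_map' := fun f => by
        rw [lp.norm_eq_tsum_rpow (by norm_num), lp.norm_eq_tsum_rpow (by norm_num)]
        congr 1
        exact σ.symm.tsum_eq (fun x => ‖f x‖ ^ (2 : ℝ≥0∞).toReal) }
  exact ⟨T.toContinuousLinearMap, fun f x => rfl⟩

theorem Op.ext_app {X : Type} {S T : Op X} (h : ∀ f x, S.app f x = T.app f x) : S = T := by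
  apply ContinuousLinearMap.ext
  intro f
  apply lp.ext
  funext x
  exact h f x

theorem Op.app_mul {X : Type} (S T : Op X) (f : ell2 X) :
    (S * T).app f = S.app ((show ell2 X →L[ℂ] ell2 X from T) f) := rfl

/-- The bounded operator on `ℓ²(X)` induced by a permutation `σ`: `(T f)(x) = f(σ⁻¹ x)`, that
is, `T δ_x = δ_{σ x}`. -/
def permOp {X : Type} (σ : X ≃ X) : Op X := (exists_perm σ).choose

theorem permOp_app {X : Type} (σ : X ≃ X) (f : ell2 X) (x : X) :
    (permOp σ).app f x = cf f (σ.symm x) := (exists_perm σ).choose_spec f x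

theorem permOp_mul {X : Type} (σ τ : X ≃ X) : permOp σ * permOp τ = permOp (τ.trans σ) := by
  apply Op.ext_app
  intro f x
  rw [Op.app_mul, permOp_app, permOp_app]
  exact permOp_app τ f _

section
variable {G : Type} [Group G]

/-- Right translation `δ_x ↦ δ_{x g}`. -/
def rightTr (g : G) : Op G := permOp (Equiv.mulRight g)

/-- Left translation `δ_x ↦ δ_{g x}`. -/
def leftTr (g : G) : Op G := permOp (Equiv.mulLeft g)

/-- The ring of bounded operators on `ℓ²(G)` commuting with all right translations. -/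
def NGring (G : Type) [Group G] : Subring (Op G) :=
  Subring.centralizer (Set.range (rightTr (G := G)))

/-- The group von Neumann algebra `N(G)`: the bounded operators on `ℓ²(G)` commuting with all
right translations. -/
def NG (G : Type) [Group G] : Type := NGring G

instance instRingNG (G : Type) [Group G] : Ring (NG G) := (NGring G).toRing

/-- The operator underlying an element of `N(G)`. -/
def NG.op (T : NG G) : Op G := T.1

theorem leftTr_mem (g : G) : leftTr g ∈ NGring G := by
  unfold NGring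
  rw [Subring.mem_centralizer_iff]
  rintro _ ⟨h, rfl⟩
  unfold leftTr rightTr
  rw [permOp_mul, permOp_mul]
  congr 1
  ext x
  exact mul_assoc g x h

/-- Left translation by `g` as an element of `N(G)`. -/
def lamEl (g : G) : NG G := ⟨leftTr g, leftTr_mem g⟩

theorem lamEl_one : lamEl (1 : G) = 1 := by
  apply Subtype.ext
  apply Op.ext_app
  intro f x
  change (permOp (Equiv.mulLeft (1 : G))).app f x = cf f x
  rw [permOp_app]
  congr 1
  exact (congrArg (· * x) inv_one).trans (one_mul x)

theorem lamEl_mul (g h : G) : lamEl (g * h) = lamEl g * lamEl h := by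
  apply Subtype.ext
  change permOp (Equiv.mulLeft (g * h)) = permOp (Equiv.mulLeft g) * permOp (Equiv.mulLeft h)
  rw [permOp_mul]
  congr 1
  ext x
  exact mul_assoc g h x

/-- The group `G` inside the unit group of `N(G)`, by left translations. -/
def lam (G : Type) [Group G] : G →* NG G where
  toFun := lamEl
  map_one' := lamEl_one
  map_mul' := lamEl_mul

/-- The (real part of the) standard trace on `N(G)`: the coefficient at `1` of `T δ_1`. -/
def vnTr (T : NG G) : ℝ := (T.op.app (dl 1) 1).re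

end

section
variable {S : Type} [Ring S]

/-- The left module `S^m e` of row vectors. -/
def projMod {m : ℕ} (e : Matrix (Fin m) (Fin m) S) : Submodule S (Fin m → S) :=
  LinearMap.range (Matrix.vecMulLinear e)

/-- The `S`-module `P` embeds into the `S`-module `M`. -/
def Embeds {V : Type} [AddCommGroup V] [Module S V] (P : Submodule S V) (M : Type)
    [AddCommGroup M] [Module S M] : Prop :=
  ∃ f : P →ₗ[S] M, Function.Injective f

/-- The dimension of an `S`-module `M`, for a ring `S` with a trace `tr`: the supremum of the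
traces of the idempotent matrices `e` over `S` for which the finitely generated projective
module `S^m e` embeds into `M`. -/
def extDim (tr : S → ℝ) (M : Type) [AddCommGroup M] [Module S M] : ℝ≥0∞ :=
  ⨆ (m : ℕ) (e : Matrix (Fin m) (Fin m) S) (_ : e * e = e) (_ : Embeds (projMod e) M),
    ENNReal.ofReal (∑ i, tr (e i i))

/-- The quotient module `Z/B` of cycles modulo boundaries. -/
abbrev HZ {M : Type} [AddCommGroup M] [Module S M] (Z B : Submodule S M) : Type :=
  ↥Z ⧸ Submodule.comap Z.subtype B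

variable {K : Type} [Group K]

/-- The differential of the (inhomogeneous) bar complex with coefficients in a ring `S`, on which
`K` acts by right multiplication via `u : K →* S`:
`d (s ⊗ [g₀|…|gₙ]) = s g₀ ⊗ [g₁|…|gₙ] + ∑ⱼ (-1)^(j+1) s ⊗ [g₀|…|gⱼgⱼ₊₁|…|gₙ]`, where the last
summand omits `gₙ`. -/
def barD (u : K →* S) (n : ℕ) : ((Fin (n + 1) → K) →₀ S) →ₗ[S] ((Fin n → K) →₀ S) :=
  Finsupp.linearCombination S fun g =>
    Finsupp.single (fun i : Fin n => g i.succ) (u (g 0)) +
      ∑ j : Fin (n + 1), ((-1 : ℤ) ^ (j.1 + 1)) • Finsupp.single (Fin.contractNth j (· * ·) g) (1 : S)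

/-- Cycles of the bar complex. -/
def barZ (u : K →* S) : ∀ n : ℕ, Submodule S ((Fin n → K) →₀ S)
  | 0 => ⊤
  | n + 1 => LinearMap.ker (barD u n)

/-- The dimension of the group homology `H_n(K; S)`, that is, of the quotient of the cycles by
the boundaries of the bar complex with coefficients in `S`. -/
def homDim (tr : S → ℝ) (u : K →* S) (n : ℕ) : ℝ≥0∞ :=
  extDim tr (HZ (barZ u n) (LinearMap.range (barD u n)))

end

/-- The `L²`-Betti number `b_n^{(2)}(K)`: Lück's extended von Neumann dimension of the group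
homology `H_n(K; N(K))`. -/
def l2Betti (K : Type) [Group K] (n : ℕ) : ℝ≥0∞ := homDim (vnTr (G := K)) (lam K) n

/-- The row vector `v ∈ ℓ²(G)^m = ℓ²(Fin m × G)` satisfies `vA = 0`. -/
def InKer {G : Type} [Group G] {m n : ℕ} (A : Matrix (Fin m) (Fin n) (MonoidAlgebra ℤ G))
    (v : Fin m × G → ℂ) : Prop :=
  ∀ (j : Fin n) (x : G), ∑ i, (A i j).coeff.sum (fun g c => (c : ℂ) * v (i, x * g⁻¹)) = 0

/-- `P` is the orthogonal projection of `ℓ²(G)^m` onto the kernel of `v ↦ vA`. -/
def IsKerProj {G : Type} [Group G] {m n : ℕ} (A : Matrix (Fin m) (Fin n) (MonoidAlgebra ℤ G))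
    (P : Op (Fin m × G)) : Prop :=
  ∀ v : ell2 (Fin m × G), InKer A (P.app v) ∧
    ∀ w : ell2 (Fin m × G), InKer A (cf w) → ∑' y, conj (cf w y) * (cf v y - P.app v y) = 0

/-- The Atiyah Conjecture for a (torsion-free) group `G`: for every matrix `A` over `ℤ[G]` the
von Neumann dimension of the kernel of `v ↦ vA`, that is, the trace `∑ᵢ ⟨P δ_{i,1}, δ_{i,1}⟩`
of the orthogonal projection `P` onto it, is an integer. -/
def AtiyahConj (G : Type) [Group G] : Prop :=
  ∀ (m n : ℕ) (A : Matrix (Fin m) (Fin n) (MonoidAlgebra ℤ G)) (P : Op (Fin m × G)),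
    IsKerProj A P → ∃ k : ℤ, ∑ i, P.app (dl (i, 1)) (i, 1) = k

end Stmt

/-- A resolution of the trivial module `ℤ` by finitely generated free `ℤ[Γ]`-modules (row
vectors, the differentials being given by matrices acting from the right). -/
structure FreeRes (Γ : Type) [Group Γ] where
  r : ℕ → ℕ
  d : ∀ n, Matrix (Fin (r (n + 1))) (Fin (r n)) (MonoidAlgebra ℤ Γ)
  ε : (Fin (r 0) → MonoidAlgebra ℤ Γ) →+ ℤ
  ε_smul : ∀ (g : Γ) (v : Fin (r 0) → MonoidAlgebra ℤ Γ),
    ε (fun i => MonoidAlgebra.single g 1 * v i) = ε v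
  ε_surj : Function.Surjective ε
  exact_zero : ∀ v, ε v = 0 ↔ ∃ w, Matrix.vecMul w (d 0) = v
  exact_succ : ∀ n v, Matrix.vecMul v (d n) = 0 ↔ ∃ w, Matrix.vecMul w (d (n + 1)) = v

/-- `H_1(Γ; ℝ) = ℝ ⊗ Γ^{ab}`. -/
abbrev H1R (Γ : Type) [Group Γ] : Type := ℝ ⊗[ℤ] Additive (Abelianization Γ)

/-- The homomorphism `Γ^{ab} → ℤ` induced by `φ : Γ → ℤ`. -/
def abHom {Γ : Type} [Group Γ] (φ : Γ →* Multiplicative ℤ) :
    Additive (Abelianization Γ) →+ ℤ :=
  MonoidHom.toAdditiveLeft (Abelianization.lift φ)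

/-- The linear form on `H_1(Γ; ℝ)` induced by `φ : Γ → ℤ`. -/
def realForm {Γ : Type} [Group Γ] (φ : Γ →* Multiplicative ℤ) : H1R Γ →ₗ[ℝ] ℝ :=
  (TensorProduct.AlgebraTensorModule.rid ℤ ℝ ℝ).toLinearMap ∘ₗ
    (abHom φ).toIntLinearMap.baseChange ℝ

/-- `t` is the thickness of the set `P` in the direction of the linear form `φ`:
`t = max {φ x - φ y | x, y ∈ P}`. -/
def IsThickness {V : Type} [AddCommGroup V] [Module ℝ V] (φ : V →ₗ[ℝ] ℝ) (P : Set V)
    (t : ℝ) : Prop :=
  IsGreatest {s : ℝ | ∃ x ∈ P, ∃ y ∈ P, s = φ x - φ y} t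

end Pool.Agent.Lib.MPf08bf1
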