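import Pool.Agent.Lib.MPf08bf1.Mat
import Pool.Agent.Lib.MPf08bf1.PowLim

/-!
Support projections and the rank of matrices over `N(G)`.
-/

open scoped ENNReal InnerProductSpace ComplexConjugate Matrix Topology
open Filter

noncomputable section

namespace Pool.Agent.Lib.MPf08bf1

variable {G : Type} [Group G]

/-- The closure of the range of the operator of a matrix. -/
def crng {I J : Type} [Fintype I] [Fintype J] (A : Matrix I J (vN G)) : Submodule ℂ (HS G I) :=
  (LinearMap.range (toOp A : HS G J →ₗ[ℂ] HS G I)).topologicalClosure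

instance {I J : Type} [Fintype I] [Fintype J] (A : Matrix I J (vN G)) :
    CompleteSpace (crng A) :=
  (Submodule.isClosed_topologicalClosure _).completeSpace_coe

theorem range_mem_crng {I J : Type} [Fintype I] [Fintype J] (A : Matrix I J (vN G))
    (f : HS G J) : toOp A f ∈ crng A :=
  Submodule.le_topologicalClosure _ ⟨f, rfl⟩

theorem trans_mem_crng {I J : Type} [Fintype I] [Fintype J] (A : Matrix I J (vN G)) (g : G)
    {f : HS G I} (hf : f ∈ crng A) : trans g f ∈ crng A := by
  have h : f ∈ closure (LinearMap.range (toOp A : HS G J →ₗ[ℂ] HS G I) : Set (HS G I)) := by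
    rw [← Submodule.topologicalClosure_coe]; exact hf
  have h2 := map_mem_closure (trans_continuous g) h (t := (LinearMap.range
    (toOp A : HS G J →ₗ[ℂ] HS G I) : Set (HS G I))) ?_
  · rw [← Submodule.topologicalClosure_coe] at h2
    exact h2
  · rintro _ ⟨y, rfl⟩
    exact ⟨trans g y, toOp_trans A g y⟩

theorem crng_proj_trans {I J : Type} [Fintype I] [Fintype J] (A : Matrix I J (vN G)) (g : G)
    (f : HS G I) : (crng A).starProjection (trans g f) = trans g ((crng A).starProjection f) := by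
  apply Submodule.eq_starProjection_of_mem_of_inner_eq_zero
  · exact trans_mem_crng A g (Submodule.starProjection_apply_mem _ _)
  · intro w hw
    have h1 : trans g f - trans g ((crng A).starProjection f) =
        trans g (f - (crng A).starProjection f) := by
      apply PiLp.ext
      intro i
      rw [PiLp.sub_apply, trans_apply, trans_apply, trans_apply, PiLp.sub_apply, map_sub]
    rw [h1, inner_trans]
    exact Submodule.starProjection_inner_eq_zero _ _ (trans_mem_crng A g⁻¹ hw)

/-- The left support projection of a matrix over `N(G)`. -/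
def LP {I J : Type} [Fintype I] [Fintype J] [DecidableEq I] (A : Matrix I J (vN G)) :
    Matrix I I (vN G) :=
  ofOp ((crng A).starProjection) (fun g f => crng_proj_trans A g f)

theorem toOp_LP {I J : Type} [Fintype I] [Fintype J] [DecidableEq I] (A : Matrix I J (vN G)) :
    toOp (LP A) = (crng A).starProjection := toOp_ofOp _ _

/-- Self-adjoint idempotent matrices. -/
def IsProj {I : Type} [Fintype I] (P : Matrix I I (vN G)) : Prop := Pᴴ = P ∧ P * P = P

theorem LP_isProj {I J : Type} [Fintype I] [Fintype J] [DecidableEq I]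
    (A : Matrix I J (vN G)) : IsProj (LP A) := by
  constructor
  · apply toOp_injective
    rw [toOp_conjTranspose, toOp_LP]
    symm
    rw [ContinuousLinearMap.eq_adjoint_iff]
    intro x y
    exact Submodule.inner_starProjection_left_eq_right _ _ _
  · apply toOp_injective
    rw [toOp_mul, toOp_LP]
    exact Submodule.isIdempotentElem_starProjection _

theorem LP_mul {I J : Type} [Fintype I] [Fintype J] [DecidableEq I]
    (A : Matrix I J (vN G)) : LP A * A = A := by
  apply toOp_injective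
  rw [toOp_mul, toOp_LP]
  ext1 f
  exact Submodule.starProjection_eq_self_iff.mpr (range_mem_crng A f)

theorem mul_LP_eq_zero {I J K : Type} [Fintype I] [Fintype J] [Fintype K] [DecidableEq I]
    (A : Matrix I J (vN G)) (Z : Matrix K I (vN G)) (h : Z * A = 0) : Z * LP A = 0 := by
  apply toOp_injective
  rw [toOp_mul, toOp_LP, toOp_zero]
  have h0 : (toOp Z) ∘L (toOp A) = 0 := by rw [← toOp_mul, h, toOp_zero]
  have h1 : crng A ≤ LinearMap.ker (toOp Z : HS G I →ₗ[ℂ] HS G K) := by
    apply Submodule.topologicalClosure_minimal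
    · rintro _ ⟨y, rfl⟩
      exact congrArg (fun S : HS G J →L[ℂ] HS G K => S y) h0
    · exact ContinuousLinearMap.isClosed_ker _
  ext1 f
  exact h1 (Submodule.starProjection_apply_mem _ _)

theorem mul_LP_eq_zero_iff {I J K : Type} [Fintype I] [Fintype J] [Fintype K] [DecidableEq I]
    (A : Matrix I J (vN G)) (Z : Matrix K I (vN G)) : Z * A = 0 ↔ Z * LP A = 0 := by
  constructor
  · exact mul_LP_eq_zero A Z
  · intro h
    rw [← LP_mul A, ← Matrix.mul_assoc, h, Matrix.zero_mul]

theorem rtr_add {I : Type} [Fintype I] (A B : Matrix I I (vN G)) :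
    rtr (A + B) = rtr A + rtr B := by unfold rtr; rw [mtr_add, Complex.add_re]

theorem rtr_sub {I : Type} [Fintype I] (A B : Matrix I I (vN G)) :
    rtr (A - B) = rtr A - rtr B := by unfold rtr; rw [mtr_sub, Complex.sub_re]

theorem rtr_one {I : Type} [Fintype I] [DecidableEq I] :
    rtr (1 : Matrix I I (vN G)) = Fintype.card I := by
  unfold rtr; rw [mtr_one]; simp

theorem rtr_zero {I : Type} [Fintype I] : rtr (0 : Matrix I I (vN G)) = 0 := by
  unfold rtr; rw [mtr_zero]; simp

theorem rtr_mul_comm {I J : Type} [Fintype I] [Fintype J] (A : Matrix I J (vN G))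
    (B : Matrix J I (vN G)) : rtr (A * B) = rtr (B * A) := by
  unfold rtr; rw [mtr_mul_comm]

theorem rtr_proj {I : Type} [Fintype I] [DecidableEq I] {P : Matrix I I (vN G)}
    (hP : IsProj P) : rtr P = ∑ i, ‖toOp P (inc i (dl 1))‖ ^ 2 := by
  unfold rtr
  rw [mtr_eq_inner, Complex.re_sum]
  apply Finset.sum_congr rfl
  intro i _
  have h : toOp P (inc i (dl 1)) = toOp P (toOp P (inc i (dl 1))) := by
    conv_lhs => rw [← hP.2, toOp_mul]
    rfl
  rw [h, ← ContinuousLinearMap.adjoint_inner_left, ← toOp_conjTranspose, hP.1,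
    inner_self_eq_norm_sq_to_K, ← h]
  norm_cast

theorem rtr_proj_nonneg {I : Type} [Fintype I] {P : Matrix I I (vN G)}
    (hP : IsProj P) : 0 ≤ rtr P := by
  classical
  rw [rtr_proj hP]
  exact Finset.sum_nonneg fun i _ => sq_nonneg _

theorem rtr_proj_eq_zero {I : Type} [Fintype I] {P : Matrix I I (vN G)}
    (hP : IsProj P) (h : rtr P = 0) : P = 0 := by
  classical
  rw [rtr_proj hP] at h
  have h1 : ∀ i, toOp P (inc i (dl 1)) = 0 := by
    intro i
    have := (Finset.sum_eq_zero_iff_of_nonneg (fun i _ => sq_nonneg _)).mp h i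
      (Finset.mem_univ i)
    exact norm_eq_zero.mp (pow_eq_zero_iff (two_ne_zero) |>.mp this)
  ext1 j i
  apply vN_ext_dl
  rw [← toOp_inc, h1]
  rfl

theorem IsProj.one_sub {I : Type} [Fintype I] [DecidableEq I] {P : Matrix I I (vN G)}
    (hP : IsProj P) : IsProj (1 - P) := by
  constructor
  · rw [Matrix.conjTranspose_sub, Matrix.conjTranspose_one, hP.1]
  · rw [Matrix.sub_mul, Matrix.mul_sub, Matrix.mul_sub, hP.2]
    simp

theorem IsProj.sub {I : Type} [Fintype I] {P Q : Matrix I I (vN G)}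
    (hP : IsProj P) (hQ : IsProj Q) (h : P * Q = Q) : IsProj (P - Q) := by
  have h2 : Q * P = Q := by
    have := congrArg Matrix.conjTranspose h
    rwa [Matrix.conjTranspose_mul, hP.1, hQ.1] at this
  constructor
  · rw [Matrix.conjTranspose_sub, hP.1, hQ.1]
  · rw [Matrix.sub_mul, Matrix.mul_sub, Matrix.mul_sub, hP.2, hQ.2, h, h2]
    simp

theorem rtr_le_of_mul_eq {I : Type} [Fintype I] {P Q : Matrix I I (vN G)}
    (hP : IsProj P) (hQ : IsProj Q) (h : P * Q = Q) : rtr Q ≤ rtr P := by
  have := rtr_proj_nonneg (hP.sub hQ h)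
  rw [rtr_sub] at this
  linarith

theorem eq_of_mul_eq_of_rtr {I : Type} [Fintype I] {P Q : Matrix I I (vN G)}
    (hP : IsProj P) (hQ : IsProj Q) (h : P * Q = Q) (h2 : rtr P ≤ rtr Q) : P = Q := by
  have h3 := rtr_le_of_mul_eq hP hQ h
  have := rtr_proj_eq_zero (hP.sub hQ h) (by rw [rtr_sub]; linarith)
  exact sub_eq_zero.mp this

/-! ### The rank is symmetric -/

theorem crng_conj {I J : Type} [Fintype I] [Fintype J] (A : Matrix I J (vN G)) :
    (crng Aᴴ) = (LinearMap.ker (toOp A : HS G J →ₗ[ℂ] HS G I))ᗮ := by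
  unfold crng
  rw [toOp_conjTranspose]
  have := ContinuousLinearMap.orthogonal_ker (toOp A : HS G J →L[ℂ] HS G I)
  exact this.symm

theorem toOp_LP_conj {I J : Type} [Fintype I] [Fintype J] [DecidableEq J]
    (A : Matrix I J (vN G)) (f : HS G J) :
    toOp (LP Aᴴ) f = f - (LinearMap.ker (toOp A : HS G J →ₗ[ℂ] HS G I)).starProjection f := by
  rw [toOp_LP]
  have h : (crng Aᴴ).starProjection f =
      ((LinearMap.ker (toOp A : HS G J →ₗ[ℂ] HS G I))ᗮ).starProjection f := by
    simp only [crng_conj]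
  rw [h, Submodule.starProjection_orthogonal_val]

theorem toOp_pow_bop {I J : Type} [Fintype I] [Fintype J] [DecidableEq J]
    (A : Matrix I J (vN G)) (k : ℕ) :
    toOp ((1 - Aᴴ * A) ^ k) = (bop (toOp A)) ^ k := by
  induction k with
  | zero => rw [pow_zero, pow_zero, toOp_one]; rfl
  | succ k ih =>
    rw [pow_succ, pow_succ, toOp_mul, ih, toOp_sub, toOp_one, toOp_mul, toOp_conjTranspose]
    rfl

theorem rtr_LP_conj_lim {I J : Type} [Fintype I] [Fintype J] [DecidableEq J]
    (A : Matrix I J (vN G)) (hA : ‖toOp A‖ ≤ 1) :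
    Tendsto (fun k : ℕ => rtr (1 - (1 - Aᴴ * A) ^ k)) atTop (𝓝 (rtr (LP Aᴴ))) := by
  unfold rtr
  apply (Complex.continuous_re.tendsto _).comp
  simp_rw [mtr_eq_inner]
  apply tendsto_finsetSum
  intro i _
  apply Tendsto.inner tendsto_const_nhds
  simp_rw [toOp_sub, toOp_pow_bop, toOp_one]
  rw [toOp_LP_conj]
  exact tendsto_const_nhds.sub (bop_pow_tendsto (toOp A) hA _)

theorem one_sub_pow_eq {I : Type} [Fintype I] [DecidableEq I] (Q : Matrix I I (vN G)) (k : ℕ) :
    1 - (1 - Q) ^ k = Q * ∑ i ∈ Finset.range k, (1 - Q) ^ i := by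
  have h := mul_neg_geom_sum (1 - Q) k
  rw [sub_sub_cancel] at h
  exact h.symm

theorem shift_pow {I J : Type} [Fintype I] [Fintype J] [DecidableEq I] [DecidableEq J]
    (A : Matrix I J (vN G)) (k : ℕ) :
    A * (1 - Aᴴ * A) ^ k = (1 - A * Aᴴ) ^ k * A := by
  induction k with
  | zero => rw [pow_zero, pow_zero, Matrix.mul_one, Matrix.one_mul]
  | succ k ih =>
    rw [pow_succ, ← Matrix.mul_assoc, ih, pow_succ, Matrix.mul_assoc, Matrix.mul_assoc,
      Matrix.mul_sub, Matrix.sub_mul, Matrix.mul_one, Matrix.one_mul, Matrix.mul_assoc]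

theorem rtr_pow_symm {I J : Type} [Fintype I] [Fintype J] [DecidableEq I] [DecidableEq J]
    (A : Matrix I J (vN G)) (k : ℕ) :
    rtr (1 - (1 - Aᴴ * A) ^ k) = rtr (1 - (1 - A * Aᴴ) ^ k) := by
  rw [one_sub_pow_eq, one_sub_pow_eq, Matrix.mul_assoc, rtr_mul_comm, Matrix.mul_sum,
    Finset.sum_congr rfl (fun i _ => shift_pow A i), ← Matrix.sum_mul, Matrix.mul_assoc]
  rw [rtr_mul_comm]

theorem rtr_LP_conj_of_norm {I J : Type} [Fintype I] [Fintype J] [DecidableEq I]
    [DecidableEq J] (A : Matrix I J (vN G)) (hA : ‖toOp A‖ ≤ 1) :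
    rtr (LP Aᴴ) = rtr (LP A) := by
  have h1 := rtr_LP_conj_lim A hA
  have h2 := rtr_LP_conj_lim Aᴴ (by
    rw [toOp_conjTranspose, LinearIsometryEquiv.norm_map]; exact hA)
  rw [Matrix.conjTranspose_conjTranspose] at h2
  simp_rw [← rtr_pow_symm] at h2
  exact tendsto_nhds_unique h1 h2

theorem crng_smul {I J : Type} [Fintype I] [Fintype J] (A : Matrix I J (vN G)) (c : ℂ)
    (hc : c ≠ 0) : crng (c • A) = crng A := by
  unfold crng
  congr 1
  rw [toOp_smul]
  ext x
  constructor
  · rintro ⟨y, rfl⟩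
    exact ⟨c • y, by simp⟩
  · rintro ⟨y, rfl⟩
    refine ⟨c⁻¹ • y, ?_⟩
    change c • toOp A (c⁻¹ • y) = _
    rw [map_smul, smul_smul, mul_inv_cancel₀ hc, one_smul]
    rfl

theorem LP_smul {I J : Type} [Fintype I] [Fintype J] [DecidableEq I] (A : Matrix I J (vN G))
    (c : ℂ) (hc : c ≠ 0) : LP (c • A) = LP A := by
  apply toOp_injective
  rw [toOp_LP, toOp_LP]
  simp only [crng_smul A c hc]

/-- The rank of a matrix over `N(G)`. -/
def vrk {I J : Type} [Fintype I] [Fintype J] (A : Matrix I J (vN G)) : ℝ := by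
  classical exact rtr (LP A)

theorem vrk_eq {I J : Type} [Fintype I] [Fintype J] [DecidableEq I] (A : Matrix I J (vN G)) :
    vrk A = rtr (LP A) := by
  unfold vrk
  rw [Subsingleton.elim (fun a b => Classical.propDecidable (a = b)) (inferInstanceAs (DecidableEq I))]

theorem vrk_conj {I J : Type} [Fintype I] [Fintype J] (A : Matrix I J (vN G)) :
    vrk Aᴴ = vrk A := by
  classical
  rw [vrk_eq, vrk_eq]
  obtain ⟨c, hc, hcA⟩ : ∃ c : ℝ, 0 < c ∧ ‖toOp ((c : ℂ) • A)‖ ≤ 1 := by
    refine ⟨(‖toOp A‖ + 1)⁻¹, by positivity, ?_⟩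
    rw [toOp_smul, norm_smul]
    simp only [Complex.norm_real, norm_inv]
    rw [Real.norm_of_nonneg (by positivity), inv_mul_le_iff₀ (by positivity)]
    linarith
  have h := rtr_LP_conj_of_norm _ hcA
  have hc' : (c : ℂ) ≠ 0 := by exact_mod_cast hc.ne'
  rw [LP_smul A _ hc', Matrix.conjTranspose_smul, LP_smul _ _ (by simpa using hc.ne')] at h
  exact h

end Pool.Agent.Lib.MPf08bf1
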