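import Pool.Agent.Lib.MPf08bf1.Loc

/-!
The rank function provides `LocSys` data.
-/

open scoped Matrix

noncomputable section

namespace Pool.Agent.Lib.MPf08bf1

variable {G : Type} [Group G]

theorem full_surj {I : Type} [Fintype I] {A : Matrix I I (vN G)} (hA : vrk A = Fintype.card I)
    (v : I → UG G) : ∃ w : I → UG G, (A.map (eta G)) *ᵥ w = v := by
  classical
  obtain ⟨X, h1, h2⟩ := full_inv A hA
  refine ⟨X *ᵥ v, ?_⟩
  rw [Matrix.mulVec_mulVec, h2, Matrix.one_mulVec]

theorem full_injv {I : Type} [Fintype I] {A : Matrix I I (vN G)} (hA : vrk A = Fintype.card I)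
    (w : I → UG G) (h : (A.map (eta G)) *ᵥ w = 0) : w = 0 := by
  classical
  obtain ⟨X, h1, h2⟩ := full_inv A hA
  rw [← Matrix.one_mulVec w, ← h1, ← Matrix.mulVec_mulVec, h, Matrix.mulVec_zero]

theorem vrk_tri {I J : Type} [Fintype I] [Fintype J] {A : Matrix I I (vN G)}
    {B : Matrix J J (vN G)} (C : Matrix I J (vN G)) (hA : vrk A = Fintype.card I)
    (hB : vrk B = Fintype.card J) : vrk (Matrix.fromBlocks A C 0 B) = Fintype.card (I ⊕ J) := by
  apply full_of_ker
  intro Z hZ
  rw [← Matrix.fromCols_toCols Z, Matrix.fromCols_mul_fromBlocks, Matrix.mul_zero, add_zero] at hZ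
  have h1 := congrArg Matrix.toCols₁ hZ
  rw [Matrix.toCols₁_fromCols] at h1
  have h2 : Z.toCols₁ = 0 := eq_zero_of_full hA (by rw [h1]; rfl)
  have h3 := congrArg Matrix.toCols₂ hZ
  rw [Matrix.toCols₂_fromCols, h2, Matrix.zero_mul, zero_add] at h3
  have h4 : Z.toCols₂ = 0 := eq_zero_of_full hB (by rw [h3]; rfl)
  rw [← Matrix.fromCols_toCols Z, h2, h4, Matrix.fromCols_zero]

/-- The bordered matrix. -/
def bord {R I : Type} [Zero R] (A : Matrix I I R) (u v : I → R) :
    Matrix (I ⊕ Unit) (I ⊕ Unit) R :=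
  Matrix.fromBlocks A (Matrix.of fun i _ => v i) (Matrix.of fun _ i => u i) 0

theorem vrk_bord_ge {I : Type} [Fintype I] (A : Matrix I I (vN G)) (u v : I → vN G) :
    vrk A ≤ vrk (bord A u v) := by
  have : A = (bord A u v).submatrix Sum.inl Sum.inl := by ext1 i j; rfl
  conv_lhs => rw [this]
  exact vrk_submatrix_le _ _ _

theorem bord_dich {I : Type} [Fintype I] {A : Matrix I I (vN G)} (hA : vrk A = Fintype.card I)
    (u v : I → vN G) (hM : vrk (bord A u v) ≤ Fintype.card I) (w : I → UG G)
    (hw : (A.map (eta G)) *ᵥ w = fun i => eta G (v i)) : ∑ i, eta G (u i) * w i = 0 := by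
  classical
  have hMrk : vrk (bord A u v) = Fintype.card I :=
    le_antisymm hM (hA ▸ vrk_bord_ge A u v)
  set M := bord A u v with hMdef
  set e := 1 - LP M with he
  have heP : IsProj e := (LP_isProj M).one_sub
  have htr : rtr e = 1 := by
    rw [he, rtr_one_sub_LP, hMrk]
    simp
  set c : Matrix (I ⊕ Unit) Unit (vN G) := Matrix.fromRows 0 1 with hc
  have hinj : ∀ Z : Matrix (I ⊕ Unit) (I ⊕ Unit) (vN G), Z * e * c = 0 → Z * e = 0 := by
    intro Z hZ
    set W := Z * e with hW
    have hWM : W * M = 0 := by rw [hW, Matrix.mul_assoc, he, one_sub_LP_mul, Matrix.mul_zero]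
    have hW1 : W.toCols₂ = 0 := by
      ext1 i j
      have := congrFun (congrFun hZ i) ()
      rw [Matrix.mul_apply] at this
      simpa [hc, Fintype.sum_sum_type] using this
    have hW2 : W.toCols₁ * A = 0 := by
      rw [← Matrix.fromCols_toCols W, hMdef, bord, Matrix.fromCols_mul_fromBlocks, hW1,
        Matrix.zero_mul, Matrix.zero_mul, add_zero, add_zero] at hWM
      have h1 := congrArg Matrix.toCols₁ hWM
      rw [Matrix.toCols₁_fromCols] at h1
      exact h1
    rw [← Matrix.fromCols_toCols W, hW1, eq_zero_of_full hA hW2, Matrix.fromCols_zero]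
  have hcorner := vrk_corner_of_inj heP c hinj
  rw [htr] at hcorner
  have hs : e (Sum.inr ()) (Sum.inr ()) ∈ nonZeroDivisors (vN G) := by
    rw [regular_iff]
    convert hcorner using 2
    ext1 i j
    simp [sc, hc, Matrix.mul_apply, Fintype.sum_sum_type, Matrix.conjTranspose_fromRows_eq_fromCols_conjTranspose]
  have heM : e * M = 0 := by rw [he, one_sub_LP_mul]
  have h1 : ∀ j, ∑ k, e (Sum.inr ()) (Sum.inl k) * A k j + e (Sum.inr ()) (Sum.inr ()) * u j = 0 := by
    intro j
    have := congrFun (congrFun heM (Sum.inr ())) (Sum.inl j)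
    rw [Matrix.mul_apply, Fintype.sum_sum_type] at this
    simpa [hMdef, bord] using this
  have h2 : ∑ k, e (Sum.inr ()) (Sum.inl k) * v k = 0 := by
    have := congrFun (congrFun heM (Sum.inr ())) (Sum.inr ())
    rw [Matrix.mul_apply, Fintype.sum_sum_type] at this
    simpa [hMdef, bord] using this
  have h3 : eta G (e (Sum.inr ()) (Sum.inr ())) * ∑ i, eta G (u i) * w i = 0 := by
    have h4 : ∀ i, eta G (e (Sum.inr ()) (Sum.inr ())) * (eta G (u i) * w i) =
        -∑ k, eta G (e (Sum.inr ()) (Sum.inl k)) * (eta G (A k i) * w i) := by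
      intro i
      have := congrArg (eta G) (h1 i)
      rw [map_add, map_sum, map_zero] at this
      rw [← mul_assoc, ← map_mul, eq_neg_of_add_eq_zero_right this, neg_mul, Finset.sum_mul]
      simp [mul_assoc]
    rw [Finset.mul_sum, Finset.sum_congr rfl (fun i _ => h4 i), Finset.sum_neg_distrib,
      Finset.sum_comm, neg_eq_zero]
    have h5 : ∀ k, ∑ i, eta G (e (Sum.inr ()) (Sum.inl k)) * (eta G (A k i) * w i) =
        eta G (e (Sum.inr ()) (Sum.inl k) * v k) := by
      intro k
      have := congrFun hw k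
      simp only [Matrix.mulVec, dotProduct, Matrix.map_apply] at this
      rw [← Finset.mul_sum, this, map_mul]
    rw [Finset.sum_congr rfl (fun k _ => h5 k), ← map_sum, h2, map_zero]
  exact ((eta_isUnit hs).mul_right_eq_zero).mp h3

theorem map_bord {R S I : Type} [Ring R] [Ring S] (f : R →+* S) (A : Matrix I I R) (u v : I → R) :
    (bord A u v).map f = bord (A.map f) (fun i => f (u i)) (fun i => f (v i)) := by
  ext1 i j
  rcases i with i | i <;> rcases j with j | j <;> simp [bord]

/-- Integrality of ranks. -/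
def RkInt {R : Type} [Ring R] (ρ : R →+* vN G) : Prop :=
  ∀ (I : Type) [Fintype I] (A : Matrix I I R), ∃ k : ℕ, vrk (A.map ρ) = k

theorem bord_full_or {R I : Type} [Ring R] [Fintype I] {ρ : R →+* vN G} (hρ : RkInt ρ)
    {A : Matrix I I R} (u v : I → R) :
    vrk ((bord A u v).map ρ) = Fintype.card (I ⊕ Unit) ∨
      vrk ((bord A u v).map ρ) ≤ Fintype.card I := by
  obtain ⟨k, hk⟩ := hρ _ (bord A u v)
  have h1 := vrk_le_card ((bord A u v).map ρ)
  rw [hk] at h1 ⊢
  have h2 : k ≤ Fintype.card (I ⊕ Unit) := by exact_mod_cast h1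
  have h3 : Fintype.card (I ⊕ Unit) = Fintype.card I + 1 := by simp
  rcases Nat.lt_or_ge (Fintype.card I) k with h4 | h4
  · left
    have : k = Fintype.card (I ⊕ Unit) := by omega
    exact_mod_cast this
  · right
    exact_mod_cast h4

/-- The `LocSys` of a ring homomorphism to `N(G)` with integral ranks. -/
def sysOne {R : Type} [Ring R] (ρ : R →+* vN G) (hρ : RkInt ρ) : LocSys R (UG G) where
  ρ := (eta G).comp ρ
  Full I _ A := vrk (A.map ρ) = Fintype.card I
  one_full := by
    classical
    rw [Matrix.map_one _ (map_zero _) (map_one _)]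
    exact full_of_ker (fun Z hZ => by rwa [Matrix.mul_one] at hZ)
  tri I J _ _ A B C hA hB := by
    rw [Matrix.fromBlocks_map, Matrix.map_zero _ (map_zero _)]
    exact vrk_tri _ hA hB
  surj I _ A hA v := by
    obtain ⟨w, hw⟩ := full_surj hA v
    exact ⟨w, hw⟩
  inj I _ A hA w hw := full_injv hA w hw
  dich I _ A hA u v := by
    rcases bord_full_or hρ u v (A := A) with h | h
    · left; exact h
    · right
      intro w hw
      rw [map_bord] at h
      exact bord_dich hA (fun i => ρ (u i)) (fun i => ρ (v i)) h w hw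

/-- The `LocSys` of a pair of ring homomorphisms with the same integral ranks. -/
def sysTwo {R G₁ G₂ : Type} [Group G₁] [Group G₂] [Ring R] (ρ₁ : R →+* vN G₁)
    (ρ₂ : R →+* vN G₂) (hρ : RkInt ρ₁)
    (heq : ∀ (I : Type) [Fintype I] (A : Matrix I I R), vrk (A.map ρ₁) = vrk (A.map ρ₂)) :
    LocSys R (UG G₁ × UG G₂) where
  ρ := ((eta G₁).comp ρ₁).prod ((eta G₂).comp ρ₂)
  Full I _ A := vrk (A.map ρ₁) = Fintype.card I
  one_full := by
    classical
    rw [Matrix.map_one _ (map_zero _) (map_one _)]
    exact full_of_ker (fun Z hZ => by rwa [Matrix.mul_one] at hZ)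
  tri I J _ _ A B C hA hB := by
    rw [Matrix.fromBlocks_map, Matrix.map_zero _ (map_zero _)]
    exact vrk_tri _ hA hB
  surj I _ A hA v := by
    obtain ⟨w, hw⟩ := full_surj hA (fun i => (v i).1)
    obtain ⟨w', hw'⟩ := full_surj ((heq I A).symm.trans hA) (fun i => (v i).2)
    refine ⟨fun i => (w i, w' i), ?_⟩
    ext i
    · have := congrFun hw i
      simpa [Matrix.mulVec, dotProduct, Prod.fst_sum] using this
    · have := congrFun hw' i
      simpa [Matrix.mulVec, dotProduct, Prod.snd_sum] using this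
  inj I _ A hA w hw := by
    have h1 := full_injv hA (fun i => (w i).1) (by
      ext i
      have := congrArg Prod.fst (congrFun hw i)
      simpa [Matrix.mulVec, dotProduct, Prod.fst_sum] using this)
    have h2 := full_injv ((heq I A).symm.trans hA) (fun i => (w i).2) (by
      ext i
      have := congrArg Prod.snd (congrFun hw i)
      simpa [Matrix.mulVec, dotProduct, Prod.snd_sum] using this)
    ext i
    · exact congrFun h1 i
    · exact congrFun h2 i
  dich I _ A hA u v := by
    rcases bord_full_or hρ u v (A := A) with h | h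
    · left; exact h
    · right
      intro w hw
      have h' := h
      rw [heq] at h'
      rw [map_bord] at h h'
      have e1 := bord_dich hA (fun i => ρ₁ (u i)) (fun i => ρ₁ (v i)) h (fun i => (w i).1) (by
        ext i
        have := congrArg Prod.fst (congrFun hw i)
        simpa [Matrix.mulVec, dotProduct, Prod.fst_sum] using this)
      have e2 := bord_dich ((heq I A).symm.trans hA) (fun i => ρ₂ (u i)) (fun i => ρ₂ (v i)) h'
        (fun i => (w i).2) (by
        ext i
        have := congrArg Prod.snd (congrFun hw i)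
        simpa [Matrix.mulVec, dotProduct, Prod.snd_sum] using this)
      ext
      · simpa [Prod.fst_sum] using e1
      · simpa [Prod.snd_sum] using e2

end Pool.Agent.Lib.MPf08bf1
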