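import Pool.Agent.Lib.MPf08bf1.Restrict
import Pool.Agent.Lib.MPf08bf1.Transfer

/-!
The homology over a division ring, computed inside `D^r`.
-/

open scoped ENNReal Matrix

noncomputable section

namespace Pool.Agent.Lib.MPf08bf1

section
variable {K Γ : Type} [Group K] [Group Γ] {f : K →* Γ} (T : Transv f)
  {F D : Type} [DivisionRing F] [DivisionRing D] (incl : F →+* D) (g : MonoidAlgebra ℤ Γ →+* D)

/-- Evaluate a formal combination of coset representatives. -/
def evalT : (T.T →₀ F) →+ D :=
  Finsupp.liftAddHom fun t =>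
    (AddMonoidHom.mulRight (g (MonoidAlgebra.single (T.rep t) (1 : ℤ)))).comp incl.toAddMonoidHom

theorem evalT_single (t : T.T) (c : F) :
    evalT T incl g (Finsupp.single t c) = incl c * g (MonoidAlgebra.single (T.rep t) 1) := by
  unfold evalT
  rw [Finsupp.liftAddHom_apply_single]
  rfl

/-- The map to `D^r`. -/
def Tht (r : ℕ) : ((T.T × Fin r) →₀ F) →+ (Fin r → D) :=
  Finsupp.liftAddHom fun p =>
    (AddMonoidHom.single (fun _ : Fin r => D) p.2).comp
      ((AddMonoidHom.mulRight (g (MonoidAlgebra.single (T.rep p.1) (1 : ℤ)))).comp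
        incl.toAddMonoidHom)

theorem Tht_single (r : ℕ) (t : T.T) (s : Fin r) (c : F) :
    Tht T incl g r (Finsupp.single (t, s) c) =
      Pi.single s (incl c * g (MonoidAlgebra.single (T.rep t) 1)) := by
  unfold Tht
  rw [Finsupp.liftAddHom_apply_single]
  rfl

/-- Slices. -/
def slice {r : ℕ} (s : Fin r) : ((T.T × Fin r) →₀ F) →+ (T.T →₀ F) :=
  Finsupp.comapDomain.addMonoidHom (f := fun t : T.T => (t, s)) (fun _ _ h => congrArg Prod.fst h)

theorem slice_apply {r : ℕ} (s : Fin r) (w : (T.T × Fin r) →₀ F) (t : T.T) :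
    slice T s w t = w (t, s) := rfl

theorem Tht_apply (r : ℕ) (w : (T.T × Fin r) →₀ F) (s : Fin r) :
    Tht T incl g r w s = evalT T incl g (slice T s w) := by
  classical
  have h : (Pi.evalAddMonoidHom (fun _ : Fin r => D) s).comp (Tht T incl g r) =
      (evalT T incl g).comp (slice T s) := by
    apply Finsupp.addHom_ext
    rintro ⟨t, s'⟩ c
    change (Tht T incl g r) (Finsupp.single (t, s') c) s = evalT T incl g (slice T s _)
    rw [Tht_single]
    by_cases hs : s' = s
    · subst hs
      rw [Pi.single_eq_same]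
      have : slice T s' (Finsupp.single (t, s') c) = Finsupp.single t c := by
        ext t'
        rw [slice_apply, Finsupp.single_apply, Finsupp.single_apply]
        simp
      rw [this, evalT_single]
    · rw [Pi.single_eq_of_ne (Ne.symm hs)]
      have : slice T s (Finsupp.single (t, s') c) = 0 := by
        ext t'
        rw [slice_apply, Finsupp.single_apply, if_neg]
        · rfl
        · intro h
          exact hs (congrArg Prod.snd h)
      rw [this, map_zero]
  exact DFunLike.congr_fun h w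

theorem Tht_inj (hind : ∀ w, evalT T incl g w = 0 → w = 0) (r : ℕ) (w : (T.T × Fin r) →₀ F)
    (h : Tht T incl g r w = 0) : w = 0 := by
  ext ⟨t, s⟩
  have h1 := congrFun h s
  rw [Tht_apply] at h1
  have h2 := hind _ h1
  have h3 := DFunLike.congr_fun h2 t
  exact h3

theorem Tht_surj (r : ℕ) (v : Fin r → D) (hv : ∀ s, ∃ w, evalT T incl g w = v s) :
    ∃ w, Tht T incl g r w = v := by
  classical
  choose w hw using hv
  refine ⟨∑ s, (w s).mapDomain (fun t => (t, s)), ?_⟩
  ext s
  rw [Tht_apply, ← hw s]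
  congr 1
  ext t
  rw [slice_apply, Finsupp.finsetSum_apply, Finset.sum_eq_single s]
  · exact Finsupp.mapDomain_apply (f := fun t : T.T => (t, s))
      (fun _ _ h => congrArg Prod.fst h) (w s) t
  · intro s' _ hs'
    apply Finsupp.mapDomain_of_notMem_range
    rintro ⟨t', ht'⟩
    exact hs' (congrArg Prod.snd ht')
  · intro h
    exact absurd (Finset.mem_univ s) h

theorem Tht_smul (r : ℕ) (c : F) (w : (T.T × Fin r) →₀ F) :
    Tht T incl g r (c • w) = fun s => incl c * Tht T incl g r w s := by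
  induction w using Finsupp.induction_linear with
  | zero => ext s; simp
  | add u v hu hv =>
    rw [smul_add, map_add, map_add, hu, hv]
    ext s
    rw [Pi.add_apply, Pi.add_apply, mul_add]
  | single x b =>
    obtain ⟨t, s⟩ := x
    rw [Finsupp.smul_single, smul_eq_mul, Tht_single, Tht_single, map_mul, mul_assoc]
    ext i
    by_cases hi : i = s
    · subst hi
      rw [Pi.single_eq_same, Pi.single_eq_same]
    · rw [Pi.single_eq_of_ne hi, Pi.single_eq_of_ne hi, mul_zero]

variable (δ : MonoidAlgebra ℤ K →+* F) (hδ : ∀ a, incl (δ a) = g (fstar f a))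

include hδ in
theorem Tht_mr (r : ℕ) (w : (T.T × Fin r) →₀ MonoidAlgebra ℤ K) :
    Tht T incl g r (mr δ w) = fun s => g (T.Φ r w s) := by
  have h : (Tht T incl g r).comp (mr δ) =
      (g.toAddMonoidHom.compLeft (Fin r)).comp (T.Φ r).toAddMonoidHom := by
    apply addHom_ext2
    rintro ⟨t, s⟩ k c
    change Tht T incl g r (mr δ _) = fun i => g (T.Φ r _ i)
    rw [mr_single, Tht_single, T.Φ_single, hδ, fstar_single, ← map_mul,
      MonoidAlgebra.single_mul_single, mul_one]
    ext i
    by_cases hi : i = s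
    · subst hi
      rw [Pi.single_eq_same, Pi.single_eq_same]
    · rw [Pi.single_eq_of_ne hi, Pi.single_eq_of_ne hi, map_zero]
  exact DFunLike.congr_fun h w

include hδ in
theorem Tht_mat {p q : ℕ} (A : Matrix (Fin p) (Fin q) (MonoidAlgebra ℤ Γ))
    (w : (T.T × Fin p) →₀ F) :
    Tht T incl g q (extS δ (T.mat A) w) = Matrix.vecMul (Tht T incl g p w) (A.map g) := by
  induction w using Finsupp.induction_linear with
  | zero => simp
  | add u v hu hv => rw [map_add, map_add, map_add, hu, hv, Matrix.add_vecMul]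
  | single x c =>
    obtain ⟨t, s⟩ := x
    rw [extS_single, Tht_smul, Tht_mr T incl g δ hδ, T.Φ_mat]
    have h1 : T.Φ p (Finsupp.single (t, s) 1) = Pi.single s (MonoidAlgebra.single (T.rep t) 1) := by
      rw [MonoidAlgebra.one_def, T.Φ_single, map_one, one_mul]
    rw [h1, Tht_single]
    ext j
    simp [Matrix.single_vecMul, mul_assoc]

/-- The cycle condition. -/
def FreeRes.IsCyc (C : FreeRes Γ) (g : MonoidAlgebra ℤ Γ →+* D) : ∀ n, (Fin (C.r n) → D) → Prop
  | 0, _ => True
  | n + 1, v => Matrix.vecMul v ((C.d n).map g) = 0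

include hδ in
theorem isCyc_iff (hind : ∀ w, evalT T incl g w = 0 → w = 0) (C : FreeRes Γ) (n : ℕ)
    (w : (T.T × Fin (C.r n)) →₀ F) :
    extS δ ((T.res C).P n) w = 0 ↔ C.IsCyc g n (Tht T incl g _ w) := by
  cases n with
  | zero =>
    have h1 : extS δ ((T.res C).P 0) = 0 := extS_zero δ
    constructor
    · intro _; trivial
    · intro _
      rw [h1]; rfl
  | succ n =>
    change extS δ (T.mat (C.d n)) w = 0 ↔ Matrix.vecMul _ ((C.d n).map g) = 0
    rw [← Tht_mat T incl g δ hδ]
    constructor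
    · intro h; rw [h, map_zero]
    · intro h; exact Tht_inj T incl g hind _ _ h

end

section
variable {K Γ : Type} [Group K] [Group Γ] {f : K →* Γ} (T : Transv f)
  {F D : Type} [DivisionRing F] [DivisionRing D] (incl : F →+* D) (g : MonoidAlgebra ℤ Γ →+* D)
  (S : Tri K (MonoidAlgebra ℤ K) F) (hS : S.ρ = zmap K)
  (hδ : ∀ a, incl (S.δ a) = g (fstar f a))
  (hind : ∀ w, evalT T incl g w = 0 → w = 0) (C : FreeRes Γ)

/-- Vectors with entries in the span of the coset representatives. -/
def InR {r : ℕ} (v : Fin r → D) : Prop := ∀ s, ∃ w, evalT T incl g w = v s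

include hS hδ hind in
theorem l2Betti_ge (n b : ℕ) (z : Fin b → Fin (C.r n) → D)
    (hzR : ∀ i, InR T incl g (z i)) (hz : ∀ i, C.IsCyc g n (z i))
    (hb : ∀ c : Fin b → F, (∃ y, InR T incl g y ∧
      (fun s => ∑ i, incl (c i) * z i s) = Matrix.vecMul y ((C.d n).map g)) → c = 0) :
    (b : ℝ≥0∞) ≤ l2Betti K n := by
  choose w hw using fun i => Tht_surj T incl g _ (z i) (hzR i)
  rw [T.l2Betti_eq C n, ← hS]
  apply S.lower _ _ w
  · intro i
    refine (isCyc_iff T incl g S.δ hδ hind C n (w i)).mpr ?_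
    rw [hw]
    exact hz i
  · rintro c ⟨y, hy⟩
    apply hb c
    refine ⟨Tht T incl g _ y, ?_, ?_⟩
    · intro s
      exact ⟨_, (Tht_apply T incl g _ y s).symm⟩
    · rw [← Tht_mat T incl g S.δ hδ]
      have h1 : extS S.δ (T.mat (C.d n)) y = ∑ i, c i • w i := hy
      rw [h1, map_sum]
      ext s
      rw [Finset.sum_apply]
      apply Finset.sum_congr rfl
      intro i _
      rw [Tht_smul, hw]

include hS hδ hind in
theorem l2Betti_le (n b : ℕ) (z : Fin b → Fin (C.r n) → D)
    (hzR : ∀ i, InR T incl g (z i))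
    (hb : ∀ v, InR T incl g v → C.IsCyc g n v → ∃ c : Fin b → F, ∃ y, InR T incl g y ∧
      (fun s => v s - ∑ i, incl (c i) * z i s) = Matrix.vecMul y ((C.d n).map g)) :
    l2Betti K n ≤ (b : ℝ≥0∞) := by
  choose w hw using fun i => Tht_surj T incl g _ (z i) (hzR i)
  rw [T.l2Betti_eq C n, ← hS]
  apply S.upper _ _ w
  intro v hv
  replace hv := (isCyc_iff T incl g S.δ hδ hind C n v).mp hv
  obtain ⟨c, y, hy, hcy⟩ := hb _ (fun s => ⟨_, (Tht_apply T incl g _ v s).symm⟩) hv
  obtain ⟨y', hy'⟩ := Tht_surj T incl g _ y hy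
  refine ⟨c, y', ?_⟩
  have h1 : Tht T incl g _ (extS S.δ (T.mat (C.d n)) y' - (v - ∑ i, c i • w i)) = 0 := by
    rw [map_sub, Tht_mat T incl g S.δ hδ, hy', ← hcy, map_sub, map_sum]
    ext s
    rw [Pi.sub_apply, Pi.sub_apply, Finset.sum_apply, Pi.zero_apply, sub_eq_zero]
    congr 1
    apply Finset.sum_congr rfl
    intro i _
    rw [Tht_smul, hw]
  exact sub_eq_zero.mp (Tht_inj T incl g hind _ _ h1)

end

end Pool.Agent.Lib.MPf08bf1
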